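import Mathlib

/-!
# Level one structures: definitions

`C` is an algebraically closed field, `k` a subfield, `∑ a i X ^ i` a polynomial over `k` of degree
`d` with the roots `θ i`, and `p` a prime number.  A Galois section of `y ^ p = f(x)` gives elements
`z i j` of `C` whose Galois conjugates behave like those of the functions
`((x - θ i) / (x - θ j)) ^ (1 / p)`.
-/

universe u

namespace Pool.Agent.Helper37.UL

/-- A level one structure over the subfield `k` of `C` for the polynomial `∑ a i X ^ i`. -/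
structure Lev {C : Type u} [Field C] (k : Subfield C) (p : ℕ) {d : ℕ} (a : Fin (d + 1) → C)
    (θ : Fin d → C) (z : Fin d → Fin d → C) (α : C) : Prop where
  /-- the coefficients are in `k` -/
  coef : ∀ i, a i ∈ k
  /-- the degree is `d` -/
  lead : a (Fin.last d) ≠ 0
  /-- the roots are different -/
  inj : Function.Injective θ
  /-- the `θ i` are roots -/
  root : ∀ i, ∑ l, a l * θ i ^ (l : ℕ) = 0
  /-- the `z i j` are not zero -/
  ne : ∀ i j, i ≠ j → z i j ≠ 0
  /-- the `p`-th powers of the `z i j` are conjugate values of one polynomial over `k` -/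
  pow : ∃ φ : Fin d → Fin d → C, (∀ r s, φ r s ∈ k) ∧ ∀ i j, i ≠ j →
    z i j ^ p = ∑ r, ∑ s, φ r s * (θ i ^ (r : ℕ) * θ j ^ (s : ℕ))
  /-- the cocycle condition -/
  coc : ∃ ψ : Fin d → Fin d → Fin d → C, (∀ r s t, ψ r s t ∈ k) ∧
    ∀ i j l, i ≠ j → j ≠ l → i ≠ l → z i j * z j l =
      z i l * ∑ r, ∑ s, ∑ t, ψ r s t * (θ i ^ (r : ℕ) * θ j ^ (s : ℕ) * θ l ^ (t : ℕ))
  /-- `α` is a `p`-th root of the leading coefficient -/
  alpha : α ^ p = a (Fin.last d)
  /-- the norm condition -/
  nrm : ∃ χ : Fin d → C, (∀ r, χ r ∈ k) ∧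
    ∀ i, α * ∏ j ∈ Finset.univ.erase i, z j i = ∑ r, χ r * θ i ^ (r : ℕ)

/-- The polynomial with coefficients `a` and roots `θ` has good reduction at the valuation ring
`V`. -/
structure GoodAt {C : Type u} [Field C] (V : ValuationSubring C) {d : ℕ} (a : Fin (d + 1) → C)
    (θ : Fin d → C) : Prop where
  coef : ∀ i, a i ∈ V
  lead : V.valuation (a (Fin.last d)) = 1
  root : ∀ i, θ i ∈ V
  sep : ∀ i j, i ≠ j → V.valuation (θ i - θ j) = 1

/-- `σ` is in the inertia group of `V` in the Galois group of `C` over `k`. -/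
structure Inert {C : Type u} [Field C] (k : Subfield C) (V : ValuationSubring C) (σ : C ≃+* C) :
    Prop where
  fix : ∀ x ∈ k, σ x = x
  dec : ∀ x, σ x ∈ V ↔ x ∈ V
  res : ∀ x ∈ V, V.valuation (σ x - x) < 1

end Pool.Agent.Helper37.UL
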