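import Mathlib

/-!
# Extension of automorphisms to an algebraically closed field
-/

universe u

namespace Pool.Agent.Helper37.UL

/-- Automorphisms of the algebraic closure of a subfield extend. -/
theorem extend_aut {C : Type u} [Field C] [IsAlgClosed C] {K : Type u} [Field K] [Algebra K C]
    (σ : algebraicClosure K C ≃+* algebraicClosure K C) :
    ∃ τ : C ≃+* C, ∀ a : algebraicClosure K C, τ a = σ a := by
  obtain ⟨ι, v, hv⟩ := exists_isTranscendenceBasis' (algebraicClosure K C) C
  let := IsAlgClosed.isAlgClosure_of_transcendence_basis v hv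
  let e : Algebra.adjoin (algebraicClosure K C) (Set.range v) ≃+*
      Algebra.adjoin (algebraicClosure K C) (Set.range v) :=
    (hv.1.aevalEquiv.symm.toRingEquiv.trans (MvPolynomial.mapEquiv ι σ)).trans
      hv.1.aevalEquiv.toRingEquiv
  have he : ∀ a : algebraicClosure K C, e (algebraMap _ _ a) = algebraMap _ _ (σ a) := by
    intro a
    simp only [e, RingEquiv.trans_apply]
    change hv.1.aevalEquiv (MvPolynomial.mapEquiv ι σ (hv.1.aevalEquiv.symm (algebraMap _ _ a))) = _
    rw [AlgEquiv.commutes]
    change hv.1.aevalEquiv (MvPolynomial.mapEquiv ι σ (MvPolynomial.C a)) = _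
    rw [MvPolynomial.mapEquiv_apply, MvPolynomial.map_C]
    exact AlgEquiv.commutes _ _
  refine ⟨IsAlgClosure.equivOfEquiv C C e, fun a => ?_⟩
  have h1 := IsAlgClosure.equivOfEquiv_algebraMap C C e (algebraMap _ _ a)
  rw [he] at h1
  exact h1

/-- Conjugate elements are conjugate by an automorphism of `C`. -/
theorem exists_aut {C : Type u} [Field C] [IsAlgClosed C] {K : Subfield C} {β β' : C}
    (hβ : IsIntegral K β) (hβ' : Polynomial.aeval β' (minpoly K β) = 0) :
    ∃ τ : C ≃+* C, (∀ x ∈ K, τ x = x) ∧ τ β = β' := by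
  have h1 : IsAlgebraic K β' := ⟨_, minpoly.ne_zero hβ, hβ'⟩
  let b : algebraicClosure K C := ⟨β, mem_algebraicClosure_iff.mpr hβ.isAlgebraic⟩
  let b' : algebraicClosure K C := ⟨β', mem_algebraicClosure_iff.mpr h1⟩
  have hb : minpoly K b = minpoly K β := by
    rw [← minpoly.algebraMap_eq (algebraMap (algebraicClosure K C) C).injective b]
    rfl
  have hb' : Polynomial.aeval b' (minpoly K b) = 0 := by
    apply (algebraMap (algebraicClosure K C) C).injective
    rw [← Polynomial.aeval_algebraMap_apply, hb, map_zero]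
    exact hβ'
  have := IsAlgClosure.normal K (algebraicClosure K C)
  obtain ⟨σ, hσ⟩ := minpoly.exists_algEquiv_of_root' (Algebra.IsAlgebraic.isAlgebraic b) hb'
  obtain ⟨τ, hτ⟩ := extend_aut (K := K) (C := C) σ.toRingEquiv
  refine ⟨τ, fun x hx => ?_, ?_⟩
  · have := hτ (algebraMap K _ ⟨x, hx⟩)
    rw [show σ.toRingEquiv (algebraMap K _ ⟨x, hx⟩) = algebraMap K _ ⟨x, hx⟩ from
      σ.commutes _] at this
    exact this
  · have := hτ b
    rw [show σ.toRingEquiv b = b' from hσ] at this
    exact this

end Pool.Agent.Helper37.UL
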