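import Mathlib
import Pool.Agent.Helper37.UL.Defs
import Pool.Agent.Helper37.UL.Ext

/-!
# Level one structures and equivariant families
-/

universe u

namespace Pool.Agent.Helper37.UL

open Polynomial Matrix

variable {C : Type u} [Field C]

/-- Algebraic elements fixed by all automorphisms over `k` are in `k`. -/
theorem mem_of_fixed [IsAlgClosed C] [CharZero C] {k : Subfield C} {x : C} (hx : IsAlgebraic k x)
    (h : ∀ τ : C ≃+* C, (∀ y ∈ k, τ y = y) → τ x = x) : x ∈ k := by
  by_contra hxk
  have hint := hx.isIntegral
  have hsep := minpoly.irreducible hint |>.separable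
  have hdeg : (minpoly k x).natDegree ≠ 1 := by
    intro h1
    apply hxk
    have h2 := minpoly.natDegree_eq_one_iff.mp h1
    obtain ⟨y, hy⟩ := h2
    rw [← hy]
    exact y.2
  have hroots : ∀ y ∈ ((minpoly k x).map (algebraMap k C)).roots, y = x := by
    intro y hy
    have hy1 : aeval y (minpoly k x) = 0 := by
      rw [mem_roots (Polynomial.map_ne_zero (minpoly.ne_zero hint))] at hy
      rw [← eval_map_algebraMap]
      exact hy
    obtain ⟨τ, hτ, hτ'⟩ := exists_aut (K := k) hint hy1
    rw [← hτ', h τ hτ]
  have hcard : Multiset.card ((minpoly k x).map (algebraMap k C)).roots =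
      (minpoly k x).natDegree := by
    rw [← natDegree_map (algebraMap k C)]
    exact (splits_iff_card_roots.mp (IsAlgClosed.splits _))
  have hnodup : ((minpoly k x).map (algebraMap k C)).roots.Nodup :=
    nodup_roots (hsep.map)
  have h3 : ((minpoly k x).map (algebraMap k C)).roots ≤ {x} := by
    rw [Multiset.le_iff_subset hnodup]
    intro y hy
    rw [hroots y hy]
    exact Multiset.mem_singleton_self x
  have h4 := Multiset.card_le_card h3
  rw [hcard, Multiset.card_singleton] at h4
  have h5 := minpoly.natDegree_pos hint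
  omega

section vand

variable {d : ℕ} {θ : Fin d → C}

/-- the coefficients of the Lagrange polynomials -/
noncomputable def lag (θ : Fin d → C) : Matrix (Fin d) (Fin d) C := ((vandermonde θ)ᵀ)⁻¹

lemma lag_spec (hθ : Function.Injective θ) (i a : Fin d) :
    ∑ r, lag θ i r * θ a ^ (r : ℕ) = if i = a then 1 else 0 := by
  have hdet : IsUnit ((vandermonde θ)ᵀ).det := by
    rw [det_transpose]
    exact (det_vandermonde_ne_zero_iff.mpr hθ).isUnit
  have h1 := congrFun (congrFun (nonsing_inv_mul _ hdet) i) a
  rw [Matrix.mul_apply] at h1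
  rw [Matrix.one_apply] at h1
  rw [← h1]
  rfl

lemma lag_unique {B : Matrix (Fin d) (Fin d) C}
    (hB : ∀ i a, ∑ r, B i r * θ a ^ (r : ℕ) = if i = a then 1 else 0) : lag θ = B := by
  apply inv_eq_left_inv
  ext i a
  rw [Matrix.mul_apply, Matrix.one_apply, ← hB i a]
  rfl

lemma lag_equiv (hθ : Function.Injective θ) (τ : C ≃+* C) {ρ : Fin d → Fin d}
    (hρ : ∀ i, τ (θ i) = θ (ρ i)) (i r : Fin d) : τ (lag θ i r) = lag θ (ρ i) r := by
  have hρi : Function.Injective ρ := by
    intro i j hij
    apply hθ
    apply τ.injective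
    rw [hρ, hρ, hij]
  have h1 := lag_unique (θ := θ) (B := fun i r => τ.symm (lag θ (ρ i) r)) (by
    intro i a
    apply τ.injective
    rw [map_sum]
    simp only [map_mul, map_pow, RingEquiv.apply_symm_apply, hρ]
    rw [lag_spec hθ]
    simp only [hρi.eq_iff]
    split_ifs <;> simp)
  have h2 := congrFun (congrFun h1 i) r
  rw [h2, RingEquiv.apply_symm_apply]

lemma interp (hθ : Function.Injective θ) (W : Fin d → C) (a : Fin d) :
    W a = ∑ r, (∑ i, W i * lag θ i r) * θ a ^ (r : ℕ) := by
  simp only [Finset.sum_mul, mul_assoc]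
  rw [Finset.sum_comm]
  simp only [← Finset.mul_sum, lag_spec hθ]
  simp

end vand

/-- The data of a level one structure in terms of automorphisms. -/
structure Equi (k : Subfield C) (p : ℕ) {d : ℕ} (θ : Fin d → C) (z : Fin d → Fin d → C) (α : C)
    (τ : C ≃+* C) (ρ : Fin d → Fin d) (ζ : Fin d → Fin d → C) : Prop where
  root : ∀ i, τ (θ i) = θ (ρ i)
  pow : ∀ i j, i ≠ j → ζ i j ^ p = 1
  act : ∀ i j, i ≠ j → τ (z i j) = ζ i j * z (ρ i) (ρ j)
  coc : ∀ i j l, i ≠ j → j ≠ l → i ≠ l → ζ i j * ζ j l = ζ i l
  nrm : ∀ i, τ α * ∏ j ∈ Finset.univ.erase i, ζ j i = α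

lemma Equi.inj {k : Subfield C} {p d : ℕ} {θ : Fin d → C} {z : Fin d → Fin d → C} {α : C}
    {τ : C ≃+* C} {ρ : Fin d → Fin d} {ζ : Fin d → Fin d → C} (h : Equi k p θ z α τ ρ ζ)
    (hθ : Function.Injective θ) : Function.Injective ρ := by
  intro i j hij
  apply hθ
  apply τ.injective
  rw [h.root, h.root, hij]

/-- An equivariant family is a level one structure. -/
theorem lev_of_equi [IsAlgClosed C] [CharZero C] {k : Subfield C} {p d : ℕ}
    {a : Fin (d + 1) → C} {θ : Fin d → C} {z : Fin d → Fin d → C} {α : C}
    (coef : ∀ i, a i ∈ k) (lead : a (Fin.last d) ≠ 0) (inj : Function.Injective θ)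
    (root : ∀ i, ∑ l, a l * θ i ^ (l : ℕ) = 0) (ne : ∀ i j, i ≠ j → z i j ≠ 0)
    (alg : ∀ i j, i ≠ j → IsAlgebraic k (z i j)) (alpha : α ^ p = a (Fin.last d)) (hp : p ≠ 0)
    (h : ∀ τ : C ≃+* C, (∀ y ∈ k, τ y = y) → ∃ ρ ζ, Equi k p θ z α τ ρ ζ) :
    Lev k p a θ z α := by
  classical
  -- algebraicity
  have hcl : ∀ {x y : C}, IsAlgebraic k x → IsAlgebraic k y → IsAlgebraic k (x * y) :=
    fun hx hy => hx.mul hy
  have hmem : ∀ x : k, IsAlgebraic k (x : C) := fun x => isAlgebraic_algebraMap x
  have hαalg : IsAlgebraic k α := by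
    refine ⟨X ^ p - Polynomial.C ⟨_, coef (Fin.last d)⟩, X_pow_sub_C_ne_zero (Nat.pos_of_ne_zero hp) _, ?_⟩
    rw [map_sub, map_pow, aeval_X, aeval_C, alpha]
    exact sub_self _
  have hθalg : ∀ i, IsAlgebraic k (θ i) := by
    intro i
    refine ⟨∑ l : Fin (d + 1), Polynomial.C (⟨_, coef l⟩ : k) * X ^ (l : ℕ), ?_, ?_⟩
    · intro h0
      have h1 := congrArg (fun q => q.coeff d) h0
      simp only [finsetSum_coeff, coeff_C_mul, coeff_X_pow, coeff_zero] at h1
      rw [Finset.sum_eq_single (Fin.last d)] at h1
      · simp only [Fin.val_last, if_true, mul_one] at h1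
        exact lead (congrArg Subtype.val h1)
      · intro l _ hl
        rw [if_neg, mul_zero]
        intro h2
        exact hl (Fin.ext h2.symm)
      · intro h2
        exact absurd (Finset.mem_univ _) h2
    · rw [map_sum, ← root i]
      apply Finset.sum_congr rfl
      intro l _
      rw [map_mul, aeval_C, map_pow, aeval_X]
      rfl
  have halgsum : ∀ {ι : Type} (s : Finset ι) (f : ι → C), (∀ i ∈ s, IsAlgebraic k (f i)) →
      IsAlgebraic k (∑ i ∈ s, f i) := by
    intro ι s f hf
    have h1 := Subalgebra.sum_mem (integralClosure k C) (fun i hi => (hf i hi).isIntegral)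
    exact IsIntegral.isAlgebraic h1
  have halgprod : ∀ {ι : Type} (s : Finset ι) (f : ι → C), (∀ i ∈ s, IsAlgebraic k (f i)) →
      IsAlgebraic k (∏ i ∈ s, f i) := by
    intro ι s f hf
    have h1 := Subalgebra.prod_mem (integralClosure k C) (fun i hi => (hf i hi).isIntegral)
    exact IsIntegral.isAlgebraic h1
  have hlagalg : ∀ i r, IsAlgebraic k (lag θ i r) := by
    intro i r
    let A := (integralClosure k C)
    -- use the algebraic closure as a field
    let E : IntermediateField k C := algebraicClosure k C
    have hθE : ∀ i, θ i ∈ E := fun i => mem_algebraicClosure_iff.mpr (hθalg i)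
    let θ' : Fin d → E := fun i => ⟨θ i, hθE i⟩
    have hθ' : Function.Injective θ' := by
      intro i j hij
      exact inj (congrArg Subtype.val hij)
    have h1 := lag_unique (θ := θ) (B := fun i r => ((lag θ' i r : E) : C)) (by
      intro i a
      have h2 := congrArg (algebraMap E C) (lag_spec hθ' i a)
      rw [map_sum] at h2
      simp only [map_mul, map_pow] at h2
      rw [show (algebraMap E C) (if i = a then (1 : E) else 0) = if i = a then 1 else 0 by
        split_ifs <;> simp] at h2
      exact h2)
    rw [h1]
    exact mem_algebraicClosure_iff.mp (lag θ' i r).2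
  -- the permutations
  have hbij : ∀ {τ : C ≃+* C} {ρ : Fin d → Fin d} {ζ : Fin d → Fin d → C},
      Equi k p θ z α τ ρ ζ → Function.Bijective ρ := fun h1 =>
    Finite.injective_iff_bijective.mp (h1.inj inj)
  refine ⟨coef, lead, inj, root, ne, ?_, ?_, alpha, ?_⟩
  · -- powers
    let W : Fin d → Fin d → C := fun i j => if i = j then 0 else z i j ^ p
    refine ⟨fun r s => ∑ j, (∑ i, W i j * lag θ i r) * lag θ j s, ?_, ?_⟩
    · intro r s
      apply mem_of_fixed
      · apply halgsum
        intro j _
        apply IsAlgebraic.mul _ (hlagalg j s)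
        apply halgsum
        intro i _
        apply IsAlgebraic.mul _ (hlagalg i r)
        simp only [W]
        split_ifs with hij
        · exact isAlgebraic_zero
        · exact (alg i j hij).pow p
      · intro τ hτ
        obtain ⟨ρ, ζ, hE⟩ := h τ hτ
        have hW : ∀ i j, τ (W i j) = W (ρ i) (ρ j) := by
          intro i j
          simp only [W, (hE.inj inj).eq_iff]
          split_ifs with hij
          · exact map_zero _
          · rw [map_pow, hE.act i j hij, mul_pow, hE.pow i j hij, one_mul]
        simp only [map_sum, map_mul, hW, lag_equiv inj τ hE.root]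
        rw [← (hbij hE).sum_comp (fun j => (∑ i, W i j * lag θ i r) * lag θ j s)]
        apply Finset.sum_congr rfl
        intro j _
        rw [← (hbij hE).sum_comp (fun i => W i (ρ j) * lag θ i r)]
    · intro i j hij
      have h1 : z i j ^ p = W i j := by simp only [W, if_neg hij]
      rw [h1, interp inj (fun i => W i j) i]
      apply Finset.sum_congr rfl
      intro r _
      rw [interp inj (fun j => ∑ i, W i j * lag θ i r) j, Finset.sum_mul]
      apply Finset.sum_congr rfl
      intro s _
      ring
  · -- cocycle
    let W : Fin d → Fin d → Fin d → C := fun i j l =>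
      if i ≠ j ∧ j ≠ l ∧ i ≠ l then z i j * z j l / z i l else 0
    refine ⟨fun r s t => ∑ l, (∑ j, (∑ i, W i j l * lag θ i r) * lag θ j s) * lag θ l t, ?_, ?_⟩
    · intro r s t
      apply mem_of_fixed
      · apply halgsum
        intro l _
        apply IsAlgebraic.mul _ (hlagalg l t)
        apply halgsum
        intro j _
        apply IsAlgebraic.mul _ (hlagalg j s)
        apply halgsum
        intro i _
        apply IsAlgebraic.mul _ (hlagalg i r)
        simp only [W]
        split_ifs with hij
        · rw [div_eq_mul_inv]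
          exact ((alg i j hij.1).mul (alg j l hij.2.1)).mul (alg i l hij.2.2).inv
        · exact isAlgebraic_zero
      · intro τ hτ
        obtain ⟨ρ, ζ, hE⟩ := h τ hτ
        have hW : ∀ i j l, τ (W i j l) = W (ρ i) (ρ j) (ρ l) := by
          intro i j l
          simp only [W, (hE.inj inj).ne_iff]
          split_ifs with hij
          · rw [map_div₀, map_mul, hE.act i j hij.1, hE.act j l hij.2.1, hE.act i l hij.2.2]
            have h1 : ζ i l ≠ 0 := by
              intro h0
              have := hE.pow i l hij.2.2
              rw [h0, zero_pow hp] at this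
              exact zero_ne_one this
            rw [← hE.coc i j l hij.1 hij.2.1 hij.2.2] at h1 ⊢
            have h2 : z (ρ i) (ρ l) ≠ 0 := ne _ _ (fun h => hij.2.2 (hE.inj inj h))
            have h3 := left_ne_zero_of_mul h1
            have h4 := right_ne_zero_of_mul h1
            field_simp
          · exact map_zero _
        simp only [map_sum, map_mul, hW, lag_equiv inj τ hE.root]
        rw [← (hbij hE).sum_comp (fun l => (∑ j, (∑ i, W i j l * lag θ i r) * lag θ j s) * lag θ l t)]
        apply Finset.sum_congr rfl
        intro l _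
        rw [← (hbij hE).sum_comp (fun j => (∑ i, W i j (ρ l) * lag θ i r) * lag θ j s)]
        congr 1
        apply Finset.sum_congr rfl
        intro j _
        rw [← (hbij hE).sum_comp (fun i => W i (ρ j) (ρ l) * lag θ i r)]
    · intro i j l hij hjl hil
      have h1 : z i j * z j l = z i l * W i j l := by
        simp only [W, if_pos (And.intro hij (And.intro hjl hil))]
        rw [mul_div_cancel₀ _ (ne i l hil)]
      rw [h1]
      congr 1
      rw [interp inj (fun i => W i j l) i]
      apply Finset.sum_congr rfl
      intro r _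
      rw [interp inj (fun j => ∑ i, W i j l * lag θ i r) j, Finset.sum_mul]
      apply Finset.sum_congr rfl
      intro s _
      rw [interp inj (fun l => ∑ j, (∑ i, W i j l * lag θ i r) * lag θ j s) l, Finset.sum_mul,
        Finset.sum_mul]
      apply Finset.sum_congr rfl
      intro t _
      ring
  · -- norm
    let W : Fin d → C := fun i => α * ∏ j ∈ Finset.univ.erase i, z j i
    refine ⟨fun r => ∑ i, W i * lag θ i r, ?_, ?_⟩
    · intro r
      apply mem_of_fixed
      · apply halgsum
        intro i _
        apply IsAlgebraic.mul _ (hlagalg i r)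
        apply hαalg.mul
        apply halgprod
        intro j hj
        exact alg j i (Finset.ne_of_mem_erase hj)
      · intro τ hτ
        obtain ⟨ρ, ζ, hE⟩ := h τ hτ
        have hW : ∀ i, τ (W i) = W (ρ i) := by
          intro i
          simp only [W, map_mul, map_prod]
          have h1 : ∏ j ∈ Finset.univ.erase i, τ (z j i) =
              (∏ j ∈ Finset.univ.erase i, ζ j i) * ∏ j ∈ Finset.univ.erase i, z (ρ j) (ρ i) := by
            rw [← Finset.prod_mul_distrib]
            apply Finset.prod_congr rfl
            intro j hj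
            exact hE.act j i (Finset.ne_of_mem_erase hj)
          rw [h1, ← mul_assoc, hE.nrm i]
          congr 1
          have h2 : Finset.univ.erase (ρ i) = (Finset.univ.erase i).image ρ := by
            rw [Finset.image_erase (hE.inj inj), Finset.image_univ_of_surjective (hbij hE).2]
          rw [h2, Finset.prod_image (fun _ _ _ _ h => hE.inj inj h)]
        simp only [map_sum, map_mul, hW, lag_equiv inj τ hE.root]
        rw [← (hbij hE).sum_comp (fun i => W i * lag θ i r)]
    · intro i
      exact interp inj W i

end Pool.Agent.Helper37.UL
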