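import Mathlib
import Pool.Agent.Helper37.UL.Defs

/-!
# Bounded data for Kummer classes, in terms of coefficients
-/

universe u

namespace Pool.Agent.Helper37.UL

/-- `t₀` is a good value for the polynomial `∑ i, (∑ l, a i l t₀ ^ l) X ^ i`: it has degree `d` and `d` roots
in `κ`. -/
def Good {C : Type u} [Field C] (κ : Subfield C) {d m : ℕ} (a : Fin (d + 1) → Fin (m + 1) → C)
    (t₀ : C) : Prop :=
  ∑ l, a (Fin.last d) l * t₀ ^ (l : ℕ) ≠ 0 ∧ ∃ r : Fin d → C, Function.Injective r ∧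
    (∀ j, r j ∈ κ) ∧ ∀ j, ∑ i, (∑ l, a i l * t₀ ^ (l : ℕ)) * r j ^ (i : ℕ) = 0

/-- `h` is an element of `κ(t, x, y)` of complexity at most `B`. -/
def Cpx {C : Type u} [Field C] (κ : Subfield C) (d B : ℕ) (t x y h : C) : Prop :=
  ∃ (n : Fin d → Fin d → Fin (B + 1) → C) (q : Fin (B + 1) → C), (∀ i j l, n i j l ∈ κ) ∧
    (∀ l, q l ∈ κ) ∧ q ≠ 0 ∧ (∑ l, q l * t ^ (l : ℕ)) * h =
      ∑ i, ∑ j, (∑ l, n i j l * t ^ (l : ℕ)) * (x ^ (i : ℕ) * y ^ (j : ℕ))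

/-- Bounded data for the Kummer class of `w ^ p`. -/
def Data {C : Type u} [Field C] (κ Kg : Subfield C) (t : C) (d p B : ℕ) {m : ℕ}
    (a : Fin (d + 1) → Fin (m + 1) → C) (x y w : C) : Prop :=
  ∃ (g r : C) (G : Fin d → Fin d → C) (c e : Fin B → Fin (B + 1) → C),
    g ≠ 0 ∧ r ≠ 0 ∧
    -- `g` is an element of `Kg(x, y)`
    (∀ i j, G i j ∈ Kg) ∧
    g = ∑ i, ∑ j, G i j * (x ^ (i : ℕ) * y ^ (j : ℕ)) ∧
    -- `w ^ p * g ^ p` and `r` have bounded complexity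
    Cpx κ d B t x y ((w * g) ^ p) ∧ Cpx κ d B t x y r ∧
    -- integral equations of `(w g) ^ p` and of `(w g r) ^ p`
    (∀ i l, c i l ∈ κ) ∧ (∀ i l, e i l ∈ κ) ∧
    ((w * g) ^ p) ^ B + ∑ i, (∑ l, c i l * t ^ (l : ℕ)) * ((w * g) ^ p) ^ (i : ℕ) = 0 ∧
    ((w * g * r) ^ p) ^ B + ∑ i, (∑ l, e i l * t ^ (l : ℕ)) * ((w * g * r) ^ p) ^ (i : ℕ) = 0 ∧
    -- at each good value one of the constant coefficients is not zero
    ∀ t₀ ∈ κ, Good κ a t₀ → ∀ i : Fin B, (i : ℕ) = 0 →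
      ∑ l, c i l * t₀ ^ (l : ℕ) ≠ 0 ∨ ∑ l, e i l * t₀ ^ (l : ℕ) ≠ 0

end Pool.Agent.Helper37.UL
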