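import Mathlib

/-!
# Ultrapowers of fields: basic facts

An ultrapower of `C` is given by a surjective ring homomorphism `π : (ι → C) →+* S` whose kernel
consists of the functions which are zero almost everywhere.
-/

universe u v w

namespace Pool.Agent.Helper37.UL

open Polynomial

variable {ι : Type v} {U : Ultrafilter ι} {C : Type u} [Field C] {S : Type w} [Field S]

/-- `S` is the ultrapower of `C` with the projection `π`. -/
structure UP (U : Ultrafilter ι) (π : (ι → C) →+* S) : Prop where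
  surj : Function.Surjective π
  eq0 : ∀ f, π f = 0 ↔ ∀ᶠ a in (U : Filter ι), f a = 0

/-- Ultrapowers exist. -/
theorem exists_up (U : Ultrafilter ι) (C : Type u) [Field C] :
    ∃ (S : Type (max v u)) (_ : Field S) (π : (ι → C) →+* S), UP U π := by
  refine ⟨(U : Filter ι).Germ C, inferInstance, Filter.Germ.coeRingHom (U : Filter ι), ?_, ?_⟩
  · intro x
    induction x using Filter.Germ.inductionOn with
    | h f => exact ⟨f, rfl⟩
  · intro f
    change (f : (U : Filter ι).Germ C) = ((0 : ι → C) : (U : Filter ι).Germ C) ↔ _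
    rw [Filter.Germ.coe_eq]
    rfl

namespace UP

variable {π : (ι → C) →+* S} (h : UP U π)

include h

lemma eq_iff (f g : ι → C) : π f = π g ↔ ∀ᶠ a in (U : Filter ι), f a = g a := by
  rw [← sub_eq_zero, ← map_sub, h.eq0]
  simp only [Pi.sub_apply, sub_eq_zero]

lemma ne_iff (f g : ι → C) : π f ≠ π g ↔ ∀ᶠ a in (U : Filter ι), f a ≠ g a := by
  rw [Ne, h.eq_iff, ← Ultrafilter.eventually_not]

lemma ne0 (f : ι → C) : π f ≠ 0 ↔ ∀ᶠ a in (U : Filter ι), f a ≠ 0 := by
  rw [Ne, h.eq0, ← Ultrafilter.eventually_not]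

lemma map_inv (f : ι → C) : π f⁻¹ = (π f)⁻¹ := by
  by_cases h0 : π f = 0
  · rw [h0, inv_zero, h.eq0]
    filter_upwards [(h.eq0 f).mp h0] with a ha
    rw [Pi.inv_apply, ha, inv_zero]
  · apply eq_inv_of_mul_eq_one_left
    rw [← map_mul, ← map_one π, h.eq_iff]
    filter_upwards [(h.ne0 f).mp h0] with a ha
    rw [Pi.mul_apply, Pi.inv_apply, Pi.one_apply, inv_mul_cancel₀ ha]

lemma map_div (f g : ι → C) : π (f / g) = π f / π g := by
  rw [div_eq_mul_inv, map_mul, h.map_inv, ← div_eq_mul_inv]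

/-- the subfield of the germs of functions with values in a subfield -/
def gsub (X : Subfield C) : Subfield S where
  carrier := {s | ∃ f : ι → C, (∀ a, f a ∈ X) ∧ π f = s}
  mul_mem' := by
    rintro _ _ ⟨f, hf, rfl⟩ ⟨g, hg, rfl⟩
    exact ⟨f * g, fun a => X.mul_mem (hf a) (hg a), map_mul _ _ _⟩
  one_mem' := ⟨1, fun _ => X.one_mem, map_one _⟩
  add_mem' := by
    rintro _ _ ⟨f, hf, rfl⟩ ⟨g, hg, rfl⟩
    exact ⟨f + g, fun a => X.add_mem (hf a) (hg a), map_add _ _ _⟩
  zero_mem' := ⟨0, fun _ => X.zero_mem, map_zero _⟩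
  neg_mem' := by
    rintro _ ⟨f, hf, rfl⟩
    exact ⟨-f, fun a => X.neg_mem (hf a), map_neg _ _⟩
  inv_mem' := by
    rintro _ ⟨f, hf, rfl⟩
    exact ⟨f⁻¹, fun a => X.inv_mem (hf a), h.map_inv f⟩

lemma mem_gsub {X : Subfield C} {s : S} :
    s ∈ h.gsub X ↔ ∃ f : ι → C, (∀ a, f a ∈ X) ∧ π f = s := Iff.rfl

lemma coe_mem_gsub {X : Subfield C} (f : ι → C) :
    π f ∈ h.gsub X ↔ ∀ᶠ a in (U : Filter ι), f a ∈ X := by
  classical
  rw [h.mem_gsub]
  constructor
  · rintro ⟨g, hg, hgf⟩
    filter_upwards [(h.eq_iff _ _).mp hgf] with a ha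
    rw [← ha]
    exact hg a
  · intro hf
    refine ⟨fun a => if f a ∈ X then f a else 0, fun a => ?_, ?_⟩
    · dsimp only
      split_ifs with ha
      · exact ha
      · exact X.zero_mem
    · rw [h.eq_iff]
      filter_upwards [hf] with a ha
      rw [if_pos ha]

lemma gsub_mono {X Y : Subfield C} (hXY : X ≤ Y) : h.gsub X ≤ h.gsub Y := by
  rintro _ ⟨f, hf, rfl⟩
  exact ⟨f, fun a => hXY (hf a), rfl⟩

lemma const_mem_gsub {X : Subfield C} {c : C} : π (fun _ => c) ∈ h.gsub X ↔ c ∈ X := by
  rw [h.coe_mem_gsub]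
  simp

lemma const_injective : Function.Injective fun c : C => π (fun _ => c) := by
  intro c c' hcc
  have h1 := (h.eq_iff _ _).mp hcc
  simpa using h1

omit h in
/-- the constants -/
def cst (π : (ι → C) →+* S) : C →+* S := π.comp (Pi.constRingHom ι C)

omit h in
lemma cst_apply (c : C) : cst π c = π (fun _ => c) := rfl

/-- The ultrapower of an algebraically closed field is algebraically closed. -/
theorem isAlgClosed [IsAlgClosed C] : IsAlgClosed S := by
  apply IsAlgClosed.of_exists_root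
  intro P hP hirr
  choose c hc using fun i : ℕ => h.surj (P.coeff i)
  set n := P.natDegree with hn
  have hn0 : 0 < n := hirr.natDegree_pos
  have hroot : ∀ a, ∃ x : C, x ^ n + ∑ i : Fin n, c i a * x ^ (i : ℕ) = 0 := by
    intro a
    let q : C[X] := ∑ i : Fin n, Polynomial.C (c i a) * X ^ (i : ℕ)
    have hq : q.degree < (n : WithBot ℕ) := degree_sum_fin_lt _
    have hdeg : ((X : C[X]) ^ n + q).degree = (n : WithBot ℕ) := by
      rw [degree_add_eq_left_of_degree_lt (by rw [degree_X_pow]; exact hq), degree_X_pow]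
    obtain ⟨x, hx⟩ := IsAlgClosed.exists_root ((X : C[X]) ^ n + q) (by
      rw [hdeg]
      exact_mod_cast hn0.ne')
    refine ⟨x, ?_⟩
    rw [IsRoot.def, eval_add, eval_pow, eval_X, eval_finsetSum] at hx
    rw [← hx]
    congr 1
    apply Finset.sum_congr rfl
    intro i _
    rw [eval_mul, eval_C, eval_pow, eval_X]
  choose x hx using hroot
  refine ⟨π x, ?_⟩
  rw [eval_eq_sum_range, Finset.sum_range_succ, ← hn, hP.coeff_natDegree, one_mul]
  have h1 : π (x ^ n + ∑ i : Fin n, c i * x ^ (i : ℕ)) = 0 := by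
    rw [h.eq0]
    filter_upwards with a
    simp only [Pi.add_apply, Pi.pow_apply, Finset.sum_apply, Pi.mul_apply]
    exact hx a
  rw [map_add, map_pow, map_sum] at h1
  rw [← h1, add_comm, Finset.sum_range]
  congr 1
  apply Finset.sum_congr rfl
  intro i _
  rw [map_mul, map_pow, hc]

omit h in
theorem charZero (_h : UP U π) [CharZero C] : CharZero S :=
  charZero_of_injective_ringHom (f := cst π) (RingHom.injective _)

end UP

/-- Algebraic elements in terms of coefficients. -/
lemma isAlgebraic_iff {L : Type w} [Field L] {K : Subfield L} {x : L} :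
    IsAlgebraic K x ↔ ∃ (n : ℕ) (c : Fin (n + 1) → L), (∀ i, c i ∈ K) ∧ c ≠ 0 ∧
      ∑ i, c i * x ^ (i : ℕ) = 0 := by
  constructor
  · rintro ⟨P, hP0, hP⟩
    refine ⟨P.natDegree, fun i => P.coeff i, fun i => (P.coeff i).2, ?_, ?_⟩
    · intro h0
      apply hP0
      have h1 := congrFun h0 (Fin.last _)
      simp only [Fin.val_last, coeff_natDegree, Pi.zero_apply] at h1
      exact leadingCoeff_eq_zero.mp (Subtype.ext h1)
    · rw [aeval_eq_sum_range] at hP
      rw [← hP, Finset.sum_range]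
      apply Finset.sum_congr rfl
      intro i _
      rfl
  · rintro ⟨n, c, hc, hc0, hx⟩
    refine ⟨∑ i : Fin (n + 1), Polynomial.C (⟨c i, hc i⟩ : K) * X ^ (i : ℕ), ?_, ?_⟩
    · intro h0
      apply hc0
      funext j
      have h1 := congrArg (fun q => q.coeff j) h0
      simp only [finsetSum_coeff, coeff_C_mul, coeff_X_pow, coeff_zero] at h1
      rw [Finset.sum_eq_single j] at h1
      · simp only [if_true, mul_one] at h1
        exact congrArg Subtype.val h1
      · intro l _ hl
        rw [if_neg, mul_zero]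
        intro h2
        exact hl (Fin.ext h2.symm)
      · intro h2
        exact absurd (Finset.mem_univ _) h2
    · rw [map_sum, ← hx]
      apply Finset.sum_congr rfl
      intro i _
      rw [map_mul, aeval_C, map_pow, aeval_X]
      rfl

lemma isAlgebraic_mono {L : Type w} [Field L] {K K' : Subfield L} (hK : K ≤ K') {x : L}
    (hx : IsAlgebraic K x) : IsAlgebraic K' x := by
  rw [isAlgebraic_iff] at hx ⊢
  obtain ⟨n, c, hc, h1, h2⟩ := hx
  exact ⟨n, c, fun i => hK (hc i), h1, h2⟩

namespace UP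

variable {π : (ι → C) →+* S} (h : UP U π)

include h

/-- choice of representatives with values in a subfield, for a family of germs -/
lemma lift_family {X : Subfield C} {I : Type*} {c : I → S} (hc : ∀ i, c i ∈ h.gsub X) :
    ∃ f : I → ι → C, (∀ i a, f i a ∈ X) ∧ ∀ i, π (f i) = c i := by
  choose f hf hf' using hc
  exact ⟨f, hf, hf'⟩

/-- Germs of functions into a relatively algebraically closed field. -/
theorem gsub_algClosed {X : Subfield C} (hX : ∀ x : C, IsAlgebraic X x → x ∈ X) {y : S}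
    (hy : IsAlgebraic (h.gsub X) y) : y ∈ h.gsub X := by
  obtain ⟨n, c, hc, hc0, hcy⟩ := isAlgebraic_iff.mp hy
  obtain ⟨f, hf, hfc⟩ := h.lift_family hc
  obtain ⟨y, rfl⟩ := h.surj y
  obtain ⟨j, hj⟩ := Function.ne_iff.mp hc0
  rw [h.coe_mem_gsub]
  have h1 : π (∑ i, f i * y ^ (i : ℕ)) = 0 := by
    rw [map_sum, ← hcy]
    apply Finset.sum_congr rfl
    intro i _
    rw [map_mul, map_pow, hfc]
  rw [← hfc] at hj
  filter_upwards [(h.eq0 _).mp h1, (h.ne0 _).mp hj] with a ha ha'
  apply hX
  rw [isAlgebraic_iff]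
  refine ⟨n, fun i => f i a, fun i => hf i a, fun h0 => ha' (congrFun h0 j), ?_⟩
  rw [← ha]
  simp only [Finset.sum_apply, Pi.mul_apply, Pi.pow_apply]

/-- the automorphism of the ultrapower defined by a family of automorphisms -/
theorem exists_aut (τ : ι → (C ≃+* C)) :
    ∃ T : S ≃+* S, ∀ f : ι → C, T (π f) = π (fun a => τ a (f a)) := by
  have hker : ∀ τ : ι → (C ≃+* C), ∀ f : ι → C, f ∈ RingHom.ker π →
      (π.comp (RingHom.pi fun a => ((τ a : C →+* C).comp (Pi.evalRingHom _ a)))) f = 0 := by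
    intro τ f hf
    rw [RingHom.mem_ker, h.eq0] at hf
    change π (fun a => τ a (f a)) = 0
    rw [h.eq0]
    filter_upwards [hf] with a ha
    rw [ha, map_zero]
  let T : (ι → (C ≃+* C)) → (S →+* S) := fun τ =>
    (Ideal.Quotient.lift (RingHom.ker π) _ (hker τ)).comp
      (RingHom.quotientKerEquivOfSurjective h.surj).symm.toRingHom
  have hT : ∀ τ f, T τ (π f) = π (fun a => τ a (f a)) := by
    intro τ f
    have h1 : (RingHom.quotientKerEquivOfSurjective h.surj).symm (π f) =
        Ideal.Quotient.mk _ f := by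
      rw [RingEquiv.symm_apply_eq]
      rfl
    change (Ideal.Quotient.lift (RingHom.ker π) _ (hker τ))
      ((RingHom.quotientKerEquivOfSurjective h.surj).symm (π f)) = _
    rw [h1, Ideal.Quotient.lift_mk]
    rfl
  refine ⟨RingEquiv.ofRingHom (T τ) (T fun a => (τ a).symm) ?_ ?_, fun f => hT τ f⟩
  · ext x
    obtain ⟨f, rfl⟩ := h.surj x
    simp only [RingHom.comp_apply, hT, RingHom.id_apply, RingEquiv.apply_symm_apply]
  · ext x
    obtain ⟨f, rfl⟩ := h.surj x
    simp only [RingHom.comp_apply, hT, RingHom.id_apply, RingEquiv.symm_apply_apply]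

end UP

end Pool.Agent.Helper37.UL
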