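import Pool.Agent.Helper37.UL.E5
import Pool.Agent.Helper37.UL.Defs

/-!
# Block E2
-/

universe u

namespace Pool.Agent.Helper37.UL

open Polynomial IsLocalRing Pool.Agent.Helper91.Sect

section est

variable {C : Type u} [Field C] {Λ : Subfield C} {OΛ : ValuationSubring Λ}
  {V : ValuationSubring C} {t v : C}

theorem aeval_mv_eq (P : MvPolynomial (Fin 2) Λ) (S : Finset (Fin 2 →₀ ℕ)) (hS : P.support ⊆ S) :
    MvPolynomial.aeval ![t, v] P =
      ∑ r ∈ S, algebraMap Λ C (P.coeff r) * (t ^ (r 0) * v ^ (r 1)) := by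
  rw [MvPolynomial.aeval_def, MvPolynomial.eval₂_eq']
  rw [Finset.sum_subset hS]
  · refine Finset.sum_congr rfl fun r _ => ?_
    rw [Fin.prod_univ_two]; rfl
  · intro r _ hr
    rw [MvPolynomial.notMem_support_iff] at hr
    rw [hr, map_zero, zero_mul]

theorem tgt_eq {d : ℕ} (hd : 3 ≤ d) (s : C) (l : ℕ) :
    tgt d s l = -(if l = 0 then 1 else 0) * s +
      (if l = d then 1 else if l = d - 1 then -1 else 0) := by
  rw [tgt]
  by_cases h1 : l = d
  · rw [if_pos h1, if_pos h1, if_neg (by omega)]; ring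
  · by_cases h2 : l = d - 1
    · rw [if_neg h1, if_neg h1, if_pos h2, if_pos h2, if_neg (by omega)]; ring
    · rw [if_neg h1, if_neg h1, if_neg h2, if_neg h2]
      by_cases h3 : l = 0
      · rw [if_pos h3, if_pos h3]; ring
      · rw [if_neg h3, if_neg h3]; ring

theorem coeff_est (hV : Two OΛ V (t / v) v) {d : ℕ} (hd : 3 ≤ d) (l : ℕ)
    (P : MvPolynomial (Fin 2) Λ) (hc : ∀ r, P.coeff r ∈ OΛ)
    (h0 : OΛ.valuation (P.coeff 0) < 1)
    (ht : OΛ.valuation (P.coeff (Finsupp.single (0 : Fin 2) 1) + if l = 0 then 1 else 0) < 1)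
    (hv : OΛ.valuation (P.coeff (Finsupp.single (1 : Fin 2) 1) -
      if l = d then 1 else if l = d - 1 then -1 else 0) < 1) :
    V.valuation (MvPolynomial.aeval ![t, v] P / v - tgt d (t / v) l) < 1 := by
  classical
  set s := t / v with hs
  have hv0 := hV.v_ne
  have hts : t = s * v := (div_mul_cancel₀ _ hv0).symm
  have hs1 : V.valuation s ≤ 1 := by
    have h1 := hV.ev_le X
    rwa [ev_X] at h1
  have hc1 : ∀ r, V.valuation (algebraMap Λ C (P.coeff r)) ≤ 1 := by
    intro r
    have h1 := hV.ev_le (Polynomial.C ⟨_, hc r⟩)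
    rwa [ev_C] at h1
  set e0 : Fin 2 →₀ ℕ := Finsupp.single (0 : Fin 2) 1 with he0
  set e1 : Fin 2 →₀ ℕ := Finsupp.single (1 : Fin 2) 1 with he1
  have he00 : e0 0 = 1 := by simp [he0]
  have he01 : e0 1 = 0 := by simp [he0]
  have he10 : e1 0 = 0 := by simp [he1]
  have he11 : e1 1 = 1 := by simp [he1]
  have hne : e0 ≠ e1 := by
    intro h
    have h1 := congrArg (fun f : Fin 2 →₀ ℕ => f 0) h
    simp only [he00, he10] at h1
    exact one_ne_zero h1
  have hne0 : e0 ≠ 0 := by
    intro h
    have h1 := congrArg (fun f : Fin 2 →₀ ℕ => f 0) h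
    simp only [he00] at h1
    exact one_ne_zero h1
  have hne1 : e1 ≠ 0 := by
    intro h
    have h1 := congrArg (fun f : Fin 2 →₀ ℕ => f 1) h
    simp only [he11] at h1
    exact one_ne_zero h1
  set A : C := if l = 0 then 1 else 0 with hA
  set B : C := if l = d then 1 else if l = d - 1 then -1 else 0 with hB
  have hA' : algebraMap Λ C (if l = 0 then 1 else 0) = A := by
    rw [hA]; split_ifs <;> simp
  have hB' : algebraMap Λ C (if l = d then 1 else if l = d - 1 then -1 else 0) = B := by
    rw [hB]; split_ifs <;> simp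
  set S : Finset (Fin 2 →₀ ℕ) := P.support ∪ {0, e0, e1} with hS
  have h0S : e0 ∈ S := by simp [hS]
  have h1S : e1 ∈ S := by simp [hS]
  have hsum : (∑ r ∈ S, (if r = e0 then -A * s else if r = e1 then B else 0)) = -A * s + B := by
    have h1 : ∀ r ∈ S, (if r = e0 then -A * s else if r = e1 then B else 0) =
        (if r = e0 then -A * s else 0) + (if r = e1 then B else 0) := by
      intro r _
      by_cases h2 : r = e0
      · rw [if_pos h2, if_pos h2, if_neg (by rw [h2]; exact hne), add_zero]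
      · rw [if_neg h2, if_neg h2, zero_add]
    rw [Finset.sum_congr rfl h1, Finset.sum_add_distrib, Finset.sum_ite_eq', Finset.sum_ite_eq',
      if_pos h0S, if_pos h1S]
  have hexp : MvPolynomial.aeval ![t, v] P / v - tgt d s l =
      ∑ r ∈ S, (algebraMap Λ C (P.coeff r) * (t ^ (r 0) * v ^ (r 1)) / v -
        (if r = e0 then -A * s else if r = e1 then B else 0)) := by
    rw [Finset.sum_sub_distrib, hsum, ← Finset.sum_div,
      ← aeval_mv_eq P S Finset.subset_union_left, tgt_eq hd]
  rw [hexp]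
  refine Valuation.map_sum_lt' _ zero_lt_one fun r _ => ?_
  by_cases hr0 : r = e0
  · rw [if_pos hr0, hr0, he00, he01, pow_one, pow_zero, mul_one]
    have h1 : algebraMap Λ C (P.coeff e0) * t / v - -A * s =
        algebraMap Λ C (P.coeff e0 + if l = 0 then 1 else 0) * s := by
      rw [map_add, hA', hs]; ring
    rw [h1, map_mul]
    have h2 := hV.lt _ ht 0
    rw [pow_zero] at h2
    exact (mul_le_of_le_one_right' hs1).trans_lt h2
  · by_cases hr1 : r = e1
    · rw [if_neg hr0, if_pos hr1, hr1, he10, he11, pow_one, pow_zero, one_mul,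
        mul_div_cancel_right₀ _ hv0, ← hB', ← map_sub]
      have h2 := hV.lt _ hv 0
      rwa [pow_zero] at h2
    · rw [if_neg hr0, if_neg hr1, sub_zero]
      by_cases hr2 : r = 0
      · rw [hr2]
        have h1 := hV.lt _ h0 1
        rw [pow_one] at h1
        have h2 : algebraMap Λ C (P.coeff 0) * (t ^ ((0 : Fin 2 →₀ ℕ) 0) *
            v ^ ((0 : Fin 2 →₀ ℕ) 1)) / v = algebraMap Λ C (P.coeff 0) / v := by
          simp
        rw [h2, map_div₀]
        exact (div_lt_one₀ (zero_lt_iff.2 hV.val_ne)).2 h1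
      · have h3 : 2 ≤ r 0 + r 1 := by
          by_contra hcon
          rw [not_le] at hcon
          have h4 : r 0 = 0 ∧ r 1 = 0 ∨ r 0 = 1 ∧ r 1 = 0 ∨ r 0 = 0 ∧ r 1 = 1 := by omega
          rcases h4 with ⟨h5, h6⟩ | ⟨h5, h6⟩ | ⟨h5, h6⟩
          · apply hr2
            ext i
            fin_cases i
            · exact h5
            · exact h6
          · apply hr0
            ext i
            fin_cases i
            · exact h5.trans he00.symm
            · exact h6.trans he01.symm
          · apply hr1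
            ext i
            fin_cases i
            · exact h5.trans he10.symm
            · exact h6.trans he11.symm
        obtain ⟨m, hm⟩ : ∃ m, r 0 + r 1 = m + 2 := ⟨r 0 + r 1 - 2, by omega⟩
        have h4 : algebraMap Λ C (P.coeff r) * (t ^ (r 0) * v ^ (r 1)) / v =
            algebraMap Λ C (P.coeff r) * (s ^ (r 0) * v ^ m) * v := by
          rw [div_eq_iff hv0, hts, mul_pow]
          have h5 : v ^ (r 0) * v ^ (r 1) = v ^ m * v * v := by
            rw [← pow_add, hm, pow_add]; ring
          linear_combination (algebraMap Λ C (P.coeff r) * s ^ (r 0)) * h5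
        rw [h4, map_mul, map_mul, map_mul, map_pow, map_pow]
        have h5 : V.valuation (algebraMap Λ C (P.coeff r)) * (V.valuation s ^ (r 0) *
            V.valuation v ^ m) ≤ 1 :=
          mul_le_one' (hc1 r) (mul_le_one' (pow_le_one' hs1 _) (pow_le_one' hV.v_lt.le _))
        exact (mul_le_of_le_one_left' h5).trans_lt hV.v_lt

end est

section dec

variable {k C : Type u} [Field k] [Field C] [Algebra k C] [IsGalois k C]
  {O : ValuationSubring k} (Q : Ideal (integralClosure O C)) [hQ : Q.IsPrime]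

/-- elements of the decomposition group act trivially on the values -/
theorem val_InD {σ : C ≃ₐ[k] C} (hσ : InD Q σ) (x : C) :
    (locW Q).valuation (σ x) = (locW Q).valuation x := by
  by_cases hx0 : x = 0
  · rw [hx0, map_zero]
  obtain ⟨P, hP0, hP⟩ := Algebra.IsAlgebraic.isAlgebraic (R := k) x
  obtain ⟨i, j, hij, -, hi0, hj0, hval⟩ := exists_pair (locW Q).valuation hP0 hx0 hP
  have hi0' : algebraMap k C (P.coeff i) ≠ 0 := by simpa using hi0
  have hj0' : algebraMap k C (P.coeff j) ≠ 0 := by simpa using hj0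
  set e : C := algebraMap k C (P.coeff i) / algebraMap k C (P.coeff j) with he
  have he0 : e ≠ 0 := div_ne_zero hi0' hj0'
  have he0' : (locW Q).valuation e ≠ 0 := (_root_.map_ne_zero _).2 he0
  have hσe : σ e = e := by rw [he, map_div₀, AlgEquiv.commutes, AlgEquiv.commutes]
  have h1 : (locW Q).valuation (x ^ (j - i) / e) = 1 := by
    have h2 : x ^ (j - i) / e = (algebraMap k C (P.coeff j) * x ^ j) /
        (algebraMap k C (P.coeff i) * x ^ i) := by
      have h3 : x ^ j = x ^ (j - i) * x ^ i := by rw [← pow_add]; congr 1; omega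
      rw [he, h3]
      field_simp
    rw [h2, map_div₀, ← hval]
    exact div_self ((_root_.map_ne_zero _).2 (mul_ne_zero hi0' (pow_ne_zero _ hx0)))
  have h2 := (val_eq_one_D Q hσ (x ^ (j - i) / e)).2 h1
  rw [map_div₀, hσe, map_pow] at h2
  rw [map_div₀, div_eq_one_iff_eq he0', map_pow] at h1 h2
  have h3 : (locW Q).valuation (σ x) ^ (j - i) = (locW Q).valuation x ^ (j - i) := h2.trans h1.symm
  exact (pow_left_inj₀ zero_le zero_le (by omega)).1 h3

end dec

/-- **Block E2.** -/
theorem no_lev' {C : Type u} [Field C] [IsAlgClosed C] [CharZero C] {Λ : Subfield C}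
    {t v : C} (htv : AlgebraicIndependent Λ ![t, v])
    (hC : ∀ x : C, IsAlgebraic (Subfield.closure ((Λ : Set C) ∪ {t, v})) x)
    {p d : ℕ} (hp : p.Prime) (hd : 3 ≤ d)
    (c : Fin (d + 1) → MvPolynomial (Fin 2) Λ) (W : ValuationSubring C)
    (hW : ∀ n : ℕ, n ≠ 0 → W.valuation (n : C) = 1)
    (hc : ∀ i r, ((MvPolynomial.coeff r (c i) : Λ) : C) ∈ W)
    (hc0 : ∀ i, W.valuation ((MvPolynomial.coeff 0 (c i) : Λ) : C) < 1)
    (hct : ∀ i, W.valuation
      (((MvPolynomial.coeff (Finsupp.single (0 : Fin 2) 1) (c i) : Λ) : C) + if i = 0 then 1 else 0) < 1)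
    (hcv : ∀ i, W.valuation
      (((MvPolynomial.coeff (Finsupp.single (1 : Fin 2) 1) (c i) : Λ) : C) -
      if (i : ℕ) = d then 1 else if (i : ℕ) = d - 1 then -1 else 0) < 1)
    {θ : Fin d → C} {z : Fin d → Fin d → C} {α : C}
    (h : Lev (Subfield.closure ((Λ : Set C) ∪ {t, v})) p
      (fun i => MvPolynomial.aeval ![t, v] (c i)) θ z α) :
    False := by
  classical
  set k : Subfield C := Subfield.closure ((Λ : Set C) ∪ {t, v}) with hk
  have hΛk : Λ ≤ k := fun x hx => Subfield.subset_closure (Or.inl hx)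
  have htk : t ∈ k := Subfield.subset_closure (Or.inr (Or.inl rfl))
  have hvk : v ∈ k := Subfield.subset_closure (Or.inr (Or.inr rfl))
  have hsk : t / v ∈ k := div_mem htk hvk
  let _ : Algebra Λ k := (Subfield.inclusion hΛk).toAlgebra
  have hsc : IsScalarTower Λ k C := IsScalarTower.of_algebraMap_eq fun x => rfl
  have hgal : IsGalois k C := isGalois_of_alg k hC
  set OΛ : ValuationSubring Λ := W.comap (algebraMap Λ C) with hOΛ
  obtain ⟨V, hV, hcore, hnp⟩ := exists_core_two k htv (fun x hx => hx) hsk OΛ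
  set O : ValuationSubring k := V.comap (algebraMap k C) with hO
  obtain ⟨Q, hQ, hA⟩ := exists_above (k := k) (C := C) (O := O)
  have hv0 : v ≠ 0 := hV.v_ne
  have hcoe : ∀ z : k, algebraMap k C z = z := fun z => rfl
  have hest : ∀ l : Fin (d + 1), V.valuation (MvPolynomial.aeval ![t, v] (c l) / v -
      tgt d (t / v) (l : ℕ)) < 1 := by
    intro l
    refine coeff_est hV hd l (c l) (fun r => hc l r) ?_ ?_ ?_
    · rw [comap_lt_one]; exact hc0 l
    · rw [comap_lt_one, map_add]
      have h1 := hct l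
      have h2 : algebraMap Λ C (if (l : ℕ) = 0 then 1 else 0) = if l = 0 then 1 else 0 := by
        by_cases h3 : l = 0
        · rw [if_pos h3, if_pos (by rw [h3]; rfl), map_one]
        · have h4 : (l : ℕ) ≠ 0 := fun h4 => h3 (Fin.ext h4)
          rw [if_neg h3, if_neg h4, map_zero]
      rw [h2]; exact h1
    · rw [comap_lt_one, map_sub]
      have h1 := hcv l
      have h2 : algebraMap Λ C (if (l : ℕ) = d then 1 else if (l : ℕ) = d - 1 then -1 else 0) =
          if (l : ℕ) = d then 1 else if (l : ℕ) = d - 1 then -1 else 0 := by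
        split_ifs <;> simp
      rw [h2]; exact h1
  let a : Fin (d + 1) → k := fun l => ⟨MvPolynomial.aeval ![t, v] (c l) / v, div_mem (h.coef l) hvk⟩
  have hatgt : ∀ l : ℕ, algebraMap k C (tgt d ⟨t / v, hsk⟩ l) = tgt d (t / v) l := by
    intro l
    rw [tgt, tgt]
    split_ifs
    · rw [map_one]
    · rw [map_neg, map_one]
    · rw [map_neg]; rfl
    · rw [map_zero]
  have ha : ∀ l, O.valuation (a l - tgt d ⟨t / v, hsk⟩ (l : ℕ)) < 1 := by
    intro l
    rw [comap_lt_one, map_sub, hatgt]
    exact hest l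
  obtain ⟨hdiff, hθle, htr⟩ := hcore.two_trans Q (fun n hn => hcore.val_natCast (by
    rw [comap_eq_one, map_natCast]; exact hW n hn)) hA hd ha h.inj (fun i => by
      have h1 := congrArg (fun x => x / v) (h.root i)
      simp only [Finset.sum_div, zero_div] at h1
      rw [← h1]
      refine Finset.sum_congr rfl fun l _ => ?_
      change MvPolynomial.aeval ![t, v] (c l) / v * θ i ^ (l : ℕ) = _
      ring)
  set U := (locW Q).valuation with hU
  have hUk : ∀ x y : k, y ≠ 0 → (U (x : C) = U (y : C) ↔ V.valuation (x : C) = V.valuation (y : C)) := by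
    intro x y hy
    have h1 := locW_eq_iff Q hA (a := x) (b := y) hy
    rw [comap_eq _ _ hy] at h1
    exact h1
  -- the common value of the `z i j`
  have hzval : ∀ i j i' j', i ≠ j → i' ≠ j' → U (z i j) = U (z i' j') := by
    intro i j i' j' hij hij'
    obtain ⟨φ, hφ, hpow⟩ := h.pow
    obtain ⟨σ, hσD, hσi, hσj⟩ := htr i j i' j' hij hij'
    have h1 : σ (z i j ^ p) = z i' j' ^ p := by
      rw [hpow i j hij, hpow i' j' hij', map_sum]
      refine Finset.sum_congr rfl fun r _ => ?_
      rw [map_sum]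
      refine Finset.sum_congr rfl fun q _ => ?_
      rw [map_mul, map_mul, map_pow, map_pow, hσi, hσj]
      congr 1
      exact σ.commutes ⟨φ r q, hφ r q⟩
    have h2 := val_InD Q hσD (z i j ^ p)
    rw [h1, map_pow, map_pow] at h2
    exact ((pow_left_inj₀ zero_le zero_le hp.ne_zero).1 h2).symm
  -- three different indices
  let i0 : Fin d := ⟨0, by omega⟩
  let i1 : Fin d := ⟨1, by omega⟩
  let i2 : Fin d := ⟨2, by omega⟩
  have h01 : i0 ≠ i1 := fun h => by simpa [i0, i1] using congrArg Fin.val h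
  have h12 : i1 ≠ i2 := fun h => by simpa [i1, i2] using congrArg Fin.val h
  have h02 : i0 ≠ i2 := fun h => by simpa [i0, i2] using congrArg Fin.val h
  set γ := U (z i0 i1) with hγ
  have hγ0 : γ ≠ 0 := (_root_.map_ne_zero _).2 (h.ne i0 i1 h01)
  obtain ⟨ψ, hψ, hcoc⟩ := h.coc
  obtain ⟨χ, hχ, hnrm⟩ := h.nrm
  set q : C := ∑ r, ∑ s, ∑ t, ψ r s t * (θ i0 ^ (r : ℕ) * θ i1 ^ (s : ℕ) * θ i2 ^ (t : ℕ)) with hq
  have hqval : U q = γ := by
    have h1 := congrArg U (hcoc i0 i1 i2 h01 h12 h02)
    rw [map_mul, map_mul, hzval i1 i2 i0 i1 h12 h01, hzval i0 i2 i0 i1 h02 h01] at h1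
    exact (mul_left_cancel₀ hγ0 h1).symm
  have hq0 : q ≠ 0 := by
    intro h0
    rw [h0, map_zero] at hqval
    exact hγ0 hqval.symm
  set e : C := ∑ r, χ r * θ i0 ^ (r : ℕ) with he
  have heval : U α * γ ^ (d - 1) = U e := by
    have h1 := congrArg U (hnrm i0)
    rw [map_mul, map_prod] at h1
    rw [← h1]
    congr 1
    rw [Finset.prod_congr rfl fun j hj => hzval j i0 i0 i1 (Finset.ne_of_mem_erase hj) h01,
      Finset.prod_const, Finset.card_erase_of_mem (Finset.mem_univ _), Finset.card_univ,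
      Fintype.card_fin]
  set H : C := e / q ^ (d - 1) with hH
  have hHval : U H = U α := by
    rw [hH, map_div₀, map_pow, hqval, ← heval, mul_div_cancel_right₀ _ (pow_ne_zero _ hγ0)]
  -- the value of the leading coefficient
  have hlead : U (MvPolynomial.aeval ![t, v] (c (Fin.last d))) = U v := by
    have h1 := ha (Fin.last d)
    rw [tgt, if_pos (Fin.val_last d), comap_lt_one, map_sub, map_one] at h1
    have h2 : V.valuation (algebraMap k C (a (Fin.last d))) = 1 := by
      have h3 := Valuation.map_add_eq_of_lt_right V.valuation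
        (x := algebraMap k C (a (Fin.last d)) - 1) (y := 1) (by rw [map_one]; exact h1)
      rw [sub_add_cancel, map_one] at h3
      exact h3
    have h4 := (locW_algebraMap_eq_one Q hA (a := a (Fin.last d))).2 ((comap_eq_one _ _ _).2 h2)
    change U (MvPolynomial.aeval ![t, v] (c (Fin.last d)) / v) = 1 at h4
    rw [map_div₀, div_eq_one_iff_eq ((_root_.map_ne_zero _).2 hv0)] at h4
    exact h4
  have hvval : U v = U H ^ p := by
    rw [hHval, ← map_pow, h.alpha, hlead]
  have hv0' : U v ≠ 0 := (_root_.map_ne_zero _).2 hv0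
  have hH0 : H ≠ 0 := by
    intro h0
    rw [h0, map_zero, zero_pow hp.ne_zero] at hvval
    exact hv0' hvval
  -- the inertia element
  obtain ⟨w, hw⟩ := IsAlgClosed.exists_pow_nat_eq v hp.pos
  obtain ⟨ζ, hζ⟩ : ∃ ζ : C, IsPrimitiveRoot ζ p := by
    have : NeZero (p : C) := ⟨by exact_mod_cast hp.ne_zero⟩
    exact HasEnoughRootsOfUnity.exists_primitiveRoot C p
  have hodd : ∀ x : k, O.valuation (⟨v, hvk⟩ : k) ≠ O.valuation x ^ p := by
    intro x hx
    by_cases hx0 : x = 0
    · rw [hx0, map_zero, zero_pow hp.ne_zero] at hx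
      have h1 : (⟨v, hvk⟩ : k) = 0 := by simpa using hx
      exact hv0 (congrArg Subtype.val h1)
    · rw [← map_pow, comap_eq _ _ (pow_ne_zero p hx0)] at hx
      refine hnp p hp x x.2 ?_
      rw [← map_pow]; exact hx
  obtain ⟨τ, hτI, hτw⟩ := Helper91.SE.exists_inertia_ne Q hA hp hodd (w := w) hw hζ
  have hτθ : ∀ i, τ (θ i) = θ i := by
    intro i
    have h1 : ∑ l, MvPolynomial.aeval ![t, v] (c l) * (τ (θ i)) ^ (l : ℕ) = 0 := by
      have h2 := congrArg τ (h.root i)
      rw [map_sum, map_zero] at h2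
      rw [← h2]
      refine Finset.sum_congr rfl fun l _ => ?_
      rw [map_mul, map_pow]
      congr 1
      exact (τ.commutes ⟨_, h.coef l⟩).symm
    obtain ⟨m, hm⟩ := root_mem h.lead h.inj h.root h1
    by_contra hne
    have hmi : m ≠ i := fun h2 => hne (by rw [hm, h2])
    have h2 := hdiff m i hmi
    have h3 : U (τ (θ i) - θ i) < 1 := val_inertia Q hτI (hθle i)
    rw [hm] at h3
    exact h3.ne h2
  have hτk : ∀ x ∈ k, τ x = x := fun x hx => τ.commutes ⟨x, hx⟩
  have hτq : τ q = q := by
    rw [hq]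
    simp only [map_sum, map_mul, map_pow, hτθ]
    exact Finset.sum_congr rfl fun r _ => Finset.sum_congr rfl fun s _ =>
      Finset.sum_congr rfl fun t _ => by rw [hτk _ (hψ r s t)]
  have hτe : τ e = e := by
    rw [he]
    simp only [map_sum, map_mul, map_pow, hτθ]
    exact Finset.sum_congr rfl fun r _ => by rw [hτk _ (hχ r)]
  have hτH : τ H = H := by rw [hH, map_div₀, map_pow, hτq, hτe]
  have hw0 : w ≠ 0 := by
    rintro rfl
    rw [zero_pow hp.ne_zero] at hw
    exact hv0 hw.symm
  have hUw : U w = U H := by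
    have h1 : U w ^ p = U H ^ p := by rw [← map_pow, hw, hvval]
    exact (pow_left_inj₀ zero_le zero_le hp.ne_zero).1 h1
  have hHv : U H ≠ 0 := (_root_.map_ne_zero _).2 hH0
  have hUu : U (w / H) = 1 := by rw [map_div₀, hUw, div_self hHv]
  have h1 := val_inertia Q hτI hUu.le
  set η : C := τ w / w with hη
  have hτw' : τ w = η * w := by rw [hη, div_mul_cancel₀ _ hw0]
  have hηp : η ^ p = 1 := by
    rw [hη, div_pow, ← map_pow, hw, hτk v hvk, div_self hv0]
  have hη1 : η ≠ 1 := by
    intro h2
    rw [h2, one_mul] at hτw'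
    exact hτw hτw'
  have h2 : τ (w / H) - w / H = (η - 1) * (w / H) := by
    rw [map_div₀, hτH, hτw']; ring
  rw [h2, map_mul] at h1
  change U (η - 1) * U (w / H) < 1 at h1
  rw [hUu, mul_one] at h1
  -- the sum of the powers of `η`
  have hUη : U η ≤ 1 := by
    have h3 : U η ^ p = 1 := by rw [← map_pow, hηp, map_one]
    exact ((pow_eq_one_iff_of_nonneg zero_le hp.ne_zero).1 h3).le
  have h3 : ∑ i ∈ Finset.range p, η ^ i = 0 := by
    have h4 := mul_geom_sum η p
    rw [hηp, sub_self] at h4
    exact (mul_eq_zero.1 h4).resolve_left (sub_ne_zero.2 hη1)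
  have h4 : U (∑ i ∈ Finset.range p, (η ^ i - 1)) < 1 := by
    refine Valuation.map_sum_lt' _ zero_lt_one fun i _ => ?_
    rw [← mul_geom_sum, map_mul]
    refine (mul_le_of_le_one_right' ?_).trans_lt h1
    refine Valuation.map_sum_le _ fun j _ => ?_
    rw [map_pow]
    exact pow_le_one' hUη j
  rw [Finset.sum_sub_distrib, h3, Finset.sum_const, Finset.card_range, nsmul_eq_mul, mul_one,
    zero_sub, Valuation.map_neg] at h4
  have h5 : O.valuation ((p : ℕ) : k) = 1 := hcore.val_natCast (by
    rw [comap_eq_one, map_natCast]; exact hW p hp.ne_zero)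
  have h6 := (locW_algebraMap_eq_one Q hA (a := ((p : ℕ) : k))).2 h5
  rw [map_natCast] at h6
  exact h4.ne h6

end Pool.Agent.Helper37.UL
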