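import Pool.Agent.Helper37.UL.Defs
import Pool.Agent.Helper37.UL.E6

/-!
# Block E: degenerations (proved; the proofs are in the files E0 - E6)

`Λ` is an algebraically closed subfield of `C`.

`two_trans`.  Gauss extension of `W ∩ Λ` to `Λ(t)` and then to a valuation ring `V` of `C` (`exists_gauss` in
Helper91/Section/SE/Gauss, or Helper13/LT/U2).  The residue field of `Λ(t)` is `Ω(s)`, `Ω` the (algebraically
closed) residue field of `Λ`, and the polynomial reduces to `X ^ d - X ^ (d - 1) - s`.  Its group over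
`Ω(s)` is doubly transitive: it is irreducible (linear in `s`), and over `Ω(x₁)`,
`s = x₁ ^ d - x₁ ^ (d - 1)`, the quotient by `X - x₁` is `≡ X ^ (d - 1)` modulo `x₁ - 1` with constant
coefficient `x₁ ^ (d - 2) (x₁ - 1)` up to sign: Eisenstein.  Automorphisms of the residue field over that of
`Λ(t)` lift to the decomposition group of `V` (Helper91/Section: `lift_abstract`; Resid, Coeff).

`no_lev`.  `s = t / v`.  `V`: composite of the Gauss extension of `W` to `Λ(s, v)` (extended to `C`) and of a valuation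
ring of its residue field which contains `Ω(s)` and has `v` in its maximal ideal.  Then
`a i / v ∈ V` and the polynomial with coefficients `a i / v` reduces to `X ^ d - X ^ (d - 1) - s`.
The value of `v` is not the `p`-th power of a value of an element of `k₀ = Λ(t, v)`.  Let `σ` run over the
decomposition group of `V` in `Aut (C / k₀)`, doubly transitive on the `θ i` as above.
`V(z i j ^ p)` does not depend on `(i, j)` (`pow`), so by `coc` its `p`-th root is the value of an element `q` of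
`k₀(θ)`, and by `nrm`: `V(a_d) * V(q) ^ (p * (d - 1)) = V(e) ^ p`, `e ∈ k₀(θ)`.  So
`V(v) = V(a_d) = V(h) ^ p` with `h ∈ k₀(θ)`.  By `exists_inertia_ne` (Helper91/Section/SE/Iner) some `τ` in the
inertia group over `k₀` moves `w`, `w ^ p = v`; it fixes all the `θ i` (different residues), so `h`; and
`w / h` is a unit of `V` with `τ (w / h) = ζ (w / h)`, `ζ ≠ 1`.  Contradiction.
-/

universe u

namespace Pool.Agent.Helper37.UL

open Polynomial

/-- `W` is a valuation ring of residue characteristic zero -/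
def ResZero {C : Type u} [Field C] (W : ValuationSubring C) : Prop :=
  ∀ n : ℕ, n ≠ 0 → W.valuation (n : C) = 1

/-- **Block E1.** -/
theorem two_trans {C : Type u} [Field C] [IsAlgClosed C] [CharZero C] {Λ : Subfield C}
    (hΛ : ∀ x : C, IsAlgebraic Λ x → x ∈ Λ) {t : C} (ht : Transcendental Λ t) {d : ℕ} (hd : 3 ≤ d)
    (hC : ∀ x : C, IsAlgebraic (Subfield.closure (Λ ∪ {t})) x)
    (c : Fin (d + 1) → Λ[X]) (W : ValuationSubring C) (hW : ResZero W)
    (hc : ∀ i r, ((c i).coeff r : C) ∈ W)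
    (hlast : ∀ r, W.valuation (((c (Fin.last d)).coeff r : C) - if r = 0 then 1 else 0) < 1)
    (hprev : ∀ i : Fin (d + 1), (i : ℕ) = d - 1 → ∀ r,
      W.valuation (((c i).coeff r : C) + if r = 0 then 1 else 0) < 1)
    (hzero : ∀ r, W.valuation (((c 0).coeff r : C) + if r = 1 then 1 else 0) < 1)
    (hrest : ∀ i : Fin (d + 1), (i : ℕ) ≠ d → (i : ℕ) ≠ d - 1 → (i : ℕ) ≠ 0 → ∀ r,
      W.valuation ((c i).coeff r : C) < 1)
    {θ : Fin d → C} (hθ : Function.Injective θ)
    (hroot : ∀ i, ∑ l, aeval t (c l) * θ i ^ (l : ℕ) = 0)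
    {i j i' j' : Fin d} (hij : i ≠ j) (hij' : i' ≠ j') :
    ∃ σ : C ≃+* C, (∀ x ∈ Λ, σ x = x) ∧ σ t = t ∧ σ (θ i) = θ i' ∧ σ (θ j) = θ j' :=
  two_trans' ht hd hC c W hW hc hlast hprev hzero hrest hθ hroot hij hij'

/-- **Block E2.** -/
theorem no_lev {C : Type u} [Field C] [IsAlgClosed C] [CharZero C] {Λ : Subfield C}
    (hΛ : ∀ x : C, IsAlgebraic Λ x → x ∈ Λ) {t v : C} (htv : AlgebraicIndependent Λ ![t, v])
    (hC : ∀ x : C, IsAlgebraic (Subfield.closure (Λ ∪ {t, v})) x)
    {p d : ℕ} (hp : p.Prime) (hd : 3 ≤ d)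
    (c : Fin (d + 1) → MvPolynomial (Fin 2) Λ) (W : ValuationSubring C) (hW : ResZero W)
    (hc : ∀ i r, ((MvPolynomial.coeff r (c i) : Λ) : C) ∈ W)
    (hc0 : ∀ i, W.valuation ((MvPolynomial.coeff 0 (c i) : Λ) : C) < 1)
    (hct : ∀ i, W.valuation
      (((MvPolynomial.coeff (Finsupp.single (0 : Fin 2) 1) (c i) : Λ) : C) + if i = 0 then 1 else 0) < 1)
    (hcv : ∀ i, W.valuation
      (((MvPolynomial.coeff (Finsupp.single (1 : Fin 2) 1) (c i) : Λ) : C) -
      if (i : ℕ) = d then 1 else if (i : ℕ) = d - 1 then -1 else 0) < 1)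
    {θ : Fin d → C} {z : Fin d → Fin d → C} {α : C}
    (h : Lev (Subfield.closure (Λ ∪ {t, v})) p (fun i => MvPolynomial.aeval ![t, v] (c i)) θ z α) :
    False :=
  no_lev' htv hC hp hd c W hW hc hc0 hct hcv h

end Pool.Agent.Helper37.UL
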