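import Mathlib
import Pool.Agent.Helper37.UL.Germ1

/-!
# Rational function fields in bounded complexity
-/

universe u v w

namespace Pool.Agent.Helper37.UL

open Polynomial

section basic

variable {C : Type u} [Field C] {n : ℕ}

/-- the value at `τ` of the polynomial with coefficients `c` -/
def pv (τ : Fin n → C) (D : ℕ) (c : (Fin n → Fin (D + 1)) → C) : C :=
  ∑ e, c e * ∏ i, τ i ^ (e i : ℕ)

/-- an exponent -/
noncomputable def toF {D : ℕ} (e : Fin n → Fin (D + 1)) : Fin n →₀ ℕ :=
  Finsupp.equivFunOnFinite.symm fun i => (e i : ℕ)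

lemma toF_apply {D : ℕ} (e : Fin n → Fin (D + 1)) (i : Fin n) : toF e i = e i := rfl

lemma toF_injective {D : ℕ} : Function.Injective (toF (n := n) (D := D)) := by
  intro e e' h
  funext i
  have h1 := DFunLike.congr_fun h i
  rw [toF_apply, toF_apply] at h1
  exact Fin.ext h1

/-- the polynomial with the coefficients `c` -/
noncomputable def mkP {A : Type*} [CommRing A] {D : ℕ} (c : (Fin n → Fin (D + 1)) → A) :
    MvPolynomial (Fin n) A :=
  ∑ e, MvPolynomial.monomial (toF e) (c e)

lemma mkP_coeff {A : Type*} [CommRing A] {D : ℕ} (c : (Fin n → Fin (D + 1)) → A)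
    (e : Fin n → Fin (D + 1)) : (mkP c).coeff (toF e) = c e := by
  classical
  unfold mkP
  rw [MvPolynomial.coeff_sum, Finset.sum_eq_single e]
  · rw [MvPolynomial.coeff_monomial, if_pos rfl]
  · intro e' _ he
    rw [MvPolynomial.coeff_monomial, if_neg]
    exact fun h => he (toF_injective h)
  · intro h
    exact absurd (Finset.mem_univ _) h

lemma mkP_of {A : Type*} [CommRing A] {D : ℕ} {P : MvPolynomial (Fin n) A}
    (hP : P.totalDegree ≤ D) : P = mkP (D := D) fun e => P.coeff (toF e) := by
  classical
  ext m
  by_cases hm : ∀ i, m i ≤ D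
  · let e : Fin n → Fin (D + 1) := fun i => ⟨m i, Nat.lt_succ_of_le (hm i)⟩
    have he : toF e = m := by
      ext i
      rfl
    rw [← he, mkP_coeff]
  · push Not at hm
    obtain ⟨i, hi⟩ := hm
    have h1 : P.coeff m = 0 := by
      by_contra h0
      have h2 := MvPolynomial.le_totalDegree (MvPolynomial.mem_support_iff.mpr h0)
      have h3 : m i ≤ m.sum fun _ e => e := by
        by_cases hmi : m i = 0
        · omega
        · exact Finset.single_le_sum (f := fun i => m i) (fun _ _ => Nat.zero_le _)
            (Finsupp.mem_support_iff.mpr hmi)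
      omega
    rw [h1]
    unfold mkP
    rw [MvPolynomial.coeff_sum]
    symm
    apply Finset.sum_eq_zero
    intro e _
    rw [MvPolynomial.coeff_monomial, if_neg]
    rintro rfl
    rw [toF_apply] at hi
    have := (e i).2
    omega

lemma mkP_totalDegree {A : Type*} [CommRing A] {D : ℕ} (c : (Fin n → Fin (D + 1)) → A) :
    (mkP c).totalDegree ≤ n * D := by
  classical
  unfold mkP
  refine (MvPolynomial.totalDegree_finsetSum _ _).trans ?_
  apply Finset.sup_le
  intro e _
  refine (MvPolynomial.totalDegree_monomial_le _ _).trans ?_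
  rw [Finsupp.sum_fintype _ _ (fun _ => rfl)]
  calc ∑ i, (toF e) i ≤ ∑ _i : Fin n, D := by
        apply Finset.sum_le_sum
        intro i _
        rw [toF_apply]
        have := (e i).2
        omega
    _ = n * D := by simp

lemma aeval_mkP {A : Subfield C} (τ : Fin n → C) {D : ℕ} (c : (Fin n → Fin (D + 1)) → A) :
    MvPolynomial.aeval τ (mkP c) = pv τ D fun e => (c e : C) := by
  unfold mkP pv
  rw [map_sum]
  apply Finset.sum_congr rfl
  intro e _
  rw [MvPolynomial.aeval_monomial, Finsupp.prod_fintype _ _ (fun _ => pow_zero _)]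
  rfl

lemma aeval_eq_pv {A : Subfield C} (τ : Fin n → C) {D : ℕ} {P : MvPolynomial (Fin n) A}
    (hP : P.totalDegree ≤ D) :
    MvPolynomial.aeval τ P = pv τ D fun e => ((P.coeff (toF e) : A) : C) := by
  conv_lhs => rw [mkP_of hP]
  rw [aeval_mkP]

/-- the rational function field -/
def gen (A : Subfield C) (τ : Fin n → C) : Subfield C := Subfield.closure (A ∪ Set.range τ)

lemma mem_gen_adjoin {A : Subfield C} {τ : Fin n → C} {x : C} :
    x ∈ gen A τ ↔ x ∈ IntermediateField.adjoin A (Set.range τ) := by
  rw [← IntermediateField.mem_toSubfield, IntermediateField.adjoin_toSubfield]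
  have : Set.range (algebraMap A C) = (A : Set C) := Subtype.range_coe
  rw [this]
  rfl

lemma le_gen {A : Subfield C} {τ : Fin n → C} : A ≤ gen A τ := fun _ hx =>
  Subfield.subset_closure (Or.inl hx)

lemma gen_mem {A : Subfield C} {τ : Fin n → C} (i : Fin n) : τ i ∈ gen A τ :=
  Subfield.subset_closure (Or.inr ⟨i, rfl⟩)

lemma pv_mem {A : Subfield C} {τ : Fin n → C} {D : ℕ} {c : (Fin n → Fin (D + 1)) → C}
    (hc : ∀ e, c e ∈ A) : pv τ D c ∈ gen A τ := by
  unfold pv
  apply Subfield.sum_mem
  intro e _
  apply Subfield.mul_mem _ (le_gen (hc e))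
  apply Subfield.prod_mem
  intro i _
  exact Subfield.pow_mem _ (gen_mem i) _

lemma mem_gen_iff {A : Subfield C} {τ : Fin n → C} {x : C} :
    x ∈ gen A τ ↔ ∃ (D : ℕ) (c c' : (Fin n → Fin (D + 1)) → C), (∀ e, c e ∈ A) ∧
      (∀ e, c' e ∈ A) ∧ pv τ D c' ≠ 0 ∧ pv τ D c' * x = pv τ D c := by
  constructor
  · intro hx
    by_cases h0 : x = 0
    · subst h0
      refine ⟨0, 0, fun e => if e = 0 then 1 else 0, fun _ => A.zero_mem, fun e => ?_, ?_, ?_⟩
      · dsimp only
        split_ifs
        · exact A.one_mem
        · exact A.zero_mem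
      · unfold pv
        simp
        rfl
      · unfold pv
        simp
    · rw [mem_gen_adjoin, IntermediateField.mem_adjoin_range_iff] at hx
      obtain ⟨r, s, hrs⟩ := hx
      refine ⟨max r.totalDegree s.totalDegree, fun e => ((r.coeff (toF e) : A) : C),
        fun e => ((s.coeff (toF e) : A) : C), fun e => (r.coeff (toF e)).2,
        fun e => (s.coeff (toF e)).2, ?_, ?_⟩
      · rw [← aeval_eq_pv τ (le_max_right _ _)]
        intro h1
        rw [h1, div_zero] at hrs
        exact h0 hrs
      · rw [← aeval_eq_pv τ (le_max_right _ _), ← aeval_eq_pv τ (le_max_left _ _), hrs,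
          mul_div_cancel₀]
        intro h1
        rw [h1, div_zero] at hrs
        exact h0 hrs
  · rintro ⟨D, c, c', hc, hc', h0, hx⟩
    have h1 : x = pv τ D c / pv τ D c' := by
      rw [eq_div_iff h0, mul_comm, hx]
    rw [h1]
    exact Subfield.div_mem _ (pv_mem hc) (pv_mem hc')

lemma algInd_iff {A : Subfield C} {τ : Fin n → C} :
    AlgebraicIndependent A τ ↔ ∀ (D : ℕ) (c : (Fin n → Fin (D + 1)) → C), (∀ e, c e ∈ A) →
      pv τ D c = 0 → c = 0 := by
  rw [algebraicIndependent_iff]
  constructor
  · intro h D c hc h0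
    have h1 := h (mkP fun e => (⟨c e, hc e⟩ : A)) (by rw [aeval_mkP]; exact h0)
    funext e
    have h2 := mkP_coeff (fun e => (⟨c e, hc e⟩ : A)) e
    rw [h1, MvPolynomial.coeff_zero] at h2
    exact (congrArg Subtype.val h2).symm
  · intro h P hP
    have h1 := h P.totalDegree (fun e => ((P.coeff (toF e) : A) : C)) (fun e => (P.coeff _).2) (by
      rw [← aeval_eq_pv τ le_rfl]; exact hP)
    rw [mkP_of (P := P) le_rfl]
    have h2 : (fun e : Fin n → Fin (P.totalDegree + 1) => P.coeff (toF e)) = 0 := by
      funext e
      exact Subtype.ext (congrFun h1 e)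
    rw [h2]
    unfold mkP
    simp

/-- The rational root theorem in bounded complexity. -/
theorem bounded_root {A : Subfield C} {τ : Fin n → C} (hτ : AlgebraicIndependent A τ) {x : C}
    (hx : x ∈ gen A τ) (D : ℕ) : ∀ (N : ℕ) (c : Fin (N + 1) → (Fin n → Fin (D + 1)) → C),
    (∀ i e, c i e ∈ A) → c ≠ 0 → ∑ i, pv τ D (c i) * x ^ (i : ℕ) = 0 →
    ∃ P Q : (Fin n → Fin (n * D + 1)) → C, (∀ e, P e ∈ A) ∧ (∀ e, Q e ∈ A) ∧
      pv τ (n * D) Q ≠ 0 ∧ pv τ (n * D) Q * x = pv τ (n * D) P := by
  intro N
  induction N with
  | zero =>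
    intro c hc hc0 hx0
    exfalso
    rw [Fin.sum_univ_succ] at hx0
    simp only [Fin.val_zero, pow_zero, mul_one, Finset.univ_eq_empty, Finset.sum_empty,
      add_zero] at hx0
    apply hc0
    funext i
    rw [show i = 0 from Subsingleton.elim (α := Fin 1) i 0]
    exact algInd_iff.mp hτ D (c 0) (hc 0) hx0
  | succ N ih =>
    intro c hc hc0 hx0
    by_cases hx1 : x = 0
    · subst hx1
      refine ⟨0, fun e => if e = 0 then 1 else 0, fun _ => A.zero_mem, fun e => ?_, ?_, ?_⟩
      · dsimp only
        split_ifs
        · exact A.one_mem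
        · exact A.zero_mem
      · unfold pv
        simp
      · unfold pv
        simp
    by_cases h0 : c 0 = 0
    · refine ih (fun i => c i.succ) (fun i e => hc _ e) ?_ ?_
      · intro h1
        apply hc0
        funext i
        refine Fin.cases h0 (fun i => ?_) i
        exact congrFun h1 i
      · rw [Fin.sum_univ_succ] at hx0
        have h1 : pv τ D (c 0) = 0 := by
          rw [h0]
          unfold pv
          simp
        rw [h1, zero_mul, zero_add] at hx0
        have h2 : x * ∑ i : Fin (N + 1), pv τ D (c i.succ) * x ^ (i : ℕ) = 0 := by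
          rw [← hx0, Finset.mul_sum]
          apply Finset.sum_congr rfl
          intro i _
          rw [Fin.val_succ, pow_succ]
          ring
        exact (mul_eq_zero.mp h2).resolve_left hx1
    · -- the rational root theorem
      let R := MvPolynomial (Fin n) A
      let K := FractionRing R
      rw [mem_gen_adjoin] at hx
      let x' : K := hτ.aevalEquivField.symm ⟨x, hx⟩
      let φ : K →+* C := (IntermediateField.val _).toRingHom.comp hτ.aevalEquivField.toRingEquiv.toRingHom
      have hφx : φ x' = x := by
        change ((hτ.aevalEquivField (hτ.aevalEquivField.symm ⟨x, hx⟩) : _) : C) = x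
        rw [AlgEquiv.apply_symm_apply]
      have hφR : ∀ r : R, φ (algebraMap R K r) = MvPolynomial.aeval τ r := fun r =>
        hτ.aevalEquivField_algebraMap_apply_coe r
      let q : Fin (N + 2) → R := fun i => mkP fun e => (⟨c i e, hc i e⟩ : A)
      have hq : ∀ i, MvPolynomial.aeval τ (q i) = pv τ D (c i) := fun i => aeval_mkP τ _
      let p : R[X] := ∑ i : Fin (N + 2), Polynomial.C (q i) * X ^ (i : ℕ)
      have hpc : ∀ i : Fin (N + 2), p.coeff i = q i := by
        intro i
        simp only [p, finsetSum_coeff, coeff_C_mul, coeff_X_pow]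
        rw [Finset.sum_eq_single i]
        · simp
        · intro l _ hl
          rw [if_neg, mul_zero]
          intro h2
          exact hl (Fin.ext h2.symm)
        · intro h2
          exact absurd (Finset.mem_univ _) h2
      have hpd : p.natDegree ≤ N + 1 := by
        apply natDegree_sum_le_of_forall_le
        intro i _
        refine (natDegree_C_mul_X_pow_le _ _).trans (Nat.lt_succ_iff.mp i.2)
      have hq0 : q 0 ≠ 0 := by
        intro h1
        apply h0
        funext e
        have h2 := mkP_coeff (fun e => (⟨c 0 e, hc 0 e⟩ : A)) e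
        have h3 : mkP (fun e => (⟨c 0 e, hc 0 e⟩ : A)) = 0 := h1
        rw [h3, MvPolynomial.coeff_zero] at h2
        exact (congrArg Subtype.val h2).symm
      have hp0 : p ≠ 0 := by
        intro h1
        apply hq0
        rw [← hpc 0, h1, coeff_zero]
      have hroot : aeval x' p = 0 := by
        apply φ.injective
        rw [map_zero, ← hx0]
        simp only [p, map_sum, map_mul, map_pow, aeval_C, aeval_X, hφx, hφR, hq]
      have hnum := num_dvd_of_is_root hroot
      have hden := den_dvd_of_is_root hroot
      have h1 : (IsFractionRing.num R x').totalDegree ≤ n * D := by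
        have h2 : p.coeff 0 = q 0 := hpc 0
        rw [h2] at hnum
        exact (MvPolynomial.totalDegree_le_of_dvd_of_isDomain hnum hq0).trans (mkP_totalDegree _)
      have h3 : (IsFractionRing.den R x' : R).totalDegree ≤ n * D := by
        have h4 : p.leadingCoeff ≠ 0 := leadingCoeff_ne_zero.mpr hp0
        refine (MvPolynomial.totalDegree_le_of_dvd_of_isDomain hden h4).trans ?_
        have h5 := hpc ⟨p.natDegree, by omega⟩
        change p.leadingCoeff = _ at h5
        rw [h5]
        exact mkP_totalDegree _
      have hden0 : algebraMap R K (IsFractionRing.den R x' : R) ≠ 0 :=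
        IsFractionRing.to_map_ne_zero_of_mem_nonZeroDivisors (IsFractionRing.den R x').2
      refine ⟨fun e => (((IsFractionRing.num R x').coeff (toF e) : A) : C),
        fun e => (((IsFractionRing.den R x' : R).coeff (toF e) : A) : C),
        fun e => Subtype.coe_prop _, fun e => Subtype.coe_prop _, ?_, ?_⟩
      · rw [← aeval_eq_pv τ h3, ← hφR]
        rw [Ne, map_eq_zero_iff φ φ.injective]
        exact hden0
      · rw [← aeval_eq_pv τ h3, ← aeval_eq_pv τ h1, ← hφR, ← hφR, ← hφx, ← map_mul]
        congr 1
        have h6 := IsFractionRing.mk'_num_den' R x'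
        rw [div_eq_iff hden0] at h6
        rw [h6, mul_comm]

end basic

end Pool.Agent.Helper37.UL
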