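import Pool.Agent.Helper37.UL.E6
import Pool.Agent.Helper37.UL.Ext
import Pool.Agent.Helper37.UL.Germ2

/-!
# Blocks E1 and E2 in an arbitrary algebraically closed field
-/

universe u

namespace Pool.Agent.Helper37.UL

open Polynomial Pool.Agent.Helper91.Sect

section transport

variable {S : Type u} [Field S] [IsAlgClosed S] {K : Subfield S}

/-- the inclusion of the algebraic closure of a subfield -/
noncomputable def inc (K : Subfield S) : algebraicClosure K S →+* S := algebraMap (algebraicClosure K S) S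

omit [IsAlgClosed S] in
theorem exists_inc {x : S} (hx : IsAlgebraic K x) : ∃ y : algebraicClosure K S, inc K y = x :=
  ⟨⟨x, mem_algebraicClosure_iff.2 hx⟩, rfl⟩

omit [IsAlgClosed S] in
theorem exists_inc_of_mem {x : S} (hx : x ∈ K) : ∃ y : algebraicClosure K S, inc K y = x :=
  exists_inc (isAlgebraic_algebraMap (⟨x, hx⟩ : K))

/-- the copy of a subfield of `K` in the algebraic closure -/
noncomputable def down (K A : Subfield S) : Subfield (algebraicClosure K S) := A.comap (inc K)

omit [IsAlgClosed S] in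
theorem mem_down {A : Subfield S} {x : algebraicClosure K S} : x ∈ down K A ↔ inc K x ∈ A := Iff.rfl

/-- the isomorphism of a subfield of `K` with its copy -/
noncomputable def toDown {A : Subfield S} (hA : A ≤ K) : A →+* down K A where
  toFun x := ⟨⟨x, mem_algebraicClosure_iff.2 (isAlgebraic_algebraMap (⟨x, hA x.2⟩ : K))⟩, x.2⟩
  map_one' := rfl
  map_mul' _ _ := rfl
  map_zero' := rfl
  map_add' _ _ := rfl

omit [IsAlgClosed S] in
theorem inc_toDown {A : Subfield S} (hA : A ≤ K) (x : A) : inc K (toDown hA x) = x := rfl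

omit [IsAlgClosed S] in
theorem isAlgebraic_down {X : Subfield (algebraicClosure K S)} (hX : ∀ x : S, x ∈ K → ∃ y ∈ X, inc K y = x)
    (x : algebraicClosure K S) : IsAlgebraic X x := by
  have h1 : IsAlgebraic K (x : S) := mem_algebraicClosure_iff.1 x.2
  obtain ⟨n, c, hc, hc0, hcx⟩ := isAlgebraic_iff.1 h1
  rw [isAlgebraic_iff]
  choose f hf hfc using fun i => hX (c i) (hc i)
  refine ⟨n, f, hf, ?_, ?_⟩
  · intro h0
    apply hc0
    funext i
    rw [← hfc i, h0]
    exact map_zero _
  · apply (inc K).injective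
    rw [map_sum, map_zero, ← hcx]
    refine Finset.sum_congr rfl fun i _ => ?_
    rw [map_mul, map_pow, hfc]
    rfl

omit [IsAlgClosed S] in
theorem exists_of_mem_closure {A : Set S} {B : Set (algebraicClosure K S)} (hAB : inc K '' B = A)
    {x : S} (hx : x ∈ Subfield.closure A) : ∃ y ∈ Subfield.closure B, inc K y = x := by
  rw [← hAB, ← RingHom.map_field_closure] at hx
  exact hx

end transport

/-- **Block E1** in an arbitrary algebraically closed field. -/
theorem two_trans_gen {S : Type u} [Field S] [IsAlgClosed S] [CharZero S] {A : Subfield S}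
    {τ : Fin 1 → S} (hτ : AlgebraicIndependent A τ) {d : ℕ} (hd : 3 ≤ d)
    (c : Fin (d + 1) → A[X]) (W : ValuationSubring S)
    (hW : ∀ n : ℕ, n ≠ 0 → W.valuation (n : S) = 1)
    (hc : ∀ i r, ((c i).coeff r : S) ∈ W)
    (hlast : ∀ r, W.valuation (((c (Fin.last d)).coeff r : S) - if r = 0 then 1 else 0) < 1)
    (hprev : ∀ i : Fin (d + 1), (i : ℕ) = d - 1 → ∀ r,
      W.valuation (((c i).coeff r : S) + if r = 0 then 1 else 0) < 1)
    (hzero : ∀ r, W.valuation (((c 0).coeff r : S) + if r = 1 then 1 else 0) < 1)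
    (hrest : ∀ i : Fin (d + 1), (i : ℕ) ≠ d → (i : ℕ) ≠ d - 1 → (i : ℕ) ≠ 0 → ∀ r,
      W.valuation ((c i).coeff r : S) < 1)
    {θ : Fin d → S} (hθ : Function.Injective θ)
    (hroot : ∀ i, ∑ l, aeval (τ 0) (c l) * θ i ^ (l : ℕ) = 0)
    {i j i' j' : Fin d} (hij : i ≠ j) (hij' : i' ≠ j') :
    ∃ σ : S ≃+* S, (∀ x ∈ gen A τ, σ x = x) ∧ σ (θ i) = θ i' ∧ σ (θ j) = θ j' := by
  classical
  set t : S := τ 0 with ht
  have hτt : Set.range τ = {t} := by
    ext x
    constructor
    · rintro ⟨i, rfl⟩
      rw [Subsingleton.elim i 0]; rfl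
    · rintro rfl
      exact ⟨0, rfl⟩
  set K : Subfield S := gen A τ with hK
  have hKc : K = Subfield.closure ((A : Set S) ∪ {t}) := by rw [hK, gen, hτt]
  have hAK : A ≤ K := le_gen
  have htK : t ∈ K := gen_mem 0
  obtain ⟨t', ht'⟩ := exists_inc_of_mem htK
  have htr : Transcendental A t := hτ.transcendental 0
  -- roots are algebraic
  have hlastne : aeval t (c (Fin.last d)) ≠ 0 := by
    rw [Ne, map_eq_zero_iff _ (transcendental_iff_injective.1 htr)]
    intro h0
    have h1 := hlast 0
    rw [h0] at h1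
    simp at h1
  have hcK : ∀ l, aeval t (c l) ∈ K := by
    intro l
    have h1 := aeval_mem_adjoin_singleton A t (p := c l)
    rw [aeval_eq_sum_range]
    refine Subfield.sum_mem _ fun i _ => ?_
    rw [Algebra.smul_def]
    exact K.mul_mem (hAK (Subtype.coe_prop _)) (K.pow_mem htK i)
  have hθalg : ∀ i, IsAlgebraic K (θ i) := by
    intro i
    rw [isAlgebraic_iff]
    refine ⟨d, fun l => aeval t (c l), hcK, ?_, hroot i⟩
    intro h0
    exact hlastne (congrFun h0 (Fin.last d))
  choose θ' hθ' using fun i => exists_inc (hθalg i)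
  set e := toDown hAK with he
  have hev : ∀ p : A[X], inc K (aeval t' (p.map e)) = aeval t p := by
    intro p
    rw [aeval_def, hom_eval₂, ht', eval₂_map, aeval_def]
    rfl
  have htr' : Transcendental (down K A) t' := by
    rintro ⟨p, hp0, hp⟩
    let f : down K A →+* A :=
      ((inc K).comp (down K A).subtype).codRestrict A.toSubring (fun x => x.2)
    apply htr
    refine ⟨p.map f, (Polynomial.map_ne_zero_iff f.injective).2 hp0, ?_⟩
    have h1 := congrArg (inc K) hp
    rw [map_zero, aeval_def, hom_eval₂, ht'] at h1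
    rw [aeval_def, eval₂_map, ← h1]
    rfl
  have himg : inc K '' ((down K A : Set _) ∪ {t'}) = (A : Set S) ∪ {t} := by
    rw [Set.image_union, Set.image_singleton, ht']
    congr 1
    ext x
    constructor
    · rintro ⟨y, hy, rfl⟩
      exact hy
    · intro hx
      exact ⟨toDown hAK ⟨x, hx⟩, (toDown hAK ⟨x, hx⟩).2, rfl⟩
  have hC : ∀ x : algebraicClosure K S,
      IsAlgebraic (Subfield.closure ((down K A : Set _) ∪ {t'})) x := by
    intro x
    refine isAlgebraic_down (fun y hy => ?_) x
    rw [hKc] at hy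
    exact exists_of_mem_closure himg hy
  have hcoeff : ∀ i r, inc K (((c i).map e).coeff r : down K A) = ((c i).coeff r : S) := by
    intro i r
    rw [coeff_map]; rfl
  have hac : IsAlgClosed (algebraicClosure K S) := IsAlgClosure.isAlgClosed K
  obtain ⟨σ, hσΛ, hσt, hσi, hσj⟩ := two_trans' (C := algebraicClosure K S) htr' hd hC
    (fun l => (c l).map e) (W.comap (inc K)) (fun n hn => by
      rw [comap_eq_one, map_natCast]; exact hW n hn)
    (fun i r => by rw [ValuationSubring.mem_comap, hcoeff]; exact hc i r)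
    (fun r => by
      rw [comap_lt_one, map_sub, hcoeff]
      have h1 : inc K (if r = 0 then 1 else 0) = if r = 0 then 1 else 0 := by split_ifs <;> simp
      rw [h1]; exact hlast r)
    (fun i hi r => by
      rw [comap_lt_one, map_add, hcoeff]
      have h1 : inc K (if r = 0 then 1 else 0) = if r = 0 then 1 else 0 := by split_ifs <;> simp
      rw [h1]; exact hprev i hi r)
    (fun r => by
      rw [comap_lt_one, map_add, hcoeff]
      have h1 : inc K (if r = 1 then 1 else 0) = if r = 1 then 1 else 0 := by split_ifs <;> simp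
      rw [h1]; exact hzero r)
    (fun i h1 h2 h3 r => by
      rw [comap_lt_one, hcoeff]; exact hrest i h1 h2 h3 r)
    (θ := θ') (fun a b hab => hθ (by rw [← hθ' a, ← hθ' b, hab]))
    (fun i => by
      apply (inc K).injective
      rw [map_sum, map_zero, ← hroot i]
      refine Finset.sum_congr rfl fun l _ => ?_
      rw [map_mul, map_pow, hθ', hev])
    hij hij'
  obtain ⟨τ', hτ'⟩ := extend_aut (K := K) (C := S) σ
  have hτ'' : ∀ a, τ' (inc K a) = inc K (σ a) := hτ'
  refine ⟨τ', ?_, ?_, ?_⟩
  · intro x hx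
    have h1 : Subfield.closure ((A : Set S) ∪ {t}) ≤ (RingEquiv.toRingHom τ').eqLocusField (RingHom.id S) := by
      rw [Subfield.closure_le]
      rintro y (hy | hy)
      · change τ' y = y
        have h2 := hτ'' (toDown hAK ⟨y, hy⟩)
        rw [hσΛ _ (toDown hAK ⟨y, hy⟩).2] at h2
        exact h2
      · change τ' y = y
        rw [Set.mem_singleton_iff.1 hy, ← ht', hτ'', hσt]
    rw [hKc] at hx
    exact h1 hx
  · rw [← hθ' i, hτ'', hσi, hθ']
  · rw [← hθ' j, hτ'', hσj, hθ']

/-- **Block E2** in an arbitrary algebraically closed field. -/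
theorem no_lev_gen {S : Type u} [Field S] [IsAlgClosed S] [CharZero S] {A : Subfield S}
    {τ : Fin 2 → S} (hτ : AlgebraicIndependent A τ) {p d : ℕ} (hp : p.Prime) (hd : 3 ≤ d)
    (c : Fin (d + 1) → MvPolynomial (Fin 2) A) (W : ValuationSubring S)
    (hW : ∀ n : ℕ, n ≠ 0 → W.valuation (n : S) = 1)
    (hc : ∀ i r, ((MvPolynomial.coeff r (c i) : A) : S) ∈ W)
    (hc0 : ∀ i, W.valuation ((MvPolynomial.coeff 0 (c i) : A) : S) < 1)
    (hct : ∀ i, W.valuation
      (((MvPolynomial.coeff (Finsupp.single (0 : Fin 2) 1) (c i) : A) : S) + if i = 0 then 1 else 0) < 1)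
    (hcv : ∀ i, W.valuation
      (((MvPolynomial.coeff (Finsupp.single (1 : Fin 2) 1) (c i) : A) : S) -
      if (i : ℕ) = d then 1 else if (i : ℕ) = d - 1 then -1 else 0) < 1)
    {θ : Fin d → S} {z : Fin d → Fin d → S} {α : S}
    (h : Lev (gen A τ) p (fun i => MvPolynomial.aeval τ (c i)) θ z α) : False := by
  classical
  set t : S := τ 0 with ht
  set v : S := τ 1 with hv
  have hτe : τ = ![t, v] := by
    funext i
    fin_cases i <;> rfl
  have hτr : Set.range τ = {t, v} := by
    rw [hτe, Matrix.range_cons, Matrix.range_cons, Matrix.range_empty, Set.union_empty,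
      Set.singleton_union]
  set K : Subfield S := gen A τ with hK
  have hKc : K = Subfield.closure ((A : Set S) ∪ {t, v}) := by rw [hK, gen, hτr]
  have hAK : A ≤ K := le_gen
  have htK : t ∈ K := gen_mem 0
  have hvK : v ∈ K := gen_mem 1
  obtain ⟨t', ht'⟩ := exists_inc_of_mem htK
  obtain ⟨v', hv'⟩ := exists_inc_of_mem hvK
  set e := toDown hAK with he
  have hev : ∀ P : MvPolynomial (Fin 2) A,
      inc K (MvPolynomial.aeval ![t', v'] (MvPolynomial.map e P)) = MvPolynomial.aeval τ P := by
    intro P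
    rw [MvPolynomial.aeval_def, MvPolynomial.eval₂_map, MvPolynomial.hom_eval₂,
      MvPolynomial.aeval_def]
    congr 1
    funext i
    fin_cases i
    · exact ht'
    · exact hv'
  have hind : AlgebraicIndependent (down K A) ![t', v'] := by
    rw [algebraicIndependent_iff]
    intro P hP
    let f : down K A →+* A :=
      ((inc K).comp (down K A).subtype).codRestrict A.toSubring (fun x => x.2)
    have h1 : MvPolynomial.aeval τ (MvPolynomial.map f P) = 0 := by
      have h2 := congrArg (inc K) hP
      rw [map_zero, MvPolynomial.aeval_def, MvPolynomial.hom_eval₂] at h2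
      rw [MvPolynomial.aeval_def, MvPolynomial.eval₂_map, ← h2]
      congr 1
      funext i
      fin_cases i
      · exact ht'.symm
      · exact hv'.symm
    have h2 := (algebraicIndependent_iff.1 hτ) _ h1
    rwa [map_eq_zero_iff _ (MvPolynomial.map_injective f f.injective)] at h2
  have himg : inc K '' ((down K A : Set _) ∪ {t', v'}) = (A : Set S) ∪ {t, v} := by
    rw [Set.image_union, Set.image_pair, ht', hv']
    congr 1
    ext x
    constructor
    · rintro ⟨y, hy, rfl⟩
      exact hy
    · intro hx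
      exact ⟨toDown hAK ⟨x, hx⟩, (toDown hAK ⟨x, hx⟩).2, rfl⟩
  set K' : Subfield (algebraicClosure K S) := Subfield.closure ((down K A : Set _) ∪ {t', v'}) with hK'
  have hlift : ∀ x ∈ K, ∃ y ∈ K', inc K y = x := by
    intro x hx
    rw [hKc] at hx
    exact exists_of_mem_closure himg hx
  have hK'K : ∀ y ∈ K', inc K y ∈ K := by
    intro y hy
    have h1 : inc K y ∈ K'.map (inc K) := ⟨y, hy, rfl⟩
    rw [hK', RingHom.map_field_closure, himg, ← hKc] at h1
    exact h1
  have hC : ∀ x : algebraicClosure K S, IsAlgebraic K' x := isAlgebraic_down hlift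
  -- the algebraic elements
  have hθalg : ∀ i, IsAlgebraic K (θ i) := by
    intro i
    rw [isAlgebraic_iff]
    refine ⟨d, _, h.coef, ?_, h.root i⟩
    intro h0
    exact h.lead (congrFun h0 (Fin.last d))
  have hsub : ∀ x ∈ algebraicClosure K S, ∃ y : algebraicClosure K S, inc K y = x :=
    fun x hx => ⟨⟨x, hx⟩, rfl⟩
  have hθm : ∀ i, θ i ∈ algebraicClosure K S := fun i => mem_algebraicClosure_iff.2 (hθalg i)
  have hKm : ∀ x ∈ K, x ∈ algebraicClosure K S := fun x hx =>
    mem_algebraicClosure_iff.2 (isAlgebraic_algebraMap (⟨x, hx⟩ : K))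
  have hpowm : ∀ (x : S) (n : ℕ), n ≠ 0 → x ^ n ∈ algebraicClosure K S → x ∈ algebraicClosure K S := by
    intro x n hn hx
    rw [mem_algebraicClosure_iff] at hx ⊢
    exact hx.of_pow (Nat.pos_of_ne_zero hn)
  obtain ⟨φ, hφ, hpow⟩ := h.pow
  obtain ⟨ψ, hψ, hcoc⟩ := h.coc
  obtain ⟨χ, hχ, hnrm⟩ := h.nrm
  have hzm : ∀ i j, i ≠ j → z i j ∈ algebraicClosure K S := by
    intro i j hij
    apply hpowm _ p hp.ne_zero
    rw [hpow i j hij]
    refine sum_mem fun r _ => sum_mem fun s _ => mul_mem (hKm _ (hφ r s)) ?_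
    exact mul_mem (pow_mem (hθm i) _) (pow_mem (hθm j) _)
  have hαm : α ∈ algebraicClosure K S := by
    apply hpowm _ p hp.ne_zero
    rw [h.alpha]
    exact hKm _ (h.coef _)
  choose θ' hθ' using fun i => hsub _ (hθm i)
  obtain ⟨α', hα'⟩ := hsub _ hαm
  have hzex : ∀ i j, ∃ y : algebraicClosure K S, i ≠ j → inc K y = z i j := by
    intro i j
    by_cases hij : i = j
    · exact ⟨0, fun h => absurd hij h⟩
    · obtain ⟨y, hy⟩ := hsub _ (hzm i j hij)
      exact ⟨y, fun _ => hy⟩
  choose z' hz' using hzex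
  choose φ' hφ' hφe using fun r s => hlift _ (hφ r s)
  choose ψ' hψ' hψe using fun r s t => hlift _ (hψ r s t)
  choose χ' hχ' hχe using fun r => hlift _ (hχ r)
  have hac : IsAlgClosed (algebraicClosure K S) := IsAlgClosure.isAlgClosed K
  have hcoeff : ∀ i r, inc K (MvPolynomial.coeff r (MvPolynomial.map e (c i)) : down K A) =
      ((MvPolynomial.coeff r (c i) : A) : S) := by
    intro i r
    rw [MvPolynomial.coeff_map]; rfl
  refine no_lev' (C := algebraicClosure K S) hind hC hp hd
    (fun l => MvPolynomial.map e (c l)) (W.comap (inc K)) (fun n hn => by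
      rw [comap_eq_one, map_natCast]; exact hW n hn)
    (fun i r => by rw [ValuationSubring.mem_comap, hcoeff]; exact hc i r)
    (fun i => by rw [comap_lt_one, hcoeff]; exact hc0 i)
    (fun i => by
      rw [comap_lt_one, map_add, hcoeff]
      have h1 : inc K (if i = 0 then 1 else 0) = if i = 0 then 1 else 0 := by split_ifs <;> simp
      rw [h1]; exact hct i)
    (fun i => by
      rw [comap_lt_one, map_sub, hcoeff]
      have h1 : inc K (if (i : ℕ) = d then 1 else if (i : ℕ) = d - 1 then -1 else 0) =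
          if (i : ℕ) = d then 1 else if (i : ℕ) = d - 1 then -1 else 0 := by split_ifs <;> simp
      rw [h1]; exact hcv i)
    (θ := θ') (z := z') (α := α') ?_
  have hinj := (inc K).injective
  constructor
  · intro i
    obtain ⟨y, hy, hye⟩ := hlift _ (h.coef i)
    have h1 : y = MvPolynomial.aeval ![t', v'] (MvPolynomial.map e (c i)) := by
      apply hinj
      rw [hye, hev]
    rw [← h1]; exact hy
  · intro h0
    apply h.lead
    have h1 := congrArg (inc K) h0
    rw [hev, map_zero] at h1
    exact h1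
  · intro a b hab
    exact h.inj (by rw [← hθ' a, ← hθ' b, hab])
  · intro i
    apply hinj
    rw [map_sum, map_zero, ← h.root i]
    refine Finset.sum_congr rfl fun l _ => ?_
    rw [map_mul, map_pow, hθ', hev]
  · intro i j hij h0
    apply h.ne i j hij
    rw [← hz' i j hij, h0, map_zero]
  · refine ⟨φ', hφ', fun i j hij => ?_⟩
    apply hinj
    rw [map_pow, hz' i j hij, hpow i j hij]
    simp only [map_sum, map_mul, map_pow, hθ', hφe]
  · refine ⟨ψ', hψ', fun i j l hij hjl hil => ?_⟩
    apply hinj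
    rw [map_mul, map_mul, hz' i j hij, hz' j l hjl, hz' i l hil, hcoc i j l hij hjl hil]
    simp only [map_sum, map_mul, map_pow, hθ', hψe]
  · apply hinj
    rw [map_pow, hα', hev, h.alpha]
  · refine ⟨χ', hχ', fun i => ?_⟩
    apply hinj
    rw [map_mul, map_prod, hα']
    rw [Finset.prod_congr rfl fun j hj => hz' j i (Finset.ne_of_mem_erase hj), hnrm i]
    simp only [map_sum, map_mul, map_pow, hθ', hχe]

end Pool.Agent.Helper37.UL
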