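import Mathlib
import Pool.Agent.Helper37.UL.Germ2

/-!
# Ultrapowers and rational function fields
-/

universe u v w

namespace Pool.Agent.Helper37.UL

open Polynomial

variable {ι : Type v} {U : Ultrafilter ι} {C : Type u} [Field C] {S : Type w} [Field S]

namespace UP

variable {π : (ι → C) →+* S} (h : UP U π) {n : ℕ}

lemma map_pv (τ : Fin n → C) (D : ℕ) (c : (Fin n → Fin (D + 1)) → ι → C) :
    π (fun a => pv τ D fun e => c e a) = pv (fun i => cst π (τ i)) D fun e => π (c e) := by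
  unfold pv
  have h1 : (fun a => ∑ e : Fin n → Fin (D + 1), c e a * ∏ i, τ i ^ (e i : ℕ)) =
      ∑ e : Fin n → Fin (D + 1), c e * ∏ i, (fun _ : ι => τ i) ^ (e i : ℕ) := by
    funext a
    simp only [Finset.sum_apply, Pi.mul_apply, Finset.prod_apply, Pi.pow_apply]
  rw [h1, map_sum]
  apply Finset.sum_congr rfl
  intro e _
  rw [map_mul, map_prod]
  congr 1
  apply Finset.prod_congr rfl
  intro i _
  rw [map_pow]
  rfl

include h

/-- Constants which are algebraically independent over `A` are algebraically independent over the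
germs of functions into `A`. -/
theorem algInd {A : Subfield C} {τ : Fin n → C} (hτ : AlgebraicIndependent A τ) :
    AlgebraicIndependent (h.gsub A) fun i => cst π (τ i) := by
  rw [algInd_iff]
  intro D c hc h0
  obtain ⟨f, hf, hfc⟩ := h.lift_family hc
  have h1 : c = fun e => π (f e) := by
    funext e
    rw [hfc]
  rw [h1, ← map_pv, h.eq0] at h0
  rw [h1]
  funext e
  rw [Pi.zero_apply, h.eq0]
  filter_upwards [h0] with a ha
  exact congrFun (algInd_iff.mp hτ D _ (fun e => hf e a) ha) e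

/-- The rational function field over the germs is contained in the germs of functions into the
rational function field. -/
theorem gen_le {A : Subfield C} {τ : Fin n → C} :
    gen (h.gsub A) (fun i => cst π (τ i)) ≤ h.gsub (gen A τ) := by
  unfold gen
  rw [Subfield.closure_le, Set.union_subset_iff]
  refine ⟨h.gsub_mono le_gen, ?_⟩
  rintro _ ⟨i, rfl⟩
  exact h.const_mem_gsub.mpr (gen_mem i)

/-- It is relatively algebraically closed. -/
theorem gen_relAlgClosed {A : Subfield C} {τ : Fin n → C} (hτ : AlgebraicIndependent A τ) {x : S}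
    (hx : x ∈ h.gsub (gen A τ)) (halg : IsAlgebraic (gen (h.gsub A) fun i => cst π (τ i)) x) :
    x ∈ gen (h.gsub A) fun i => cst π (τ i) := by
  classical
  set A' := h.gsub A with hA'
  set τ' : Fin n → S := fun i => cst π (τ i) with hτ'
  have hind : AlgebraicIndependent A' τ' := h.algInd hτ
  obtain ⟨N, c, hc, hc0, hcx⟩ := isAlgebraic_iff.mp halg
  -- clear denominators
  have hc' := fun i => mem_gen_iff.mp (hc i)
  choose D P Q hP hQ hQ0 hPQ using hc'
  let q : S := ∏ i, pv τ' (D i) (Q i)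
  have hq0 : q ≠ 0 := Finset.prod_ne_zero_iff.mpr fun i _ => hQ0 i
  -- every product of values of polynomials is a value of a polynomial
  have hring : ∀ i, ∃ R : MvPolynomial (Fin n) A', MvPolynomial.aeval τ' R = q * c i := by
    intro i
    refine ⟨(∏ j ∈ Finset.univ.erase i, mkP fun e => (⟨Q j e, hQ j e⟩ : A')) *
      mkP fun e => (⟨P i e, hP i e⟩ : A'), ?_⟩
    rw [map_mul, map_prod, aeval_mkP]
    change _ * pv τ' (D i) (P i) = _
    rw [← hPQ i, ← mul_assoc]
    congr 1
    simp only [q]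
    rw [← Finset.prod_erase_mul _ _ (Finset.mem_univ i)]
    congr 1
    apply Finset.prod_congr rfl
    intro j _
    rw [aeval_mkP]
  choose R hR using hring
  let DD : ℕ := Finset.univ.sup fun i => (R i).totalDegree
  have hDD : ∀ i, (R i).totalDegree ≤ DD := fun i =>
    Finset.le_sup (f := fun i => (R i).totalDegree) (Finset.mem_univ i)
  obtain ⟨g, hg, hgc⟩ := h.lift_family (I := Fin (N + 1) × (Fin n → Fin (DD + 1)))
    (c := fun ie => (((R ie.1).coeff (toF ie.2) : A') : S)) (fun ie => Subtype.coe_prop _)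
  have hgR : ∀ i, π (fun a => pv τ DD fun e => g (i, e) a) = q * c i := by
    intro i
    rw [map_pv, ← hR i, aeval_eq_pv τ' (hDD i)]
    congr 1
    funext e
    exact hgc (i, e)
  obtain ⟨y, hy, hyx⟩ := hx
  have h1 : π (∑ i : Fin (N + 1), (fun a => pv τ DD fun e => g (i, e) a) * y ^ (i : ℕ)) = 0 := by
    rw [map_sum]
    simp only [map_mul, map_pow, hgR, hyx]
    have h2 : ∑ i : Fin (N + 1), q * c i * x ^ (i : ℕ) = q * ∑ i, c i * x ^ (i : ℕ) := by
      rw [Finset.mul_sum]
      apply Finset.sum_congr rfl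
      intro i _
      ring
    rw [h2, hcx, mul_zero]
  obtain ⟨j, hj⟩ := Function.ne_iff.mp hc0
  have h3 : π (fun a => pv τ DD fun e => g (j, e) a) ≠ 0 := by
    rw [hgR]
    exact mul_ne_zero hq0 hj
  have h4 : ∀ᶠ a in (U : Filter ι), ∃ PQ : ((Fin n → Fin (n * DD + 1)) → C) ×
      ((Fin n → Fin (n * DD + 1)) → C), (∀ e, PQ.1 e ∈ A) ∧ (∀ e, PQ.2 e ∈ A) ∧
      pv τ (n * DD) PQ.2 ≠ 0 ∧ pv τ (n * DD) PQ.2 * y a = pv τ (n * DD) PQ.1 := by
    filter_upwards [(h.eq0 _).mp h1, (h.ne0 _).mp h3] with a ha ha'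
    obtain ⟨P, Q, hP, hQ, hQ0, hPQ⟩ := bounded_root hτ (hy a) DD N (fun i e => g (i, e) a)
      (fun i e => hg (i, e) a) (fun h0 => ha' (by
        have h5 : (fun e => g (j, e) a) = 0 := congrFun h0 j
        rw [h5]
        unfold pv
        simp)) (by
        rw [← ha]
        simp only [Finset.sum_apply, Pi.mul_apply, Pi.pow_apply])
    exact ⟨(P, Q), hP, hQ, hQ0, hPQ⟩
  let PQ : ι → ((Fin n → Fin (n * DD + 1)) → C) × ((Fin n → Fin (n * DD + 1)) → C) := fun a =>
    if ha : ∃ PQ : ((Fin n → Fin (n * DD + 1)) → C) ×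
      ((Fin n → Fin (n * DD + 1)) → C), (∀ e, PQ.1 e ∈ A) ∧ (∀ e, PQ.2 e ∈ A) ∧
      pv τ (n * DD) PQ.2 ≠ 0 ∧ pv τ (n * DD) PQ.2 * y a = pv τ (n * DD) PQ.1 then ha.choose
    else 0
  have hPQs : ∀ᶠ a in (U : Filter ι), (∀ e, (PQ a).1 e ∈ A) ∧ (∀ e, (PQ a).2 e ∈ A) ∧
      pv τ (n * DD) (PQ a).2 ≠ 0 ∧ pv τ (n * DD) (PQ a).2 * y a = pv τ (n * DD) (PQ a).1 := by
    filter_upwards [h4] with a ha
    simp only [PQ, dif_pos ha]
    exact ha.choose_spec
  rw [mem_gen_iff]
  refine ⟨n * DD, fun e => π fun a => (PQ a).1 e, fun e => π fun a => (PQ a).2 e, fun e => ?_,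
    fun e => ?_, ?_, ?_⟩
  · rw [hA', h.coe_mem_gsub]
    filter_upwards [hPQs] with a ha
    exact ha.1 e
  · rw [hA', h.coe_mem_gsub]
    filter_upwards [hPQs] with a ha
    exact ha.2.1 e
  · rw [hτ', ← map_pv, h.ne0]
    filter_upwards [hPQs] with a ha
    exact ha.2.2.1
  · rw [hτ', ← map_pv, ← map_pv, ← hyx, ← map_mul, h.eq_iff]
    filter_upwards [hPQs] with a ha
    exact ha.2.2.2

end UP

end Pool.Agent.Helper37.UL
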