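import Mathlib
import Pool.Agent.Helper37.UL.Germ1
import Pool.Agent.Helper37.UL.Data

/-!
# Transfer of level one structures and of bounded data to ultrapowers
-/

universe u v w

namespace Pool.Agent.Helper37.UL

variable {ι : Type v} {U : Ultrafilter ι} {C : Type u} [Field C] {S : Type w} [Field S]

namespace UP

variable {π : (ι → C) →+* S} (h : UP U π)

/-- the germ of a family of functions -/
def ev {I : Type*} (π : (ι → C) →+* S) (f : ι → I → C) (i : I) : S := π fun a => f a i

include h

/-- transfer of level one structures -/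
theorem lev {X : Subfield C} {p d : ℕ} {f : ι → Fin (d + 1) → C} {θ : ι → Fin d → C}
    {z : ι → Fin d → Fin d → C} {α : ι → C} (hl : ∀ a, Lev X p (f a) (θ a) (z a) (α a)) :
    Lev (h.gsub X) p (fun i => π fun a => f a i) (fun i => π fun a => θ a i)
      (fun i j => π fun a => z a i j) (π α) := by
  refine ⟨fun i => ?_, ?_, ?_, fun i => ?_, fun i j hij => ?_, ?_, ?_, ?_, ?_⟩
  · exact ⟨_, fun a => (hl a).coef i, rfl⟩
  · rw [h.ne0]
    filter_upwards with a using (hl a).lead
  · intro i j hij
    by_contra hne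
    rw [h.eq_iff] at hij
    obtain ⟨a, ha⟩ := hij.exists
    exact hne ((hl a).inj ha)
  · have h1 : π (∑ l : Fin (d + 1), (fun a => f a l) * (fun a => θ a i) ^ (l : ℕ)) = 0 := by
      rw [h.eq0]
      filter_upwards with a
      rw [← (hl a).root i]
      simp only [Finset.sum_apply, Pi.mul_apply, Pi.pow_apply]
    rw [← h1, map_sum]
    apply Finset.sum_congr rfl
    intro l _
    rw [map_mul, map_pow]
  · rw [h.ne0]
    filter_upwards with a using (hl a).ne i j hij
  · have h1 := fun a => (hl a).pow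
    choose φ hφ hφ' using h1
    refine ⟨fun r s => π fun a => φ a r s, fun r s => ⟨_, fun a => hφ a r s, rfl⟩, ?_⟩
    intro i j hij
    have h2 : π ((fun a => z a i j) ^ p) = π (∑ r : Fin d, ∑ s : Fin d, (fun a => φ a r s) *
        ((fun a => θ a i) ^ (r : ℕ) * (fun a => θ a j) ^ (s : ℕ))) := by
      congr 1
      funext a
      simp only [Finset.sum_apply, Pi.mul_apply, Pi.pow_apply]
      exact hφ' a i j hij
    rw [map_pow] at h2
    rw [h2]
    simp only [map_sum, map_mul, map_pow]
  · have h1 := fun a => (hl a).coc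
    choose φ hφ hφ' using h1
    refine ⟨fun r s t => π fun a => φ a r s t, fun r s t => ⟨_, fun a => hφ a r s t, rfl⟩, ?_⟩
    intro i j l hij hjl hil
    have h2 : π ((fun a => z a i j) * (fun a => z a j l)) = π ((fun a => z a i l) *
        ∑ r : Fin d, ∑ s : Fin d, ∑ t : Fin d, (fun a => φ a r s t) *
        ((fun a => θ a i) ^ (r : ℕ) * (fun a => θ a j) ^ (s : ℕ) *
          (fun a => θ a l) ^ (t : ℕ))) := by
      congr 1
      funext a
      simp only [Finset.sum_apply, Pi.mul_apply, Pi.pow_apply]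
      exact hφ' a i j l hij hjl hil
    rw [map_mul] at h2
    rw [h2]
    simp only [map_sum, map_mul, map_pow]
  · have h2 : π (α ^ p) = π (fun a => f a (Fin.last d)) := by
      congr 1
      funext a
      exact (hl a).alpha
    rw [map_pow] at h2
    exact h2
  · have h1 := fun a => (hl a).nrm
    choose φ hφ hφ' using h1
    refine ⟨fun r => π fun a => φ a r, fun r => ⟨_, fun a => hφ a r, rfl⟩, ?_⟩
    intro i
    have h2 : π (α * ∏ j ∈ Finset.univ.erase i, fun a => z a j i) =
        π (∑ r : Fin d, (fun a => φ a r) * (fun a => θ a i) ^ (r : ℕ)) := by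
      congr 1
      funext a
      simp only [Finset.sum_apply, Pi.mul_apply, Pi.pow_apply, Finset.prod_apply]
      exact hφ' a i
    rw [map_mul, map_prod] at h2
    rw [h2]
    simp only [map_sum, map_mul, map_pow]

theorem cpx {κ : Subfield C} {d B : ℕ} {t : C} {x y g : ι → C}
    (hl : ∀ a, Cpx κ d B t (x a) (y a) (g a)) :
    Cpx (h.gsub κ) d B (cst π t) (π x) (π y) (π g) := by
  choose n q hn hq hq0 he using hl
  refine ⟨fun i j l => π fun a => n a i j l, fun l => π fun a => q a l,
    fun i j l => ⟨_, fun a => hn a i j l, rfl⟩, fun l => ⟨_, fun a => hq a l, rfl⟩, ?_, ?_⟩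
  · intro h0
    have h1 : ∀ᶠ a in (U : Filter ι), ∀ l, q a l = 0 := by
      rw [Filter.eventually_all]
      intro l
      exact (h.eq0 _).mp (congrFun h0 l)
    obtain ⟨a, ha⟩ := h1.exists
    exact hq0 a (funext ha)
  · have h2 : π ((∑ l : Fin (B + 1), (fun a => q a l) * (fun _ => t) ^ (l : ℕ)) * g) =
        π (∑ i : Fin d, ∑ j : Fin d, (∑ l : Fin (B + 1), (fun a => n a i j l) *
          (fun _ => t) ^ (l : ℕ)) * (x ^ (i : ℕ) * y ^ (j : ℕ))) := by
      congr 1
      funext a
      simp only [Finset.sum_apply, Pi.mul_apply, Pi.pow_apply]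
      exact he a
    simp only [map_sum, map_mul, map_pow] at h2
    exact h2

/-- transfer of bounded data -/
theorem data {κ Kg : Subfield C} {t : C} {d p B m : ℕ} {c : ι → Fin (d + 1) → Fin (m + 1) → C}
    {x y w : ι → C} (hl : ∀ a, Data κ Kg t d p B (c a) (x a) (y a) (w a)) :
    Data (h.gsub κ) (h.gsub Kg) (cst π t) d p B (fun i l => π fun a => c a i l)
      (π x) (π y) (π w) := by
  choose g r G u e hg hr hG hgG hA hR hu he hχ hχ' hgood using hl
  refine ⟨π g, π r, fun i j => π fun a => G a i j, fun i l => π fun a => u a i l,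
    fun i l => π fun a => e a i l, ?_, ?_, fun i j => ⟨_, fun a => hG a i j, rfl⟩, ?_, ?_, ?_,
    fun i l => ⟨_, fun a => hu a i l, rfl⟩, fun i l => ⟨_, fun a => he a i l, rfl⟩, ?_, ?_, ?_⟩
  · rw [h.ne0]
    filter_upwards with a using hg a
  · rw [h.ne0]
    filter_upwards with a using hr a
  · have h2 : π g = π (∑ i : Fin d, ∑ j : Fin d, (fun a => G a i j) *
        (x ^ (i : ℕ) * y ^ (j : ℕ))) := by
      congr 1
      funext a
      simp only [Finset.sum_apply, Pi.mul_apply, Pi.pow_apply]
      exact hgG a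
    simp only [map_sum, map_mul, map_pow] at h2
    exact h2
  · have := h.cpx (g := (w * g) ^ p) hA
    rwa [map_pow, map_mul] at this
  · exact h.cpx hR
  · have h2 : π (((w * g) ^ p) ^ B + ∑ i : Fin B, (∑ l : Fin (B + 1), (fun a => u a i l) *
        (fun _ => t) ^ (l : ℕ)) * ((w * g) ^ p) ^ (i : ℕ)) = 0 := by
      rw [h.eq0]
      filter_upwards with a
      simp only [Finset.sum_apply, Pi.mul_apply, Pi.pow_apply, Pi.add_apply]
      exact hχ a
    simp only [map_sum, map_mul, map_pow, map_add] at h2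
    exact h2
  · have h2 : π (((w * g * r) ^ p) ^ B + ∑ i : Fin B, (∑ l : Fin (B + 1), (fun a => e a i l) *
        (fun _ => t) ^ (l : ℕ)) * ((w * g * r) ^ p) ^ (i : ℕ)) = 0 := by
      rw [h.eq0]
      filter_upwards with a
      simp only [Finset.sum_apply, Pi.mul_apply, Pi.pow_apply, Pi.add_apply]
      exact hχ' a
    simp only [map_sum, map_mul, map_pow, map_add] at h2
    exact h2
  · rintro _ ⟨t₀, ht₀, rfl⟩ ⟨hg1, ρ, hρi, hρκ, hρ⟩ i hi
    obtain ⟨s, hs, hsρ⟩ := h.lift_family hρκ
    have e1 : ∀ᶠ a in (U : Filter ι), ∑ l, c a (Fin.last d) l * t₀ a ^ (l : ℕ) ≠ 0 := by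
      have h2 : π (∑ l : Fin (m + 1), (fun a => c a (Fin.last d) l) * t₀ ^ (l : ℕ)) ≠ 0 := by
        simp only [map_sum, map_mul, map_pow]
        exact hg1
      rw [h.ne0] at h2
      filter_upwards [h2] with a ha
      simpa only [Finset.sum_apply, Pi.mul_apply, Pi.pow_apply] using ha
    have e2 : ∀ᶠ a in (U : Filter ι), ∀ j : Fin d,
        ∑ i, (∑ l, c a i l * t₀ a ^ (l : ℕ)) * s j a ^ (i : ℕ) = 0 := by
      rw [Filter.eventually_all]
      intro j
      have h2 : π (∑ i : Fin (d + 1), (∑ l : Fin (m + 1), (fun a => c a i l) * t₀ ^ (l : ℕ)) *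
          s j ^ (i : ℕ)) = 0 := by
        simp only [map_sum, map_mul, map_pow, hsρ]
        exact hρ j
      rw [h.eq0] at h2
      filter_upwards [h2] with a ha
      simpa only [Finset.sum_apply, Pi.mul_apply, Pi.pow_apply] using ha
    have e3 : ∀ᶠ a in (U : Filter ι), ∀ j j' : Fin d, j ≠ j' → s j a ≠ s j' a := by
      rw [Filter.eventually_all]
      intro j
      rw [Filter.eventually_all]
      intro j'
      by_cases hjj : j = j'
      · filter_upwards with a h3 using absurd hjj h3
      · have h2 : π (s j) ≠ π (s j') := by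
          rw [hsρ, hsρ]
          exact fun h3 => hjj (hρi h3)
        rw [h.ne_iff] at h2
        filter_upwards [h2] with a ha _ using ha
    have e4 : ∀ᶠ a in (U : Filter ι), (∑ l, u a i l * t₀ a ^ (l : ℕ) ≠ 0 ∨
        ∑ l, e a i l * t₀ a ^ (l : ℕ) ≠ 0) := by
      filter_upwards [e1, e2, e3] with a h1 h2 h3
      refine hgood a (t₀ a) (ht₀ a) ⟨h1, fun j => s j a, ?_, fun j => hs j a, h2⟩ i hi
      intro j j' hjj
      by_contra hne
      exact h3 j j' hne hjj
    rw [Ultrafilter.eventually_or] at e4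
    rcases e4 with e4 | e4
    · left
      have h2 : π (∑ l : Fin (B + 1), (fun a => u a i l) * t₀ ^ (l : ℕ)) ≠ 0 := by
        rw [h.ne0]
        filter_upwards [e4] with a ha
        simpa only [Finset.sum_apply, Pi.mul_apply, Pi.pow_apply] using ha
      simp only [map_sum, map_mul, map_pow] at h2
      exact h2
    · right
      have h2 : π (∑ l : Fin (B + 1), (fun a => e a i l) * t₀ ^ (l : ℕ)) ≠ 0 := by
        rw [h.ne0]
        filter_upwards [e4] with a ha
        simpa only [Finset.sum_apply, Pi.mul_apply, Pi.pow_apply] using ha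
      simp only [map_sum, map_mul, map_pow] at h2
      exact h2

end UP

end Pool.Agent.Helper37.UL
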