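import Mathlib
import Pool.Agent.Helper37.UL.Germ1
import Pool.Agent.Helper37.UL.LevEq

/-!
# Internal automorphisms of ultrapowers
-/

universe u v w

namespace Pool.Agent.Helper37.UL

open Polynomial

/-- Elements of a simple algebraic extension are polynomials of bounded degree. -/
lemma exists_powers {C : Type u} [Field C] {k : Subfield C} {b x : C} {n : ℕ} {c : Fin n → C}
    (hc : ∀ i, c i ∈ k) (hb : b ^ n + ∑ i, c i * b ^ (i : ℕ) = 0)
    (hx : x ∈ Subfield.closure ((k : Set C) ∪ {b})) :
    ∃ r : Fin n → C, (∀ i, r i ∈ k) ∧ x = ∑ i, r i * b ^ (i : ℕ) := by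
  let q : k[X] := X ^ n + ∑ i : Fin n, Polynomial.C (⟨c i, hc i⟩ : k) * X ^ (i : ℕ)
  have hq1 : (∑ i : Fin n, Polynomial.C (⟨c i, hc i⟩ : k) * X ^ (i : ℕ)).degree < (n : WithBot ℕ) :=
    degree_sum_fin_lt _
  have hq : q.Monic := monic_X_pow_add hq1
  have hqd : q.natDegree = n := by
    apply natDegree_eq_of_degree_eq_some
    rw [degree_add_eq_left_of_degree_lt (by rw [degree_X_pow]; exact hq1), degree_X_pow]
  have hqb : aeval b q = 0 := by
    rw [← hb]
    simp only [q, map_add, map_pow, aeval_X, map_sum, map_mul, aeval_C]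
    rfl
  have hint : IsIntegral k b := ⟨q, hq, hqb⟩
  have hx1 : x ∈ IntermediateField.adjoin k {b} := by
    rw [← IntermediateField.mem_toSubfield, IntermediateField.adjoin_toSubfield]
    have : Set.range (algebraMap k C) = (k : Set C) := Subtype.range_coe
    rw [this]
    exact hx
  have hx2 : x ∈ (IntermediateField.adjoin k {b}).toSubalgebra := hx1
  rw [IntermediateField.adjoin_simple_toSubalgebra_of_isAlgebraic hint.isAlgebraic,
    Algebra.adjoin_singleton_eq_range_aeval] at hx2
  obtain ⟨P, hP⟩ := hx2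
  change aeval b P = x at hP
  have h1 : x = aeval b (P %ₘ q) := by
    rw [← hP]
    conv_lhs => rw [← modByMonic_add_div P q]
    rw [map_add, map_mul, hqb, zero_mul, add_zero]
  have h2 : (P %ₘ q).degree < (n : WithBot ℕ) := by
    rw [← hqd, ← degree_eq_natDegree hq.ne_zero]
    exact degree_modByMonic_lt P hq
  refine ⟨fun i => (((P %ₘ q).coeff i : k) : C), fun i => Subtype.coe_prop _, ?_⟩
  rw [h1, aeval_eq_sum_range' (n := n)]
  · rw [Finset.sum_range]
    apply Finset.sum_congr rfl
    intro i _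
    rfl
  · by_cases h0 : P %ₘ q = 0
    · rw [h0, natDegree_zero]
      rcases Nat.eq_zero_or_pos n with hn | hn
      · exfalso
        subst hn
        simp only [pow_zero, Finset.univ_eq_empty, Finset.sum_empty, add_zero] at hb
        exact one_ne_zero hb
      · exact hn
    · exact (natDegree_lt_iff_degree_lt h0).mpr h2

variable {ι : Type v} {U : Ultrafilter ι} {C : Type u} [Field C] {S : Type w} [Field S]

namespace UP

variable {π : (ι → C) →+* S} (h : UP U π)

/-- internal automorphisms over a subfield -/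
def Internal (π : (ι → C) →+* S) (k : Subfield C) (T : S ≃+* S) : Prop :=
  ∃ τ : ι → (C ≃+* C), (∀ a, ∀ x ∈ k, τ a x = x) ∧ ∀ f : ι → C, T (π f) = π fun a => τ a (f a)

include h

theorem Internal.fix {k : Subfield C} {T : S ≃+* S} (hT : Internal π k T) {x : S}
    (hx : x ∈ h.gsub k) : T x = x := by
  obtain ⟨τ, hτ, hτ'⟩ := hT
  obtain ⟨f, hf, rfl⟩ := hx
  rw [hτ']
  congr 1
  funext a
  exact hτ a _ (hf a)

theorem Internal.maps {k X : Subfield C} {T : S ≃+* S} (hT : Internal π k T)
    (hX : ∀ τ : C ≃+* C, (∀ x ∈ k, τ x = x) → ∀ x ∈ X, τ x ∈ X) {x : S}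
    (hx : x ∈ h.gsub X) : T x ∈ h.gsub X := by
  obtain ⟨τ, hτ, hτ'⟩ := hT
  obtain ⟨f, hf, rfl⟩ := hx
  rw [hτ']
  exact ⟨_, fun a => hX (τ a) (hτ a) _ (hf a), rfl⟩

/-- The fixed field of the internal automorphisms over `k` which fix an algebraic element. -/
theorem mem_of_internal [IsAlgClosed C] [CharZero C] {k : Subfield C}
    (hC : ∀ x : C, IsAlgebraic k x) {β z : S} (hβ : IsAlgebraic (h.gsub k) β)
    (hfix : ∀ T : S ≃+* S, Internal π k T → T β = β → T z = z) :
    z ∈ Subfield.closure ((h.gsub k : Set S) ∪ {β}) := by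
  classical
  obtain ⟨b, rfl⟩ := h.surj β
  obtain ⟨z, rfl⟩ := h.surj z
  obtain ⟨q, hq, hqb⟩ := hβ.isIntegral
  set n := q.natDegree with hn
  obtain ⟨c, hc, hcq⟩ := h.lift_family (X := k) (I := Fin n) (c := fun i => ((q.coeff i : _) : S))
    (fun i => Subtype.coe_prop _)
  have h1 : ∀ᶠ a in (U : Filter ι), b a ^ n + ∑ i : Fin n, c i a * b a ^ (i : ℕ) = 0 := by
    have h2 : π (b ^ n + ∑ i : Fin n, c i * b ^ (i : ℕ)) = 0 := by
      have h3 : aeval (π b) q = 0 := hqb
      rw [aeval_eq_sum_range, Finset.sum_range_succ, ← hn, Algebra.smul_def] at h3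
      have h4 : q.coeff n = 1 := hq.coeff_natDegree
      rw [h4, map_one, one_mul, Finset.sum_range, add_comm] at h3
      rw [← h3]
      simp only [map_add, map_pow, map_sum, map_mul, hcq]
      congr 1
    rw [h.eq0] at h2
    filter_upwards [h2] with a ha
    simpa only [Pi.add_apply, Finset.sum_apply, Pi.mul_apply, Pi.pow_apply] using ha
  by_cases hmem : ∀ᶠ a in (U : Filter ι), z a ∈ Subfield.closure ((k : Set C) ∪ {b a})
  · -- the element is in the field
    have h5 : ∀ᶠ a in (U : Filter ι), ∃ r : Fin n → C, (∀ i, r i ∈ k) ∧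
        z a = ∑ i, r i * b a ^ (i : ℕ) := by
      filter_upwards [h1, hmem] with a ha ha'
      exact exists_powers (fun i => hc i a) ha ha'
    let r : ι → Fin n → C := fun a => if ha : ∃ r : Fin n → C, (∀ i, r i ∈ k) ∧
        z a = ∑ i, r i * b a ^ (i : ℕ) then ha.choose else 0
    have hr : ∀ᶠ a in (U : Filter ι), (∀ i, r a i ∈ k) ∧ z a = ∑ i, r a i * b a ^ (i : ℕ) := by
      filter_upwards [h5] with a ha
      simp only [r, dif_pos ha]
      exact ha.choose_spec
    have h6 : π z = ∑ i : Fin n, π (fun a => r a i) * π b ^ (i : ℕ) := by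
      have h7 : π z = π (∑ i : Fin n, (fun a => r a i) * b ^ (i : ℕ)) := by
        rw [h.eq_iff]
        filter_upwards [hr] with a ha
        simp only [Finset.sum_apply, Pi.mul_apply, Pi.pow_apply]
        exact ha.2
      rw [h7]
      simp only [map_sum, map_mul, map_pow]
    have hb0 : π b ∈ Subfield.closure ((h.gsub k : Set S) ∪ {π b}) :=
      Subfield.subset_closure (Or.inr rfl)
    rw [h6]
    apply Subfield.sum_mem
    intro i _
    apply Subfield.mul_mem
    · apply Subfield.subset_closure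
      left
      change _ ∈ h.gsub k
      rw [h.coe_mem_gsub]
      filter_upwards [hr] with a ha using ha.1 i
    · exact Subfield.pow_mem _ hb0 _
  · exfalso
    rw [← Ultrafilter.eventually_not] at hmem
    have h5 : ∀ a, ∃ τ : C ≃+* C, (∀ x ∈ k, τ x = x) ∧ τ (b a) = b a ∧
        (z a ∉ Subfield.closure ((k : Set C) ∪ {b a}) → τ (z a) ≠ z a) := by
      intro a
      by_cases ha : z a ∈ Subfield.closure ((k : Set C) ∪ {b a})
      · exact ⟨RingEquiv.refl C, fun _ _ => rfl, rfl, fun hh => absurd ha hh⟩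
      · by_contra hcon
        push Not at hcon
        apply ha
        apply mem_of_fixed
        · exact isAlgebraic_mono (fun x hx => Subfield.subset_closure (Or.inl hx)) (hC (z a))
        · intro τ hτ
          exact (hcon τ (fun x hx => hτ x (Subfield.subset_closure (Or.inl hx)))
            (hτ _ (Subfield.subset_closure (Or.inr rfl)))).2
    choose τ hτ hτb hτz using h5
    obtain ⟨T, hT⟩ := h.exists_aut τ
    have h7 := hfix T ⟨τ, hτ, hT⟩ (by
      rw [hT]
      congr 1
      funext a
      exact hτb a)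
    rw [hT, h.eq_iff] at h7
    obtain ⟨a, ha, ha'⟩ := (h7.and hmem).exists
    exact hτz a ha' ha

end UP

end Pool.Agent.Helper37.UL
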