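import Mathlib
import Pool.Agent.Helper37.UL.LevEq

/-!
# Level one structures and equivariant families, 2
-/

universe u

namespace Pool.Agent.Helper37.UL

open Polynomial

variable {C : Type u} [Field C]

/-- the polynomial with the coefficients `a` -/
noncomputable def pol {d : ℕ} (a : Fin (d + 1) → C) : C[X] :=
  ∑ l : Fin (d + 1), Polynomial.C (a l) * X ^ (l : ℕ)

lemma pol_coeff {d : ℕ} (a : Fin (d + 1) → C) (i : Fin (d + 1)) : (pol a).coeff i = a i := by
  unfold pol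
  simp only [finsetSum_coeff, coeff_C_mul, coeff_X_pow]
  rw [Finset.sum_eq_single i]
  · simp
  · intro l _ hl
    rw [if_neg, mul_zero]
    intro h2
    exact hl (Fin.ext h2.symm)
  · intro h2
    exact absurd (Finset.mem_univ _) h2

lemma pol_natDegree_le {d : ℕ} (a : Fin (d + 1) → C) : (pol a).natDegree ≤ d := by
  unfold pol
  apply natDegree_sum_le_of_forall_le
  intro i _
  refine (natDegree_C_mul_X_pow_le _ _).trans (Nat.lt_succ_iff.mp i.2)

lemma pol_eval {d : ℕ} (a : Fin (d + 1) → C) (x : C) :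
    (pol a).eval x = ∑ l, a l * x ^ (l : ℕ) := by
  unfold pol
  simp [eval_finsetSum]

lemma pol_ne_zero {d : ℕ} {a : Fin (d + 1) → C} (h : a (Fin.last d) ≠ 0) : pol a ≠ 0 := by
  intro h0
  apply h
  rw [← pol_coeff a (Fin.last d), h0, coeff_zero]

/-- the roots are the `θ i` -/
lemma root_cases {d : ℕ} {a : Fin (d + 1) → C} (h : a (Fin.last d) ≠ 0) {θ : Fin d → C}
    (hθ : Function.Injective θ) (root : ∀ i, ∑ l, a l * θ i ^ (l : ℕ) = 0) {x : C}
    (hx : ∑ l, a l * x ^ (l : ℕ) = 0) : ∃ i, x = θ i := by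
  classical
  by_contra hcon
  push Not at hcon
  have h1 : (insert x (Finset.univ.image θ)).card ≤ (pol a).natDegree := by
    refine card_le_degree_of_subset_roots ?_
    intro y hy
    rw [mem_roots (pol_ne_zero h), IsRoot.def, pol_eval]
    rw [Finset.mem_val, Finset.mem_insert] at hy
    rcases hy with rfl | hy
    · exact hx
    · obtain ⟨i, -, rfl⟩ := Finset.mem_image.mp hy
      exact root i
  rw [Finset.card_insert_of_notMem (by
    rw [Finset.mem_image]
    rintro ⟨i, -, hi⟩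
    exact hcon i hi.symm), Finset.card_image_of_injective _ hθ, Finset.card_fin] at h1
  have h2 := pol_natDegree_le a
  omega

/-- A level one structure is equivariant. -/
theorem Lev.equi {k : Subfield C} {p d : ℕ} {a : Fin (d + 1) → C} {θ : Fin d → C}
    {z : Fin d → Fin d → C} {α : C} (h : Lev k p a θ z α) (τ : C ≃+* C) (hτ : ∀ y ∈ k, τ y = y) :
    ∃ ρ ζ, Equi k p θ z α τ ρ ζ := by
  classical
  have h1 : ∀ i, ∃ j, τ (θ i) = θ j := by
    intro i
    apply root_cases h.lead h.inj h.root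
    have h2 := congrArg τ (h.root i)
    rw [map_sum, map_zero] at h2
    rw [← h2]
    apply Finset.sum_congr rfl
    intro l _
    rw [map_mul, map_pow, hτ _ (h.coef l)]
  choose ρ hρ using h1
  have hρi : Function.Injective ρ := by
    intro i j hij
    apply h.inj
    apply τ.injective
    rw [hρ, hρ, hij]
  have hρb : Function.Bijective ρ := Finite.injective_iff_bijective.mp hρi
  have hne : ∀ i j, i ≠ j → z (ρ i) (ρ j) ≠ 0 := fun i j hij => h.ne _ _ (hρi.ne hij)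
  refine ⟨ρ, fun i j => τ (z i j) / z (ρ i) (ρ j), hρ, ?_, ?_, ?_, ?_⟩
  · intro i j hij
    obtain ⟨φ, hφ, hφ'⟩ := h.pow
    rw [div_pow, ← map_pow, hφ' i j hij, hφ' (ρ i) (ρ j) (hρi.ne hij), map_sum]
    have h3 : ∑ r, τ (∑ s, φ r s * (θ i ^ (r : ℕ) * θ j ^ (s : ℕ))) =
        ∑ r, ∑ s, φ r s * (θ (ρ i) ^ (r : ℕ) * θ (ρ j) ^ (s : ℕ)) := by
      apply Finset.sum_congr rfl
      intro r _
      rw [map_sum]
      apply Finset.sum_congr rfl
      intro s _
      rw [map_mul, map_mul, map_pow, map_pow, hτ _ (hφ r s), hρ, hρ]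
    rw [h3, div_self]
    rw [← hφ' (ρ i) (ρ j) (hρi.ne hij)]
    exact pow_ne_zero _ (hne i j hij)
  · intro i j hij
    rw [div_mul_cancel₀ _ (hne i j hij)]
  · intro i j l hij hjl hil
    obtain ⟨ψ, hψ, hψ'⟩ := h.coc
    have h3 := congrArg τ (hψ' i j l hij hjl hil)
    have h4 := hψ' (ρ i) (ρ j) (ρ l) (hρi.ne hij) (hρi.ne hjl) (hρi.ne hil)
    have h5 : τ (∑ r, ∑ s, ∑ t, ψ r s t * (θ i ^ (r : ℕ) * θ j ^ (s : ℕ) * θ l ^ (t : ℕ))) =
        ∑ r, ∑ s, ∑ t, ψ r s t *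
          (θ (ρ i) ^ (r : ℕ) * θ (ρ j) ^ (s : ℕ) * θ (ρ l) ^ (t : ℕ)) := by
      simp only [map_sum, map_mul, map_pow, hρ, hτ _ (hψ _ _ _)]
    rw [map_mul, map_mul, h5] at h3
    set q := ∑ r, ∑ s, ∑ t, ψ r s t *
          (θ (ρ i) ^ (r : ℕ) * θ (ρ j) ^ (s : ℕ) * θ (ρ l) ^ (t : ℕ)) with hq
    have hq0 : q ≠ 0 := by
      intro h0
      rw [h0, mul_zero] at h4
      exact mul_ne_zero (hne i j hij) (hne j l hjl) h4
    rw [div_mul_div_comm, h3, h4, mul_div_mul_right _ _ hq0]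
  · intro i
    obtain ⟨χ, hχ, hχ'⟩ := h.nrm
    have h3 := congrArg τ (hχ' i)
    have h4 := hχ' (ρ i)
    have h5 : τ (∑ r, χ r * θ i ^ (r : ℕ)) = ∑ r, χ r * θ (ρ i) ^ (r : ℕ) := by
      simp only [map_sum, map_mul, map_pow, hρ, hτ _ (hχ _)]
    rw [map_mul, h5, ← h4, map_prod] at h3
    rw [Finset.prod_div_distrib, ← mul_div_assoc, h3]
    have h6 : ∏ j ∈ Finset.univ.erase (ρ i), z j (ρ i) =
        ∏ j ∈ Finset.univ.erase i, z (ρ j) (ρ i) := by
      have h2 : Finset.univ.erase (ρ i) = (Finset.univ.erase i).image ρ := by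
        rw [Finset.image_erase hρi, Finset.image_univ_of_surjective hρb.2]
      rw [h2, Finset.prod_image (fun _ _ _ _ h => hρi h)]
    rw [h6, mul_div_cancel_right₀]
    rw [Finset.prod_ne_zero_iff]
    intro j hj
    exact hne j i (Finset.ne_of_mem_erase hj)

/-- The roots of unity attached to an automorphism which permutes the roots are determined. -/
lemma Equi.zeta_eq {k : Subfield C} {p d : ℕ} {θ : Fin d → C} {z : Fin d → Fin d → C} {α : C}
    {τ : C ≃+* C} {ρ ρ' : Fin d → Fin d} {ζ ζ' : Fin d → Fin d → C}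
    (hθ : Function.Injective θ) (hne : ∀ i j, i ≠ j → z i j ≠ 0)
    (h : Equi k p θ z α τ ρ ζ) (h' : Equi k p θ z α τ ρ' ζ') :
    ρ = ρ' ∧ ∀ i j, i ≠ j → ζ i j = ζ' i j := by
  have h1 : ρ = ρ' := by
    funext i
    apply hθ
    rw [← h.root, ← h'.root]
  subst h1
  refine ⟨rfl, fun i j hij => ?_⟩
  have h2 := (h.act i j hij).symm.trans (h'.act i j hij)
  exact mul_right_cancel₀ (hne _ _ ((h.inj hθ).ne hij)) h2

lemma Lev.mono {k k' : Subfield C} {p d : ℕ} {a : Fin (d + 1) → C} {θ : Fin d → C}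
    {z : Fin d → Fin d → C} {α : C} (h : Lev k p a θ z α) (hk : k ≤ k') : Lev k' p a θ z α := by
  refine ⟨fun i => hk (h.coef i), h.lead, h.inj, h.root, h.ne, ?_, ?_, h.alpha, ?_⟩
  · obtain ⟨φ, h1, h2⟩ := h.pow
    exact ⟨φ, fun r s => hk (h1 r s), h2⟩
  · obtain ⟨φ, h1, h2⟩ := h.coc
    exact ⟨φ, fun r s t => hk (h1 r s t), h2⟩
  · obtain ⟨φ, h1, h2⟩ := h.nrm
    exact ⟨φ, fun r => hk (h1 r), h2⟩

end Pool.Agent.Helper37.UL
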