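import Mathlib
import Pool.Agent.Helper37.UL.Ext
import Pool.Agent.Helper37.UL.Germ1

/-!
# Relatively algebraically closed subfields and automorphisms
-/

universe u

namespace Pool.Agent.Helper37.UL

open Polynomial

variable {S : Type u} [Field S]

/-- The minimal polynomial of an algebraic element does not change. -/
theorem root_minpoly {B K' : Subfield S} (hBK : B ≤ K')
    (hrel : ∀ x ∈ K', IsAlgebraic B x → x ∈ B) {β β' : S} (hβ : IsAlgebraic B β)
    (hβ' : aeval β' (minpoly B β) = 0) : aeval β' (minpoly K' β) = 0 := by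
  let iA : Algebra B K' := (Subfield.inclusion hBK).toAlgebra
  have hst : IsScalarTower B K' S := IsScalarTower.of_algebraMap_eq fun _ => rfl
  have hdvd := minpoly.dvd_map_of_isScalarTower B K' β
  have hint : IsIntegral B β := hβ.isIntegral
  have hint' : IsIntegral K' β := hint.tower_top
  have h1 := integralClosure.mem_lifts_of_monic_of_dvd_map K' (minpoly.monic hint)
    (minpoly.monic hint') hdvd
  have h2 : minpoly K' β ∈ lifts (algebraMap B K') := by
    rw [lifts_iff_coeff_lifts]
    intro n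
    rw [lifts_iff_coeff_lifts] at h1
    obtain ⟨c, hc⟩ := h1 n
    have h3 : IsIntegral B ((minpoly K' β).coeff n) := by
      rw [← hc]
      exact c.2
    have h4 : IsIntegral B (((minpoly K' β).coeff n : K') : S) := h3.algebraMap
    exact ⟨⟨_, hrel _ (Subtype.coe_prop _) h4.isAlgebraic⟩, rfl⟩
  obtain ⟨q, hq⟩ := h2
  have hq' : q.map (algebraMap B K') = minpoly K' β := hq
  have h5 : aeval β q = 0 := by
    have h6 : aeval β (q.map (algebraMap B K')) = 0 := by
      rw [hq']
      exact minpoly.aeval K' β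
    rwa [aeval_map_algebraMap] at h6
  obtain ⟨r, hr⟩ := minpoly.dvd B β h5
  rw [← hq', aeval_map_algebraMap, hr, map_mul, hβ', zero_mul]

/-- Primitive elements. -/
theorem exists_prim [CharZero S] {B : Subfield S} {I : Type*} [Finite I] (x : I → S)
    (hx : ∀ i, IsAlgebraic B (x i)) : ∃ β : S, IsAlgebraic B β ∧
      β ∈ Subfield.closure ((B : Set S) ∪ Set.range x) ∧ ∀ y ∈ Subfield.closure
      ((B : Set S) ∪ Set.range x), ∃ P : B[X], y = aeval β P := by
  have hcz : CharZero B := inferInstance
  have hfin : FiniteDimensional B (IntermediateField.adjoin B (Set.range x)) :=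
    IntermediateField.finiteDimensional_adjoin (by
      rintro _ ⟨i, rfl⟩
      exact (hx i).isIntegral)
  obtain ⟨α, hα⟩ := Field.exists_primitive_element B (IntermediateField.adjoin B (Set.range x))
  have hcl : ∀ y : S, y ∈ Subfield.closure ((B : Set S) ∪ Set.range x) ↔
      y ∈ IntermediateField.adjoin B (Set.range x) := by
    intro y
    rw [← IntermediateField.mem_toSubfield, IntermediateField.adjoin_toSubfield]
    have : Set.range (algebraMap B S) = (B : Set S) := Subtype.range_coe
    rw [this]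
  have hαi : IsIntegral B α := IsIntegral.of_finite B α
  have hαi' : IsIntegral B (α : S) := hαi.algebraMap
  refine ⟨α, hαi'.isAlgebraic, (hcl _).mpr α.2, fun y hy => ?_⟩
  have h1 : (⟨y, (hcl y).mp hy⟩ : IntermediateField.adjoin B (Set.range x)) ∈
      (IntermediateField.adjoin B {α}).toSubalgebra := by
    change _ ∈ IntermediateField.adjoin B {α}
    rw [hα]
    exact IntermediateField.mem_top
  rw [IntermediateField.adjoin_simple_toSubalgebra_of_isAlgebraic hαi.isAlgebraic,
    Algebra.adjoin_singleton_eq_range_aeval] at h1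
  obtain ⟨P, hP⟩ := h1
  refine ⟨P, ?_⟩
  have h2 := congrArg (algebraMap (IntermediateField.adjoin B (Set.range x)) S) hP
  change algebraMap _ S (aeval α P) = y at h2
  rw [← h2, ← aeval_algebraMap_apply]
  rfl

lemma map_aeval {B : Subfield S} {σ : S ≃+* S} (hσ : ∀ y ∈ B, σ y = y) (β : S) (P : B[X]) :
    σ (aeval β P) = aeval (σ β) P := by
  rw [aeval_eq_sum_range, aeval_eq_sum_range, map_sum]
  apply Finset.sum_congr rfl
  intro i _
  rw [Algebra.smul_def, Algebra.smul_def, map_mul, map_pow]
  congr 1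
  exact hσ _ (Subtype.coe_prop _)

/-- Automorphisms over a relatively algebraically closed subfield lift. -/
theorem lift_conj [IsAlgClosed S] [CharZero S] {B K' : Subfield S} (hBK : B ≤ K')
    (hrel : ∀ x ∈ K', IsAlgebraic B x → x ∈ B) {I : Type*} [Finite I] (x : I → S)
    (hx : ∀ i, IsAlgebraic B (x i)) (σ : S ≃+* S) (hσ : ∀ y ∈ B, σ y = y) :
    ∃ τ : S ≃+* S, (∀ y ∈ K', τ y = y) ∧ ∀ i, τ (x i) = σ (x i) := by
  obtain ⟨β, hβ, -, hβx⟩ := exists_prim x hx
  have h1 : aeval (σ β) (minpoly B β) = 0 := by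
    rw [← map_aeval hσ, minpoly.aeval, map_zero]
  have h2 := root_minpoly hBK hrel hβ h1
  obtain ⟨τ, hτ, hτβ⟩ := exists_aut (K := K')
    (isAlgebraic_mono hBK hβ).isIntegral h2
  refine ⟨τ, hτ, fun i => ?_⟩
  obtain ⟨P, hP⟩ := hβx (x i) (Subfield.subset_closure (Or.inr ⟨i, rfl⟩))
  rw [hP, map_aeval hσ, map_aeval (fun y hy => hτ y (hBK hy)), hτβ]

/-- Normal primitive elements: a finite family of algebraic elements is contained in a
normal extension `B(β)`. -/
theorem exists_normal_prim [IsAlgClosed S] [CharZero S] {B : Subfield S} {I : Type*} [Finite I]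
    (x : I → S) (hx : ∀ i, IsAlgebraic B (x i)) : ∃ β : S, IsAlgebraic B β ∧
      (∀ i, ∃ P : B[X], x i = aeval β P) ∧
      ∀ σ : S ≃+* S, (∀ y ∈ B, σ y = y) → ∃ P : B[X], σ β = aeval β P := by
  classical
  have := Fintype.ofFinite I
  let q : B[X] := ∏ i, minpoly B (x i)
  have hq0 : q ≠ 0 := Finset.prod_ne_zero_iff.mpr fun i _ =>
    minpoly.ne_zero (hx i).isIntegral
  let R : Finset S := (q.aroots S).toFinset
  have hR : ∀ y, y ∈ R ↔ aeval y q = 0 := by
    intro y
    rw [Multiset.mem_toFinset, mem_aroots]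
    exact ⟨fun h => h.2, fun h => ⟨hq0, h⟩⟩
  have hxR : ∀ i, x i ∈ R := by
    intro i
    rw [hR, map_prod]
    exact Finset.prod_eq_zero (Finset.mem_univ i) (minpoly.aeval _ _)
  obtain ⟨β, hβ, hβR, hβx⟩ := exists_prim (B := B) (fun r : R => (r : S)) (fun r => ⟨q, hq0, (hR _).mp r.2⟩)
  refine ⟨β, hβ, fun i => ?_, fun σ hσ => ?_⟩
  · exact hβx (x i) (Subfield.subset_closure (Or.inr ⟨⟨x i, hxR i⟩, rfl⟩))
  · apply hβx
    have h1 : Subfield.closure ((B : Set S) ∪ Set.range fun r : R => (r : S)) ≤
        (Subfield.closure ((B : Set S) ∪ Set.range fun r : R => (r : S))).comap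
          (σ : S →+* S) := by
      rw [Subfield.closure_le]
      rintro y (hy | ⟨r, rfl⟩)
      · change σ y ∈ Subfield.closure ((B : Set S) ∪ Set.range fun r : R => (r : S))
        rw [hσ y hy]
        exact Subfield.subset_closure (Or.inl hy)
      · change σ r ∈ Subfield.closure ((B : Set S) ∪ Set.range fun r : R => (r : S))
        have h2 : σ r ∈ R := by
          rw [hR, ← map_aeval hσ, (hR _).mp r.2, map_zero]
        exact Subfield.subset_closure (Or.inr ⟨⟨_, h2⟩, rfl⟩)
    exact h1 hβR

end Pool.Agent.Helper37.UL
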