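import Mathlib
import Pool.Agent.Helper37.UL.LevEq2
import Pool.Agent.Helper37.UL.Star2
import Pool.Agent.Helper37.UL.Germ5

/-!
# Descent of a level one structure to a relatively algebraically closed subfield
-/

universe u

namespace Pool.Agent.Helper37.UL

open Polynomial

variable {S : Type u} [Field S]

/-- Powers of an algebraic element are independent over an extension in which the base is
relatively algebraically closed. -/
lemma powers_indep [IsAlgClosed S] [CharZero S] {k0 Kst : Subfield S} (h0 : k0 ≤ Kst)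
    (hrel : ∀ x ∈ Kst, IsAlgebraic k0 x → x ∈ k0) {β : S} (hβ : IsAlgebraic k0 β)
    {n : ℕ} (hn : n = (minpoly k0 β).natDegree) {s : Fin n → S} (hs : ∀ i, s i ∈ Kst)
    (hsum : ∑ i, s i * β ^ (i : ℕ) = 0) : s = 0 := by
  classical
  have hint := hβ.isIntegral
  have hint' : IsIntegral Kst β := (isAlgebraic_mono h0 hβ).isIntegral
  -- the polynomial
  let q : Kst[X] := ∑ i : Fin n, Polynomial.C (⟨s i, hs i⟩ : Kst) * X ^ (i : ℕ)
  have hq : q.degree < (n : WithBot ℕ) := degree_sum_fin_lt _
  have hqβ : aeval β q = 0 := by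
    rw [← hsum]
    simp only [q, map_sum, map_mul, aeval_C, map_pow, aeval_X]
    rfl
  have hdvd := minpoly.dvd Kst β hqβ
  -- all the roots of the minimal polynomial over `k0` are roots of `q`
  have hcard : ((minpoly k0 β).aroots S).toFinset.card = n := by
    rw [Multiset.toFinset_card_of_nodup, aroots_def]
    · rw [(splits_iff_card_roots.mp (IsAlgClosed.splits _)), natDegree_map, hn]
    · exact nodup_aroots_iff_of_splits (minpoly.ne_zero hint) (IsAlgClosed.splits _) |>.mpr
        (minpoly.irreducible hint).separable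
  have hq0 : q = 0 := by
    by_contra hne
    have hmap : q.map (algebraMap Kst S) ≠ 0 := by
      rwa [Ne, Polynomial.map_eq_zero]
    have h1 : ((minpoly k0 β).aroots S).toFinset.card ≤ (q.map (algebraMap Kst S)).natDegree := by
      refine card_le_degree_of_subset_roots ?_
      intro y hy
      rw [Finset.mem_val, Multiset.mem_toFinset, mem_aroots] at hy
      have h2 := root_minpoly h0 hrel hβ hy.2
      obtain ⟨r, hr⟩ := hdvd
      rw [mem_roots hmap, IsRoot.def, eval_map_algebraMap, hr, map_mul, h2, zero_mul]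
    rw [hcard, natDegree_map] at h1
    have h3 : q.natDegree < n := (natDegree_lt_iff_degree_lt hne).mpr hq
    omega
  funext i
  have h4 : q.coeff i = ⟨s i, hs i⟩ := by
    simp only [q, finsetSum_coeff, coeff_C_mul, coeff_X_pow]
    rw [Finset.sum_eq_single i]
    · simp
    · intro l _ hl
      rw [if_neg, mul_zero]
      intro h2
      exact hl (Fin.ext h2.symm)
    · intro h2
      exact absurd (Finset.mem_univ _) h2
  rw [hq0, coeff_zero] at h4
  exact (congrArg Subtype.val h4).symm

/-- coordinates with respect to the powers -/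
lemma exists_coords {k0 Kst : Subfield S} (h0 : k0 ≤ Kst) {β : S} (hβ : IsAlgebraic k0 β) {x : S}
    {n : ℕ} (hn : n = (minpoly k0 β).natDegree)
    (hx : x ∈ Subfield.closure ((Kst : Set S) ∪ {β})) :
    ∃ r : Fin n → Kst, x = ∑ i, (r i : S) * β ^ (i : ℕ) := by
  subst hn
  have hint := hβ.isIntegral
  obtain ⟨r, hr, hx'⟩ := exists_powers (k := Kst) (b := β) (x := x)
    (n := (minpoly k0 β).natDegree)
    (c := fun i => (((minpoly k0 β).coeff i : k0) : S)) (fun i => h0 (Subtype.coe_prop _)) (by
      have h1 := minpoly.aeval k0 β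
      rw [aeval_eq_sum_range, Finset.sum_range_succ, Algebra.smul_def] at h1
      have h2 : (minpoly k0 β).coeff (minpoly k0 β).natDegree = 1 :=
        (minpoly.monic hint).coeff_natDegree
      rw [h2, map_one, one_mul, Finset.sum_range, add_comm] at h1
      exact h1) hx
  exact ⟨fun i => ⟨r i, hr i⟩, hx'⟩

lemma exists_coords_aeval {k0 : Subfield S} {β : S} (hβ : IsAlgebraic k0 β) {n : ℕ}
    (hn : n = (minpoly k0 β).natDegree) (P : k0[X]) :
    ∃ r : Fin n → k0, aeval β P = ∑ i, (r i : S) * β ^ (i : ℕ) := by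
  have h1 : k0 ≤ Subfield.closure ((k0 : Set S) ∪ {β}) := fun _ hy =>
    Subfield.subset_closure (Or.inl hy)
  have h2 : β ∈ Subfield.closure ((k0 : Set S) ∪ {β}) :=
    Subfield.subset_closure (Or.inr (Set.mem_singleton β))
  have h3 : aeval β P ∈ Subfield.closure ((k0 : Set S) ∪ {β}) := aeval_mem h1 h2 P
  exact exists_coords (k0 := k0) (Kst := k0) le_rfl hβ hn h3

/-- Descent of level one structures. -/
theorem descend [IsAlgClosed S] [CharZero S] {k0 Kst : Subfield S} (h0 : k0 ≤ Kst)
    (hrel : ∀ x ∈ Kst, IsAlgebraic k0 x → x ∈ k0) {p d : ℕ} (hp : p ≠ 0)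
    {a : Fin (d + 1) → S} {θ : Fin d → S} {z : Fin d → Fin d → S} {α : S}
    (hlev : Lev Kst p a θ z α) (ha : ∀ i, a i ∈ k0) (hμ : ∀ ζ : S, ζ ^ p = 1 → ζ ∈ k0)
    {β : S} (hβ : IsAlgebraic k0 β)
    (hβn : ∀ σ : S ≃+* S, (∀ y ∈ k0, σ y = y) → ∃ P : k0[X], σ β = aeval β P)
    (hθ : ∀ i, ∃ P : k0[X], θ i = aeval β P) (hα : ∃ P : k0[X], α = aeval β P)
    (hz : ∀ i j, i ≠ j → z i j ∈ Subfield.closure ((Kst : Set S) ∪ {β})) :
    ∃ z' : Fin d → Fin d → S, Lev k0 p a θ z' α := by
  classical
  obtain ⟨n, hn⟩ : ∃ n, n = (minpoly k0 β).natDegree := ⟨_, rfl⟩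
  let iA : Algebra k0 Kst := (Subfield.inclusion h0).toAlgebra
  have hst : IsScalarTower k0 Kst S := IsScalarTower.of_algebraMap_eq fun _ => rfl
  have hcz : CharZero k0 := inferInstance
  have hinf : Infinite k0 := inferInstance
  have hind : ∀ s s' : Fin n → Kst, ∑ i, (s i : S) * β ^ (i : ℕ) =
      ∑ i, (s' i : S) * β ^ (i : ℕ) → s = s' := by
    intro s s' hss
    have h1 := powers_indep h0 hrel hβ hn (s := fun i => (s i : S) - s' i)
      (fun i => Kst.sub_mem (s i).2 (s' i).2) (by
        simp only [sub_mul, Finset.sum_sub_distrib]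
        exact sub_eq_zero.mpr hss)
    funext i
    have h2 := congrFun h1 i
    exact Subtype.ext (sub_eq_zero.mp h2)
  -- coordinates
  have hr : ∀ ij : {ij : Fin d × Fin d // ij.1 ≠ ij.2}, ∃ r : Fin n → Kst,
      z ij.1.1 ij.1.2 = ∑ l, (r l : S) * β ^ (l : ℕ) := fun ij =>
    exists_coords h0 hβ hn (hz _ _ ij.2)
  choose r hr using hr
  have hrne : ∀ ij, ∃ l, r ij l ≠ 0 := by
    intro ij
    by_contra hcon
    push Not at hcon
    apply hlev.ne _ _ ij.2
    rw [hr ij]
    apply Finset.sum_eq_zero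
    intro l _
    rw [hcon l]
    simp
  choose L hL using hrne
  obtain ⟨lam, hlam⟩ := Module.exists_dual_forall_apply_ne_zero (K := k0) (M := Kst)
    (fun ij => r ij (L ij)) hL
  let mu : (Fin n → Kst) → S := fun s => ∑ l, ((lam (s l) : k0) : S) * β ^ (l : ℕ)
  let z' : Fin d → Fin d → S := fun i j => if h : i ≠ j then mu (r ⟨(i, j), h⟩) else 0
  have hz' : ∀ i j (h : i ≠ j), z' i j = mu (r ⟨(i, j), h⟩) := fun i j h => dif_pos h
  have hβalg : ∀ s : Fin n → k0, IsAlgebraic k0 (∑ l, (s l : S) * β ^ (l : ℕ)) := by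
    intro s
    rw [← mem_algebraicClosure_iff]
    apply sum_mem
    intro l _
    exact mul_mem (IntermediateField.algebraMap_mem _ (s l))
      (pow_mem (mem_algebraicClosure_iff.mpr hβ) _)
  have hmu0 : ∀ ij, mu (r ij) ≠ 0 := by
    intro ij h1
    apply hlam ij
    have h2 := hind (fun l => algebraMap k0 Kst (lam (r ij l))) 0 (by
      simp only [Pi.zero_apply, ZeroMemClass.coe_zero, zero_mul, Finset.sum_const_zero]
      exact h1)
    have h3 := congrFun h2 (L ij)
    exact (map_eq_zero (algebraMap k0 Kst)).mp h3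
  refine ⟨z', lev_of_equi ha hlev.lead hlev.inj hlev.root (fun i j hij => ?_)
    (fun i j hij => ?_) hlev.alpha hp ?_⟩
  · rw [hz' i j hij]
    exact hmu0 _
  · rw [hz' i j hij]
    exact hβalg _
  · -- equivariance
    intro τ hτ
    have h1 : aeval (τ β) (minpoly k0 β) = 0 := by
      rw [← map_aeval hτ, minpoly.aeval, map_zero]
    have h2 := root_minpoly h0 hrel hβ h1
    obtain ⟨τ', hτ', hτβ⟩ := exists_aut (K := Kst) (isAlgebraic_mono h0 hβ).isIntegral h2
    have hττ : ∀ P : k0[X], τ (aeval β P) = τ' (aeval β P) := by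
      intro P
      rw [map_aeval hτ, map_aeval (fun y hy => hτ' y (h0 hy)), hτβ]
    obtain ⟨ρ, ζ, hE⟩ := hlev.equi τ' hτ'
    refine ⟨ρ, ζ, ⟨fun i => ?_, hE.pow, fun i j hij => ?_, hE.coc, fun i => ?_⟩⟩
    · obtain ⟨P, hP⟩ := hθ i
      rw [hP, hττ, ← hP, hE.root]
    · -- the action
      have hρ : ρ i ≠ ρ j := (hE.inj hlev.inj).ne hij
      rw [hz' i j hij, hz' (ρ i) (ρ j) hρ]
      obtain ⟨P, hP⟩ := hβn τ hτ
      have hb : ∀ l : Fin n, ∃ b : Fin n → k0, τ β ^ (l : ℕ) = ∑ m, (b m : S) * β ^ (m : ℕ) := by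
        intro l
        rw [hP, ← map_pow]
        exact exists_coords_aeval hβ hn _
      choose b hb using hb
      set ij : {ij : Fin d × Fin d // ij.1 ≠ ij.2} := ⟨(i, j), hij⟩ with hijdef
      set ij' : {ij : Fin d × Fin d // ij.1 ≠ ij.2} := ⟨(ρ i, ρ j), hρ⟩ with hijdef'
      have hζk : ζ i j ∈ k0 := hμ _ (hE.pow i j hij)
      -- coordinates of both sides
      have h3 := hE.act i j hij
      have h4 : τ' (z i j) = ∑ m, ((∑ l, r ij l * algebraMap k0 Kst (b l m) : Kst) : S) *
          β ^ (m : ℕ) := by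
        have h5 : z i j = ∑ l, (r ij l : S) * β ^ (l : ℕ) := hr ij
        rw [h5, map_sum]
        simp only [map_mul, map_pow, hτβ, hτ' _ (Subtype.coe_prop _), hb]
        simp only [Finset.mul_sum]
        rw [Finset.sum_comm]
        apply Finset.sum_congr rfl
        intro m _
        push_cast
        rw [Finset.sum_mul]
        apply Finset.sum_congr rfl
        intro l _
        rw [← mul_assoc]
        rfl
      have h6 : ζ i j * z (ρ i) (ρ j) = ∑ m, (((algebraMap k0 Kst ⟨ζ i j, hζk⟩) * r ij' m : Kst) : S) *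
          β ^ (m : ℕ) := by
        have h5 : z (ρ i) (ρ j) = ∑ l, (r ij' l : S) * β ^ (l : ℕ) := hr ij'
        rw [h5, Finset.mul_sum]
        apply Finset.sum_congr rfl
        intro m _
        rw [← mul_assoc]
        rfl
      rw [h4, h6] at h3
      have h7 := hind _ _ h3
      have h8 : ∀ m, ∑ l, lam (r ij l) * b l m = ⟨ζ i j, hζk⟩ * lam (r ij' m) := by
        intro m
        have h9 := congrArg lam (congrFun h7 m)
        rw [map_sum] at h9
        have h10 : ∀ (c : k0) (y : Kst), lam (algebraMap k0 Kst c * y) = c * lam y := by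
          intro c y
          rw [← Algebra.smul_def, map_smul, smul_eq_mul]
        rw [h10] at h9
        rw [← h9]
        apply Finset.sum_congr rfl
        intro l _
        rw [mul_comm (r ij l), h10, mul_comm]
      -- conclusion
      have h11 : τ (mu (r ij)) = ∑ m, ((∑ l, lam (r ij l) * b l m : k0) : S) * β ^ (m : ℕ) := by
        simp only [mu, map_sum, map_mul, map_pow, hτ _ (Subtype.coe_prop _), hb]
        simp only [Finset.mul_sum]
        rw [Finset.sum_comm]
        apply Finset.sum_congr rfl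
        intro m _
        push_cast
        rw [Finset.sum_mul]
        apply Finset.sum_congr rfl
        intro l _
        rw [← mul_assoc]
      rw [h11]
      simp only [mu, h8, Finset.mul_sum]
      apply Finset.sum_congr rfl
      intro m _
      push_cast
      rw [mul_assoc]
    · obtain ⟨P, hP⟩ := hα
      have h3 := hE.nrm i
      rw [hP, hττ, ← hP]
      exact h3

end Pool.Agent.Helper37.UL
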