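import Mathlib
import Pool.Agent.SC.LinDisj
import Pool.Agent.SC.RigidKur

/-!
# Constant field extensions generated inside a large field
-/

set_option linter.unusedSectionVars false

universe u

namespace Pool.Agent.Helper37.UL

open VC Polynomial IntermediateField
open scoped TensorProduct

variable {E κ S : Type u} [Field E] [Field κ] [Field S] [Algebra E κ] [Algebra E S] [Algebra κ S]
  [IsScalarTower E κ S]

lemma adjoin_le_adjoin (X : Set S) {z : S} (hz : z ∈ adjoin E X) : z ∈ adjoin κ X := by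
  have h1 : adjoin E X ≤ (adjoin κ X).restrictScalars E := by
    rw [adjoin_le_iff]
    exact fun x hx => subset_adjoin κ X hx
  exact h1 hz

/-- the inclusion as an algebra structure -/
@[reducible] noncomputable def algAA (E κ : Type u) [Field E] [Field κ] [Algebra E κ] [Algebra E S]
    [Algebra κ S] [IsScalarTower E κ S] (X : Set S) : Algebra (adjoin E X) (adjoin κ X) :=
  ((algebraMap (adjoin E X) S).codRestrict (adjoin κ X).toSubfield.toSubring
    (fun z => adjoin_le_adjoin X z.2)).toAlgebra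

theorem isConstExt_adjoin [IsAlgClosed E] [CharZero E] (X : Set S) {t : S}
    (ht : Transcendental κ t) (htX : t ∈ adjoin E X)
    (halg : Algebra.IsAlgebraic E⟮(⟨t, htX⟩ : adjoin E X)⟯ (adjoin E X)) :
    letI := algAA E κ X
    ∃ (_ : IsScalarTower E (adjoin E X) (adjoin κ X)),
      FF.IsConstExt E κ (adjoin E X) (adjoin κ X) := by
  let i1 := algAA E κ X
  have hval : ∀ z : adjoin E X,
      ((algebraMap (adjoin E X) (adjoin κ X) z : adjoin κ X) : S) = z := fun z => rfl
  have hT : IsScalarTower E (adjoin E X) (adjoin κ X) := by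
    apply IsScalarTower.of_algebraMap_eq
    intro a
    apply Subtype.ext
    rw [hval]
    change ((algebraMap E (adjoin κ X) a : adjoin κ X) : S) = algebraMap E _ a
    rw [IsScalarTower.algebraMap_apply E κ (adjoin κ X), IsScalarTower.algebraMap_apply E κ S]
    rfl
  have hprod : ∀ s : κ ⊗[E] (adjoin E X), ((FF.prodMap E κ (adjoin E X) (adjoin κ X) s :
      adjoin κ X) : S) = FF.prodMap E κ (adjoin E X) S s := by
    intro s
    induction s using TensorProduct.induction_on with
    | zero => rw [map_zero, map_zero]; rfl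
    | tmul a f => rw [FF.prodMap_tmul, FF.prodMap_tmul]; rfl
    | add a b ha hb => rw [map_add, map_add, ← ha, ← hb]; rfl
  refine ⟨hT, ?_, ?_⟩
  · let b := Module.Basis.ofVectorSpace E κ
    have h1 : LinearIndependent (adjoin E X) (fun i => algebraMap κ S (b i)) :=
      SC.linearIndependent_of_transcendental (E := E) (A := adjoin E X) (U := κ) (L := S)
        (x := ⟨t, htX⟩) ht halg b.linearIndependent
    have h2 := SC.prodMap_injective (k := E) (Ω := adjoin E X) (F := κ) (M := S) b h1
    have h3 : ∀ s : κ ⊗[E] (adjoin E X), FF.prodMap E κ (adjoin E X) S s =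
        FF.prodMap E (adjoin E X) κ S (TensorProduct.comm E _ _ s) := by
      intro s
      induction s using TensorProduct.induction_on with
      | zero => rw [map_zero, map_zero, map_zero]
      | tmul a f => rw [FF.prodMap_tmul, TensorProduct.comm_tmul, FF.prodMap_tmul, mul_comm]
      | add a b ha hb => rw [map_add, map_add, map_add, ← ha, ← hb]
    intro s t hst
    apply (TensorProduct.comm E κ (adjoin E X)).injective
    apply h2
    rw [← h3, ← h3, ← hprod, ← hprod, hst]
  · intro z
    have hz : (z : S) ∈ adjoin κ X := z.2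
    let ψ := FF.prodMap E κ (adjoin E X) S
    have key : ∀ w ∈ adjoin κ X, ∃ s t : κ ⊗[E] (adjoin E X), ψ t ≠ 0 ∧ w * ψ t = ψ s := by
      intro w hw
      induction hw using IntermediateField.adjoin_induction with
      | mem w hw =>
        refine ⟨1 ⊗ₜ ⟨w, subset_adjoin E X hw⟩, 1, ?_, ?_⟩
        · rw [map_one]; exact one_ne_zero
        · rw [map_one, mul_one, FF.prodMap_tmul, map_one, one_mul]; rfl
      | algebraMap a =>
        refine ⟨a ⊗ₜ 1, 1, ?_, ?_⟩
        · rw [map_one]; exact one_ne_zero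
        · rw [map_one, mul_one, FF.prodMap_tmul, map_one, mul_one]
      | add a b _ _ ha hb =>
        obtain ⟨s1, t1, h1, h1'⟩ := ha
        obtain ⟨s2, t2, h2, h2'⟩ := hb
        refine ⟨s1 * t2 + s2 * t1, t1 * t2, ?_, ?_⟩
        · rw [map_mul]; exact mul_ne_zero h1 h2
        · rw [map_mul, map_add, map_mul, map_mul, ← h1', ← h2']; ring
      | inv a _ ha =>
        obtain ⟨s1, t1, h1, h1'⟩ := ha
        by_cases ha0 : a = 0
        · refine ⟨0, 1, ?_, ?_⟩
          · rw [map_one]; exact one_ne_zero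
          · rw [ha0, inv_zero, zero_mul, map_zero]
        · refine ⟨t1, s1, ?_, ?_⟩
          · rw [← h1']; exact mul_ne_zero ha0 h1
          · rw [← h1', ← mul_assoc, inv_mul_cancel₀ ha0, one_mul]
      | mul a b _ _ ha hb =>
        obtain ⟨s1, t1, h1, h1'⟩ := ha
        obtain ⟨s2, t2, h2, h2'⟩ := hb
        refine ⟨s1 * s2, t1 * t2, ?_, ?_⟩
        · rw [map_mul]; exact mul_ne_zero h1 h2
        · rw [map_mul, map_mul, ← h1', ← h2']; ring
    obtain ⟨s, t, ht, hst⟩ := key z hz
    refine ⟨s, t, ?_, ?_⟩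
    · intro h0
      apply ht
      change FF.prodMap E κ (adjoin E X) S t = 0
      rw [← hprod, h0]
      rfl
    · apply Subtype.ext
      change (z : S) * ((FF.prodMap E κ (adjoin E X) (adjoin κ X) t : adjoin κ X) : S) = ((FF.prodMap E κ (adjoin E X) (adjoin κ X) s : adjoin κ X) : S)
      rw [hprod, hprod]
      exact hst

/-- function fields generated by a transcendental and finitely many algebraic elements -/
theorem isFunctionField_adjoin {d : ℕ} {t : S} (ht : Transcendental κ t) (θ : Fin d → S)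
    (hθ : ∀ i, IsAlgebraic κ⟮t⟯ (θ i)) :
    ∃ htX : t ∈ adjoin κ ({t} ∪ Set.range θ), FiniteDimensional
      κ⟮(⟨t, htX⟩ : adjoin κ ({t} ∪ Set.range θ))⟯ (adjoin κ ({t} ∪ Set.range θ)) := by
  have htX : t ∈ adjoin κ ({t} ∪ Set.range θ) := subset_adjoin _ _ (Or.inl rfl)
  refine ⟨htX, ?_⟩
  set F := adjoin κ ({t} ∪ Set.range θ) with hF
  set tF : F := ⟨t, htX⟩ with htF
  let E' := adjoin κ⟮t⟯ (Set.range θ)
  have hfin : FiniteDimensional κ⟮t⟯ E' :=
    IntermediateField.finiteDimensional_adjoin (by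
      rintro _ ⟨i, rfl⟩
      exact (hθ i).isIntegral)
  have hEF : ∀ x : S, x ∈ E' ↔ x ∈ F := by
    intro x
    have := adjoin_adjoin_left κ {t} (Set.range θ)
    rw [hF, ← this]
    rfl
  have hsub : ∀ c : S, c ∈ κ⟮t⟯ → ∃ hc : c ∈ F, (⟨c, hc⟩ : F) ∈ κ⟮tF⟯ := by
    intro c hc
    obtain ⟨r, s, hrs⟩ := (mem_adjoin_simple_iff κ c).mp hc
    have h1 : ((aeval tF r / aeval tF s : F) : S) = c := by
      rw [hrs]
      push_cast
      have h2 : ∀ q : κ[X], ((aeval tF q : F) : S) = aeval t q := by
        intro q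
        change algebraMap F S (aeval tF q) = _
        rw [← aeval_algebraMap_apply]
        rfl
      rw [h2, h2]
    refine ⟨by rw [← h1]; exact Subtype.coe_prop _, ?_⟩
    rw [mem_adjoin_simple_iff]
    refine ⟨r, s, ?_⟩
    apply Subtype.ext
    exact h1.symm
  let b := Module.finBasis κ⟮t⟯ E'
  let L : (Fin (Module.finrank κ⟮t⟯ E') → κ⟮tF⟯) →ₗ[κ⟮tF⟯] F :=
    ∑ i, (LinearMap.proj i).smulRight (⟨(b i : S), (hEF _).mp (b i).2⟩ : F)
  have hL : ∀ c, L c = ∑ i, (c i : F) * ⟨(b i : S), (hEF _).mp (b i).2⟩ := by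
    intro c
    simp only [L, LinearMap.sum_apply, LinearMap.smulRight_apply, LinearMap.proj_apply]
    apply Finset.sum_congr rfl
    intro i _
    rfl
  refine Module.Finite.of_surjective L ?_
  intro x
  have hx : (x : S) ∈ E' := (hEF _).mpr x.2
  choose h1 h2 using fun i => hsub (b.repr ⟨x, hx⟩ i : S) (Subtype.coe_prop _)
  refine ⟨fun i => ⟨_, h2 i⟩, ?_⟩
  rw [hL]
  apply Subtype.ext
  have h3 := congrArg (algebraMap E' S) (b.sum_repr ⟨x, hx⟩)
  rw [map_sum] at h3
  refine Eq.trans ?_ h3
  push_cast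
  apply Finset.sum_congr rfl
  intro i _
  rw [Algebra.smul_def]
  rfl

lemma transcendental_mk {F : IntermediateField κ S} {t : S} (ht : Transcendental κ t)
    (htF : t ∈ F) : Transcendental κ (⟨t, htF⟩ : F) := by
  intro h
  exact ht (h.algebraMap (A := S))

lemma isAlgClosed_of {K : Subfield S} [IsAlgClosed S] (hK : ∀ x : S, IsAlgebraic K x → x ∈ K) :
    IsAlgClosed K := by
  apply IsAlgClosed.of_exists_root
  intro q hq hirr
  obtain ⟨x, hx⟩ := IsAlgClosed.exists_aeval_eq_zero S q (by
    rw [degree_eq_natDegree hq.ne_zero]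
    exact_mod_cast hirr.natDegree_pos.ne')
  refine ⟨⟨x, hK x ⟨q, hq.ne_zero, hx⟩⟩, ?_⟩
  apply Subtype.ext
  have h1 : aeval (algebraMap K S ⟨x, hK x ⟨q, hq.ne_zero, hx⟩⟩) q = 0 := hx
  rw [aeval_algebraMap_apply] at h1
  rw [← coe_aeval_eq_eval]
  exact h1

end Pool.Agent.Helper37.UL
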