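import Mathlib
import Pool.Agent.Helper17.FF.PicDiv

/-!
# Descent of Kummer classes along constant field extensions
-/

set_option linter.unusedSectionVars false

namespace FF

open VC WithZero Polynomial IntermediateField
open scoped TensorProduct

universe u

variable {k Ω F M : Type u} [Field k] [Field Ω] [Field F] [Field M] [Algebra k Ω] [Algebra k F]
  [Algebra Ω M] [Algebra F M] [Algebra k M] [IsScalarTower k Ω M] [IsScalarTower k F M]

/-- If the order of `h` is divisible by `n` at all the places which are generic over `F`, then `h` is the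
product of a constant, an element of `F` and an `n`-th power. -/
theorem kummer_descent [IsAlgClosed k] [IsAlgClosed Ω] [CharZero k] (hM : IsConstExt k Ω F M)
    (hF : IsFunctionField k F) {n : ℕ} (hn : n ≠ 0) {h : M} (hh : h ≠ 0)
    (hgen : ∀ (Q : Place Ω M) (φ : F →ₐ[k] Ω), Gen Q φ → (n : ℤ) ∣ ord Q.ring h) :
    ∃ (c : Ω) (f : F) (g : M), c ≠ 0 ∧ f ≠ 0 ∧ g ≠ 0 ∧
      h = algebraMap Ω M c * algebraMap F M f * g ^ n := by
  classical
  have hMF := hM.isFunctionField hF
  have hn' : (n : ℤ) ≠ 0 := by exact_mod_cast hn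
  obtain ⟨g, hg⟩ := exists_genus hF
  have hgM := isGenus_constExt hM hF hg
  have hinf := infinite_place hF
  obtain ⟨P₀⟩ : Nonempty (Place k F) := inferInstance
  obtain ⟨x, hx, -⟩ := id hF
  let Y₀ : Place Ω M →₀ ℤ := ((dv hMF h).filter (fun Q => ∃ φ : F →ₐ[k] Ω, Gen Q φ)).mapRange
    (fun a => - (a / n)) (by simp)
  have hY₀gen : ∀ Q (φ : F →ₐ[k] Ω), Gen Q φ → n * Y₀ Q = - ord Q.ring h := by
    intro Q φ hφ
    have h1 : Y₀ Q = - (ord Q.ring h / n) := by
      simp only [Y₀, Finsupp.mapRange_apply]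
      rw [Finsupp.filter_apply_pos _ _ ⟨φ, hφ⟩, dv_apply]
    rw [h1, mul_neg, Int.mul_ediv_cancel' (hgen Q φ hφ)]
  set Y : Place Ω M →₀ ℤ := Y₀ - deg Y₀ • Finsupp.single (ab hM hF P₀) 1 with hYdef
  have hYgen : ∀ Q (φ : F →ₐ[k] Ω), Gen Q φ → n * Y Q = - ord Q.ring h := by
    intro Q φ hφ
    have h2 : ab hM hF P₀ ≠ Q := by
      rintro rfl
      exact not_over_of_gen hφ (ab_over hM hF P₀)
    rw [hYdef, Finsupp.sub_apply, Finsupp.smul_apply, Finsupp.single_apply, if_neg h2, smul_zero,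
      sub_zero]
    exact hY₀gen Q φ hφ
  have hdegY : deg Y = 0 := by
    rw [hYdef, map_sub, map_zsmul, deg_single]
    simp
  obtain ⟨B, hB0, hBS, hBdeg, hB1⟩ := exists_add_points hMF hgM (Set.range (ab hM hF))
    (Set.infinite_range_of_injective (ab_injective hM hF)) hdegY g le_rfl
  have hell1 : (1 : ℤ) ≤ ell (Y + B) := by
    have := ell_ge hgM (Y + B)
    rw [map_add, hdegY, hBdeg] at this
    linarith
  obtain ⟨B', h', hh', hB'0, hB'⟩ := exists_effective hMF (X := Y + B) (by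
    have : (0 : ℤ) < ell (Y + B) := by linarith
    exact_mod_cast this)
  have hellB' : ell B' = 1 := by
    rw [hB', ell_add_dv hMF _ hh']
    have : 1 ≤ ell (Y + B) := by exact_mod_cast hell1
    omega
  have hgenB : ∀ Q (φ : F →ₐ[k] Ω), Gen Q φ → B Q = 0 := by
    intro Q φ hφ
    by_contra hne
    obtain ⟨P, rfl⟩ := hBS Q hne
    exact not_over_of_gen hφ (ab_over hM hF P)
  -- the function
  have hH : h' ^ n / h ≠ 0 := div_ne_zero (pow_ne_zero _ hh') hh
  have hdvH : dv hMF (h' ^ n / h) = n • B' - (n • Y + n • B + dv hMF h) := by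
    rw [dv_div hMF (pow_ne_zero _ hh') hh, dv_pow hMF hh', hB', smul_add, smul_add]
    abel
  have hbot : ∀ a : Ω, a ∉ (⊥ : IntermediateField k Ω) →
      Transcendental (⊥ : IntermediateField k Ω) a := by
    intro a ha halg
    apply ha
    have h1 : IsAlgebraic k a := by
      have h2 : Algebra.IsAlgebraic k (⊥ : IntermediateField k Ω) := inferInstance
      exact (isIntegral_trans (R := k) (A := (⊥ : IntermediateField k Ω)) a
        halg.isIntegral).isAlgebraic
    obtain ⟨c, hc⟩ := exists_const_of_not_transcendental (k := k) (f := a) (not_not.mpr h1)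
    rw [IntermediateField.mem_bot]
    exact ⟨c, hc⟩
  have hAgen : ∀ Q (φ : F →ₐ[k] Ω), Gen Q φ → (n • Y + n • B + dv hMF h) Q = 0 := by
    intro Q φ hφ
    rw [Finsupp.add_apply, Finsupp.add_apply, Finsupp.smul_apply, Finsupp.smul_apply,
      hgenB Q φ hφ, dv_apply, nsmul_eq_mul, hYgen Q φ hφ]
    simp
  have hrig := rigidity hM hF ⊥ hbot hB'0 hellB' hn (A := n • Y + n • B + dv hMF h) (by
    intro Q hQ φ hφ
    exact absurd (hAgen Q φ hφ) hQ) hH (fun Q => by
      rw [← dv_apply hMF, hdvH, Finsupp.sub_apply, Finsupp.smul_apply, nsmul_eq_mul])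
  have hgenB' : ∀ Q (φ : F →ₐ[k] Ω), Gen Q φ → B' Q = 0 := by
    intro Q φ hφ
    by_contra hne
    have h1 := hrig Q hne φ hφ x
    rw [IntermediateField.mem_bot] at h1
    obtain ⟨c, hc⟩ := h1
    apply hx
    have h2 : x = algebraMap k F c := by
      apply φ.toRingHom.injective
      change φ x = φ (algebraMap k F c)
      rw [AlgHom.commutes, hc]
    rw [h2]
    exact isAlgebraic_algebraMap c
  obtain ⟨c, f, hc0, hf0, hcf⟩ := principal_descent hM hF hH (fun Q hQ => by
    rcases hM.over_or_gen hF Q with ⟨P, hP⟩ | ⟨φ, hφ⟩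
    · exact ⟨P, hP⟩
    · exfalso
      apply hQ
      rw [← dv_apply hMF, hdvH, Finsupp.sub_apply, hAgen Q φ hφ, Finsupp.smul_apply,
        hgenB' Q φ hφ]
      simp)
  refine ⟨c⁻¹, f⁻¹, h', inv_ne_zero hc0, inv_ne_zero hf0, hh', ?_⟩
  rw [map_inv₀, map_inv₀, ← mul_inv, ← hcf]
  field_simp

end FF
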