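import Mathlib
import Pool.Agent.Helper37.UL.ConstE
import Pool.Agent.Helper37.UL.Rig
import Pool.Agent.Helper37.UL.Data
import Pool.Agent.Helper37.UL.Germ1

/-!
# Factorisation of Kummer classes with bounded data
-/

set_option linter.unusedSectionVars false

universe u

namespace Pool.Agent.Helper37.UL

open VC Polynomial IntermediateField

/-- An integral equation with constant coefficient a unit. -/
lemma unit_of_rel {M : Type u} [Field M] {R : ValuationSubring M} {B : ℕ} (hB : 0 < B)
    {c : Fin B → M} (hc : ∀ i, c i ∈ R) {x : M} (hx : x ^ B + ∑ i, c i * x ^ (i : ℕ) = 0)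
    (h0 : ∀ i : Fin B, (i : ℕ) = 0 → c i ∉ R.nonunits) : x ∈ R ∧ x ∉ R.nonunits := by
  have h1 : x ∈ R := by
    by_contra hx1
    have hv : 1 < R.valuation x := by
      rw [← not_le, ValuationSubring.valuation_le_one_iff]
      exact hx1
    have hx0 : R.valuation x ≠ 0 := ne_of_gt (lt_trans zero_lt_one hv)
    have h2 : R.valuation (∑ i, c i * x ^ (i : ℕ)) < R.valuation (x ^ B) := by
      apply Valuation.map_sum_lt
      · rw [map_pow]
        exact pow_ne_zero _ hx0
      · intro i _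
        rw [map_mul, map_pow, map_pow]
        calc R.valuation (c i) * R.valuation x ^ (i : ℕ) ≤ 1 * R.valuation x ^ (i : ℕ) := by
              gcongr
              exact (ValuationSubring.valuation_le_one_iff _ _).mpr (hc i)
          _ < R.valuation x ^ B := by
              rw [one_mul]
              exact pow_lt_pow_right₀ hv i.2
    have h3 := Valuation.map_add_eq_of_lt_right (v := R.valuation)
      (x := ∑ i, c i * x ^ (i : ℕ)) (y := x ^ B) h2
    rw [add_comm, hx, map_zero, map_pow] at h3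
    exact pow_ne_zero _ hx0 h3.symm
  refine ⟨h1, fun hxn => ?_⟩
  apply h0 ⟨0, hB⟩ rfl
  have h2 : c ⟨0, hB⟩ = - (x ^ B + ∑ i ∈ Finset.univ.erase ⟨0, hB⟩, c i * x ^ (i : ℕ)) := by
    rw [← Finset.add_sum_erase _ _ (Finset.mem_univ (⟨0, hB⟩ : Fin B))] at hx
    simp only [pow_zero, mul_one] at hx
    linear_combination hx
  have hval : ∀ y : M, y ∈ R.nonunits ↔ R.valuation y < 1 := fun y =>
    ValuationSubring.mem_nonunits_iff _
  rw [hval] at hxn ⊢
  rw [h2, Valuation.map_neg]
  refine lt_of_le_of_lt (Valuation.map_add _ _ _) (max_lt ?_ ?_)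
  · rw [map_pow]
    exact pow_lt_one₀ zero_le' hxn hB.ne'
  · apply Valuation.map_sum_lt _ one_ne_zero
    intro i hi
    have hi0 : (i : ℕ) ≠ 0 := fun h => (Finset.ne_of_mem_erase hi) (Fin.ext h)
    rw [map_mul, map_pow]
    calc R.valuation (c i) * R.valuation x ^ (i : ℕ) ≤ 1 * R.valuation x ^ (i : ℕ) := by
          gcongr
          exact (ValuationSubring.valuation_le_one_iff _ _).mpr (hc i)
      _ < 1 := by
          rw [one_mul]
          exact pow_lt_one₀ zero_le' hxn hi0

/-- Values of polynomials. -/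
lemma sum_sub_mem {κ M : Type u} [Field κ] [Field M] [Algebra κ M] {Q : Place κ M} {t : M} {t₀ : κ}
    (ht : t - algebraMap κ M t₀ ∈ Q.ring.nonunits) {n : ℕ} (c : Fin n → κ) :
    (∑ l, algebraMap κ M (c l) * t ^ (l : ℕ)) - algebraMap κ M (∑ l, c l * t₀ ^ (l : ℕ)) ∈
      Q.ring.nonunits := by
  have hval : ∀ y : M, y ∈ Q.ring.nonunits ↔ Q.ring.valuation y < 1 := fun y =>
    ValuationSubring.mem_nonunits_iff _
  have ht1 : t ∈ Q.ring := by
    have h1 := Q.ring.add_mem _ _ (ValuationSubring.nonunits_subset ht) (Q.algebraMap_mem t₀)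
    rwa [sub_add_cancel] at h1
  rw [map_sum, ← Finset.sum_sub_distrib, hval]
  apply Valuation.map_sum_lt _ one_ne_zero
  intro l _
  have h1 : algebraMap κ M (c l) * t ^ (l : ℕ) - algebraMap κ M (c l * t₀ ^ (l : ℕ)) =
      algebraMap κ M (c l) * ((t - algebraMap κ M t₀) *
        ∑ i ∈ Finset.range l, t ^ i * (algebraMap κ M t₀) ^ ((l : ℕ) - 1 - i)) := by
    rw [map_mul, map_pow, mul_comm (t - _), Commute.geom_sum₂_mul (Commute.all _ _)]
    ring
  rw [h1, map_mul, map_mul]
  have h2 : Q.ring.valuation (algebraMap κ M (c l)) ≤ 1 :=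
    (ValuationSubring.valuation_le_one_iff _ _).mpr (Q.algebraMap_mem _)
  have h3 : Q.ring.valuation (∑ i ∈ Finset.range l, t ^ i *
      (algebraMap κ M t₀) ^ ((l : ℕ) - 1 - i)) ≤ 1 := by
    rw [ValuationSubring.valuation_le_one_iff]
    apply sum_mem
    intro i _
    exact mul_mem (pow_mem ht1 _) (pow_mem (Q.algebraMap_mem _) _)
  rw [hval] at ht
  calc Q.ring.valuation (algebraMap κ M (c l)) * (Q.ring.valuation (t - algebraMap κ M t₀) *
        Q.ring.valuation (∑ i ∈ Finset.range l, t ^ i *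
      (algebraMap κ M t₀) ^ ((l : ℕ) - 1 - i)))
      ≤ 1 * (Q.ring.valuation (t - algebraMap κ M t₀) * 1) := by gcongr
    _ < 1 := by rw [one_mul, mul_one]; exact ht

lemma ord_eq_zero_of_unit {κ M : Type u} [Field κ] [IsAlgClosed κ] [CharZero κ] [Field M] [Algebra κ M]
    (hM : IsFunctionField κ M) (Q : Place κ M) {x : M} (hx0 : x ≠ 0) (hx : x ∈ Q.ring)
    (hx' : x ∉ Q.ring.nonunits) : ord Q.ring x = 0 := by
  have h1 := (ord_nonneg_iff hM Q hx0).mpr hx
  have h2 := mt (ord_pos_iff hM Q hx0).mp hx'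
  omega

end Pool.Agent.Helper37.UL
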