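import Mathlib
import Pool.Agent.Helper37.UL.Star4

/-!
# Factorisation of Kummer classes with bounded data, 2
-/

set_option linter.unusedSectionVars false

universe u

namespace Pool.Agent.Helper37.UL

open VC Polynomial IntermediateField

lemma isAlgebraic_of_root {K S : Type u} [Field K] [Field S] [Algebra K S] {d : ℕ}
    {c : Fin (d + 1) → S} (hc : ∀ i, ∃ b : K, algebraMap K S b = c i) (hlast : c (Fin.last d) ≠ 0)
    {x : S} (hx : ∑ i, c i * x ^ (i : ℕ) = 0) : IsAlgebraic K x := by
  choose b hb using hc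
  refine ⟨∑ i : Fin (d + 1), Polynomial.C (b i) * X ^ (i : ℕ), ?_, ?_⟩
  · intro h0
    apply hlast
    rw [← hb]
    have h1 := congrArg (fun q => q.coeff d) h0
    simp only [finsetSum_coeff, coeff_C_mul, coeff_X_pow, coeff_zero] at h1
    rw [Finset.sum_eq_single (Fin.last d)] at h1
    · simp only [Fin.val_last, if_true, mul_one] at h1
      rw [h1, map_zero]
    · intro l _ hl
      rw [if_neg, mul_zero]
      intro h2
      exact hl (Fin.ext h2.symm)
    · intro h2
      exact absurd (Finset.mem_univ _) h2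
  · rw [map_sum, ← hx]
    apply Finset.sum_congr rfl
    intro l _
    rw [map_mul, aeval_C, map_pow, aeval_X, hb]

/-- Elements with bounded data are in the field. -/
lemma mem_of_cpx {S : Type u} [Field S] {κ : Subfield S} {t : S} (ht : Transcendental κ t)
    {d B : ℕ} {x y h : S} (hh : Cpx κ d B t x y h) {M : IntermediateField κ S} (htM : t ∈ M)
    (hx : x ∈ M) (hy : y ∈ M) : h ∈ M := by
  obtain ⟨n, q, hn, hq, hq0, he⟩ := hh
  have hκM : ∀ c ∈ κ, c ∈ M := fun c hc => M.algebraMap_mem ⟨c, hc⟩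
  have h1 : ∑ l, q l * t ^ (l : ℕ) ≠ 0 := by
    intro h0
    apply hq0
    have h2 : aeval t (∑ l : Fin (B + 1), Polynomial.C (⟨q l, hq l⟩ : κ) * X ^ (l : ℕ)) = 0 := by
      rw [← h0, map_sum]
      apply Finset.sum_congr rfl
      intro l _
      rw [map_mul, aeval_C, map_pow, aeval_X]
      rfl
    have h3 := transcendental_iff.mp ht _ h2
    funext j
    have h4 := congrArg (fun q => q.coeff j) h3
    simp only [finsetSum_coeff, coeff_C_mul, coeff_X_pow, coeff_zero] at h4
    rw [Finset.sum_eq_single j] at h4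
    · simp only [if_true, mul_one] at h4
      exact congrArg Subtype.val h4
    · intro l _ hl
      rw [if_neg, mul_zero]
      intro h2
      exact hl (Fin.ext h2.symm)
    · intro h2
      exact absurd (Finset.mem_univ _) h2
  have h2 : h = (∑ i, ∑ j, (∑ l, n i j l * t ^ (l : ℕ)) * (x ^ (i : ℕ) * y ^ (j : ℕ))) /
      ∑ l, q l * t ^ (l : ℕ) := by
    rw [eq_div_iff h1, mul_comm, he]
  rw [h2]
  apply div_mem
  · apply sum_mem
    intro i _
    apply sum_mem
    intro j _
    apply mul_mem _ (mul_mem (pow_mem hx _) (pow_mem hy _))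
    apply sum_mem
    intro l _
    exact mul_mem (hκM _ (hn i j l)) (pow_mem htM _)
  · apply sum_mem
    intro l _
    exact mul_mem (hκM _ (hq l)) (pow_mem htM _)

/-- **Factorisation.** -/
theorem exists_factor {S : Type u} [Field S] [IsAlgClosed S] [CharZero S] {κ0 κ Kg k0 : Subfield S}
    (h0 : κ0 ≤ κ) (hκ0 : ∀ x : S, IsAlgebraic κ0 x → x ∈ κ0) (hκ : ∀ x : S, IsAlgebraic κ x → x ∈ κ)
    {t : S} (ht : Transcendental κ t) (hKg : κ ≤ Kg) (htg : t ∈ Kg)
    (hk0 : ∀ x ∈ κ0, IsAlgebraic k0 x) (htk : t ∈ k0)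
    {d p B m : ℕ} (hp : p.Prime) (hB : 0 < B) {a : Fin (d + 1) → Fin (m + 1) → S}
    (ha : ∀ i l, a i l ∈ κ0) {θ : Fin d → S} (hinj : Function.Injective θ)
    (hlead : ∑ l, a (Fin.last d) l * t ^ (l : ℕ) ≠ 0)
    (hroot : ∀ i, ∑ j, (∑ l, a j l * t ^ (l : ℕ)) * θ i ^ (j : ℕ) = 0) {i j : Fin d} {w : S}
    (hw : w ≠ 0) (hD : Data κ Kg t d p B a (θ i) (θ j) w) :
    ∃ e g : S, IsAlgebraic k0 e ∧ g ∈ Subfield.closure ((Kg : Set S) ∪ Set.range θ) ∧
      w = e * g := by
  classical
  obtain ⟨g, r, G, c, c', hg, hr, hG, hgG, hA, hR, hc, hc', hχ, hχ', hgood⟩ := hD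
  -- the fields
  let iκ : Algebra κ0 κ := (Subfield.inclusion h0).toAlgebra
  have hst : IsScalarTower κ0 κ S := IsScalarTower.of_algebraMap_eq fun _ => rfl
  have hcκ0 : IsAlgClosed κ0 := isAlgClosed_of hκ0
  have hcκ : IsAlgClosed κ := isAlgClosed_of hκ
  have ht0 : Transcendental κ0 t := fun h => ht (isAlgebraic_mono h0 h)
  set X0 : Set S := {t} ∪ Set.range θ with hX0
  have htX : t ∈ X0 := Or.inl rfl
  have hθX : ∀ i, θ i ∈ X0 := fun i => Or.inr ⟨i, rfl⟩
  -- the roots are algebraic
  have hθalg : ∀ i, IsAlgebraic κ0⟮t⟯ (θ i) := by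
    intro i
    refine isAlgebraic_of_root (c := fun j => ∑ l, a j l * t ^ (l : ℕ)) (fun j => ?_) hlead
      (hroot i)
    have h1 : ∑ l, a j l * t ^ (l : ℕ) ∈ κ0⟮t⟯ := by
      apply sum_mem
      intro l _
      exact mul_mem (κ0⟮t⟯.algebraMap_mem ⟨_, ha j l⟩) (pow_mem (mem_adjoin_simple_self _ _) _)
    exact ⟨⟨_, h1⟩, rfl⟩
  obtain ⟨htF, hfinF⟩ := isFunctionField_adjoin ht0 θ hθalg
  have hFF : IsFunctionField κ0 (adjoin κ0 X0) := ⟨_, transcendental_mk ht0 htF, hfinF⟩
  have halg : Algebra.IsAlgebraic κ0⟮(⟨t, htF⟩ : adjoin κ0 X0)⟯ (adjoin κ0 X0) := inferInstance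
  let iFM := algAA κ0 κ X0
  obtain ⟨hT, hM⟩ := isConstExt_adjoin (κ := κ) X0 ht htF halg
  have hMF : IsFunctionField κ (adjoin κ X0) := hM.isFunctionField hFF
  have hAM : (w * g) ^ p ∈ adjoin κ X0 := mem_of_cpx ht hA (subset_adjoin _ _ htX)
    (subset_adjoin _ _ (hθX i)) (subset_adjoin _ _ (hθX j))
  have hRM : r ∈ adjoin κ X0 := mem_of_cpx ht hR (subset_adjoin _ _ htX)
    (subset_adjoin _ _ (hθX i)) (subset_adjoin _ _ (hθX j))
  have htM : t ∈ adjoin κ X0 := subset_adjoin _ _ htX
  have hA0 : (⟨(w * g) ^ p, hAM⟩ : adjoin κ X0) ≠ 0 := fun h =>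
    pow_ne_zero p (mul_ne_zero hw hg) (congrArg Subtype.val h)
  have hr0 : (⟨r, hRM⟩ : adjoin κ X0) ≠ 0 := fun h => hr (congrArg Subtype.val h)
  obtain ⟨c1, f, g1, hc10, hf0, hg10, hfac⟩ := FF.kummer_descent hM hFF hp.ne_zero hA0 (by
    intro Q φ hφ
    -- the value of `t`
    let tF : adjoin κ0 X0 := ⟨t, htF⟩
    let t₀ : κ := φ tF
    have htQ : (⟨t, htM⟩ : adjoin κ X0) - algebraMap κ (adjoin κ X0) t₀ ∈ Q.ring.nonunits :=
      hφ tF
    have htQ1 : (⟨t, htM⟩ : adjoin κ X0) ∈ Q.ring := hφ.mem tF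
    let aF : Fin (d + 1) → Fin (m + 1) → κ0 := fun i l => ⟨a i l, ha i l⟩
    have hφa : ∀ i l, ((φ (algebraMap κ0 _ (aF i l)) : κ) : S) = a i l := by
      intro i l
      rw [AlgHom.commutes]
      rfl
    have hGood : Good κ a (t₀ : S) := by
      refine ⟨?_, fun i => ((φ ⟨θ i, subset_adjoin _ _ (hθX i)⟩ : κ) : S), ?_,
        fun i => Subtype.coe_prop _, ?_⟩
      · intro h1
        apply hlead
        have h2 : φ (∑ l, algebraMap κ0 _ (aF (Fin.last d) l) * tF ^ (l : ℕ)) = 0 := by
          apply Subtype.ext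
          rw [map_sum]
          push_cast
          rw [← h1]
          apply Finset.sum_congr rfl
          intro l _
          rw [map_mul, map_pow]
          push_cast
          rw [hφa]
        have h3 := (map_eq_zero_iff φ φ.toRingHom.injective).mp h2
        have h4 := congrArg Subtype.val h3
        push_cast at h4
        exact h4
      · intro i j hij
        have h1 := φ.toRingHom.injective (Subtype.ext hij)
        exact hinj (congrArg Subtype.val h1)
      · intro i
        have h3 : ∑ j, (∑ l, algebraMap κ0 (adjoin κ0 X0) (aF j l) * tF ^ (l : ℕ)) *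
            (⟨θ i, subset_adjoin _ _ (hθX i)⟩ : adjoin κ0 X0) ^ (j : ℕ) = 0 := by
          apply Subtype.ext
          push_cast
          exact hroot i
        have h4 := congrArg (fun y => ((φ y : κ) : S)) h3
        simp only [map_sum, map_mul, map_pow, map_zero] at h4
        push_cast at h4
        simp only [hφa] at h4
        exact h4
    have hor := hgood t₀ t₀.2 hGood ⟨0, hB⟩ rfl
    -- units
    have hunit : ∀ (u : Fin B → Fin (B + 1) → S) (hu : ∀ i l, u i l ∈ κ) (y : S)
        (hy : y ∈ adjoin κ X0), y ^ B + ∑ i, (∑ l, u i l * t ^ (l : ℕ)) * y ^ (i : ℕ) = 0 →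
        ∑ l, u ⟨0, hB⟩ l * (t₀ : S) ^ (l : ℕ) ≠ 0 → y ≠ 0 →
        ord Q.ring (⟨y, hy⟩ : adjoin κ X0) = 0 := by
      intro u hu y hy hrel hne hy0
      let uM : Fin B → Fin (B + 1) → κ := fun i l => ⟨u i l, hu i l⟩
      obtain ⟨h1, h2⟩ := unit_of_rel (R := Q.ring) hB
        (c := fun i => ∑ l, algebraMap κ _ (uM i l) * (⟨t, htM⟩ : adjoin κ X0) ^ (l : ℕ))
        (x := ⟨y, hy⟩) (fun i => by
          apply sum_mem
          intro l _
          exact mul_mem (Q.algebraMap_mem _) (pow_mem htQ1 _)) (by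
          apply Subtype.ext
          push_cast
          exact hrel) (by
          intro i hi hcon
          have hi' : i = ⟨0, hB⟩ := Fin.ext hi
          subst hi'
          have h3 := sum_sub_mem htQ (uM ⟨0, hB⟩)
          have h4 := sub_mem hcon h3
          rw [sub_sub_cancel] at h4
          have h5 := FF.algebraMap_mem_nonunits Q h4
          apply hne
          have h6 := congrArg (fun y : κ => (y : S)) h5
          push_cast at h6
          exact h6)
      exact ord_eq_zero_of_unit hMF Q (fun h => hy0 (congrArg Subtype.val h)) h1 h2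
    rcases hor with h1 | h1
    · rw [hunit c hc _ hAM hχ h1 (pow_ne_zero p (mul_ne_zero hw hg))]
      exact dvd_zero _
    · have hAr : (w * g * r) ^ p ∈ adjoin κ X0 := by
        rw [mul_pow]
        exact mul_mem hAM (pow_mem hRM p)
      have h2 := hunit c' hc' _ hAr hχ' h1 (pow_ne_zero p (mul_ne_zero (mul_ne_zero hw hg) hr))
      have h3 : (⟨(w * g * r) ^ p, hAr⟩ : adjoin κ X0) = ⟨(w * g) ^ p, hAM⟩ * ⟨r, hRM⟩ ^ p := by
        apply Subtype.ext
        push_cast
        rw [mul_pow]
      rw [h3, ord_mul hMF Q hA0 (pow_ne_zero _ hr0)] at h2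
      have h4 : ord Q.ring ((⟨r, hRM⟩ : adjoin κ X0) ^ p) = p * ord Q.ring ⟨r, hRM⟩ := by
        have h5 := DFunLike.congr_fun (FF.dv_pow hMF hr0 p) Q
        rw [FF.dv_apply, Finsupp.smul_apply, FF.dv_apply, nsmul_eq_mul] at h5
        exact h5
      rw [h4] at h2
      exact ⟨- ord Q.ring ⟨r, hRM⟩, by linarith⟩)
  -- conclusion
  have hfac' : (w * g) ^ p = (c1 : S) * f * (g1 : S) ^ p := by
    have := congrArg Subtype.val hfac
    push_cast at this
    exact this
  obtain ⟨c2, hc2⟩ := IsAlgClosed.exists_pow_nat_eq (c1 : κ) hp.pos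
  obtain ⟨e, he⟩ := IsAlgClosed.exists_pow_nat_eq (f : S) hp.pos
  have hfS : (f : S) ≠ 0 := fun h => hf0 (Subtype.ext h)
  have he0 : e ≠ 0 := by
    intro h
    rw [h, zero_pow hp.ne_zero] at he
    exact hfS he.symm
  refine ⟨e, w / e, ?_, ?_, ?_⟩
  · -- algebraicity
    have h1 : ∀ x ∈ adjoin κ0 X0, IsAlgebraic k0 x := by
      have hκ0L : ∀ x ∈ κ0, x ∈ algebraicClosure k0 S := fun x hx =>
        mem_algebraicClosure_iff.mpr (hk0 x hx)
      have htL : t ∈ algebraicClosure k0 S :=
        (algebraicClosure k0 S).algebraMap_mem (⟨t, htk⟩ : k0)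
      have hθL : ∀ i, θ i ∈ algebraicClosure k0 S := by
        intro i
        rw [mem_algebraicClosure_iff]
        have h2 : IsAlgebraic (algebraicClosure k0 S) (θ i) := by
          refine isAlgebraic_of_root (c := fun j => ∑ l, a j l * t ^ (l : ℕ)) (fun j => ?_) hlead
            (hroot i)
          have h3 : ∑ l, a j l * t ^ (l : ℕ) ∈ algebraicClosure k0 S := by
            apply sum_mem
            intro l _
            exact mul_mem (hκ0L _ (ha j l)) (pow_mem htL _)
          exact ⟨⟨_, h3⟩, rfl⟩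
        exact (isIntegral_trans (R := k0) (A := algebraicClosure k0 S) _ h2.isIntegral).isAlgebraic
      intro x hx
      rw [← IntermediateField.mem_toSubfield, IntermediateField.adjoin_toSubfield] at hx
      have h2 : Subfield.closure (Set.range (algebraMap κ0 S) ∪ X0) ≤
          (algebraicClosure k0 S).toSubfield := by
        rw [Subfield.closure_le]
        rintro y (⟨c, rfl⟩ | (hy | ⟨i, rfl⟩))
        · exact hκ0L _ c.2
        · rw [Set.mem_singleton_iff] at hy
          rw [hy]
          exact htL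
        · exact hθL i
      exact mem_algebraicClosure_iff.mp (h2 hx)
    have h2 := h1 f f.2
    rw [← he] at h2
    exact IsAlgebraic.of_pow hp.pos h2
  · -- the second factor
    have hc20 : (c2 : S) ≠ 0 := by
      intro h
      apply hc10
      rw [← hc2, Subtype.ext (a2 := (0 : κ)) h, zero_pow hp.ne_zero]
    have hg1S : (g1 : S) ≠ 0 := fun h => hg10 (Subtype.ext h)
    have hc2' : (c2 : S) ^ p = c1 := by
      have := congrArg Subtype.val hc2
      push_cast at this
      exact this
    have hζ : (w * g / (c2 * e * g1)) ^ p = 1 := by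
      rw [div_pow, hfac', mul_pow, mul_pow, hc2', he, div_self]
      refine mul_ne_zero (mul_ne_zero ?_ hfS) (pow_ne_zero _ hg1S)
      rw [← hc2']
      exact pow_ne_zero _ hc20
    have hζκ : w * g / (c2 * e * g1) ∈ κ := by
      apply hκ
      apply IsAlgebraic.of_pow hp.pos
      rw [hζ]
      exact isAlgebraic_one
    have hcl : ∀ x ∈ adjoin κ X0, x ∈ Subfield.closure ((Kg : Set S) ∪ Set.range θ) := by
      intro x hx
      rw [← IntermediateField.mem_toSubfield, IntermediateField.adjoin_toSubfield] at hx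
      have h1 : Subfield.closure (Set.range (algebraMap κ S) ∪ X0) ≤
          Subfield.closure ((Kg : Set S) ∪ Set.range θ) := by
        rw [Subfield.closure_le]
        rintro y (⟨c, rfl⟩ | (hy | hy))
        · exact Subfield.subset_closure (Or.inl (hKg c.2))
        · rw [Set.mem_singleton_iff] at hy
          rw [hy]
          exact Subfield.subset_closure (Or.inl htg)
        · exact Subfield.subset_closure (Or.inr hy)
      exact h1 hx
    have hκcl : ∀ x ∈ κ, x ∈ Subfield.closure ((Kg : Set S) ∪ Set.range θ) := fun x hx =>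
      Subfield.subset_closure (Or.inl (hKg hx))
    have hθcl : ∀ i, θ i ∈ Subfield.closure ((Kg : Set S) ∪ Set.range θ) := fun i =>
      Subfield.subset_closure (Or.inr ⟨i, rfl⟩)
    have hgcl : g ∈ Subfield.closure ((Kg : Set S) ∪ Set.range θ) := by
      rw [hgG]
      apply Subfield.sum_mem
      intro i _
      apply Subfield.sum_mem
      intro j _
      exact Subfield.mul_mem _ (Subfield.subset_closure (Or.inl (hG _ _)))
        (Subfield.mul_mem _ (Subfield.pow_mem _ (hθcl _) _) (Subfield.pow_mem _ (hθcl _) _))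
    have hwe : w / e = (w * g / (c2 * e * g1)) * c2 * g1 / g := by
      field_simp
    rw [hwe]
    exact Subfield.div_mem _ (Subfield.mul_mem _ (Subfield.mul_mem _ (hκcl _ hζκ)
      (hκcl _ c2.2)) (hcl _ g1.2)) hgcl
  · rw [mul_div_cancel₀ _ he0]

end Pool.Agent.Helper37.UL
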