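import Pool.Agent.Helper10.UL.Gen2
import Pool.Agent.Helper37.UL.Germ4
import Pool.Agent.Helper37.UL.Germ5
import Pool.Agent.Helper37.UL.Star3
import Pool.Agent.Helper37.UL.Star5

/-!
# There is no Zariski dense family of level one structures with bounded data
-/

universe u v w

namespace UL

open Polynomial Pool.Agent.GC Pool.Agent.Helper37.UL

/-- values in a subfield -/
lemma cT_mem_subfield {S : Type w} [Field S] {X : Subfield S} {r m d : ℕ} {U : S} (hU : U ∈ X)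
    {w : Fin r → S} (hw : ∀ j, w j ∈ X) {b : Fin (d + 1) × IdxR (r + 2) m → S}
    (hb : ∀ q, b q ∈ X) (i : Fin (d + 1)) (l : Fin (m + 1)) : cT U w b i l ∈ X := by
  have h1 := map_cT X.subtype (⟨U, hU⟩ : X) (fun j => ⟨w j, hw j⟩) (fun q => ⟨b q, hb q⟩) i l
  have h2 : cT U w b i l = X.subtype (cT (⟨U, hU⟩ : X) (fun j => ⟨w j, hw j⟩)
    (fun q => ⟨b q, hb q⟩) i l) := by
    rw [h1]
    rfl
  rw [h2]
  exact Subtype.coe_prop _

/-- There is no Zariski dense family of level one structures with bounded data. -/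
theorem no_family {J : Type} {C : Type u} [Field C] [IsAlgClosed C] [CharZero C] {r m d p B : ℕ}
    (hp : p.Prime) (hd : 3 ≤ d) (hm : 1 ≤ m)
    {vv : J → Fin (d + 1) × IdxR (r + 2) m → ℤ}
    (hS : ∀ Ψ : MvPolynomial (Fin (d + 1) × IdxR (r + 2) m) ℤ, Ψ ≠ 0 →
      ∃ j, MvPolynomial.eval (vv j) Ψ ≠ 0)
    {Ω κ : Subfield C} (hΩ : ∀ x : C, IsAlgebraic Ω x → x ∈ Ω)
    (hκ : ∀ x : C, IsAlgebraic κ x → x ∈ κ) (hΩκ : Ω ≤ κ)
    {T u : C} (hTu : AlgebraicIndependent Ω ![T, u]) (hu : u ∈ κ)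
    (hT : AlgebraicIndependent κ ![T]) {w : Fin r → C} (hw : ∀ j, w j ∈ Ω)
    (halg : ∀ x : C, IsAlgebraic (gen Ω ![T, u]) x)
    (hκalg : ∀ x : C, x ∈ κ ↔ IsAlgebraic (gen Ω ![u]) x)
    {θ : J → Fin d → C} {z : J → Fin d → Fin d → C} {α : J → C}
    (hlev : ∀ a, Lev (gen Ω ![T, u]) p (fun i : Fin (d + 1) =>
      ∑ e, cT u w (fun q => (vv a q : C)) i e * T ^ (e : ℕ)) (θ a) (z a) (α a))
    (hdata : ∀ a i j, i ≠ j → Data κ (gen κ ![T]) T d p B
      (fun i l => cT u w (fun q => (vv a q : C)) i l) (θ a i) (θ a j) (z a i j)) : False := by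
  classical
  obtain ⟨U, hU⟩ := exists_ultraJ vv hS C
  obtain ⟨S, _, π, h⟩ := exists_up.{u, 0} U C
  have hSa : IsAlgClosed S := h.isAlgClosed
  have hS0 : CharZero S := h.charZero
  -- notation
  let t' : S := UP.cst π T
  let u' : S := UP.cst π u
  let w' : Fin r → S := fun j => UP.cst π (w j)
  let τ2 : Fin 2 → S := fun i => UP.cst π ((![T, u] : Fin 2 → C) i)
  let τ1 : Fin 1 → S := fun i => UP.cst π ((![T] : Fin 1 → C) i)
  let σ1 : Fin 1 → S := fun i => UP.cst π ((![u] : Fin 1 → C) i)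
  let Λ := h.gsub Ω
  let κ' := h.gsub κ
  let Kst := h.gsub (gen Ω ![T, u])
  let Kg := h.gsub (gen κ ![T])
  let k0 := gen Λ τ2
  let θ' : Fin d → S := fun i => π fun a => θ a i
  let z' : Fin d → Fin d → S := fun i j => π fun a => z a i j
  let f' : Fin (d + 1) → S := fun i => π fun a =>
    ∑ e, cT u w (fun q => (vv a q : C)) i e * T ^ (e : ℕ)
  have hlev' : Lev Kst p f' θ' z' (π α) := h.lev hlev
  have hdata' : ∀ i j, i ≠ j → Data κ' Kg t' d p B
      (fun i l => π fun a => cT u w (fun q => (vv a q : C)) i l) (θ' i) (θ' j) (z' i j) :=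
    fun i j hij => h.data fun a => hdata a i j hij
  have hB : 0 < B := by
    have h01 : (⟨0, by omega⟩ : Fin d) ≠ ⟨1, by omega⟩ := by
      intro h1
      have := congrArg Fin.val h1
      simp at this
    obtain ⟨g, r, G, c, c', hg, hr, hG, hgG, hA, hR, hc, hc', hχ, -⟩ := hdata' _ _ h01
    by_contra hB
    have hB0 : B = 0 := by omega
    subst hB0
    simp at hχ
  -- elementary facts
  have ht2 : t' = τ2 0 := rfl
  have hu2 : u' = τ2 1 := rfl
  have htk0 : t' ∈ k0 := gen_mem (τ := τ2) 0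
  have huk0 : u' ∈ k0 := gen_mem (τ := τ2) 1
  have hΛk0 : Λ ≤ k0 := le_gen
  have hk0Kst : k0 ≤ Kst := h.gen_le
  have hwΛ : ∀ j, w' j ∈ Λ := fun j => h.const_mem_gsub.mpr (hw j)
  have hxΛ : ∀ q, xgen π vv q ∈ Λ := fun q => xgen_mem h Ω q
  have htau2 : AlgebraicIndependent Λ τ2 := h.algInd hTu
  have htau1 : AlgebraicIndependent κ' τ1 := h.algInd hT
  have hrel : ∀ x ∈ Kst, IsAlgebraic k0 x → x ∈ k0 := fun x hx hx' =>
    h.gen_relAlgClosed hTu hx hx'
  have hrel' : ∀ x ∈ Kg, IsAlgebraic (gen κ' τ1) x → x ∈ gen κ' τ1 := fun x hx hx' =>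
    h.gen_relAlgClosed hT hx hx'
  have hκ' : ∀ x : S, IsAlgebraic κ' x → x ∈ κ' := fun x hx => h.gsub_algClosed hκ hx
  have hΛ : ∀ x : S, IsAlgebraic Λ x → x ∈ Λ := fun x hx => h.gsub_algClosed hΩ hx
  have hΛκ' : Λ ≤ κ' := h.gsub_mono hΩκ
  have huκ' : u' ∈ κ' := h.const_mem_gsub.mpr hu
  have hgenle : gen Ω ![T, u] ≤ gen κ ![T] := by
    unfold gen
    rw [Subfield.closure_le, Set.union_subset_iff]
    refine ⟨fun x hx => Subfield.subset_closure (Or.inl (hΩκ hx)), ?_⟩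
    rintro _ ⟨i, rfl⟩
    fin_cases i
    · exact Subfield.subset_closure (Or.inr ⟨0, rfl⟩)
    · exact Subfield.subset_closure (Or.inl hu)
  have hKstKg : Kst ≤ Kg := h.gsub_mono hgenle
  have hκ'Kg : κ' ≤ Kg := h.gsub_mono le_gen
  have htKg : t' ∈ Kg := h.const_mem_gsub.mpr (gen_mem (τ := ![T]) 0)
  have ht' : Transcendental κ' t' := by
    have := htau1.transcendental 0
    exact this
  have hμ : ∀ ζ : S, ζ ^ p = 1 → ζ ∈ k0 := by
    intro ζ hζ
    apply hΛk0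
    apply hΛ
    apply IsAlgebraic.of_pow hp.pos
    rw [hζ]
    exact isAlgebraic_one
  have hf' : ∀ i, f' i = ∑ l, cT u' w' (xgen π vv) i l * t' ^ (l : ℕ) := fun i => pi_fc T u w i
  have hf'k0 : ∀ i, f' i ∈ k0 := by
    intro i
    rw [hf']
    apply Subfield.sum_mem
    intro l _
    exact Subfield.mul_mem _ (cT_mem_subfield huk0 (fun j => hΛk0 (hwΛ j))
      (fun q => hΛk0 (hxΛ q)) i l) (Subfield.pow_mem _ htk0 _)
  have hθalg : ∀ i, IsAlgebraic k0 (θ' i) := fun i =>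
    isAlgebraic_of_root (c := f') (fun j => ⟨⟨_, hf'k0 j⟩, rfl⟩) hlev'.lead (hlev'.root i)
  have hαalg : IsAlgebraic k0 (π α) := by
    apply IsAlgebraic.of_pow hp.pos
    rw [hlev'.alpha]
    exact isAlgebraic_algebraMap (⟨_, hf'k0 _⟩ : k0)
  -- the algebraic closure of `Λ(u)`
  let κ0 : Subfield S := (algebraicClosure (gen Λ σ1) S).toSubfield
  have hmemκ0 : ∀ x : S, x ∈ κ0 ↔ IsAlgebraic (gen Λ σ1) x := fun x => mem_algebraicClosure_iff
  have hκ0cl : ∀ x : S, IsAlgebraic κ0 x → x ∈ κ0 := by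
    intro x hx
    rw [hmemκ0]
    have h1 : IsAlgebraic (algebraicClosure (gen Λ σ1) S) x := hx
    exact (isIntegral_trans (R := gen Λ σ1) (A := algebraicClosure (gen Λ σ1) S) _
      h1.isIntegral).isAlgebraic
  have hgenκ' : gen Λ σ1 ≤ κ' := by
    unfold gen
    rw [Subfield.closure_le, Set.union_subset_iff]
    refine ⟨hΛκ', ?_⟩
    rintro _ ⟨i, rfl⟩
    fin_cases i
    exact huκ'
  have hκ0κ' : κ0 ≤ κ' := fun x hx => hκ' x (isAlgebraic_mono hgenκ' ((hmemκ0 x).mp hx))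
  have hgenk0 : gen Λ σ1 ≤ k0 := by
    unfold gen
    rw [Subfield.closure_le, Set.union_subset_iff]
    refine ⟨hΛk0, ?_⟩
    rintro _ ⟨i, rfl⟩
    fin_cases i
    exact huk0
  have hκ0k0 : ∀ x ∈ κ0, IsAlgebraic k0 x := fun x hx =>
    isAlgebraic_mono hgenk0 ((hmemκ0 x).mp hx)
  have huκ0 : u' ∈ κ0 := (hmemκ0 _).mpr
    (isAlgebraic_algebraMap (⟨u', gen_mem (τ := σ1) 0⟩ : gen Λ σ1))
  have hΛκ0 : Λ ≤ κ0 := fun x hx => (hmemκ0 _).mpr
    (isAlgebraic_algebraMap (⟨x, le_gen hx⟩ : gen Λ σ1))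
  have haκ0 : ∀ i l, (π fun a => cT u w (fun q => (vv a q : C)) i l) ∈ κ0 := by
    intro i l
    rw [pi_cT]
    exact cT_mem_subfield huκ0 (fun j => hΛκ0 (hwΛ j)) (fun q => hΛκ0 (hxΛ q)) i l
  have hfa : ∀ i, f' i = ∑ l : Fin (m + 1), (π fun a => cT u w (fun q => (vv a q : C)) i l) *
      t' ^ (l : ℕ) := by
    intro i
    rw [hf']
    apply Finset.sum_congr rfl
    intro l _
    rw [pi_cT]
  -- factorisation
  have hz : ∀ i j, i ≠ j → ∃ e g : S, IsAlgebraic k0 e ∧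
      g ∈ Subfield.closure ((Kg : Set S) ∪ Set.range θ') ∧ z' i j = e * g := by
    intro i j hij
    refine exists_factor hκ0κ' hκ0cl hκ' ht' hκ'Kg htKg hκ0k0 htk0 hp hB haκ0 hlev'.inj ?_ ?_
      (hlev'.ne i j hij) (hdata' i j hij)
    · rw [← hfa]
      exact hlev'.lead
    · intro i
      rw [← hlev'.root i]
      apply Finset.sum_congr rfl
      intro l _
      rw [hfa]
  -- double transitivity
  have h2 : ∀ i j i' j', i ≠ j → i' ≠ j' → ∃ σ : S ≃+* S, (∀ y ∈ Kg, σ y = y) ∧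
      σ (θ' i) = θ' i' ∧ σ (θ' j) = θ' j' := by
    intro i j i' j' hij hij'
    obtain ⟨σ, hσ, hσi, hσj⟩ := two_trans_final h hU hT hu (fun j => hΩκ (hw j)) hd hm hlev'.inj
      (fun i => hlev'.root i) hij hij'
    have hk0gen : k0 ≤ gen κ' τ1 := by
      show gen Λ τ2 ≤ gen κ' τ1
      unfold gen
      rw [Subfield.closure_le, Set.union_subset_iff]
      refine ⟨fun x hx => Subfield.subset_closure (Or.inl (hΛκ' hx)), ?_⟩
      rintro _ ⟨i, rfl⟩
      fin_cases i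
      · exact Subfield.subset_closure (Or.inr ⟨0, rfl⟩)
      · exact Subfield.subset_closure (Or.inl huκ')
    obtain ⟨τ, hτ, hττ⟩ := lift_conj (B := gen κ' τ1) (K' := Kg) h.gen_le hrel' θ'
      (fun i => isAlgebraic_mono hk0gen (hθalg i)) σ hσ
    exact ⟨τ, hτ, (hττ i).trans hσi, (hττ j).trans hσj⟩
  -- internal automorphisms
  have hI2 : ∀ T' : S ≃+* S, UP.Internal π (gen Ω ![T, u]) T' → ∀ y ∈ Kg, T' y ∈ Kg := by
    intro T' hT' y hy
    refine UP.Internal.maps h hT' ?_ hy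
    intro τ hτ x hx
    have hτκ : ∀ y ∈ κ, τ y ∈ κ := by
      intro y hy
      rw [hκalg] at hy ⊢
      have hfix : ∀ c ∈ gen Ω ![u], τ c = c := by
        intro c hc
        apply hτ
        have h1 : gen Ω ![u] ≤ gen Ω ![T, u] := by
          unfold gen
          rw [Subfield.closure_le, Set.union_subset_iff]
          refine ⟨fun x hx => Subfield.subset_closure (Or.inl hx), ?_⟩
          rintro _ ⟨i, rfl⟩
          fin_cases i
          exact Subfield.subset_closure (Or.inr ⟨1, rfl⟩)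
        exact h1 hc
      obtain ⟨q, hq0, hq⟩ := hy
      exact ⟨q, hq0, by rw [← map_aeval hfix, hq, map_zero]⟩
    have h1 : gen κ ![T] ≤ (gen κ ![T]).comap (τ : C →+* C) := by
      conv_lhs => unfold gen
      rw [Subfield.closure_le, Set.union_subset_iff]
      refine ⟨fun x hx => le_gen (hτκ x hx), ?_⟩
      rintro _ ⟨i, rfl⟩
      fin_cases i
      change τ T ∈ gen κ ![T]
      rw [hτ T (gen_mem (τ := ![T, u]) 0)]
      exact gen_mem (τ := ![T]) 0
    exact h1 hx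
  obtain ⟨β, hβ, hβn, hβθ, hβα, hβz⟩ := group_trick hk0Kst hKstKg hp.ne_zero hd hlev' hμ hθalg
    hαalg hz h2 (UP.Internal π (gen Ω ![T, u])) (fun T' hT' y hy => UP.Internal.fix h hT' hy) hI2
    (fun β z hβ hβz => h.mem_of_internal halg hβ hβz)
  obtain ⟨z'', hz''⟩ := descend hk0Kst hrel hp.ne_zero hlev' hf'k0 hμ hβ hβn hβθ hβα hβz
  exact no_lev_final h hU hTu hw hp hd hm hz''

end UL
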