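import Pool.Agent.Helper37.UL.A5
import Pool.Agent.Helper37.UL.LevEq

/-!
# The level one structure attached to a Galois section (block A)
-/

universe u

namespace Pool.Agent.Helper37.UL

open Polynomial Pool.Agent.Helper91.Sect

theorem exists_lev' {k : Type u} [Field k] [CharZero k] {p d : ℕ} (hp : p.Prime) (hdvd : p ∣ d)
    (hd : 3 ≤ d) {f : k[X]} (hf : f.Separable) (hfd : f.natDegree = d)
    {K : Type u} [Field K] [Algebra k K] {x y : K} (hx : Transcendental k x)
    (hxy : y ^ p = aeval x f) (s : GaloisSection k K)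
    (C : Type u) [Field C] [Algebra k C] [IsAlgClosure k C] :
    ∃ (θ : Fin d → C) (z : Fin d → Fin d → C) (α : C),
      Lev (algebraMap k C).fieldRange p (fun i : Fin (d + 1) => algebraMap k C (f.coeff i)) θ z α ∧
      ∀ V : ValuationSubring C,
        HasPlaces (IsLocalRing.ResidueField (V.comap (algebraMap k C))) →
        ((p : ℕ) : IsLocalRing.ResidueField (V.comap (algebraMap k C))) ≠ 0 →
        GoodAt V (fun i : Fin (d + 1) => algebraMap k C (f.coeff i)) θ →
        ∀ σ : C ≃+* C, Inert (algebraMap k C).fieldRange V σ →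
          ∀ i j, i ≠ j → σ (z i j) = z i j := by
  classical
  obtain ⟨θ, z, α, hinj, hroot, hz0, hα, hequi, hiner⟩ := exists_kbar hp hdvd hd hf hfd hx hxy s
  have hC1 : IsAlgClosed C := IsAlgClosure.isAlgClosed k
  have hC2 : Algebra.IsAlgebraic k C := IsAlgClosure.isAlgebraic
  have hC3 : CharZero C := charZero_of_injective_algebraMap (algebraMap k C).injective
  have hK1 : IsAlgClosure k (kbar k K) := ⟨inferInstance, inferInstance⟩
  let e : kbar k K ≃ₐ[k] C := IsAlgClosure.equiv k (kbar k K) C
  have hlc : f.coeff d = f.leadingCoeff := by rw [leadingCoeff, hfd]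
  have hlc0 : f.leadingCoeff ≠ 0 := leadingCoeff_ne_zero.2 hf.ne_zero
  -- the automorphisms of `C` over `k`
  have haut : ∀ τ : C ≃+* C, (∀ y ∈ (algebraMap k C).fieldRange, τ y = y) →
      ∃ σ : Gk k K, ∀ w, e (σ w) = τ (e w) := by
    intro τ hτ
    let τ' : C ≃ₐ[k] C := AlgEquiv.ofRingEquiv (f := τ) (fun c => hτ _ ⟨c, rfl⟩)
    refine ⟨(e.trans τ').trans e.symm, fun w => ?_⟩
    change e (e.symm (τ (e w))) = _
    rw [AlgEquiv.apply_symm_apply]
  refine ⟨fun i => e (θ i), fun i j => e (z i j), e α, ?_, ?_⟩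
  · refine lev_of_equi (fun i => ⟨_, rfl⟩) ?_ (e.injective.comp hinj) ?_ ?_ ?_ ?_ hp.ne_zero ?_
    · rw [Fin.val_last, hlc]
      exact (_root_.map_ne_zero _).2 hlc0
    · intro i
      have h1 : aeval (e (θ i)) f = 0 := by
        have h2 := aeval_algHom_apply (e : kbar k K →ₐ[k] C) (θ i) f
        rw [hroot i, map_zero] at h2
        exact h2
      rw [← h1, aeval_eq_sum_range, hfd, ← Fin.sum_univ_eq_sum_range
        (fun l => f.coeff l • (e (θ i)) ^ l) (d + 1)]
      apply Finset.sum_congr rfl
      intro l _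
      rw [Algebra.smul_def]
    · intro i j _ h0
      exact hz0 i j ((map_eq_zero e).1 h0)
    · intro i j _
      have h1 : IsAlgebraic k (e (z i j)) := Algebra.IsAlgebraic.isAlgebraic _
      obtain ⟨q, hq0, hq⟩ := h1
      refine ⟨q.map (algebraMap k C).rangeRestrictField, ?_, ?_⟩
      · rwa [Ne, Polynomial.map_eq_zero]
      · rw [aeval_def, eval₂_map]
        exact hq
    · rw [← map_pow, hα, AlgEquiv.commutes, Fin.val_last, hlc]
    · intro τ hτ
      obtain ⟨σ, hσ⟩ := haut τ hτ
      obtain ⟨ρ, ζ, h1, h2, h3, h4, h5⟩ := hequi σ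
      refine ⟨ρ, fun i j => e (ζ i j), ?_, ?_, ?_, ?_, ?_⟩
      · intro i
        change τ (e (θ i)) = e (θ (ρ i))
        rw [← hσ, h1]
      · intro i j _
        rw [← map_pow, h2, map_one]
      · intro i j _
        change τ (e (z i j)) = e (ζ i j) * e (z (ρ i) (ρ j))
        rw [← hσ, h3, map_mul]
      · intro i j l _ _ _
        rw [← map_mul, h4]
      · intro i
        rw [← hσ, ← map_prod, ← map_mul, h5]
  · intro V hκ hpκ hgood σ hσ i j hij
    obtain ⟨σ', hσ'⟩ := haut σ hσ.fix
    set V' : ValuationSubring (kbar k K) := V.comap (e : kbar k K →+* C) with hV'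
    have hmem : ∀ w : kbar k K, w ∈ V' ↔ e w ∈ V := fun w => Iff.rfl
    have hlt : ∀ w : kbar k K, V'.valuation w < 1 ↔ V.valuation (e w) < 1 := fun w =>
      comap_val_lt (e : kbar k K →+* C)
    have hO : ∀ c : k, c ∈ V.comap (algebraMap k C) ↔ algebraMap k (kbar k K) c ∈ V' := by
      intro c
      rw [hmem, AlgEquiv.commutes]
      rfl
    have hcoef : ∀ i, f.coeff i ∈ V.comap (algebraMap k C) := by
      intro i
      by_cases hi : i ≤ d
      · exact hgood.coef ⟨i, Nat.lt_succ_of_le hi⟩
      · rw [coeff_eq_zero_of_natDegree_lt (by omega)]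
        exact zero_mem _
    have h1 : σ' (z i j) = z i j := by
      refine hiner V' (V.comap (algebraMap k C)) hO hκ hpκ hcoef ?_ ?_ ?_ σ' ?_ ?_ i j
      · have h2 := hgood.lead
        rw [Fin.val_last, hlc] at h2
        have h3 : ((⟨f.leadingCoeff, by rw [← hlc]; exact hcoef d⟩ : V.comap (algebraMap k C)) : k) =
          f.leadingCoeff := rfl
        have h4 := val_lt_iff (V := V) (O := V.comap (algebraMap k C)) (fun c => Iff.rfl)
          ⟨f.leadingCoeff, by rw [← hlc]; exact hcoef d⟩
        refine le_antisymm ?_ ?_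
        · rw [ValuationSubring.valuation_le_one_iff, ← hlc]
          exact hcoef d
        · rw [← not_lt, ← h4, h2]
          exact lt_irrefl _
      · intro i
        exact hgood.root i
      · intro i j hij
        have h2 := hgood.sep i j hij
        refine le_antisymm ?_ ?_
        · rw [ValuationSubring.valuation_le_one_iff, hmem, map_sub,
            ← ValuationSubring.valuation_le_one_iff]
          exact h2.le
        · rw [← not_lt, hlt, map_sub, h2]
          exact lt_irrefl _
      · intro w
        rw [hmem, hmem, hσ', hσ.dec]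
      · intro w hw
        rw [hlt, map_sub, hσ']
        exact hσ.res _ hw
    rw [← hσ', h1]

end Pool.Agent.Helper37.UL
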