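import Pool.Agent.Helper37.UL.Defs
import Pool.Agent.Helper91.Section.SE.Main3
import Pool.Agent.Helper37.UL.A6

/-!
# Block A: the level one structure attached to a Galois section

Proof.  Copy `section_root_n` (SE/Main3) with `c = 1` and without `hodd`.  `R` = the set of all roots of
`f` in `kbar k K`, `v r ^ p = x - r`, `w r r' = v r / v r' ∈ Kur` (`pairn_mem_Kur`, SE/Gal).  For `σ` in
`Gk k K` let `ζ r r' σ` be the `p`-th root of unity with
`s.toHom σ (w r r') = ζ r r' σ * w (σ r) (σ r')`.

(a) Hilbert 90.  For one pair `(r, r')` in each orbit: `σ ↦ ζ r r' σ` is a crossed homomorphism on the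
stabiliser of `r` and `r'`, trivial on an open subgroup (`exists_finite_level`), so there is `z r r'` in
`kbar` with `σ (z r r') = ζ r r' σ * z r r'` for the `σ` which fix `r` and `r'` (a Poincare series
`∑ ζ⁻¹ σ(b)` over a finite Galois group, or Mathlib's Hilbert 90, or `exists_fixed_mul`).  For the other pairs
`z (σ r) (σ r') := (ζ r r' σ)⁻¹ * σ (z r r')`.  Then `σ (z r r') = ζ r r' σ * z (σ r) (σ r')` for all `σ` and all
pairs.
(b) `pow`, `coc`, `nrm`: the families `z r r' ^ p`, `z r r' * z r' r'' / z r r''` and
`α * ∏ z r' r` are equivariant (for the last one choose `α` with `∏ v r = y / α`, then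
`∏_{r'} ζ r' r σ = α / σ α` because `p ∣ d`; `v r ^ d = (x - r) ^ (d / p)`), and Lagrange interpolation in
each variable gives polynomials with coefficients fixed by all `σ`, so in `k`.
(c) Inertia.  Let `V` be a valuation ring of `C`, `O = V ∩ k`, `σ` in the inertia group.  As in
`section_root_n` (finite place of the residue field, Frobenius `γ` for a prime `Q'` of the integral closure
above `O' ≤ O`; choose `Q'` so that `coarse Q'` corresponds to `V`, or conjugate `σ`: all primes above `O` are
conjugate and the conclusion is stable under conjugation), `core` with all the roots and `m i = 1` gives that all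
`ζ` of the single `v r` are equal: their product is `1` because `y` and `α` (a unit) are fixed.  Hence
`σ (z r r') = z r r'`.
-/

universe u

namespace Pool.Agent.Helper37.UL

open Polynomial Pool.Agent.Helper91.Sect

/-- **Block A.** -/
theorem exists_lev {k : Type u} [Field k] [CharZero k] {p d : ℕ} (hp : p.Prime) (hdvd : p ∣ d)
    (hd : 3 ≤ d) {f : k[X]} (hf : f.Separable) (hfd : f.natDegree = d)
    {K : Type u} [Field K] [Algebra k K] {x y : K} (hx : Transcendental k x)
    (hxy : y ^ p = aeval x f) (s : GaloisSection k K)
    (C : Type u) [Field C] [Algebra k C] [IsAlgClosure k C] :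
    ∃ (θ : Fin d → C) (z : Fin d → Fin d → C) (α : C),
      Lev (algebraMap k C).fieldRange p (fun i : Fin (d + 1) => algebraMap k C (f.coeff i)) θ z α ∧
      ∀ V : ValuationSubring C,
        HasPlaces (IsLocalRing.ResidueField (V.comap (algebraMap k C))) →
        ((p : ℕ) : IsLocalRing.ResidueField (V.comap (algebraMap k C))) ≠ 0 →
        GoodAt V (fun i : Fin (d + 1) => algebraMap k C (f.coeff i)) θ →
        ∀ σ : C ≃+* C, Inert (algebraMap k C).fieldRange V σ →
          ∀ i j, i ≠ j → σ (z i j) = z i j :=
  exists_lev' hp hdvd hd hf hfd hx hxy s C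

end Pool.Agent.Helper37.UL
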