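import Pool.Agent.Helper37.UL.Defs
import Pool.Agent.Helper17.FF.PicDiv
import Pool.Agent.Helper10.UL.BlockB
import Pool.Agent.Helper10.UL.Chi

/-!
# Block B: bounded representatives of Kummer classes

`M / κ` a function field over an algebraically closed field, `M = κ(t, x, y)`, `x` and `y` algebraic over
`κ(t)` of degree at most `d`, with coefficients of degree at most `m`.
-/

set_option linter.unusedVariables false

universe u

namespace Pool.Agent.Helper37.UL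

open Polynomial VC FF IntermediateField

/-- `h` is an element of `κ(t, x, y)` of complexity at most `B` -/
def Bdd {κ M : Type u} [Field κ] [Field M] [Algebra κ M] (d B : ℕ) (t x y h : M) : Prop :=
  ∃ (n : Fin d → Fin d → κ[X]) (q : κ[X]), q ≠ 0 ∧ q.natDegree ≤ B ∧
    (∀ i j, (n i j).natDegree ≤ B) ∧
    aeval t q * h = ∑ i, ∑ j, aeval t (n i j) * (x ^ (i : ℕ) * y ^ (j : ℕ))

/-- a polynomial relation of exact degree `d` -/
lemma exists_rel_exact {κ M : Type u} [Field κ] [Field M] [Algebra κ M] {d m : ℕ} {t x : M}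
    {a : κ[X][X]} (ha : a ≠ 0) (had : a.natDegree ≤ d) (ham : ∀ i, (a.coeff i).natDegree ≤ m)
    (hax : eval₂ (aeval t : κ[X] →ₐ[κ] M).toRingHom x a = 0) :
    ∃ a' : ℕ → κ[X], (∀ i, (a' i).natDegree ≤ m) ∧ a' d ≠ 0 ∧
      ∑ i ∈ Finset.range (d + 1), aeval t (a' i) * x ^ i = 0 := by
  refine ⟨fun i => (X ^ (d - a.natDegree) * a).coeff i, ?_, ?_, ?_⟩
  · intro i
    simp only [coeff_X_pow_mul']
    split_ifs
    · exact ham _
    · simp
  · simp only [coeff_X_pow_mul']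
    rw [if_pos (by omega)]
    have : d - (d - a.natDegree) = a.natDegree := by omega
    rw [this]
    exact leadingCoeff_ne_zero.mpr ha
  · have h1 : eval₂ (aeval t : κ[X] →ₐ[κ] M).toRingHom x (X ^ (d - a.natDegree) * a) = 0 := by
      rw [eval₂_mul, hax, mul_zero]
    rw [eval₂_eq_sum_range' _ (n := d + 1) (by
      refine lt_of_le_of_lt natDegree_mul_le ?_
      rw [natDegree_X_pow]
      omega)] at h1
    exact h1

lemma bdd_of_coords {κ M : Type u} [Field κ] [Field M] [Algebra κ M] {d B N : ℕ} {t x y h : M}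
    (hNB : N ≤ B)
    (H : ∃ (b : κ[X]) (c : (Fin 2 → Fin d) → κ[X]), b ≠ 0 ∧ b.natDegree ≤ N ∧
      (∀ β, (c β).natDegree ≤ N) ∧
      aeval t b * h = ∑ β, aeval t (c β) * ∏ j, (![x, y] : Fin 2 → M) j ^ (β j : ℕ)) :
    Bdd (κ := κ) d B t x y h := by
  obtain ⟨b, c, hb, hbN, hcN, hrel⟩ := H
  refine ⟨fun i j => c ![i, j], b, hb, hbN.trans hNB, fun i j => (hcN _).trans hNB, ?_⟩
  rw [hrel, ← (finTwoArrowEquiv (Fin d)).symm.sum_comp, Fintype.sum_prod_type]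
  apply Finset.sum_congr rfl
  intro i _
  apply Finset.sum_congr rfl
  intro j _
  rw [Fin.prod_univ_two]
  simp [finTwoArrowEquiv]

/-- **Block B.** -/
theorem exists_bounded (d m e p : ℕ) (hp : 0 < p) : ∃ B : ℕ,
    ∀ {κ M : Type u} [Field κ] [IsAlgClosed κ] [CharZero κ] [Field M] [Algebra κ M]
      {t x y : M} (ht : Transcendental κ t) (hgen : IntermediateField.adjoin κ {t, x, y} = ⊤)
      {a b : κ[X][X]} (ha : a ≠ 0) (hb : b ≠ 0) (had : a.natDegree ≤ d) (hbd : b.natDegree ≤ d)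
      (ham : ∀ i, (a.coeff i).natDegree ≤ m) (hbm : ∀ i, (b.coeff i).natDegree ≤ m)
      (hax : eval₂ (aeval t : κ[X] →ₐ[κ] M).toRingHom x a = 0)
      (hby : eval₂ (aeval t : κ[X] →ₐ[κ] M).toRingHom y b = 0)
      {bad : κ[X]} (hbad0 : bad ≠ 0) (hbad : bad.natDegree ≤ e)
      {δ : M} (hδ : δ ≠ 0)
      (hdvd : ∀ (P : Place κ M) (t₀ : κ), t - algebraMap κ M t₀ ∈ P.ring.nonunits →
        bad.eval t₀ ≠ 0 → (p : ℤ) ∣ ord P.ring δ),
      ∃ g₁ g₂ : M, g₁ ≠ 0 ∧ g₂ ≠ 0 ∧ Bdd (κ := κ) d B t x y (δ * g₁ ^ p) ∧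
        Bdd (κ := κ) d B t x y (g₂ / g₁) ∧ ∃ χ₁ χ₂ : κ[X][X], χ₁.Monic ∧ χ₂.Monic ∧
        χ₁.natDegree ≤ B ∧ χ₂.natDegree ≤ B ∧ (∀ i, (χ₁.coeff i).natDegree ≤ B) ∧
        (∀ i, (χ₂.coeff i).natDegree ≤ B) ∧
        eval₂ (aeval t : κ[X] →ₐ[κ] M).toRingHom (δ * g₁ ^ p) χ₁ = 0 ∧
        eval₂ (aeval t : κ[X] →ₐ[κ] M).toRingHom (δ * g₂ ^ p) χ₂ = 0 ∧
        ∀ t₀, bad.eval t₀ ≠ 0 → (χ₁.coeff 0).eval t₀ ≠ 0 ∨ (χ₂.coeff 0).eval t₀ ≠ 0 := by
  set N := _root_.UL.bndN 2 d m e with hN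
  refine ⟨_root_.UL.bndC 2 d m (p * N) + _root_.UL.bndC 2 d m N + d ^ 2 + d ^ 2 * (p * N), ?_⟩
  set B := _root_.UL.bndC 2 d m (p * N) + _root_.UL.bndC 2 d m N + d ^ 2 + d ^ 2 * (p * N) with hB
  classical
  intro κ M _ _ _ _ _ t x y ht hgen a b ha hb had hbd ham hbm hax hby bad hbad0 hbad δ hδ hdvd
  have hd : 0 < d := by
    by_contra h0
    have h1 : a.natDegree = 0 := by omega
    obtain ⟨c, hc⟩ := natDegree_eq_zero.mp h1
    rw [← hc, eval₂_C] at hax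
    apply ha
    rw [← hc, (transcendental_iff.mp ht) c hax, C_0]
  obtain ⟨a', ha'1, ha'2, ha'3⟩ := exists_rel_exact ha had ham hax
  obtain ⟨b', hb'1, hb'2, hb'3⟩ := exists_rel_exact hb hbd hbm hby
  let cf : Fin 2 → ℕ → κ[X] := ![a', b']
  let rt : Fin 2 → M := ![x, y]
  have hcf : ∀ j, ∀ i ≤ d, (cf j i).natDegree ≤ m := by
    intro j i _
    fin_cases j
    · exact ha'1 i
    · exact hb'1 i
  have hcf0 : ∀ j, cf j d ≠ 0 := by
    intro j
    fin_cases j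
    · exact ha'2
    · exact hb'2
  have hrt : ∀ j, ∑ i ∈ Finset.range (d + 1), aeval t (cf j i) * rt j ^ i = 0 := by
    intro j
    fin_cases j
    · exact ha'3
    · exact hb'3
  have htop : IntermediateField.adjoin κ⟮t⟯ (Set.range rt) = ⊤ := by
    have h1 : Set.range rt = {x, y} := by
      ext w
      simp only [rt, Set.mem_range, Fin.exists_fin_two, Set.mem_insert_iff, Set.mem_singleton_iff,
        Matrix.cons_val_zero, Matrix.cons_val_one]
      constructor <;> rintro (h | h) <;> simp [h]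
    have h2 := IntermediateField.adjoin_adjoin_left κ ({t} : Set M) {x, y}
    rw [h1]
    apply IntermediateField.restrictScalars_injective κ
    rw [h2, IntermediateField.restrictScalars_top, ← hgen]
    rfl
  have hspan := _root_.UL.span_roots ht hd cf hcf0 rt hrt htop
  have hfin : FiniteDimensional κ⟮t⟯ M :=
    Module.Finite.of_fg_top ⟨(Set.finite_range _).toFinset, by rw [Set.Finite.coe_toFinset]; exact hspan⟩
  have hF : IsFunctionField κ M := ⟨t, ht, hfin⟩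
  have hrank := _root_.UL.finrank_le ht hd cf hcf0 rt hrt htop
  have hdiv : ∀ z ∉ bad.roots.toFinset, ∀ Q : Place κ M, t - algebraMap κ M z ∈ Q.ring.nonunits →
      (p : ℤ) ∣ ord Q.ring δ := by
    intro z hz Q hQ
    refine hdvd Q z hQ ?_
    intro h0
    apply hz
    rw [Multiset.mem_toFinset, mem_roots hbad0]
    exact h0
  obtain ⟨g₁, g₂, hg₁, hg₂, hr₁, hr₂, hA₁, hA₂, hq, hor⟩ := _root_.UL.exists_pair_roots hF ht hd cf hcf hcf0 rt
    hrt htop (s := e) hp bad.roots.toFinset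
    ((Multiset.toFinset_card_le _).trans ((card_roots' bad).trans hbad)) hδ hdiv
  obtain ⟨χ₁, hχ₁1, hχ₁2, hχ₁3, hχ₁4, hχ₁5⟩ := _root_.UL.exists_chi hF ht
    (mul_ne_zero hδ (pow_ne_zero p hg₁)) hr₁ hA₁
  obtain ⟨χ₂, hχ₂1, hχ₂2, hχ₂3, hχ₂4, hχ₂5⟩ := _root_.UL.exists_chi hF ht
    (mul_ne_zero hδ (pow_ne_zero p hg₂)) hr₂ hA₂
  have hle1 : Module.finrank κ⟮t⟯ M * (p * N) ≤ B := by
    have := Nat.mul_le_mul_right (p * N) hrank
    omega
  have hle2 : Module.finrank κ⟮t⟯ M ≤ B := by omega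
  refine ⟨g₁, g₂, hg₁, hg₂, ?_, ?_, χ₁, χ₂, hχ₁1, hχ₂1, hχ₁2.trans hle2, hχ₂2.trans hle2,
    fun i => (hχ₁3 i).trans hle1, fun i => (hχ₂3 i).trans hle1, hχ₁4, hχ₂4, ?_⟩
  · exact bdd_of_coords (N := _root_.UL.bndC 2 d m (p * N)) (by omega)
      (_root_.UL.exists_coords_roots hF ht hd cf hcf hcf0 rt hrt htop _ hA₁)
  · exact bdd_of_coords (N := _root_.UL.bndC 2 d m N) (by omega)
      (_root_.UL.exists_coords_roots hF ht hd cf hcf hcf0 rt hrt htop _ hq)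
  · intro t₀ ht₀
    have ht₀S : t₀ ∉ bad.roots.toFinset := by
      intro h
      rw [Multiset.mem_toFinset, mem_roots hbad0] at h
      exact ht₀ h
    rcases hor t₀ ht₀S with h | h
    · exact Or.inl (hχ₁5 t₀ h)
    · exact Or.inr (hχ₂5 t₀ h)

end Pool.Agent.Helper37.UL
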