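import Mathlib
import Pool.Agent.Helper10.UL.Kom

/-!
# A universal field of constants
-/

universe u v u' v' w w'

namespace UL

open Polynomial Pool.Agent.Helper37.UL

lemma isTorsionFree_of_injective {R : Type u} {A : Type v} [CommRing R] [IsDomain R] [Field A]
    [Algebra R A] (h : Function.Injective (algebraMap R A)) : Module.IsTorsionFree R A := by
  rw [← faithfulSMul_iff_algebraMap_injective] at h
  infer_instance

/-- Each finitely generated field of characteristic zero is contained in `Uni`. -/
theorem embed_fg {A : Type v} [Field A] [CharZero A] [IsAlgClosed A] {X : ℕ → A}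
    (hX : AlgebraicIndependent ℚ X) (F : Type u) [Field F] [CharZero F]
    (hF : ∃ S : Finset F, Subfield.closure (S : Set F) = ⊤) : Nonempty (F →+* A) := by
  classical
  obtain ⟨S, hS⟩ := hF
  have halg : Algebra.IsAlgebraic (Algebra.adjoin ℚ (S : Set F)) F := by
    constructor
    intro y
    have hy : y ∈ Subfield.closure (S : Set F) := by rw [hS]; trivial
    obtain ⟨a, ha, b, hb, rfl⟩ := Subfield.mem_closure_iff.mp hy
    have h1 : Subring.closure (S : Set F) ≤ (Algebra.adjoin ℚ (S : Set F)).toSubring := by
      rw [Subring.closure_le]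
      exact Algebra.subset_adjoin
    have h2 : IsAlgebraic (Algebra.adjoin ℚ (S : Set F)) a :=
      isAlgebraic_algebraMap (⟨a, h1 ha⟩ : Algebra.adjoin ℚ (S : Set F))
    have h3 : IsAlgebraic (Algebra.adjoin ℚ (S : Set F)) b :=
      isAlgebraic_algebraMap (⟨b, h1 hb⟩ : Algebra.adjoin ℚ (S : Set F))
    rw [div_eq_mul_inv]
    exact h2.mul h3.inv
  obtain ⟨s, hsS, hs⟩ := exists_isTranscendenceBasis_subset (R := ℚ) (S : Set F)
  have hfin : s.Finite := S.finite_toSet.subset hsS
  have hc : Countable s := hfin.countable
  obtain ⟨e, he⟩ := exists_injective_nat s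
  have hx : AlgebraicIndependent ℚ (X ∘ e) := hX.comp e he
  let R := Algebra.adjoin ℚ (Set.range (Subtype.val : s → F))
  let φ : R →ₐ[ℚ] A := (MvPolynomial.aeval (X ∘ e)).comp (hs.1.aevalEquiv.symm : R →ₐ[ℚ] _)
  have hφ : Function.Injective φ := by
    intro a b hab
    exact hs.1.aevalEquiv.symm.injective (hx hab)
  let _ : Algebra R A := φ.toRingHom.toAlgebra
  have hR : Algebra.IsAlgebraic R F := hs.isAlgebraic
  have : Module.IsTorsionFree R A := isTorsionFree_of_injective hφ
  exact ⟨(IsAlgClosed.lift (R := R) (S := F) (M := A)).toRingHom⟩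

/-- algebraic independence in an extension -/
lemma algInd_ext {R : Type u} {A : Type v} {B : Type u'} [CommRing R] [CommRing A] [CommRing B]
    [Algebra R A] [Algebra R B] [Algebra A B] [IsScalarTower R A B] {ι : Type v'} {x : ι → A}
    (hx : AlgebraicIndependent R x) (h : Function.Injective (algebraMap A B)) :
    AlgebraicIndependent R (fun i => algebraMap A B (x i)) :=
  hx.map' (f := IsScalarTower.toAlgHom R A B) h

/-- the universal field of constants -/
theorem exists_uni : ∃ (A : Type) (_ : Field A) (_ : CharZero A) (_ : IsAlgClosed A) (X : ℕ → A),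
    AlgebraicIndependent ℚ X := by
  let K := FractionRing (MvPolynomial ℕ ℚ)
  have h0 : AlgebraicIndependent ℚ (MvPolynomial.X : ℕ → MvPolynomial ℕ ℚ) :=
    MvPolynomial.algebraicIndependent_X ℕ ℚ
  have h1 : AlgebraicIndependent ℚ (fun i => algebraMap (MvPolynomial ℕ ℚ) K
      (MvPolynomial.X i)) := algInd_ext h0 (IsFractionRing.injective (MvPolynomial ℕ ℚ) K)
  have h2 : AlgebraicIndependent ℚ (fun i => algebraMap K (AlgebraicClosure K)
      (algebraMap (MvPolynomial ℕ ℚ) K (MvPolynomial.X i))) :=
    algInd_ext h1 (algebraMap K (AlgebraicClosure K)).injective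
  have hK : CharZero K := charZero_of_injective_algebraMap (algebraMap ℚ K).injective
  exact ⟨AlgebraicClosure K, inferInstance,
    charZero_of_injective_algebraMap (algebraMap K (AlgebraicClosure K)).injective, inferInstance,
    _, h2⟩

/-- The embedding of the algebraic closure of `F(t)` into the algebraic closure of `A(X)`. -/
theorem exists_emb {F : Type u} {k : Type v} {D : Type w} [Field F] [Field k] [Algebra F k]
    [Field D] [Algebra k D] [Algebra.IsAlgebraic k D] {A : Type u'} {k' : Type v'} {C : Type w'}
    [Field A] [Field k'] [Algebra A k'] [Field C] [Algebra k' C] [IsAlgClosed C] {n : ℕ}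
    {t : Fin n → k} (ht : AlgebraicIndependent F t)
    (htop : IntermediateField.adjoin F (Set.range t) = ⊤) {X : Fin n → k'}
    (hX : AlgebraicIndependent A X) (ε : F →+* A) :
    ∃ ι : D →+* C, (∀ x : F, ι (algebraMap k D (algebraMap F k x)) =
      algebraMap k' C (algebraMap A k' (ε x))) ∧
      ∀ i, ι (algebraMap k D (t i)) = algebraMap k' C (X i) := by
  let ψ : MvPolynomial (Fin n) F →+* C := ((algebraMap k' C).comp
    (MvPolynomial.aeval X : MvPolynomial (Fin n) A →ₐ[A] k').toRingHom).comp (MvPolynomial.map ε)
  have hψ : Function.Injective ψ := by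
    intro p q hpq
    exact MvPolynomial.map_injective ε ε.injective (hX ((algebraMap k' C).injective hpq))
  have hψC : ∀ x : F, ψ (MvPolynomial.C x) = algebraMap k' C (algebraMap A k' (ε x)) := by
    intro x
    change algebraMap k' C (MvPolynomial.aeval X (MvPolynomial.map ε (MvPolynomial.C x))) = _
    rw [MvPolynomial.map_C, MvPolynomial.aeval_C]
  have hψX : ∀ i, ψ (MvPolynomial.X i) = algebraMap k' C (X i) := by
    intro i
    change algebraMap k' C (MvPolynomial.aeval X (MvPolynomial.map ε (MvPolynomial.X i))) = _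
    rw [MvPolynomial.map_X, MvPolynomial.aeval_X]
  let K := FractionRing (MvPolynomial (Fin n) F)
  let e : K ≃ₐ[F] k := ht.aevalEquivField.trans
    ((IntermediateField.equivOfEq htop).trans IntermediateField.topEquiv)
  have he : ∀ P : MvPolynomial (Fin n) F, e (algebraMap _ K P) = MvPolynomial.aeval t P := by
    intro P
    exact ht.aevalEquivField_algebraMap_apply_coe P
  let φ : k →+* C := (IsFractionRing.lift (K := K) hψ).comp (e.symm : k →+* K)
  have hφ : ∀ P : MvPolynomial (Fin n) F, φ (MvPolynomial.aeval t P) = ψ P := by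
    intro P
    change IsFractionRing.lift (K := K) hψ (e.symm (MvPolynomial.aeval t P)) = _
    rw [← he, AlgEquiv.symm_apply_apply, IsFractionRing.lift_algebraMap]
  let _ : Algebra k C := φ.toAlgebra
  let ι : D →ₐ[k] C := IsAlgClosed.lift
  refine ⟨ι.toRingHom, fun x => ?_, fun i => ?_⟩
  · have h1 : ι (algebraMap k D (algebraMap F k x)) = φ (algebraMap F k x) := ι.commutes _
    have h2 : algebraMap F k x = MvPolynomial.aeval t (MvPolynomial.C x) := by
      rw [MvPolynomial.aeval_C]
    change ι (algebraMap k D (algebraMap F k x)) = _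
    rw [h1, h2, hφ, hψC]
  · have h1 : ι (algebraMap k D (t i)) = φ (t i) := ι.commutes _
    have h2 : t i = MvPolynomial.aeval t (MvPolynomial.X i : MvPolynomial (Fin n) F) := by
      rw [MvPolynomial.aeval_X]
    change ι (algebraMap k D (t i)) = _
    rw [h1, h2, hφ, hψX]

end UL
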