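import Mathlib
import Pool.Agent.Helper37.UL.Univ
import Pool.Agent.Helper10.UL.Final

/-!
# A universal field of constants, continued
-/

universe u v

namespace UL

open Polynomial Pool.Agent.Helper37.UL

theorem fin_coord' {F₀ k : Type u} [Field F₀] [Field k] [Algebra F₀ k] {r : ℕ}
    {t : Fin (r + 2) → k} (ht : AlgebraicIndependent F₀ t)
    (htop : IntermediateField.adjoin F₀ (Set.range t) = ⊤) :
    ∃ F : IntermediateField F₀ k,
      (∀ i : Fin r, t i.succ.succ ∈ F) ∧ AlgebraicIndependent F ![t 0, t 1] ∧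
      IntermediateField.adjoin F {t 0, t 1} = ⊤ := by
  classical
  set F := IntermediateField.adjoin F₀ (Set.range fun i : Fin r => t i.succ.succ) with hFdef
  have hmem : ∀ i : Fin r, t i.succ.succ ∈ F := fun i =>
    IntermediateField.subset_adjoin _ _ ⟨i, rfl⟩
  have hind : AlgebraicIndependent F ![t 0, t 1] := by
    let φ : Fin 2 ⊕ Fin r → Fin (r + 2) :=
      Sum.elim (fun i => Fin.castLE (by omega) i) (fun i => i.succ.succ)
    have hφ : Function.Injective φ := by
      rintro (i | i) (j | j) hij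
      · simp only [φ, Sum.elim_inl] at hij
        rw [Fin.castLE_injective _ hij]
      · simp only [φ, Sum.elim_inl, Sum.elim_inr] at hij
        have := congrArg Fin.val hij
        simp only [Fin.val_castLE, Fin.val_succ] at this
        have := i.2
        omega
      · simp only [φ, Sum.elim_inl, Sum.elim_inr] at hij
        have := congrArg Fin.val hij
        simp only [Fin.val_castLE, Fin.val_succ] at this
        have := j.2
        omega
      · simp only [φ, Sum.elim_inr, Fin.succ_inj] at hij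
        rw [hij]
    have h3 : AlgebraicIndependent F₀ (Sum.elim ![t 0, t 1] (fun i : Fin r => t i.succ.succ)) := by
      have h4 := ht.comp φ hφ
      have e : t ∘ φ = Sum.elim ![t 0, t 1] (fun i : Fin r => t i.succ.succ) := by
        funext i
        rcases i with i | i
        · fin_cases i
          · rfl
          · rfl
        · rfl
      rw [← e]
      exact h4
    have h4 := (AlgebraicIndependent.sumElim_iff.1 h3).2
    exact IntermediateField.algebraicIndependent_adjoin_iff.2 h4
  refine ⟨F, hmem, hind, ?_⟩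
  rw [eq_top_iff]
  intro z _
  set M := IntermediateField.adjoin F {t 0, t 1} with hM
  have n0 : t 0 ∈ M := IntermediateField.subset_adjoin _ _ (by simp)
  have n1 : t 1 ∈ M := IntermediateField.subset_adjoin _ _ (by simp)
  have h1 : IntermediateField.adjoin F₀ (Set.range t) ≤ M.restrictScalars F₀ := by
    rw [IntermediateField.adjoin_le_iff]
    rintro _ ⟨i, rfl⟩
    refine Fin.cases n0 (fun j => ?_) i
    refine Fin.cases (motive := fun j : Fin (r + 1) => t j.succ ∈ (M.restrictScalars F₀ : Set k))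
      ?_ (fun j => ?_) j
    · rw [Fin.succ_zero_eq_one]
      exact n1
    · exact M.algebraMap_mem ⟨t j.succ.succ, hmem j⟩
  have h2 : z ∈ IntermediateField.adjoin F₀ (Set.range t) := by rw [htop]; trivial
  exact h1 h2

/-- The universal situation. -/
structure UnivD (C : Type) [Field C] (r : ℕ) where
  Ω₀ : Subfield C
  Ω : Subfield C
  κ : Subfield C
  T : C
  u : C
  w : Fin r → C
  le : Ω₀ ≤ Ω
  hΩ : ∀ x : C, IsAlgebraic Ω x → x ∈ Ω
  hκ : ∀ x : C, IsAlgebraic κ x → x ∈ κ
  hΩκ : Ω ≤ κ
  hTu : AlgebraicIndependent Ω ![T, u]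
  hu : u ∈ κ
  hT : AlgebraicIndependent κ ![T]
  hw : ∀ j, w j ∈ Ω
  hwu : AlgebraicIndependent Ω₀ (Fin.cons u w : Fin (r + 1) → C)
  halg : ∀ x : C, IsAlgebraic (gen Ω ![T, u]) x
  hκalg : ∀ x : C, x ∈ κ ↔ IsAlgebraic (gen Ω ![u]) x

/-- The universal situation over `A`. -/
theorem exists_univD {A k C : Type} [Field A] [Field k] [Algebra A k] [Field C] [Algebra k C]
    [IsAlgClosure k C] {r : ℕ} {X : Fin (r + 2) → k} (hX : AlgebraicIndependent A X)
    (htop : IntermediateField.adjoin A (Set.range X) = ⊤) :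
    ∃ D : UnivD C r, (∀ x : A, algebraMap k C (algebraMap A k x) ∈ D.Ω₀) ∧
      algebraMap k C (X 0) = D.T ∧ algebraMap k C (X 1) = D.u ∧
      ∀ j : Fin r, algebraMap k C (X j.succ.succ) = D.w j := by
  obtain ⟨F, hmem, hTU, hTUtop⟩ := fin_coord' hX htop
  have hle : Om A k C ≤ Om F k C := by
    intro c hc
    rw [mem_Om] at hc ⊢
    refine isAlgebraic_mono ?_ hc
    rintro _ ⟨a, rfl⟩
    exact ⟨algebraMap A F a, rfl⟩
  refine ⟨⟨Om A k C, Om F k C, Kap F k C (X 1), algebraMap k C (X 0), algebraMap k C (X 1),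
    fun j => algebraMap k C (X j.succ.succ), hle, fun x => Om_closed, fun x => Kap_closed, Om_le_Kap,
    algInd_Om2 hTU, mem_kappa_U (κ := Kap F k C (X 1)) (fun c => mem_Kap), algInd_Kap hTU,
    fun j => mem_Om_F (⟨X j.succ.succ, hmem j⟩ : F), ?_, isAlgebraic_gen hTUtop,
    mem_Kap_iff_gen⟩, fun x => mem_Om_F x, rfl, rfl, fun j => rfl⟩
  have h1 := (algInd_Om (C := C) hX).comp Fin.succ (Fin.succ_injective _)
  convert h1 using 1
  funext i
  refine Fin.cases ?_ (fun j => ?_) i
  · rfl
  · rfl

lemma frac_top (A : Type) [Field A] (n : ℕ) :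
    IntermediateField.adjoin A (Set.range fun i : Fin n =>
      algebraMap (MvPolynomial (Fin n) A) (FractionRing (MvPolynomial (Fin n) A))
        (MvPolynomial.X i)) = ⊤ := by
  rw [eq_top_iff]
  intro z _
  obtain ⟨p, q, -, rfl⟩ := IsFractionRing.div_surjective (A := MvPolynomial (Fin n) A) z
  have h1 : ∀ p : MvPolynomial (Fin n) A,
      algebraMap (MvPolynomial (Fin n) A) (FractionRing (MvPolynomial (Fin n) A)) p ∈
      IntermediateField.adjoin A (Set.range fun i : Fin n =>
      algebraMap (MvPolynomial (Fin n) A) (FractionRing (MvPolynomial (Fin n) A))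
        (MvPolynomial.X i)) := by
    intro p
    induction p using MvPolynomial.induction_on with
    | C a =>
      exact (IntermediateField.adjoin A _).algebraMap_mem a
    | add p q hp hq =>
      rw [map_add]
      exact add_mem hp hq
    | mul_X p i hp =>
      rw [map_mul]
      exact mul_mem hp (IntermediateField.subset_adjoin _ _ ⟨i, rfl⟩)
  exact div_mem (h1 p) (h1 q)

/-- The universal situation. -/
theorem exists_univ (r : ℕ) : ∃ (C : Type) (_ : Field C) (_ : IsAlgClosed C) (_ : CharZero C)
    (D : UnivD C r), ∀ {F₀ k : Type u} [Field F₀] [CharZero F₀] [Field k] [Algebra F₀ k]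
      (_ : ∃ S : Finset F₀, Subfield.closure (S : Set F₀) = ⊤) {t : Fin (r + 2) → k}
      (_ : AlgebraicIndependent F₀ t) (_ : IntermediateField.adjoin F₀ (Set.range t) = ⊤),
      ∃ ι : AlgebraicClosure k →+* C,
        (∀ x : F₀, ι (algebraMap k _ (algebraMap F₀ k x)) ∈ D.Ω₀) ∧
        ι (algebraMap k _ (t 0)) = D.T ∧ ι (algebraMap k _ (t 1)) = D.u ∧
        ∀ j : Fin r, ι (algebraMap k _ (t j.succ.succ)) = D.w j := by
  obtain ⟨A, _, hA0, hAc, x, hx⟩ := exists_uni
  let R := MvPolynomial (Fin (r + 2)) A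
  let K := FractionRing R
  have hX : AlgebraicIndependent A (fun i : Fin (r + 2) => algebraMap R K (MvPolynomial.X i)) :=
    algInd_ext (MvPolynomial.algebraicIndependent_X (Fin (r + 2)) A) (IsFractionRing.injective R K)
  have hK0 : CharZero K := charZero_of_injective_algebraMap (algebraMap A K).injective
  have hC0 : CharZero (AlgebraicClosure K) :=
    charZero_of_injective_algebraMap (algebraMap K (AlgebraicClosure K)).injective
  obtain ⟨D, hD1, hD2, hD3, hD4⟩ := exists_univD (C := AlgebraicClosure K) hX (frac_top A (r + 2))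
  refine ⟨AlgebraicClosure K, inferInstance, inferInstance, hC0, D, ?_⟩
  intro F₀ k _ _ _ _ hF t ht htop
  obtain ⟨ε⟩ := embed_fg hx F₀ hF
  obtain ⟨ι, h1, h2⟩ := exists_emb (D := AlgebraicClosure k) (C := AlgebraicClosure K) ht htop hX ε
  refine ⟨ι, fun y => ?_, ?_, ?_, fun j => ?_⟩
  · rw [h1]
    exact hD1 _
  · rw [h2]
    exact hD2
  · rw [h2]
    exact hD3
  · rw [h2]
    exact hD4 j

end UL
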