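import Pool.Agent.Helper37.UL.E1
import Pool.Agent.Helper91.Section.SE.Gauss

/-!
# The Gauss extension and the composite: `Core` structures
-/

universe u

namespace Pool.Agent.Helper37.UL

open Polynomial IsLocalRing Pool.Agent.Helper91.Sect

section comap

variable {K L : Type u} [Field K] [Field L] (f : K →+* L) (V : ValuationSubring L)

theorem comap_le_one (x : K) : (V.comap f).valuation x ≤ 1 ↔ V.valuation (f x) ≤ 1 := by
  rw [ValuationSubring.valuation_le_one_iff, ValuationSubring.valuation_le_one_iff,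
    ValuationSubring.mem_comap]

theorem comap_lt_one (x : K) : (V.comap f).valuation x < 1 ↔ V.valuation (f x) < 1 := by
  rw [← ValuationSubring.mem_nonunits_iff, ← ValuationSubring.mem_nonunits_iff,
    ValuationSubring.mem_nonunits_iff_or, ValuationSubring.mem_nonunits_iff_or,
    ValuationSubring.mem_comap, map_inv₀, map_eq_zero]

theorem comap_eq_one (x : K) : (V.comap f).valuation x = 1 ↔ V.valuation (f x) = 1 := by
  rw [eq_iff_le_not_lt, eq_iff_le_not_lt, comap_le_one, comap_lt_one]

theorem comap_eq {x y : K} (hy : y ≠ 0) :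
    (V.comap f).valuation x = (V.comap f).valuation y ↔ V.valuation (f x) = V.valuation (f y) := by
  have h1 : (V.comap f).valuation y ≠ 0 := by simpa using hy
  have h2 : V.valuation (f y) ≠ 0 := by simpa using hy
  rw [← div_eq_one_iff_eq h1, ← div_eq_one_iff_eq h2, ← map_div₀, ← map_div₀, ← map_div₀,
    comap_eq_one]

end comap

/-- the content of a polynomial -/
theorem exists_content {Λ : Type u} [Field Λ] (O : ValuationSubring Λ) {F : Λ[X]} (hF : F ≠ 0) :
    ∃ c : Λ, c ≠ 0 ∧ ∃ g : O[X], g.map (residue O) ≠ 0 ∧ F = C c * g.map O.subtype := by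
  have hne : F.support.Nonempty := by rwa [nonempty_support_iff]
  obtain ⟨j, hj, hmax⟩ := F.support.exists_max_image (fun i => O.valuation (F.coeff i)) hne
  have hj0 : F.coeff j ≠ 0 := by rwa [mem_support_iff] at hj
  have hvj : O.valuation (F.coeff j) ≠ 0 := by simpa using hj0
  have hlift : Polynomial.C (F.coeff j)⁻¹ * F ∈ lifts O.subtype := by
    rw [lifts_iff_coeff_lifts]
    intro n
    rw [coeff_C_mul]
    have h1 : O.valuation ((F.coeff j)⁻¹ * F.coeff n) ≤ 1 := by
      rw [map_mul, map_inv₀]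
      by_cases hn : n ∈ F.support
      · have := hmax n hn
        calc (O.valuation (F.coeff j))⁻¹ * O.valuation (F.coeff n)
            ≤ (O.valuation (F.coeff j))⁻¹ * O.valuation (F.coeff j) := by gcongr
          _ = 1 := inv_mul_cancel₀ hvj
      · rw [notMem_support_iff] at hn
        rw [hn]; simp
    exact ⟨⟨_, (O.valuation_le_one_iff _).1 h1⟩, rfl⟩
  rw [mem_lifts] at hlift
  obtain ⟨g, hg⟩ := hlift
  refine ⟨F.coeff j, hj0, g, ?_, ?_⟩
  · intro h0
    have h3 : (g.map O.subtype).coeff j = 1 := by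
      rw [hg, coeff_C_mul]
      exact inv_mul_cancel₀ hj0
    rw [coeff_map] at h3
    have h4 : g.coeff j = 1 := Subtype.ext h3
    have h5 := congrArg (fun p => p.coeff j) h0
    simp only [coeff_map, coeff_zero, h4, map_one] at h5
    exact one_ne_zero h5
  · rw [hg, ← mul_assoc, ← C_mul, mul_inv_cancel₀ hj0, C_1, one_mul]

/-- the elements of the field generated by the image of a ring are quotients -/
theorem exists_frac {C R : Type u} [Field C] [CommRing R] (ψ : R →+* C) {S : Set C}
    (hS : ∀ x ∈ S, x ∈ ψ.range) {z : C} (hz : z ∈ Subfield.closure S) :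
    ∃ F G : R, ψ G ≠ 0 ∧ z * ψ G = ψ F := by
  obtain ⟨y, hy, w, hw, rfl⟩ := Subfield.mem_closure_iff.1 hz
  have hle : Subring.closure S ≤ ψ.range := Subring.closure_le.2 hS
  obtain ⟨F, rfl⟩ := hle hy
  obtain ⟨G, rfl⟩ := hle hw
  by_cases hG : ψ G = 0
  · refine ⟨0, 1, ?_, ?_⟩
    · rw [map_one]; exact one_ne_zero
    · rw [hG, div_zero, zero_mul, map_zero]
  · exact ⟨F, G, hG, div_mul_cancel₀ _ hG⟩

section one

variable {Λ k C : Type u} [Field Λ] [Field k] [Field C] [Algebra Λ k] [Algebra k C] [Algebra Λ C]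
  [IsScalarTower Λ k C]

/-- evaluation at `s` in the large field -/
theorem algebraMap_ev (OΛ : ValuationSubring Λ) (s : k) (g : OΛ[X]) :
    algebraMap k C (ev OΛ s g) = ev OΛ (algebraMap k C s) g := by
  have h1 := hom_eval₂ g ((algebraMap Λ k).comp OΛ.subtype) (algebraMap k C) s
  rw [← RingHom.comp_assoc, ← IsScalarTower.algebraMap_eq] at h1
  exact h1

theorem ev_eq_aeval (OΛ : ValuationSubring Λ) (s : C) (g : OΛ[X]) :
    ev OΛ s g = aeval s (g.map OΛ.subtype) := by
  rw [aeval_def, eval₂_map]; rfl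

theorem ev_C (OΛ : ValuationSubring Λ) (s : C) (c : OΛ) :
    ev OΛ s (Polynomial.C c) = algebraMap Λ C c := by
  change eval₂ _ _ (Polynomial.C c) = _
  rw [eval₂_C]; rfl

theorem ev_X (OΛ : ValuationSubring Λ) (s : C) : ev OΛ s X = s := by
  change eval₂ _ _ X = _
  rw [eval₂_X]

/-- The restriction of a valuation ring of a large field. -/
theorem core_of (OΛ : ValuationSubring Λ) (V : ValuationSubring C) (s : k)
    (hlt : ∀ c, OΛ.valuation c < 1 → V.valuation (algebraMap Λ C c) < 1)
    (hmem : ∀ g : OΛ[X], ev OΛ (algebraMap k C s) g ∈ V)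
    (hunit : ∀ g : OΛ[X], g.map (residue OΛ) ≠ 0 →
      V.valuation (ev OΛ (algebraMap k C s) g) = 1)
    (hrat : ∀ z : k, V.valuation (algebraMap k C z) ≤ 1 →
      ∃ f g : OΛ[X], g.map (residue OΛ) ≠ 0 ∧
        V.valuation (algebraMap k C z * ev OΛ (algebraMap k C s) g -
          ev OΛ (algebraMap k C s) f) < 1) :
    Core OΛ (V.comap (algebraMap k C)) s where
  le c hc := by
    rw [ValuationSubring.mem_comap, ← IsScalarTower.algebraMap_apply]
    have h1 := hmem (Polynomial.C ⟨c, hc⟩)
    rwa [ev_C] at h1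
  lt c hc := by
    rw [comap_lt_one, ← IsScalarTower.algebraMap_apply]
    exact hlt c hc
  mem := by
    rw [ValuationSubring.mem_comap]
    have h1 := hmem X
    rwa [ev_X] at h1
  gauss g hg := by
    rw [comap_eq_one, algebraMap_ev]
    exact hunit g hg
  rat z hz := by
    rw [ValuationSubring.mem_comap, ← ValuationSubring.valuation_le_one_iff] at hz
    obtain ⟨f, g, hg, h⟩ := hrat z hz
    refine ⟨f, g, hg, ?_⟩
    rw [comap_lt_one, map_sub, map_mul, algebraMap_ev, algebraMap_ev]
    exact h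

end one

/-- The Gauss extension. -/
theorem exists_core_one {C : Type u} [Field C] {Λ : Subfield C} (k : Subfield C)
    {t : C} (ht : Transcendental Λ t) [Algebra Λ k] [IsScalarTower Λ k C]
    (hk : ∀ x ∈ k, x ∈ Subfield.closure (Λ ∪ {t})) (htk : t ∈ k) (OΛ : ValuationSubring Λ) :
    ∃ O : ValuationSubring k, Core OΛ O ⟨t, htk⟩ := by
  let _ : Algebra Λ[X] C := (aeval t : Λ[X] →ₐ[Λ] C).toRingHom.toAlgebra
  have hinj : Function.Injective (algebraMap Λ[X] C) := transcendental_iff_injective.1 ht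
  obtain ⟨V, h1, h2, h3⟩ := Helper91.SE.exists_gauss (L := C) OΛ hinj
  have hpsi : ∀ g : OΛ[X], Helper91.SE.psi C OΛ g = ev OΛ t g := by
    intro g
    rw [ev_eq_aeval]; rfl
  have hunit : ∀ g : OΛ[X], g.map (residue OΛ) ≠ 0 → V.valuation (ev OΛ t g) = 1 := by
    intro g hg
    rw [← hpsi]; exact h2 g hg
  have hlt : ∀ c, OΛ.valuation c < 1 → V.valuation (algebraMap Λ C c) < 1 := by
    intro c hc
    have h4 := h3 (Polynomial.C ⟨c, (OΛ.valuation_le_one_iff _).1 hc.le⟩) (by
      rw [map_C, Polynomial.C_eq_zero, residue_eq_zero_iff, OΛ.valuation_lt_one_iff]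
      exact hc)
    rwa [hpsi, ev_C] at h4
  refine ⟨V.comap (algebraMap k C), core_of OΛ V _ hlt (fun g => ?_) hunit ?_⟩
  · change ev OΛ t g ∈ V
    rw [← hpsi]; exact h1 g
  · intro z hz
    change ∃ f g : OΛ[X], g.map (residue OΛ) ≠ 0 ∧ V.valuation ((z : C) * ev OΛ t g - ev OΛ t f) < 1
    change V.valuation (z : C) ≤ 1 at hz
    obtain ⟨F, G, hG, hFG⟩ := exists_frac ((aeval t : Λ[X] →ₐ[Λ] C) : Λ[X] →+* C)
      (S := Λ ∪ {t}) (by
        rintro x (hx | hx)
        · exact ⟨Polynomial.C ⟨x, hx⟩, aeval_C _ _⟩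
        · exact ⟨X, by rw [Set.mem_singleton_iff.1 hx]; exact aeval_X _⟩) (hk z z.2)
    change aeval t G ≠ 0 at hG
    change (z : C) * aeval t G = aeval t F at hFG
    have hG0 : G ≠ 0 := by rintro rfl; exact hG (map_zero _)
    by_cases hF0 : F = 0
    · refine ⟨0, 1, ?_, ?_⟩
      · rw [Polynomial.map_one]; exact one_ne_zero
      · rw [hF0, map_zero] at hFG
        rw [(mul_eq_zero.1 hFG).resolve_right hG, zero_mul, map_zero, sub_zero, map_zero]
        exact zero_lt_one
    obtain ⟨c, hc, g, hg, rfl⟩ := exists_content OΛ hG0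
    obtain ⟨c', hc', f, hf, rfl⟩ := exists_content OΛ hF0
    rw [map_mul, map_mul, aeval_C, aeval_C, ← ev_eq_aeval, ← ev_eq_aeval] at hFG
    have hcC : algebraMap Λ C c ≠ 0 := by simpa using hc
    have hc'C : algebraMap Λ C c' ≠ 0 := by simpa using hc'
    have hval : V.valuation (algebraMap Λ C (c' / c)) ≤ 1 := by
      have h4 := congrArg V.valuation hFG
      rw [map_mul, map_mul, map_mul, hunit g hg, hunit f hf, mul_one, mul_one] at h4
      have h5 : V.valuation (algebraMap Λ C c) ≠ 0 := by simpa using hc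
      rw [map_div₀, map_div₀, ← h4, mul_div_cancel_right₀ _ h5]
      exact hz
    have hmem : c' / c ∈ OΛ := by
      by_contra hcon
      have h4 : OΛ.valuation (c / c') < 1 := by
        rw [← OΛ.mem_nonunits_iff, OΛ.mem_nonunits_iff_or]
        right
        rwa [inv_div]
      have h5 := hlt _ h4
      have h6 : V.valuation (algebraMap Λ C (c / c')) * V.valuation (algebraMap Λ C (c' / c)) = 1 := by
        rw [← map_mul, ← map_mul, div_mul_div_comm, mul_comm c c', div_self (mul_ne_zero hc' hc),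
          map_one, map_one]
      have h7 : V.valuation (algebraMap Λ C (c / c')) * V.valuation (algebraMap Λ C (c' / c)) < 1 :=
        (mul_le_of_le_one_right' hval).trans_lt h5
      rw [h6] at h7
      exact lt_irrefl _ h7
    refine ⟨Polynomial.C ⟨c' / c, hmem⟩ * f, g, hg, ?_⟩
    have h4 : (z : C) * ev OΛ t g = algebraMap Λ C (c' / c) * ev OΛ t f := by
      rw [map_div₀]
      field_simp
      linear_combination hFG
    rw [map_mul, ev_C, h4, sub_self, map_zero]
    exact zero_lt_one

end Pool.Agent.Helper37.UL
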