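import Mathlib
import Pool.Agent.Helper37.UL.Data
import Pool.Agent.Helper37.UL.Germ1

/-!
# Level one structures and bounded data under embeddings
-/

universe u v

namespace Pool.Agent.Helper37.UL

variable {C : Type u} {C' : Type v} [Field C] [Field C'] (ι : C →+* C')

theorem Lev.map {k : Subfield C} {k' : Subfield C'} (hk : ∀ x ∈ k, ι x ∈ k') {p d : ℕ}
    {a : Fin (d + 1) → C} {θ : Fin d → C} {z : Fin d → Fin d → C} {α : C}
    (h : Lev k p a θ z α) :
    Lev k' p (fun i => ι (a i)) (fun i => ι (θ i)) (fun i j => ι (z i j)) (ι α) := by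
  refine ⟨fun i => hk _ (h.coef i), ?_, ?_, fun i => ?_, fun i j hij => ?_, ?_, ?_, ?_, ?_⟩
  · exact (map_ne_zero ι).mpr h.lead
  · exact ι.injective.comp h.inj
  · have := congrArg ι (h.root i)
    simpa only [map_sum, map_mul, map_pow, map_zero] using this
  · exact (map_ne_zero ι).mpr (h.ne i j hij)
  · obtain ⟨φ, h1, h2⟩ := h.pow
    refine ⟨fun r s => ι (φ r s), fun r s => hk _ (h1 r s), fun i j hij => ?_⟩
    have := congrArg ι (h2 i j hij)
    simpa only [map_sum, map_mul, map_pow] using this
  · obtain ⟨φ, h1, h2⟩ := h.coc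
    refine ⟨fun r s t => ι (φ r s t), fun r s t => hk _ (h1 r s t), fun i j l hij hjl hil => ?_⟩
    have := congrArg ι (h2 i j l hij hjl hil)
    simpa only [map_sum, map_mul, map_pow] using this
  · have := congrArg ι h.alpha
    simpa only [map_pow] using this
  · obtain ⟨φ, h1, h2⟩ := h.nrm
    refine ⟨fun r => ι (φ r), fun r => hk _ (h1 r), fun i => ?_⟩
    have := congrArg ι (h2 i)
    simpa only [map_sum, map_mul, map_pow, map_prod] using this

theorem Cpx.map {κ : Subfield C} {κ' : Subfield C'} (hk : ∀ x ∈ κ, ι x ∈ κ') {d B : ℕ}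
    {t x y g : C} (h : Cpx κ d B t x y g) : Cpx κ' d B (ι t) (ι x) (ι y) (ι g) := by
  obtain ⟨n, q, hn, hq, hq0, he⟩ := h
  refine ⟨fun i j l => ι (n i j l), fun l => ι (q l), fun i j l => hk _ (hn i j l),
    fun l => hk _ (hq l), ?_, ?_⟩
  · intro h0
    apply hq0
    funext l
    exact (map_eq_zero ι).mp (congrFun h0 l)
  · have := congrArg ι he
    simpa only [map_sum, map_mul, map_pow] using this

lemma sum_ne_zero_of_not_alg {K : Subfield C} {y : C} (hy : ¬ IsAlgebraic K y) {n : ℕ}
    {q : Fin (n + 1) → C} (hq : ∀ l, q l ∈ K) (hq0 : q ≠ 0) : ∑ l, q l * y ^ (l : ℕ) ≠ 0 := by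
  intro h0
  apply hy
  rw [isAlgebraic_iff]
  exact ⟨n, q, hq, hq0, h0⟩

theorem Data.map {κ Kg : Subfield C} {κ' Kg' : Subfield C'} (hk : ∀ x ∈ κ, ι x ∈ κ')
    (hKg : ∀ x ∈ Kg, ι x ∈ Kg') (hcl : ∀ y : C', IsAlgebraic (κ.map ι) y → y ∈ κ.map ι)
    {t : C} {d p B m : ℕ} {a : Fin (d + 1) → Fin (m + 1) → C} {x y w : C}
    (ha : ∀ i l, a i l ∈ κ) (hex : ∃ t₀ ∈ κ, Good κ a t₀) (h : Data κ Kg t d p B a x y w) :
    Data κ' Kg' (ι t) d p B (fun i l => ι (a i l)) (ι x) (ι y) (ι w) := by
  obtain ⟨g, r, G, c, e, hg, hr, hG, hgG, hA, hR, hc, he, hχ, hχ', hgood⟩ := h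
  refine ⟨ι g, ι r, fun i j => ι (G i j), fun i l => ι (c i l), fun i l => ι (e i l),
    (map_ne_zero ι).mpr hg, (map_ne_zero ι).mpr hr, fun i j => hKg _ (hG i j), ?_, ?_, hR.map ι hk,
    fun i l => hk _ (hc i l), fun i l => hk _ (he i l), ?_, ?_, ?_⟩
  · have := congrArg ι hgG
    simpa only [map_sum, map_mul, map_pow] using this
  · have := hA.map ι hk
    simpa only [map_mul, map_pow] using this
  · have := congrArg ι hχ
    simpa only [map_sum, map_mul, map_pow, map_add, map_zero] using this
  · have := congrArg ι hχ'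
    simpa only [map_sum, map_mul, map_pow, map_add, map_zero] using this
  · intro t₀ ht₀ hG₀ i hi
    by_cases hmem : t₀ ∈ κ.map ι
    · obtain ⟨s, hs, rfl⟩ := hmem
      have hGs : Good κ a s := by
        obtain ⟨h1, ρ, hρi, hρκ, hρ⟩ := hG₀
        have hlead : ∑ l, a (Fin.last d) l * s ^ (l : ℕ) ≠ 0 := by
          intro h0
          apply h1
          have := congrArg ι h0
          simpa only [map_sum, map_mul, map_pow, map_zero] using this
        have hρalg : ∀ j, ρ j ∈ κ.map ι := by
          intro j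
          apply hcl
          rw [isAlgebraic_iff]
          refine ⟨d, fun i => ∑ l, ι (a i l) * ι s ^ (l : ℕ), fun i => ?_, ?_, hρ j⟩
          · apply Subfield.sum_mem
            intro l _
            have e1 : ι (a i l) ∈ κ.map ι := ⟨_, ha i l, rfl⟩
            have e2 : ι s ∈ κ.map ι := ⟨s, hs, rfl⟩
            exact Subfield.mul_mem _ e1 (Subfield.pow_mem _ e2 _)
          · intro h0
            exact h1 (congrFun h0 (Fin.last d))
        choose σ hσ hσ' using hρalg
        refine ⟨hlead, σ, ?_, hσ, fun j => ?_⟩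
        · intro j j' hjj
          apply hρi
          rw [← hσ', ← hσ', hjj]
        · apply ι.injective
          rw [map_zero, ← hρ j]
          simp only [map_sum, map_mul, map_pow, hσ']
      rcases hgood s hs hGs i hi with h2 | h2
      · left
        intro h0
        apply h2
        apply ι.injective
        rw [map_zero, ← h0]
        simp only [map_sum, map_mul, map_pow]
      · right
        intro h0
        apply h2
        apply ι.injective
        rw [map_zero, ← h0]
        simp only [map_sum, map_mul, map_pow]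
    · obtain ⟨s, hs, hGs⟩ := hex
      have htr : ¬ IsAlgebraic (κ.map ι) t₀ := fun h0 => hmem (hcl _ h0)
      rcases hgood s hs hGs i hi with h2 | h2
      · left
        apply sum_ne_zero_of_not_alg htr (fun l => ⟨_, hc i l, rfl⟩)
        intro h0
        apply h2
        apply Finset.sum_eq_zero
        intro l _
        have h3 : c i l = 0 := (map_eq_zero ι).mp (congrFun h0 l)
        rw [h3, zero_mul]
      · right
        apply sum_ne_zero_of_not_alg htr (fun l => ⟨_, he i l, rfl⟩)
        intro h0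
        apply h2
        apply Finset.sum_eq_zero
        intro l _
        have h3 : e i l = 0 := (map_eq_zero ι).mp (congrFun h0 l)
        rw [h3, zero_mul]

end Pool.Agent.Helper37.UL
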