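import Pool.Agent.Helper37.UL.A3

/-!
# Places of good reduction: separability of the reduction, and conjugacy of places (block A)
-/

universe u

namespace Pool.Agent.Helper37.UL

open Polynomial Pool.Agent.Helper91.Sect Pool.Agent.Helper91.SE

section Sep

variable {k C : Type u} [Field k] [Field C] [Algebra k C] {V : ValuationSubring C}
  {O : ValuationSubring k} (hO : ∀ c : k, c ∈ O ↔ algebraMap k C c ∈ V)

/-- the map from `O` to `V` -/
def resO (hO : ∀ c : k, c ∈ O ↔ algebraMap k C c ∈ V) : O →+* V :=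
  ((algebraMap k C).comp O.subtype).codRestrict V.toSubring fun c => (hO c).1 c.2

theorem resO_local : IsLocalHom (resO hO) := by
  constructor
  intro c hc
  rw [isUnit_iff_exists_inv] at hc ⊢
  obtain ⟨w, hw⟩ := hc
  have h1 : algebraMap k C c * w = 1 := congrArg Subtype.val hw
  have hc0 : (c : k) ≠ 0 := by
    intro h0
    rw [h0, map_zero, zero_mul] at h1
    exact zero_ne_one h1
  have h2 : algebraMap k C ((c : k)⁻¹) = w := by
    rw [map_inv₀]
    exact inv_eq_of_mul_eq_one_right h1
  refine ⟨⟨(c : k)⁻¹, (hO _).2 (by rw [h2]; exact w.2)⟩, ?_⟩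
  exact Subtype.ext (mul_inv_cancel₀ hc0)

include hO in
theorem val_lt_iff (c : O) : V.valuation (algebraMap k C c) < 1 ↔ O.valuation (c : k) < 1 := by
  have h1 := resO_local hO
  have h2 : IsUnit (resO hO c) ↔ IsUnit c := ⟨fun h => h1.map_nonunit c h, fun h => h.map _⟩
  rw [← not_iff_not, not_lt, not_lt]
  have h3 : V.valuation (algebraMap k C c) = 1 ↔ O.valuation (c : k) = 1 := by
    rw [← O.valuation_eq_one_iff, ← h2, V.valuation_eq_one_iff]
    rfl
  constructor
  · intro h
    exact (h3.1 (le_antisymm ((V.valuation_le_one_iff _).2 ((hO c).1 c.2)) h)).ge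
  · intro h
    exact (h3.2 (le_antisymm ((O.valuation_le_one_iff _).2 c.2) h)).ge

theorem separable_of_good {d : ℕ} {fO : O[X]} {θ : Fin d → C} (hθV : ∀ i, θ i ∈ V)
    (hsep : ∀ i j, i ≠ j → V.valuation (θ i - θ j) = 1) {a : O} (ha : O.valuation (a : k) = 1)
    (hfac : fO.map (algebraMap O C) = Polynomial.C (algebraMap O C a) *
      ∏ i, (X - Polynomial.C (θ i))) (hO : ∀ c : k, c ∈ O ↔ algebraMap k C c ∈ V) :
    (fO.map (IsLocalRing.residue O)).Separable := by
  have hloc := resO_local hO
  rw [← separable_map (IsLocalRing.ResidueField.map (resO hO)), Polynomial.map_map,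
    IsLocalRing.ResidueField.map_comp_residue, ← Polynomial.map_map]
  have h2 : fO.map (resO hO) = Polynomial.C (resO hO a) *
      ∏ i, (X - Polynomial.C (⟨θ i, hθV i⟩ : V)) := by
    apply Polynomial.map_injective V.subtype Subtype.val_injective
    rw [Polynomial.map_map, Polynomial.map_mul, Polynomial.map_prod, map_C]
    simp only [Polynomial.map_sub, map_X, map_C]
    exact hfac
  rw [h2, Polynomial.map_mul, Polynomial.map_prod, map_C]
  simp only [Polynomial.map_sub, map_X, map_C]
  apply Separable.unit_mul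
  · rw [isUnit_C]
    apply IsUnit.map
    apply IsUnit.map
    exact (O.valuation_eq_one_iff a).2 ha
  · rw [separable_prod_X_sub_C_iff]
    intro i j hij
    by_contra hne
    have h3 := hsep i j hne
    have h4 : IsLocalRing.residue V (⟨θ i, hθV i⟩ - ⟨θ j, hθV j⟩) = 0 := by
      rw [map_sub, sub_eq_zero]
      exact hij
    rw [IsLocalRing.residue_eq_zero_iff, V.valuation_lt_one_iff] at h4
    change V.valuation (θ i - θ j) < 1 at h4
    rw [h3] at h4
    exact lt_irrefl _ h4

end Sep

section Conj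

variable {k C : Type u} [Field k] [Field C] [Algebra k C] [IsGalois k C] {V : ValuationSubring C}
  {O : ValuationSubring k} (hO : ∀ c : k, c ∈ O ↔ algebraMap k C c ∈ V)

include hO in
omit [IsGalois k C] in
theorem int_mem (b : integralClosure O C) : (b : C) ∈ V := by
  obtain ⟨p, hp, hz0⟩ := b.2
  have h1 : IsIntegral V (b : C) := by
    refine ⟨p.map (resO hO), hp.map _, ?_⟩
    rw [Polynomial.eval₂_map]
    exact hz0
  obtain ⟨w, hw⟩ := IsIntegrallyClosed.algebraMap_eq_of_integral h1
  rw [← hw]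
  exact w.2

/-- the prime of the integral closure attached to `V` -/
def primeV (hO : ∀ c : k, c ∈ O ↔ algebraMap k C c ∈ V) : Ideal (integralClosure O C) :=
  (IsLocalRing.maximalIdeal V).comap
    ((algebraMap (integralClosure O C) C).codRestrict V.toSubring fun b => int_mem hO b)

omit [IsGalois k C] in
theorem mem_primeV {b : integralClosure O C} : b ∈ primeV hO ↔ V.valuation (b : C) < 1 := by
  unfold primeV
  rw [Ideal.mem_comap, V.valuation_lt_one_iff]
  rfl

omit [IsGalois k C] in
theorem primeV_prime : (primeV hO).IsPrime := Ideal.comap_isPrime _ _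

omit [IsGalois k C] in
theorem primeV_above : Above (primeV hO) := by
  intro c
  rw [mem_primeV, ← val_lt_iff hO]
  rfl

/-- the primes above the maximal ideal of `O` are conjugate -/
theorem conj_above {P Q : Ideal (integralClosure O C)} [P.IsPrime] [Q.IsPrime] (hP : Above P)
    (hQ : Above Q) : ∃ g : C ≃ₐ[k] C, ∀ b : integralClosure O C, g • b ∈ Q ↔ b ∈ P := by
  obtain ⟨g, -, hg⟩ := exists_conj (⊤ : Subgroup (C ≃ₐ[k] C)) isClosed_univ P Q (by
    intro b hb
    have h1 : ∀ g : C ≃ₐ[k] C, g (b : C) = b := fun g =>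
      congrArg Subtype.val (hb g (Subgroup.mem_top g))
    obtain ⟨c, hc⟩ := (InfiniteGalois.mem_range_algebraMap_iff_fixed (k := k) (b : C)).2 h1
    have hcO : c ∈ O := by
      have h2 : IsIntegral O (algebraMap k C c) := by rw [hc]; exact b.2
      have h3 : IsIntegral O c := by
        rwa [isIntegral_algebraMap_iff (algebraMap k C).injective] at h2
      obtain ⟨c', hc'⟩ := IsIntegrallyClosed.algebraMap_eq_of_integral h3
      rw [← hc']; exact c'.2
    have h4 : b = algebraMap O (integralClosure O C) ⟨c, hcO⟩ := Subtype.ext hc.symm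
    rw [h4, hP, hQ])
  exact ⟨g, hg⟩

/-- an inertia element of `V` is conjugate to an inertia element of a given prime above `O` -/
theorem exists_conj_inertia (hO : ∀ c : k, c ∈ O ↔ algebraMap k C c ∈ V)
    {Q : Ideal (integralClosure O C)} [Q.IsPrime] (hQ : Above Q) {σ : C ≃ₐ[k] C}
    (h1 : ∀ x, σ x ∈ V ↔ x ∈ V) (h2 : ∀ x ∈ V, V.valuation (σ x - x) < 1) :
    ∃ g : C ≃ₐ[k] C, InI Q (g * σ * g⁻¹) := by
  have hPp := primeV_prime hO
  obtain ⟨g, hg⟩ := conj_above (P := primeV hO) (Q := Q) (primeV_above hO) hQ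
  refine ⟨g, ?_, ?_⟩
  · intro b
    have h3 : (g * σ * g⁻¹) • b = g • (σ • (g⁻¹ • b)) := by rw [mul_smul, mul_smul]
    have h4 : b = g • (g⁻¹ • b) := by rw [smul_inv_smul]
    rw [h3, hg]
    conv_rhs => rw [h4, hg]
    set b' := g⁻¹ • b
    rw [mem_primeV, mem_primeV]
    change V.valuation (σ (b' : C)) < 1 ↔ _
    have h5 : ∀ x : C, V.valuation (σ x) ≤ 1 ↔ V.valuation x ≤ 1 := by
      intro x
      rw [V.valuation_le_one_iff, V.valuation_le_one_iff, h1]
    have h6 : ∀ x : C, V.valuation (σ x) < 1 ↔ V.valuation x < 1 := by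
      intro x
      by_cases hx : x = 0
      · rw [hx, map_zero]
      have h7 := h5 x⁻¹
      rw [map_inv₀, map_inv₀, map_inv₀] at h7
      have h8 : V.valuation x ≠ 0 := by simpa using hx
      have h9 : V.valuation (σ x) ≠ 0 := by simpa using hx
      rw [inv_le_one₀ (zero_lt_iff.2 h8), inv_le_one₀ (zero_lt_iff.2 h9)] at h7
      rw [← not_le, ← not_le, h7]
    exact h6 _
  · intro b
    have h3 : (g * σ * g⁻¹) • b - b = g • (σ • (g⁻¹ • b) - g⁻¹ • b) := by
      rw [smul_sub, smul_inv_smul, mul_smul, mul_smul]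
    rw [h3, hg, mem_primeV]
    exact h2 _ (int_mem hO _)

end Conj

end Pool.Agent.Helper37.UL
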