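import Pool.Agent.Helper91.Section.Hilbert

/-!
# An equivariant family of constants attached to a Galois section (block A)
-/

universe u

namespace Pool.Agent.Helper37.UL

open Polynomial Pool.Agent.Helper91.Sect

section

variable {k K : Type u} [Field k] [Field K] [Algebra k K]

/-- the orbit relation on pairs -/
def pairSetoid (k K : Type u) [Field k] [Field K] [Algebra k K] :
    Setoid (kbar k K × kbar k K) where
  r a b := ∃ σ : Gk k K, σ a.1 = b.1 ∧ σ a.2 = b.2
  iseqv := by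
    refine ⟨fun a => ⟨1, rfl, rfl⟩, ?_, ?_⟩
    · rintro a b ⟨σ, h1, h2⟩
      refine ⟨σ⁻¹, ?_, ?_⟩
      · rw [← h1]
        change (σ⁻¹ * σ) a.1 = a.1
        rw [inv_mul_cancel]; rfl
      · rw [← h2]
        change (σ⁻¹ * σ) a.2 = a.2
        rw [inv_mul_cancel]; rfl
    · rintro a b c ⟨σ, h1, h2⟩ ⟨τ, h3, h4⟩
      refine ⟨τ * σ, ?_, ?_⟩
      · change τ (σ a.1) = c.1
        rw [h1, h3]
      · change τ (σ a.2) = c.2
        rw [h2, h4]

theorem finDim_pair (a : kbar k K × kbar k K) :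
    FiniteDimensional k (IntermediateField.adjoin k {a.1, a.2}) := by
  apply IntermediateField.finiteDimensional_adjoin
  intro z _
  exact Algebra.IsIntegral.isIntegral z

theorem mem_fix_pair {a : kbar k K × kbar k K} {σ : Gk k K} (h1 : σ a.1 = a.1)
    (h2 : σ a.2 = a.2) : σ ∈ (IntermediateField.adjoin k {a.1, a.2}).fixingSubgroup := by
  have h3 : IntermediateField.adjoin k {a.1, a.2} ≤
      IntermediateField.fixedField (Subgroup.zpowers σ) := by
    rw [IntermediateField.adjoin_le_iff]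
    rintro z (rfl | rfl)
    · rw [SetLike.mem_coe, IntermediateField.mem_fixedField_iff]
      intro g hg
      rw [Subgroup.mem_zpowers_iff] at hg
      obtain ⟨n, rfl⟩ := hg
      have : σ ^ n ∈ MulAction.stabilizer (Gk k K) a.1 := Subgroup.zpow_mem _ h1 n
      exact this
    · rw [SetLike.mem_coe, IntermediateField.mem_fixedField_iff]
      intro g hg
      rw [Subgroup.mem_zpowers_iff] at hg
      obtain ⟨n, rfl⟩ := hg
      have : σ ^ n ∈ MulAction.stabilizer (Gk k K) a.2 := Subgroup.zpow_mem _ h2 n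
      exact this
  rw [IntermediateField.mem_fixingSubgroup_iff]
  intro z hz
  have h4 := h3 hz
  rw [IntermediateField.mem_fixedField_iff] at h4
  exact h4 σ (Subgroup.mem_zpowers σ)

theorem fix_pair_of_mem {a : kbar k K × kbar k K} {σ : Gk k K}
    (h : σ ∈ (IntermediateField.adjoin k {a.1, a.2}).fixingSubgroup) :
    σ a.1 = a.1 ∧ σ a.2 = a.2 := by
  rw [IntermediateField.mem_fixingSubgroup_iff] at h
  exact ⟨h _ (IntermediateField.subset_adjoin k _ (by simp)),
    h _ (IntermediateField.subset_adjoin k _ (by simp))⟩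

variable [CharZero k]

/-- A family of functions permuted by the section up to constants can be rescaled by constants so
that it is permuted. -/
theorem exists_equi_family (s : GaloisSection k K) (P : kbar k K × kbar k K → Prop)
    (hP : ∀ (σ : Gk k K) a, P a → P (σ a.1, σ a.2)) (w : kbar k K × kbar k K → Kur k K)
    (hw0 : ∀ a, P a → w a ≠ 0)
    (hw : ∀ (σ : Gk k K) a, P a → ∃ c : kbar k K,
      s.toHom σ (w a) = toKur k K c * w (σ a.1, σ a.2)) :
    ∃ e : kbar k K × kbar k K → kbar k K, ∀ a, P a → e a ≠ 0 ∧ ∀ σ : Gk k K,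
      s.toHom σ (toKur k K (e a) * w a) =
        toKur k K (e (σ a.1, σ a.2)) * w (σ a.1, σ a.2) := by
  classical
  have key1 : ∀ a, P a → ∃ e : kbar k K, e ≠ 0 ∧ ∀ σ : Gk k K, σ a.1 = a.1 → σ a.2 = a.2 →
      s.toHom σ (toKur k K e * w a) = toKur k K e * w a := by
    intro a ha
    have h1 := finDim_pair a
    obtain ⟨e, he0, he⟩ := exists_fixed_mul s (IntermediateField.adjoin k {a.1, a.2}) (w a)
      (hw0 a ha) (by
        intro σ hσ
        obtain ⟨c, hc⟩ := hw σ a ha
        obtain ⟨h2, h3⟩ := fix_pair_of_mem hσ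
        rw [h2, h3] at hc
        exact ⟨c, hc⟩)
    exact ⟨e, he0, fun σ h2 h3 => he σ (mem_fix_pair h2 h3)⟩
  choose! e₀ he₀ he₀' using key1
  -- representatives
  let b : kbar k K × kbar k K → kbar k K × kbar k K := fun a =>
    (Quotient.mk (pairSetoid k K) a).out
  have hb : ∀ a, ∃ τ : Gk k K, τ (b a).1 = a.1 ∧ τ (b a).2 = a.2 := by
    intro a
    exact Quotient.exact (Quotient.out_eq (Quotient.mk (pairSetoid k K) a))
  have hbb : ∀ a (σ : Gk k K), b (σ a.1, σ a.2) = b a := by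
    intro a σ
    have h1 : Quotient.mk (pairSetoid k K) (σ a.1, σ a.2) = Quotient.mk (pairSetoid k K) a :=
      (Quotient.sound ⟨σ, rfl, rfl⟩ : Quotient.mk (pairSetoid k K) a =
        Quotient.mk (pairSetoid k K) (σ a.1, σ a.2)).symm
    change (Quotient.mk (pairSetoid k K) (σ a.1, σ a.2)).out = _
    rw [h1]
  choose τ hτ1 hτ2 using hb
  have hinv : ∀ (σ : Gk k K) (z z' : kbar k K), σ z = z' → σ⁻¹ z' = z := by
    rintro σ z z' rfl
    change (σ⁻¹ * σ) z = z
    rw [inv_mul_cancel]; rfl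
  have hPb : ∀ a, P a → P (b a) := by
    intro a ha
    have h1 := hP (τ a)⁻¹ a ha
    rw [hinv _ _ _ (hτ1 a), hinv _ _ _ (hτ2 a)] at h1
    exact h1
  have key2 : ∀ a, P a → ∃ ea : kbar k K, ea ≠ 0 ∧ toKur k K ea * w a =
      s.toHom (τ a) (toKur k K (e₀ (b a)) * w (b a)) := by
    intro a ha
    obtain ⟨c, hc⟩ := hw (τ a) (b a) (hPb a ha)
    rw [hτ1, hτ2] at hc
    have hc0 : c ≠ 0 := by
      intro h0
      rw [h0, map_zero, zero_mul] at hc
      exact hw0 _ (hPb a ha) ((map_eq_zero (s.toHom (τ a))).1 hc)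
    refine ⟨τ a (e₀ (b a)) * c, mul_ne_zero ?_ hc0, ?_⟩
    · intro h0
      exact he₀ _ (hPb a ha) ((map_eq_zero (τ a)).1 h0)
    · rw [map_mul (s.toHom (τ a)), hc, section_toKur, map_mul, mul_assoc]
  choose! e he0 he using key2
  refine ⟨e, fun a ha => ⟨he0 a ha, fun σ => ?_⟩⟩
  rw [he a ha, he _ (hP σ a ha), hbb]
  set t := τ (σ a.1, σ a.2) with ht
  have ht1 : t (b a).1 = σ a.1 := by
    have := hτ1 (σ a.1, σ a.2)
    rw [hbb] at this
    exact this
  have ht2 : t (b a).2 = σ a.2 := by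
    have := hτ2 (σ a.1, σ a.2)
    rw [hbb] at this
    exact this
  set F := toKur k K (e₀ (b a)) * w (b a) with hF
  have h1 : s.toHom (t⁻¹ * (σ * τ a)) F = F := by
    apply he₀' _ (hPb a ha)
    · change t⁻¹ (σ (τ a (b a).1)) = _
      rw [hτ1]
      exact hinv _ _ _ ht1
    · change t⁻¹ (σ (τ a (b a).2)) = _
      rw [hτ2]
      exact hinv _ _ _ ht2
  have h2 : s.toHom σ (s.toHom (τ a) F) = s.toHom (t * (t⁻¹ * (σ * τ a))) F := by
    rw [mul_inv_cancel_left, map_mul s.toHom]; rfl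
  rw [h2, map_mul s.toHom]
  change s.toHom t (s.toHom (t⁻¹ * (σ * τ a)) F) = _
  rw [h1]

end

end Pool.Agent.Helper37.UL
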