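import Pool.Agent.Helper37.UL.A1
import Pool.Agent.Helper91.Section.SE.Gal

/-!
# The Kummer functions of a cyclic cover under a Galois section (block A)
-/

universe u

namespace Pool.Agent.Helper37.UL

open Polynomial Pool.Agent.Helper91.Sect Pool.Agent.Helper91.SE

section

variable {k K : Type u} [Field k] [Field K] [Algebra k K] [CharZero k]
  {p : ℕ} (hp : p ≠ 0) {x y : K} {a₀ : kbar k K} (ha₀ : a₀ ≠ 0) {R : Finset (kbar k K)}
  (heq : ((1 : kbar k K) : AlgebraicClosure K) * (algebraMap K (AlgebraicClosure K) y) ^ p =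
    a₀ * ∏ r ∈ R, (algebraMap K (AlgebraicClosure K) x - (r : AlgebraicClosure K)))
  {v : kbar k K → AlgebraicClosure K}
  (hv : ∀ r : kbar k K, v r ^ p = algebraMap K (AlgebraicClosure K) x - (r : AlgebraicClosure K))
  (hv0 : ∀ r : kbar k K, v r ≠ 0)
  (s : GaloisSection k K)
  (hperm : ∀ σ : Gk k K, ∀ r ∈ R, σ r ∈ R)

omit [CharZero k] in
include hv in
theorem ratio_pow {σ : Gk k K} {ρ : AlgebraicClosure K ≃ₐ[K] AlgebraicClosure K}
    (hρ : ∀ w : Kur k K, ρ w = s.toHom σ w) (r r' : kbar k K) :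
    ρ (v r / v r') ^ p = (v (σ r) / v (σ r')) ^ p := by
  rw [← map_pow, div_pow, div_pow, hv, hv, hv, hv, map_div₀, map_sub, map_sub,
    ext_const s hρ, ext_const s hρ]
  have h1 : ρ (algebraMap K (AlgebraicClosure K) x) = algebraMap K (AlgebraicClosure K) x :=
    ρ.commutes x
  rw [h1]

include hp ha₀ heq hv hv0 hperm in
/-- the equivariant family of constants -/
theorem exists_e : ∃ e : kbar k K × kbar k K → kbar k K, ∀ r ∈ R, ∀ r' ∈ R, e (r, r') ≠ 0 ∧
    ∀ (σ : Gk k K) (ρ : AlgebraicClosure K ≃ₐ[K] AlgebraicClosure K),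
      (∀ w : Kur k K, ρ w = s.toHom σ w) →
      ρ ((e (r, r') : AlgebraicClosure K) * (v r / v r')) =
        (e (σ r, σ r') : AlgebraicClosure K) * (v (σ r) / v (σ r')) := by
  classical
  have hone : (1 : kbar k K) ≠ 0 := one_ne_zero
  have hmem : ∀ r ∈ R, ∀ r' ∈ R, v r / v r' ∈ Kur k K := fun r hr r' hr' =>
    pairn_mem_Kur hp ha₀ hone heq hv hr hr'
  have hex : ∀ a : kbar k K × kbar k K, ∃ w : Kur k K, (a.1 ∈ R ∧ a.2 ∈ R) →
      (w : AlgebraicClosure K) = v a.1 / v a.2 := by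
    intro a
    by_cases ha : a.1 ∈ R ∧ a.2 ∈ R
    · exact ⟨⟨_, hmem _ ha.1 _ ha.2⟩, fun _ => rfl⟩
    · exact ⟨1, fun h => absurd h ha⟩
  choose w hw using hex
  have hP : ∀ (σ : Gk k K) (a : kbar k K × kbar k K), (a.1 ∈ R ∧ a.2 ∈ R) →
      ((σ a.1, σ a.2) : kbar k K × kbar k K).1 ∈ R ∧
        ((σ a.1, σ a.2) : kbar k K × kbar k K).2 ∈ R := fun σ a ha =>
    ⟨hperm σ _ ha.1, hperm σ _ ha.2⟩
  obtain ⟨e, he⟩ := exists_equi_family s (fun a => a.1 ∈ R ∧ a.2 ∈ R) hP w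
    (by
      intro a ha h0
      have h1 := hw a ha
      rw [h0] at h1
      exact div_ne_zero (hv0 _) (hv0 _) h1.symm)
    (by
      intro σ a ha
      obtain ⟨ρ, hρ⟩ := exists_ext s σ
      have hq0 : v (σ a.1) / v (σ a.2) ≠ 0 := div_ne_zero (hv0 _) (hv0 _)
      have h1 : (ρ (v a.1 / v a.2) / (v (σ a.1) / v (σ a.2))) ^ p = 1 := by
        rw [div_pow, ratio_pow hv s hρ]
        exact div_self (pow_ne_zero _ hq0)
      have halg : IsAlgebraic k (ρ (v a.1 / v a.2) / (v (σ a.1) / v (σ a.2))) :=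
        (IsIntegral.of_pow (Nat.pos_of_ne_zero hp) (by rw [h1]; exact isIntegral_one)).isAlgebraic
      refine ⟨⟨_, mem_algebraicClosure_iff.2 halg⟩, ?_⟩
      apply Subtype.ext
      rw [← hρ, hw a ha]
      change _ = ρ (v a.1 / v a.2) / (v (σ a.1) / v (σ a.2)) *
        (w (σ a.1, σ a.2) : AlgebraicClosure K)
      rw [hw _ (hP σ a ha), div_mul_cancel₀ _ hq0])
  refine ⟨e, fun r hr r' hr' => ?_⟩
  obtain ⟨h1, h2⟩ := he (r, r') ⟨hr, hr'⟩
  refine ⟨h1, fun σ ρ hρ => ?_⟩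
  have h3 := congrArg Subtype.val (h2 σ)
  have h4 := hρ (toKur k K (e (r, r')) * w (r, r'))
  rw [h3] at h4
  change ρ ((e (r, r') : AlgebraicClosure K) * (w (r, r') : AlgebraicClosure K)) =
    (e (σ r, σ r') : AlgebraicClosure K) * (w (σ r, σ r') : AlgebraicClosure K) at h4
  rw [hw _ ⟨hr, hr'⟩, hw _ ⟨hperm σ r hr, hperm σ r' hr'⟩] at h4
  exact h4

omit [CharZero k] in
include hp ha₀ heq hv hv0 in
/-- the constant `α` -/
theorem exists_alpha : ∃ α : kbar k K, α ^ p = a₀ ∧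
    (α : AlgebraicClosure K) * ∏ r ∈ R, v r = algebraMap K (AlgebraicClosure K) y := by
  obtain ⟨ℓ, hℓ⟩ := IsAlgClosed.exists_pow_nat_eq a₀ (Nat.pos_of_ne_zero hp)
  set Y₀ := algebraMap K (AlgebraicClosure K) y with hY₀
  set pv := ∏ r ∈ R, v r with hpv
  have hpv0 : pv ≠ 0 := Finset.prod_ne_zero_iff.2 fun r _ => hv0 r
  have hℓ0 : (ℓ : AlgebraicClosure K) ≠ 0 := by
    intro h0
    have h1 : ℓ = 0 := Subtype.ext h0
    rw [h1, zero_pow hp] at hℓ
    exact ha₀ hℓ.symm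
  have h1 : Y₀ ^ p = ((ℓ : AlgebraicClosure K) * pv) ^ p := by
    rw [mul_pow]
    have h4 : (ℓ : AlgebraicClosure K) ^ p = a₀ := congrArg Subtype.val hℓ
    have h5 : ((1 : kbar k K) : AlgebraicClosure K) = 1 := rfl
    rw [h5, one_mul] at heq
    rw [h4, heq, hpv, ← Finset.prod_pow]
    congr 1
    exact Finset.prod_congr rfl fun r _ => (hv r).symm
  have hℓpv : (ℓ : AlgebraicClosure K) * pv ≠ 0 := mul_ne_zero hℓ0 hpv0
  have hε : (Y₀ / ((ℓ : AlgebraicClosure K) * pv)) ^ p = 1 := by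
    rw [div_pow, h1]
    exact div_self (pow_ne_zero _ hℓpv)
  have hεalg : IsAlgebraic k (Y₀ / ((ℓ : AlgebraicClosure K) * pv)) :=
    (IsIntegral.of_pow (Nat.pos_of_ne_zero hp) (by rw [hε]; exact isIntegral_one)).isAlgebraic
  set ε : kbar k K := ⟨_, mem_algebraicClosure_iff.2 hεalg⟩ with hεdef
  have hεn : ε ^ p = 1 := Subtype.ext hε
  refine ⟨ε * ℓ, by rw [mul_pow, hεn, one_mul, hℓ], ?_⟩
  change Y₀ / ((ℓ : AlgebraicClosure K) * pv) * (ℓ : AlgebraicClosure K) * pv = Y₀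
  rw [mul_assoc, div_mul_cancel₀ _ hℓpv]

variable {e : kbar k K × kbar k K → kbar k K}
  (he : ∀ r ∈ R, ∀ r' ∈ R, e (r, r') ≠ 0 ∧
    ∀ (σ : Gk k K) (ρ : AlgebraicClosure K ≃ₐ[K] AlgebraicClosure K),
      (∀ w : Kur k K, ρ w = s.toHom σ w) →
      ρ ((e (r, r') : AlgebraicClosure K) * (v r / v r')) =
        (e (σ r, σ r') : AlgebraicClosure K) * (v (σ r) / v (σ r')))

omit [CharZero k] in
include he in
theorem zeta_spec {σ : Gk k K} {ρ : AlgebraicClosure K ≃ₐ[K] AlgebraicClosure K}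
    (hρ : ∀ w : Kur k K, ρ w = s.toHom σ w) {r r' : kbar k K} (hr : r ∈ R) (hr' : r' ∈ R) :
    ρ (v r / v r') = ((e (σ r, σ r') / σ (e (r, r')) : kbar k K) : AlgebraicClosure K) *
      (v (σ r) / v (σ r')) := by
  obtain ⟨h0, h1⟩ := he r hr r' hr'
  have h2 := h1 σ ρ hρ
  rw [map_mul, ext_const s hρ] at h2
  have h3 : ((σ (e (r, r')) : kbar k K) : AlgebraicClosure K) ≠ 0 := by
    intro h4
    exact h0 ((map_eq_zero σ).1 (Subtype.ext h4))
  change _ = (e (σ r, σ r') : AlgebraicClosure K) / (σ (e (r, r')) : AlgebraicClosure K) * _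
  rw [div_mul_eq_mul_div, ← h2, mul_div_cancel_left₀ _ h3]

omit [CharZero k] in
include hv hv0 he in
theorem zeta_pow (σ : Gk k K) {r r' : kbar k K} (hr : r ∈ R) (hr' : r' ∈ R) :
    (e (σ r, σ r') / σ (e (r, r')) : kbar k K) ^ p = 1 := by
  obtain ⟨ρ, hρ⟩ := exists_ext s σ
  have h1 := zeta_spec s he hρ hr hr'
  have h2 := ratio_pow hv s hρ r r'
  rw [h1, mul_pow] at h2
  have hq0 : (v (σ r) / v (σ r')) ^ p ≠ 0 := pow_ne_zero _ (div_ne_zero (hv0 _) (hv0 _))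
  have h3 := (mul_eq_right₀ hq0).1 h2
  exact Subtype.ext h3

omit [CharZero k] in
include hv0 he in
theorem zeta_coc (σ : Gk k K) {r r' r'' : kbar k K} (hr : r ∈ R) (hr' : r' ∈ R)
    (hr'' : r'' ∈ R) :
    (e (σ r, σ r') / σ (e (r, r')) : kbar k K) * (e (σ r', σ r'') / σ (e (r', r''))) =
      e (σ r, σ r'') / σ (e (r, r'')) := by
  obtain ⟨ρ, hρ⟩ := exists_ext s σ
  have h1 := zeta_spec s he hρ hr hr'
  have h2 := zeta_spec s he hρ hr' hr''
  have h3 := zeta_spec s he hρ hr hr''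
  have h4 : v r / v r'' = v r / v r' * (v r' / v r'') := by
    rw [div_mul_div_cancel₀ (hv0 _)]
  have h5 : v (σ r) / v (σ r'') = v (σ r) / v (σ r') * (v (σ r') / v (σ r'')) := by
    rw [div_mul_div_cancel₀ (hv0 _)]
  rw [h4, map_mul, h1, h2, h5] at h3
  have h6 : v (σ r) / v (σ r') * (v (σ r') / v (σ r'')) ≠ 0 := by
    rw [← h5]
    exact div_ne_zero (hv0 _) (hv0 _)
  apply Subtype.ext
  apply mul_right_cancel₀ h6
  refine Eq.trans ?_ h3
  change ((e (σ r, σ r') / σ (e (r, r')) : kbar k K) : AlgebraicClosure K) *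
    ((e (σ r', σ r'') / σ (e (r', r'')) : kbar k K) : AlgebraicClosure K) * _ = _
  ring

omit [CharZero k] in
include hv0 he in
theorem zeta_self (σ : Gk k K) {r : kbar k K} (hr : r ∈ R) :
    (e (σ r, σ r) / σ (e (r, r)) : kbar k K) = 1 := by
  obtain ⟨ρ, hρ⟩ := exists_ext s σ
  have h1 := zeta_spec s he hρ hr hr
  rw [div_self (hv0 _), div_self (hv0 _), map_one, mul_one] at h1
  exact Subtype.ext h1.symm

omit [CharZero k] in
include hv hv0 hperm he in
theorem zeta_nrm {m : ℕ} (hRm : R.card = p * m) {α : kbar k K}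
    (hα : (α : AlgebraicClosure K) * ∏ r ∈ R, v r = algebraMap K (AlgebraicClosure K) y)
    (σ : Gk k K) {r₀ : kbar k K} (hr₀ : r₀ ∈ R) :
    σ α * ∏ r ∈ R, (e (σ r, σ r₀) / σ (e (r, r₀)) : kbar k K) = α := by
  classical
  obtain ⟨ρ, hρ⟩ := exists_ext s σ
  set X₀ := algebraMap K (AlgebraicClosure K) x with hX₀
  have key : ∀ t : kbar k K, (α : AlgebraicClosure K) * ∏ r ∈ R, (v r / v t) =
      algebraMap K (AlgebraicClosure K) y / (X₀ - (t : AlgebraicClosure K)) ^ m := by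
    intro t
    rw [Finset.prod_div_distrib, Finset.prod_const, hRm, pow_mul, hv, ← mul_div_assoc, hα]
  have h1 := congrArg ρ (key r₀)
  rw [map_div₀, map_pow, map_sub, ext_const s hρ, map_mul, ext_const s hρ] at h1
  have hX : ρ X₀ = X₀ := ρ.commutes x
  have hY : ρ (algebraMap K (AlgebraicClosure K) y) = algebraMap K (AlgebraicClosure K) y :=
    ρ.commutes y
  rw [hX, hY, ← key (σ r₀), map_prod] at h1
  have h2 : ∏ r ∈ R, ρ (v r / v r₀) =
      ((∏ r ∈ R, (e (σ r, σ r₀) / σ (e (r, r₀)) : kbar k K) : kbar k K) : AlgebraicClosure K) *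
        ∏ r ∈ R, (v r / v (σ r₀)) := by
    have h3 := map_prod (algebraMap (kbar k K) (AlgebraicClosure K))
      (fun r => (e (σ r, σ r₀) / σ (e (r, r₀)) : kbar k K)) R
    have h4 : ((∏ r ∈ R, (e (σ r, σ r₀) / σ (e (r, r₀)) : kbar k K) : kbar k K) :
        AlgebraicClosure K) =
        ∏ r ∈ R, ((e (σ r, σ r₀) / σ (e (r, r₀)) : kbar k K) : AlgebraicClosure K) := h3
    have h5 : ∏ r ∈ R, (v r / v (σ r₀)) = ∏ r ∈ R, (v (σ r) / v (σ r₀)) := by
      have h6 : R.image σ = R := by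
        apply Finset.eq_of_subset_of_card_le
        · intro z hz
          obtain ⟨r, hr, rfl⟩ := Finset.mem_image.1 hz
          exact hperm σ r hr
        · rw [Finset.card_image_of_injective _ σ.injective]
      conv_lhs => rw [← h6]
      rw [Finset.prod_image (fun _ _ _ _ h => σ.injective h)]
    rw [h4, h5, ← Finset.prod_mul_distrib]
    exact Finset.prod_congr rfl fun r hr => zeta_spec s he hρ hr hr₀
  rw [h2, ← mul_assoc] at h1
  have h3 : ∏ r ∈ R, (v r / v (σ r₀)) ≠ 0 :=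
    Finset.prod_ne_zero_iff.2 fun r _ => div_ne_zero (hv0 _) (hv0 _)
  have h4 := mul_right_cancel₀ h3 h1
  exact Subtype.ext h4

end

end Pool.Agent.Helper37.UL
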