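import Pool.Agent.Helper37.UL.A2
import Pool.Agent.Helper91.Section.SE.Main3

/-!
# Inertia at a place of good reduction acts trivially on the Kummer functions (block A)
-/

universe u

namespace Pool.Agent.Helper37.UL

open Polynomial Pool.Agent.Helper91.Sect Pool.Agent.Helper91.SE

section

variable {k K : Type u} [Field k] [Field K] [Algebra k K] [CharZero k]

theorem exists_good_prime {O : ValuationSubring k} (hκ : HasPlaces (IsLocalRing.ResidueField O))
    {n : ℕ} (hn : n.Prime) (hnκ : (n : IsLocalRing.ResidueField O) ≠ 0)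
    {f : O[X]} (hlu : IsUnit f.leadingCoeff) (hsep : (f.map (IsLocalRing.residue O)).Separable)
    (hdvd : n ∣ f.natDegree) (hdeg : 3 ≤ f.natDegree)
    {x y : K} (hx : Transcendental k x)
    (hxy : y ^ n = aeval x (f.map (algebraMap O k)))
    {v : kbar k K → AlgebraicClosure K}
    (hv : ∀ r : kbar k K, v r ^ n = algebraMap K (AlgebraicClosure K) x -
      (r : AlgebraicClosure K))
    (hv0 : ∀ r : kbar k K, v r ≠ 0)
    (s : GaloisSection k K) :
    ∃ (Q : IC O (kbar k K)), Q.IsPrime ∧ Above Q ∧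
      ∀ τ : Gk k K, InI Q τ → (∀ ζ : kbar k K, ζ ^ n = 1 → τ ζ = ζ) ∧
        (∀ r : kbar k K, aeval r f = 0 → τ r = r) ∧
        ∀ ξ : AlgebraicClosure K ≃ₐ[K] AlgebraicClosure K,
          (∀ w : Kur k K, ξ w = s.toHom τ w) →
          ∀ r r' : kbar k K, aeval r f = 0 → aeval r' f = 0 →
            ξ (v r / v r') = v r / v r' := by
  classical
  have hn0 : n ≠ 0 := hn.ne_zero
  have hlc : O.valuation (f.leadingCoeff : k) = 1 := (O.valuation_eq_one_iff _).1 hlu
  -- Bezout
  obtain ⟨ab, bb, hab⟩ := hsep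
  obtain ⟨a, rfl⟩ := map_surjective _ (IsLocalRing.residue_surjective (R := O)) ab
  obtain ⟨b, rfl⟩ := map_surjective _ (IsLocalRing.residue_surjective (R := O)) bb
  have hm : ∀ n, O.valuation (((a * f + b * derivative f - 1).coeff n : O) : k) < 1 := by
    intro n
    rw [← O.valuation_lt_one_iff, ← IsLocalRing.residue_eq_zero_iff, ← coeff_map,
      Polynomial.map_sub, Polynomial.map_add, Polynomial.map_mul, Polynomial.map_mul,
      Polynomial.map_one, ← derivative_map, hab, sub_self, coeff_zero]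
  -- the finite place of the residue field
  set κ := IsLocalRing.ResidueField O with hκdef
  set fb := f.map (IsLocalRing.residue O) with hfb
  have hcne : ∀ {g : κ[X]} {z : κ}, z ∈ g.coeffs → z ≠ 0 := by
    intro g z hz
    obtain ⟨n, hn, rfl⟩ := mem_coeffs_iff.1 hz
    exact mem_support_iff.1 hn
  obtain ⟨pp, ff, hpp, hff, Ob, hOb1, hOb2, hOb3⟩ := hκ ({(n : κ)} ∪ (fb.coeffs ∪
    ((a.map (IsLocalRing.residue O)).coeffs ∪ (b.map (IsLocalRing.residue O)).coeffs))) (by
      intro z hz
      rw [Finset.mem_union, Finset.mem_singleton, Finset.mem_union, Finset.mem_union] at hz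
      rcases hz with rfl | hz | hz | hz
      · exact hnκ
      · exact hcne hz
      · exact hcne hz
      · exact hcne hz)
  set O' := compO O Ob with hO'
  have hle : O' ≤ O := compO_le O Ob
  have hcoeff : ∀ g : O[X], (∀ z ∈ (g.map (IsLocalRing.residue O)).coeffs, Ob.valuation z = 1) →
      ∃ g' : O'[X], g'.map (O'.inclusion O hle) = g := by
    intro g hg
    refine exists_lift_poly hle fun n => ⟨(g.coeff n).2, ?_⟩
    have h1 : IsLocalRing.residue O (g.coeff n) = (g.map (IsLocalRing.residue O)).coeff n :=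
      (coeff_map _ _).symm
    change IsLocalRing.residue O (g.coeff n) ∈ Ob
    rw [h1]
    by_cases h0 : (g.map (IsLocalRing.residue O)).coeff n = 0
    · rw [h0]; exact zero_mem _
    · exact (Ob.valuation_le_one_iff _).1 (hg _ (coeff_mem_coeffs h0)).le
  obtain ⟨f', hf'⟩ := hcoeff f fun z hz => hOb3 z (by
    rw [Finset.mem_union, Finset.mem_union]; exact Or.inr (Or.inl hz))
  obtain ⟨a', ha'⟩ := hcoeff a fun z hz => hOb3 z (by
    rw [Finset.mem_union, Finset.mem_union, Finset.mem_union]; exact Or.inr (Or.inr (Or.inl hz)))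
  obtain ⟨b', hb'⟩ := hcoeff b fun z hz => hOb3 z (by
    rw [Finset.mem_union, Finset.mem_union, Finset.mem_union]; exact Or.inr (Or.inr (Or.inr hz)))
  have hinj : Function.Injective (O'.inclusion O hle) := fun z z' h =>
    Subtype.ext (congrArg (fun t : O => (t : k)) h)
  have hcoe' : ∀ z : O', ((O'.inclusion O hle z : O) : k) = (z : k) := fun z => rfl
  have hm' : ∀ n, O'.valuation (((a' * f' + b' * derivative f' - 1).coeff n : O') : k) < 1 := by
    intro n
    have h1 : (a' * f' + b' * derivative f' - 1).map (O'.inclusion O hle) =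
        a * f + b * derivative f - 1 := by
      rw [Polynomial.map_sub, Polynomial.map_add, Polynomial.map_mul, Polynomial.map_mul,
        Polynomial.map_one, ← derivative_map, hf', ha', hb']
    refine val_lt_of_le hle ?_
    rw [← hcoe', ← coeff_map, h1]
    exact hm n
  have hlc' : O'.valuation (f'.leadingCoeff : k) = 1 := by
    have h1 : f.leadingCoeff = O'.inclusion O hle f'.leadingCoeff := by
      rw [← hf', leadingCoeff_map_of_injective hinj]
    have h3 : ((f'.leadingCoeff : O') : k) = (f.leadingCoeff : k) := by rw [h1, hcoe']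
    rw [h3]
    refine compO_eq_one f.leadingCoeff.2 (hOb3 _ ?_)
    have h4 : IsLocalRing.residue O f.leadingCoeff ≠ 0 := by
      rw [Ne, IsLocalRing.residue_eq_zero_iff, O.valuation_lt_one_iff, hlc]
      exact lt_irrefl _
    rw [Finset.mem_union, Finset.mem_union]
    refine Or.inr (Or.inl ?_)
    change IsLocalRing.residue O (f.coeff f.natDegree) ∈ _
    rw [← coeff_map]
    exact coeff_mem_coeffs (by rw [coeff_map]; exact h4)
  have hroot' : ∀ r : kbar k K, aeval r f' = 0 ↔ aeval r f = 0 := by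
    intro r
    rw [← hf', aeval_def, aeval_def, eval₂_map]
    rfl
  -- Frobenius
  have hppf : Fact pp.Prime := ⟨hpp⟩
  obtain ⟨Q', hQ', γ₀, hA', hγ₀D, hγ₀⟩ := exists_frob (S := k) (C := kbar k K) O' pp ff (by
      refine compO_lt (natCast_mem O pp) ?_
      have h1 : (⟨(pp : k), natCast_mem O pp⟩ : O) = (pp : O) := Subtype.ext (by simp)
      rw [h1, map_natCast]
      exact hOb1)
    (fun z hz => compO_sub_pow hOb2 hz)
  set Q := coarse hle Q' hA' with hQdef
  have hQ : Q.IsPrime := coarse_prime hle Q' hA'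
  have hA : Above Q := coarse_above hle Q' hA'
  have hγ₀D2 : InD Q γ₀ := coarse_InD hle Q' hA' hγ₀D
  obtain ⟨p, hp, hpn, hresO⟩ := exists_expChar_n hn hnκ
  have hres : ∀ n : ℕ, n ≠ 0 → n.Coprime p → (locW Q).valuation (n : kbar k K) = 1 := by
    intro n hn hnp
    have h1 := (locW_algebraMap_eq_one Q hA).2 (hresO n hn hnp)
    rwa [map_natCast] at h1
  have hVn : (locW Q').valuation (n : kbar k K) = 1 := by
    have h1 : O'.valuation (n : k) = 1 := by
      refine compO_eq_one (natCast_mem O n) ?_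
      have h3 : (⟨(n : k), natCast_mem O n⟩ : O) = (n : O) := Subtype.ext (by simp)
      rw [h3, map_natCast]
      exact hOb3 _ (Finset.mem_union_left _ (Finset.mem_singleton_self _))
    have h3 := (locW_algebraMap_eq_one Q' hA').2 h1
    rwa [map_natCast] at h3
  have hcz : CharZero (AlgebraicClosure K) :=
    charZero_of_injective_algebraMap (algebraMap k (AlgebraicClosure K)).injective
  have hneZ : NeZero ((n : ℕ) : kbar k K) := ⟨by exact_mod_cast hn0⟩
  have hneZn : NeZero n := ⟨hn0⟩
  have hf0 : f ≠ 0 := by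
    rintro rfl
    rw [natDegree_zero] at hdeg
    omega
  -- roots
  have hinjC : Function.Injective (algebraMap O (kbar k K)) := by
    intro z z' h
    exact Subtype.ext ((algebraMap k (kbar k K)).injective h)
  set R : Finset (kbar k K) := (f.aroots (kbar k K)).toFinset with hR
  have hmemR : ∀ r : kbar k K, r ∈ R ↔ aeval r f = 0 := by
    intro r
    rw [hR, Multiset.mem_toFinset, aroots_def, mem_roots ((Polynomial.map_ne_zero_iff hinjC).2 hf0),
      IsRoot.def, eval_map_algebraMap]
  have hsplits : (f.map (algebraMap O (kbar k K))).Splits := IsAlgClosed.splits _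
  have hnodup : (f.aroots (kbar k K)).Nodup := by
    rw [Multiset.nodup_iff_count_le_one]
    intro r
    by_contra hcon
    push Not at hcon
    rw [aroots_def, count_roots, one_lt_rootMultiplicity_iff_isRoot
      ((Polynomial.map_ne_zero_iff hinjC).2 hf0)] at hcon
    obtain ⟨h3, h4⟩ := hcon
    rw [IsRoot.def, eval_map_algebraMap] at h3
    rw [derivative_map, IsRoot.def, eval_map_algebraMap] at h4
    exact aeval_derivative_ne_zero Q hA hlc hm h3 h4
  have hRval : R.val = f.aroots (kbar k K) := by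
    rw [hR, Multiset.toFinset_val, hnodup.dedup]
  have hRcard : R.card = f.natDegree := by
    rw [Finset.card_def, hRval, aroots_def, ← hsplits.natDegree_eq_card_roots,
      natDegree_map_eq_of_injective hinjC]
  set X₀ := algebraMap K (AlgebraicClosure K) x with hX₀
  set Y₀ := algebraMap K (AlgebraicClosure K) y with hY₀
  set a₀ : kbar k K := algebraMap O (kbar k K) f.leadingCoeff with ha₀
  have ha₀1 : (locW Q).valuation a₀ = 1 := (locW_algebraMap_eq_one Q hA).2 hlc
  have ha₀0 : a₀ ≠ 0 := by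
    intro h0
    rw [h0, map_zero] at ha₀1
    exact zero_ne_one ha₀1
  have hone : (1 : kbar k K) ≠ 0 := one_ne_zero
  have heq : ((1 : kbar k K) : AlgebraicClosure K) * Y₀ ^ n =
      a₀ * ∏ r ∈ R, (X₀ - (r : AlgebraicClosure K)) := by
    have h1 : f.map (algebraMap O (kbar k K)) = Polynomial.C a₀ * ∏ r ∈ R, (X - Polynomial.C r) := by
      have h3 := hsplits.eq_prod_roots
      rw [leadingCoeff_map_of_injective hinjC] at h3
      rw [h3]
      congr 1
      rw [Finset.prod_eq_multiset_prod, hRval, aroots_def]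
    have h3 : eval₂ (algebraMap (kbar k K) (AlgebraicClosure K)) X₀
        (f.map (algebraMap O (kbar k K))) = a₀ * ∏ r ∈ R, (X₀ - (r : AlgebraicClosure K)) := by
      rw [h1, eval₂_mul, eval₂_C, eval₂_finsetProd]
      congr 1
      refine Finset.prod_congr rfl fun r _ => ?_
      rw [eval₂_sub, eval₂_X, eval₂_C]; rfl
    rw [← h3, eval₂_map]
    have h4 := congrArg (algebraMap K (AlgebraicClosure K)) hxy
    rw [map_pow, aeval_def, eval₂_map, hom_eval₂] at h4
    have h5 : ((1 : kbar k K) : AlgebraicClosure K) = 1 := rfl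
    rw [h5, one_mul, h4]
    congr 1
  -- the action of inertia on the roots
  have hIR : ∀ σ : Gk k K, InI Q σ → ∀ r ∈ R, σ r = r := fun σ hσ r hr =>
    inertia_fix_root Q hA hlc hm ((hmemR r).1 hr) hσ
  have hperm : ∀ σ : Gk k K, ∀ r ∈ R, σ r ∈ R := by
    intro σ r hr
    rw [hmemR] at hr ⊢
    have h1 := aeval_algHom_apply ((σ : kbar k K →ₐ[k] kbar k K).restrictScalars O) r f
    rw [hr, map_zero] at h1
    exact h1
  have hQ1 : ∀ r ∈ R, ∀ r' ∈ R, r ≠ r' → (locW Q).valuation (r - r') = 1 := fun r hr r' hr' hne =>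
    root_sep Q hA hlc hm ((hmemR r).1 hr) ((hmemR r').1 hr') hne
  have hV1 : ∀ r ∈ R, ∀ r' ∈ R, r ≠ r' → (locW Q').valuation (r - r') = 1 :=
    fun r hr r' hr' hne =>
      root_sep Q' hA' hlc' hm' ((hroot' r).2 ((hmemR r).1 hr)) ((hroot' r').2 ((hmemR r').1 hr')) hne
  -- a power of Frobenius fixing the roots and the roots of unity
  have hmemμ : ∀ ζ : kbar k K, ζ ∈ nthRootsFinset n (1 : kbar k K) ↔ ζ ^ n = 1 := fun ζ =>
    mem_nthRootsFinset hn.pos 1
  obtain ⟨N, hN0, hN⟩ := exists_pow_fix (γ := γ₀) (R := R ∪ nthRootsFinset n (1 : kbar k K)) (by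
    intro r hr
    rw [Finset.mem_union] at hr ⊢
    rcases hr with hr | hr
    · exact Or.inl (hperm γ₀ r hr)
    · right
      rw [hmemμ] at hr ⊢
      rw [← map_pow, hr, map_one])
  have hm1 : 1 < (pp ^ ff) ^ N :=
    Nat.one_lt_pow hN0.ne' (Nat.one_lt_pow hff.ne' hpp.one_lt)
  refine ⟨Q, hQ, hA, fun τ hτ => ⟨fun ζ hζ => inertia_root Q hres hτ hn0 hpn hζ,
    fun r hr => hIR τ hτ r ((hmemR r).2 hr), fun ξ hξ r r' hr hr' => ?_⟩⟩
  rw [← hmemR] at hr hr'
  obtain ⟨z, hzn, hz⟩ := exists_char hn0 Q hv hv0 s hτ hξ hIR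
  -- the product of the characters is one
  obtain ⟨α, hαn, hα⟩ := exists_alpha hn0 ha₀0 heq hv hv0
  have hτα : τ α = α := by
    refine inertia_nth Q hres hn0 hpn hτ ?_ ?_
    · have h1 : (locW Q).valuation (α ^ n) = 1 := by rw [hαn, ha₀1]
      rw [map_pow] at h1
      exact (pow_eq_one_iff_of_nonneg zero_le hn0).1 h1
    · rw [hαn]
      exact τ.commutes (f.leadingCoeff : k)
  have hprod : ∏ r ∈ R, z r = 1 := by
    have h1 := congrArg ξ hα
    have h2 : ξ Y₀ = Y₀ := ξ.commutes y
    have h3 := map_prod (algebraMap (kbar k K) (AlgebraicClosure K)) z R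
    have h4 : ((∏ r ∈ R, z r : kbar k K) : AlgebraicClosure K) =
        ∏ r ∈ R, (z r : AlgebraicClosure K) := h3
    have h5 : ξ (∏ r ∈ R, v r) = ((∏ r ∈ R, z r : kbar k K) : AlgebraicClosure K) *
        ∏ r ∈ R, v r := by
      rw [h4, map_prod, ← Finset.prod_mul_distrib]
      exact Finset.prod_congr rfl fun r hr => hz r hr
    rw [map_mul, ext_const s hξ, hτα, h5] at h1
    replace h1 := (h1.trans h2).trans hα.symm
    have hα0 : (α : AlgebraicClosure K) ≠ 0 := by
      intro h0
      have h6 : α = 0 := Subtype.ext h0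
      rw [h6, zero_pow hn0] at hαn
      exact ha₀0 hαn.symm
    have h6 := mul_left_cancel₀ hα0 h1
    have h7 : ∏ r ∈ R, v r ≠ 0 := Finset.prod_ne_zero_iff.2 fun r _ => hv0 r
    have h8 := (mul_eq_right₀ h7).1 h6
    exact Subtype.ext h8
  -- all the characters are equal
  obtain ⟨t, ht⟩ : ∃ t, R.card = t + 1 := ⟨R.card - 1, by rw [hRcard]; omega⟩
  let E := R.equivFinOfCardEq ht
  have hcore : ∀ i : Fin t, z (E.symm i.succ) = z (E.symm 0) := fun i =>
    core hn Q hp hpn hres hx ha₀0 hone heq hv hv0 s hτ hξ hzn hz hIR hQ1 hVn hV1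
      (InD.pow hγ₀D2 N) (fun r hr => hN r (Finset.mem_union_left _ hr))
      (fun ζ hζ => hN ζ (Finset.mem_union_right _ ((hmemμ ζ).2 hζ))) hm1 (frob_pow hγ₀ N)
      (fun i => (E.symm i : kbar k K)) (fun i j hij => E.symm.injective (Subtype.ext hij))
      (fun i => (E.symm i).2) (fun _ => 1) (fun _ => one_pos) (fun _ => hn.one_lt)
      (by
        rw [Finset.sum_const, Finset.card_univ, Fintype.card_fin, smul_eq_mul, mul_one, ← ht,
          hRcard]
        exact hdvd)
      (by
        simp only [pow_one]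
        rw [← hprod, ← Finset.prod_coe_sort R z]
        exact Equiv.prod_comp E.symm (fun r : R => z (r : kbar k K)))
      i
  have hall : ∀ r ∈ R, z r = z (E.symm 0) := by
    intro r hr
    have h1 : r = E.symm (E ⟨r, hr⟩) := by rw [Equiv.symm_apply_apply]
    rw [h1]
    rcases Fin.eq_zero_or_eq_succ (E ⟨r, hr⟩) with h2 | ⟨i, h2⟩
    · rw [h2]
    · rw [h2]
      exact hcore i
  rw [map_div₀, hz r hr, hz r' hr', hall r hr, hall r' hr', mul_div_mul_left]
  intro h0
  have h1 := hzn _ (E.symm 0).2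
  rw [show z (E.symm 0) = 0 from Subtype.ext h0, zero_pow hn0] at h1
  exact zero_ne_one h1

end

end Pool.Agent.Helper37.UL
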