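import Pool.Agent.Helper37.UL.A4

/-!
# The level one structure over the algebraic closure of `k` in `K` (block A)
-/

universe u

namespace Pool.Agent.Helper37.UL

open Polynomial Pool.Agent.Helper91.Sect Pool.Agent.Helper91.SE

section

variable {k K : Type u} [Field k] [Field K] [Algebra k K] [CharZero k]

theorem exists_kbar {p d : ℕ} (hp : p.Prime) (hdvd : p ∣ d) (hd : 3 ≤ d) {f : k[X]}
    (hf : f.Separable) (hfd : f.natDegree = d) {x y : K} (hx : Transcendental k x)
    (hxy : y ^ p = aeval x f) (s : GaloisSection k K) :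
    ∃ (θ : Fin d → kbar k K) (z : Fin d → Fin d → kbar k K) (α : kbar k K),
      Function.Injective θ ∧ (∀ i, aeval (θ i) f = 0) ∧ (∀ i j, z i j ≠ 0) ∧
      α ^ p = algebraMap k (kbar k K) f.leadingCoeff ∧
      (∀ σ : Gk k K, ∃ (ρ : Fin d → Fin d) (ζ : Fin d → Fin d → kbar k K),
        (∀ i, σ (θ i) = θ (ρ i)) ∧ (∀ i j, ζ i j ^ p = 1) ∧
        (∀ i j, σ (z i j) = ζ i j * z (ρ i) (ρ j)) ∧
        (∀ i j l, ζ i j * ζ j l = ζ i l) ∧
        ∀ i, σ α * ∏ j ∈ Finset.univ.erase i, ζ j i = α) ∧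
      ∀ (V : ValuationSubring (kbar k K)) (O : ValuationSubring k),
        (∀ c : k, c ∈ O ↔ algebraMap k (kbar k K) c ∈ V) →
        HasPlaces (IsLocalRing.ResidueField O) → ((p : ℕ) : IsLocalRing.ResidueField O) ≠ 0 →
        (∀ i, f.coeff i ∈ O) → O.valuation f.leadingCoeff = 1 → (∀ i, θ i ∈ V) →
        (∀ i j, i ≠ j → V.valuation (θ i - θ j) = 1) →
        ∀ σ : Gk k K, (∀ x, σ x ∈ V ↔ x ∈ V) → (∀ x ∈ V, V.valuation (σ x - x) < 1) →
          ∀ i j, σ (z i j) = z i j := by
  classical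
  have hp0 : p ≠ 0 := hp.ne_zero
  have hf0 : f ≠ 0 := hf.ne_zero
  have hinjk : Function.Injective (algebraMap k (kbar k K)) := (algebraMap k (kbar k K)).injective
  set R : Finset (kbar k K) := (f.aroots (kbar k K)).toFinset with hR
  have hmemR : ∀ r : kbar k K, r ∈ R ↔ aeval r f = 0 := by
    intro r
    rw [hR, Multiset.mem_toFinset, aroots_def, mem_roots ((Polynomial.map_ne_zero_iff hinjk).2 hf0),
      IsRoot.def, eval_map_algebraMap]
  have hsplits : (f.map (algebraMap k (kbar k K))).Splits := IsAlgClosed.splits _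
  have hnodup : (f.aroots (kbar k K)).Nodup := nodup_roots hf.map
  have hRval : R.val = f.aroots (kbar k K) := by
    rw [hR, Multiset.toFinset_val, hnodup.dedup]
  have hRcard : R.card = d := by
    rw [Finset.card_def, hRval, aroots_def, ← hsplits.natDegree_eq_card_roots,
      natDegree_map_eq_of_injective hinjk, hfd]
  set X₀ := algebraMap K (AlgebraicClosure K) x with hX₀
  set Y₀ := algebraMap K (AlgebraicClosure K) y with hY₀
  set a₀ : kbar k K := algebraMap k (kbar k K) f.leadingCoeff with ha₀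
  have ha₀0 : a₀ ≠ 0 := by
    rw [ha₀, Ne, map_eq_zero, leadingCoeff_eq_zero]
    exact hf0
  have hfac : f.map (algebraMap k (kbar k K)) =
      Polynomial.C a₀ * ∏ r ∈ R, (X - Polynomial.C r) := by
    have h3 := hsplits.eq_prod_roots
    rw [leadingCoeff_map_of_injective hinjk] at h3
    rw [h3]
    congr 1
    rw [Finset.prod_eq_multiset_prod, hRval, aroots_def]
  have heq : ((1 : kbar k K) : AlgebraicClosure K) * Y₀ ^ p =
      a₀ * ∏ r ∈ R, (X₀ - (r : AlgebraicClosure K)) := by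
    have h3 : eval₂ (algebraMap (kbar k K) (AlgebraicClosure K)) X₀
        (f.map (algebraMap k (kbar k K))) = a₀ * ∏ r ∈ R, (X₀ - (r : AlgebraicClosure K)) := by
      rw [hfac, eval₂_mul, eval₂_C, eval₂_finsetProd]
      congr 1
      refine Finset.prod_congr rfl fun r _ => ?_
      rw [eval₂_sub, eval₂_X, eval₂_C]; rfl
    rw [← h3, eval₂_map]
    have h4 := congrArg (algebraMap K (AlgebraicClosure K)) hxy
    rw [map_pow, aeval_def, hom_eval₂] at h4
    have h5 : ((1 : kbar k K) : AlgebraicClosure K) = 1 := rfl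
    rw [h5, one_mul, h4]
    congr 1
  have hperm : ∀ σ : Gk k K, ∀ r ∈ R, σ r ∈ R := by
    intro σ r hr
    rw [hmemR] at hr ⊢
    have h1 := aeval_algHom_apply (σ : kbar k K →ₐ[k] kbar k K) r f
    rw [hr, map_zero] at h1
    exact h1
  have hsqrt : ∀ r : kbar k K, ∃ v : AlgebraicClosure K, v ^ p = X₀ - (r : AlgebraicClosure K) :=
    fun r => IsAlgClosed.exists_pow_nat_eq _ hp.pos
  choose v hv using hsqrt
  have hX₀tr : Transcendental k X₀ := by
    intro h
    exact hx ((isAlgebraic_algebraMap_iff (algebraMap K (AlgebraicClosure K)).injective).1 h)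
  have hv0 : ∀ r : kbar k K, v r ≠ 0 := by
    intro r h0
    apply hX₀tr
    have h1 := hv r
    rw [h0, zero_pow hp0, eq_comm, sub_eq_zero] at h1
    rw [h1]
    exact (mem_algebraicClosure_iff).1 r.2
  obtain ⟨e, he⟩ := exists_e hp0 ha₀0 heq hv hv0 s hperm
  obtain ⟨α, hαp, hα⟩ := exists_alpha hp0 ha₀0 heq hv hv0
  obtain ⟨m, hm⟩ := hdvd
  have hRm : R.card = p * m := hRcard.trans hm
  let E := R.equivFinOfCardEq hRcard
  obtain ⟨θ, hθ⟩ : ∃ θ : Fin d → kbar k K, ∀ i, θ i = E.symm i := ⟨_, fun _ => rfl⟩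
  have hθR : ∀ i, θ i ∈ R := fun i => by rw [hθ]; exact (E.symm i).2
  have hθinj : Function.Injective θ := by
    intro i j hij
    rw [hθ, hθ] at hij
    exact E.symm.injective (Subtype.ext hij)
  have hprod : ∀ g : kbar k K → kbar k K, ∏ i, g (θ i) = ∏ r ∈ R, g r := by
    intro g
    rw [← Finset.prod_coe_sort R g]
    simp only [hθ]
    exact Equiv.prod_comp E.symm (fun r : R => g (r : kbar k K))
  have hsurj : ∀ r ∈ R, ∃ i, θ i = r := by
    intro r hr
    exact ⟨E ⟨r, hr⟩, by rw [hθ, Equiv.symm_apply_apply]⟩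
  refine ⟨θ, fun i j => (e (θ i, θ j))⁻¹, α, hθinj, fun i => (hmemR _).1 (hθR i),
    fun i j => inv_ne_zero (he _ (hθR i) _ (hθR j)).1, hαp, ?_, ?_⟩
  · intro σ
    have hρ : ∀ i, ∃ j, θ j = σ (θ i) := fun i => hsurj _ (hperm σ _ (hθR i))
    choose ρ hρ using hρ
    refine ⟨ρ, fun i j => e (σ (θ i), σ (θ j)) / σ (e (θ i, θ j)), fun i => (hρ i).symm,
      fun i j => zeta_pow hv hv0 s he σ (hθR i) (hθR j), ?_,
      fun i j l => zeta_coc hv0 s he σ (hθR i) (hθR j) (hθR l), ?_⟩
    · intro i j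
      change σ (e (θ i, θ j))⁻¹ =
        e (σ (θ i), σ (θ j)) / σ (e (θ i, θ j)) * (e (θ (ρ i), θ (ρ j)))⁻¹
      rw [map_inv₀, hρ, hρ]
      have h1 := (he _ (hperm σ _ (hθR i)) _ (hperm σ _ (hθR j))).1
      field_simp
    · intro i
      have h1 := zeta_nrm hv hv0 s hperm he hRm hα σ (hθR i)
      rw [← hprod (fun r => e (σ r, σ (θ i)) / σ (e (r, θ i)))] at h1
      rw [Finset.prod_erase (f := fun j => e (σ (θ j), σ (θ i)) / σ (e (θ j, θ i)))]
      · exact h1
      · exact zeta_self hv0 s he σ (hθR i)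
  · intro V O hO hκ hpκ hcoef hlead hθV hsep σ hσ1 hσ2
    -- the lift of `f`
    obtain ⟨fO, hfO⟩ : ∃ fO : O[X], fO.map (algebraMap O k) = f := by
      rw [← mem_lifts, lifts_iff_coeff_lifts]
      intro n
      exact ⟨⟨f.coeff n, hcoef n⟩, rfl⟩
    have hinjO : Function.Injective (algebraMap O k) := Subtype.val_injective
    have hlcO : ((fO.leadingCoeff : O) : k) = f.leadingCoeff := by
      rw [← hfO, leadingCoeff_map_of_injective hinjO]; rfl
    have hdegO : fO.natDegree = d := by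
      rw [← hfd, ← hfO, natDegree_map_eq_of_injective hinjO]
    have haev : ∀ r : kbar k K, aeval r fO = aeval r f := by
      intro r
      rw [← hfO, aeval_map_algebraMap]
    have hsepO : (fO.map (IsLocalRing.residue O)).Separable := by
      refine separable_of_good hθV hsep (a := fO.leadingCoeff) (by rw [hlcO]; exact hlead) ?_ hO
      refine Eq.trans (b := f.map (algebraMap k (kbar k K))) ?_ ?_
      · rw [← hfO, Polynomial.map_map]; rfl
      rw [hfac]
      congr 1
      · congr 1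
        rw [ha₀, ← hlcO]; rfl
      · rw [← Finset.prod_coe_sort R]
        simp only [hθ]
        exact (Equiv.prod_comp E.symm (fun r : R => X - Polynomial.C (r : kbar k K))).symm
    obtain ⟨Q, hQ, hA, hI⟩ := exists_good_prime hκ hp hpκ
      ((O.valuation_eq_one_iff _).2 (by rw [hlcO]; exact hlead)) hsepO
      (by rw [hdegO]; exact ⟨m, hm⟩) (by rw [hdegO]; exact hd) hx (by rw [hfO]; exact hxy)
      hv hv0 s
    obtain ⟨g, hg⟩ := exists_conj_inertia hO hA hσ1 hσ2
    obtain ⟨hζ, hfix, hξ⟩ := hI _ hg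
    set τ := g * σ * g⁻¹ with hτ
    obtain ⟨ξ, hξs⟩ := exists_ext s τ
    -- `τ` fixes the constants
    have hτe : ∀ r ∈ R, ∀ r' ∈ R, τ (e (r, r')) = e (r, r') := by
      intro r hr r' hr'
      have h1 := (he r hr r' hr').2 τ ξ hξs
      have h2 := (hmemR r).1 hr
      have h3 := (hmemR r').1 hr'
      rw [← haev] at h2 h3
      rw [map_mul, ext_const s hξs, hξ ξ hξs r r' h2 h3, hfix r h2, hfix r' h3] at h1
      exact Subtype.ext (mul_right_cancel₀ (div_ne_zero (hv0 _) (hv0 _)) h1)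
    intro i j
    have h1 : g (σ (e (θ i, θ j))) = g (e (θ i, θ j)) := by
      have h2 : τ (g (e (θ i, θ j))) = g (σ (e (θ i, θ j))) := by
        rw [hτ]
        change g (σ ((g⁻¹ * g) (e (θ i, θ j)))) = _
        rw [inv_mul_cancel]; rfl
      rw [← h2]
      have h3 := zeta_pow hv hv0 s he g (hθR i) (hθR j)
      have h4 := hζ _ h3
      have h5 := hτe _ (hperm g _ (hθR i)) _ (hperm g _ (hθR j))
      have h6 : e (g (θ i), g (θ j)) ≠ 0 := (he _ (hperm g _ (hθR i)) _ (hperm g _ (hθR j))).1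
      have h7 : g (e (θ i, θ j)) ≠ 0 := by
        intro h0
        exact (he _ (hθR i) _ (hθR j)).1 ((map_eq_zero g).1 h0)
      have h8 : τ (g (e (θ i, θ j))) ≠ 0 := fun h0 => h7 ((map_eq_zero τ).1 h0)
      rw [map_div₀, h5, div_eq_div_iff h8 h7] at h4
      exact (mul_left_cancel₀ h6 h4).symm
    have h2 := g.injective h1
    change σ (e (θ i, θ j))⁻¹ = (e (θ i, θ j))⁻¹
    rw [map_inv₀, h2]

end

end Pool.Agent.Helper37.UL
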