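import Mathlib

/-!
# Double transitivity of the group of `X ^ d - X ^ (d - 1) - s`
-/

universe u

namespace Pool.Agent.Helper37.UL

open Polynomial

/-- An isomorphism of algebraically closed fields over a common subfield. -/
theorem exists_equiv_of_ringHom {L κ κ' : Type u} [Field L] [Field κ] [Field κ'] [IsAlgClosed κ]
    [IsAlgClosed κ'] (i : L →+* κ) (i' : L →+* κ')
    (hi : ∀ x : κ, ∃ p : L[X], p ≠ 0 ∧ eval₂ i x p = 0)
    (hi' : ∀ x : κ', ∃ p : L[X], p ≠ 0 ∧ eval₂ i' x p = 0) :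
    ∃ φ : κ ≃+* κ', ∀ l, φ (i l) = i' l := by
  let _ := i.toAlgebra
  let _ := i'.toAlgebra
  have h1 : IsAlgClosure L κ := ⟨inferInstance, ⟨fun x => hi x⟩⟩
  have h2 : IsAlgClosure L κ' := ⟨inferInstance, ⟨fun x => hi' x⟩⟩
  exact ⟨(IsAlgClosure.equiv L κ κ').toRingEquiv, fun l => (IsAlgClosure.equiv L κ κ').commutes l⟩

theorem exists_poly_of_range {K L κ : Type u} [Field K] [Field L] [Field κ] [Algebra K κ]
    (i : L →+* κ) (S : IntermediateField K κ) (hS : ∀ y ∈ S, y ∈ i.range) {x : κ}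
    (hx : IsAlgebraic S x) : ∃ p : L[X], p ≠ 0 ∧ eval₂ i x p = 0 := by
  obtain ⟨p, hp0, hp⟩ := hx
  have hinj : Function.Injective i := i.injective
  let e : L ≃+* i.range := RingEquiv.ofBijective i.rangeRestrict
    ⟨fun a b h => hinj (congrArg Subtype.val h), i.rangeRestrict_surjective⟩
  have he : ∀ l, ((e l : i.range) : κ) = i l := fun l => rfl
  let j : S →+* L := (e.symm : i.range →+* L).comp
    ((S.val : S →+* κ).codRestrict i.range (fun y => hS y y.2))
  have hj : i.comp j = algebraMap S κ := by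
    ext y
    change i (e.symm ⟨y, hS y y.2⟩) = y
    rw [← he, e.apply_symm_apply]
  refine ⟨p.map j, ?_, ?_⟩
  · rwa [Ne, Polynomial.map_eq_zero_iff j.injective]
  · rw [eval₂_map, hj]; exact hp

section gg

variable (K : Type u) [Field K]

/-- `(X ^ (n + 1) - X ^ n - T ^ (n + 1) + T ^ n) / (X - T)` -/
noncomputable def gg (n : ℕ) : K[X][X] :=
  (∑ i ∈ Finset.range (n + 1), X ^ i * (C X) ^ (n - i)) -
    ∑ i ∈ Finset.range n, X ^ i * (C X) ^ (n - 1 - i)

theorem mul_gg (n : ℕ) : (X - C X) * gg K n = X ^ (n + 1) - X ^ n - C (X ^ (n + 1) - X ^ n) := by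
  have h1 := (Commute.all (X : K[X][X]) (C X)).mul_geom_sum₂ (n + 1)
  have h2 := (Commute.all (X : K[X][X]) (C X)).mul_geom_sum₂ n
  rw [Nat.add_sub_cancel] at h1
  rw [gg, mul_sub, h1, h2, C_sub, C_pow, C_pow]
  ring

theorem coeff_gg (n i : ℕ) : (gg K n).coeff i =
    (if i < n + 1 then X ^ (n - i) else 0) - (if i < n then X ^ (n - 1 - i) else 0) := by
  have h1 : ∀ m e : ℕ, ((X : K[X][X]) ^ m * (C X) ^ e).coeff i = if i = m then X ^ e else 0 := by
    intro m e
    rw [← C_pow, mul_comm, coeff_C_mul_X_pow]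
  rw [gg, coeff_sub, finsetSum_coeff, finsetSum_coeff]
  simp only [h1]
  congr 1
  · rw [Finset.sum_ite_eq]
    simp only [Finset.mem_range]
  · rw [Finset.sum_ite_eq]
    simp only [Finset.mem_range]

theorem coeff_gg_lt {n i : ℕ} (h : i < n) : (gg K n).coeff i = X ^ (n - 1 - i) * (X - 1) := by
  rw [coeff_gg, if_pos (by omega), if_pos h]
  have : n - i = (n - 1 - i) + 1 := by omega
  rw [this]; ring

theorem coeff_gg_self (n : ℕ) : (gg K n).coeff n = 1 := by
  rw [coeff_gg, if_pos (by omega), if_neg (by omega), Nat.sub_self, pow_zero, sub_zero]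

theorem monic_gg (n : ℕ) : (gg K n).Monic := by
  refine monic_of_natDegree_le_of_coeff_eq_one n ?_ (coeff_gg_self K n)
  rw [natDegree_le_iff_coeff_eq_zero]
  intro N hN
  rw [coeff_gg, if_neg (by omega), if_neg (by omega), sub_zero]

theorem natDegree_gg (n : ℕ) : (gg K n).natDegree = n := by
  apply le_antisymm
  · rw [natDegree_le_iff_coeff_eq_zero]
    intro N hN
    rw [coeff_gg, if_neg (by omega), if_neg (by omega), sub_zero]
  · apply le_natDegree_of_ne_zero
    rw [coeff_gg_self]; exact one_ne_zero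

theorem irreducible_gg {n : ℕ} (hn : 1 ≤ n) : Irreducible (gg K n) := by
  have hp : Prime (X - 1 : K[X]) := by
    rw [← C_1]; exact prime_X_sub_C 1
  have hP : (Ideal.span {(X - 1 : K[X])}).IsPrime :=
    (Ideal.span_singleton_prime hp.ne_zero).2 hp
  have hdeg : (gg K n).degree = n := by
    rw [degree_eq_natDegree (monic_gg K n).ne_zero, natDegree_gg]
  refine irreducible_of_eisenstein_criterion hP ?_ ?_ ?_ ?_ (monic_gg K n).isPrimitive
  · rw [(monic_gg K n).leadingCoeff]
    exact (Ideal.ne_top_iff_one _).1 hP.ne_top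
  · intro m hm
    rw [hdeg] at hm
    have hm' : m < n := by exact_mod_cast hm
    rw [coeff_gg_lt K hm']
    exact Ideal.mul_mem_left _ _ (Ideal.mem_span_singleton_self _)
  · rw [hdeg]
    exact_mod_cast hn
  · rw [coeff_gg_lt K (by omega : 0 < n), Ideal.span_singleton_pow, Ideal.mem_span_singleton]
    intro hd
    rw [pow_two] at hd
    have h1 := (mul_dvd_mul_iff_right hp.ne_zero).1 hd
    obtain ⟨c, hc⟩ := h1
    have h2 := congrArg (eval 1) hc
    simp at h2

end gg

section T2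

variable {K κ : Type u} [Field K] [Field κ] [Algebra K κ]

theorem transcendental_of_pow {s x : κ} (hs : Transcendental K s) {d : ℕ}
    (hx : x ^ d - x ^ (d - 1) = s) : Transcendental K x := by
  intro h
  apply hs
  rw [← hx]
  exact (h.pow d).sub (h.pow (d - 1))

/-- The embedding of `K(T)[X] / g`. -/
theorem exists_emb {s : κ} (hs : Transcendental K s) {n : ℕ} (hn : 1 ≤ n)
    [Fact (Irreducible ((gg K n).map (algebraMap K[X] (FractionRing K[X]))))]
    {x y : κ} (hx : x ^ (n + 1) - x ^ n = s) (hy : y ^ (n + 1) - y ^ n = s) (hxy : x ≠ y) :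
    ∃ i : AdjoinRoot ((gg K n).map (algebraMap K[X] (FractionRing K[X]))) →+* κ,
      (∀ p : K[X], i (AdjoinRoot.of _ (algebraMap K[X] (FractionRing K[X]) p)) = aeval x p) ∧
      i (AdjoinRoot.root _) = y := by
  have hxt : Transcendental K x := transcendental_of_pow (d := n + 1) hs (by simpa using hx)
  have hinj : Function.Injective ((aeval x : K[X] →ₐ[K] κ) : K[X] →+* κ) :=
    transcendental_iff_injective.1 hxt
  let e : FractionRing K[X] →+* κ := IsFractionRing.lift hinj
  have he : ∀ p, e (algebraMap K[X] (FractionRing K[X]) p) = aeval x p := fun p =>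
    IsFractionRing.lift_algebraMap hinj p
  have hcomp : e.comp (algebraMap K[X] (FractionRing K[X])) = ((aeval x : K[X] →ₐ[K] κ) : K[X] →+* κ) := by
    ext p <;> simp [he]
  have hroot : eval₂ e y ((gg K n).map (algebraMap K[X] (FractionRing K[X]))) = 0 := by
    rw [eval₂_map, hcomp]
    have h1 := congrArg (eval₂ ((aeval x : K[X] →ₐ[K] κ) : K[X] →+* κ) y) (mul_gg K n)
    rw [eval₂_mul, eval₂_sub, eval₂_sub, eval₂_sub, eval₂_X, eval₂_C, eval₂_X_pow, eval₂_X_pow,
      eval₂_C] at h1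
    have h2 : ((aeval x : K[X] →ₐ[K] κ) : K[X] →+* κ) X = x := aeval_X x
    have h3 : ((aeval x : K[X] →ₐ[K] κ) : K[X] →+* κ) (X ^ (n + 1) - X ^ n) = s := by
      rw [map_sub, map_pow, map_pow, h2, hx]
    rw [h2, h3, hy, sub_self] at h1
    exact (mul_eq_zero.1 h1).resolve_left (sub_ne_zero.2 hxy.symm)
  refine ⟨AdjoinRoot.lift e y hroot, fun p => ?_, ?_⟩
  · rw [AdjoinRoot.lift_of, he]
  · rw [AdjoinRoot.lift_root]

/-- **Double transitivity.** -/
theorem double_trans [IsAlgClosed κ] {s : κ} (hs : Transcendental K s)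
    (halg : ∀ x : κ, IsAlgebraic (IntermediateField.adjoin K {s}) x) {d : ℕ} (hd : 2 ≤ d)
    {x y x' y' : κ} (hx : x ^ d - x ^ (d - 1) = s) (hy : y ^ d - y ^ (d - 1) = s)
    (hx' : x' ^ d - x' ^ (d - 1) = s) (hy' : y' ^ d - y' ^ (d - 1) = s)
    (hxy : x ≠ y) (hxy' : x' ≠ y') :
    ∃ φ : κ ≃+* κ, (∀ c : K, φ (algebraMap K κ c) = algebraMap K κ c) ∧ φ x = x' ∧ φ y = y' ∧
      ∀ p : K[X], φ (aeval s p) = aeval s p := by
  obtain ⟨n, rfl⟩ : ∃ n, d = n + 1 := ⟨d - 1, by omega⟩
  rw [Nat.add_sub_cancel] at hx hy hx' hy'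
  have hn : 1 ≤ n := by omega
  have hirr : Irreducible ((gg K n).map (algebraMap K[X] (FractionRing K[X]))) :=
    ((monic_gg K n).irreducible_iff_irreducible_map_fraction_map).1 (irreducible_gg K hn)
  haveI : Fact (Irreducible ((gg K n).map (algebraMap K[X] (FractionRing K[X])))) := ⟨hirr⟩
  obtain ⟨i, hi, hiy⟩ := exists_emb hs hn hx hy hxy
  obtain ⟨i', hi', hiy'⟩ := exists_emb hs hn hx' hy' hxy'
  have hc : ∀ c : K, i (AdjoinRoot.of _ (algebraMap K[X] (FractionRing K[X]) (C c))) =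
      algebraMap K κ c := fun c => by rw [hi, aeval_C]
  have hc' : ∀ c : K, i' (AdjoinRoot.of _ (algebraMap K[X] (FractionRing K[X]) (C c))) =
      algebraMap K κ c := fun c => by rw [hi', aeval_C]
  have key : ∀ (j : AdjoinRoot ((gg K n).map (algebraMap K[X] (FractionRing K[X]))) →+* κ) (x : κ),
      x ^ (n + 1) - x ^ n = s →
      (∀ p : K[X], j (AdjoinRoot.of _ (algebraMap K[X] (FractionRing K[X]) p)) = aeval x p) →
      ∀ z ∈ IntermediateField.adjoin K {s}, z ∈ j.range := by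
    intro j x hx hj z hz
    let F : IntermediateField K κ :=
      { j.fieldRange with
        algebraMap_mem' := fun c => ⟨_, by
          change j (AdjoinRoot.of _ (algebraMap K[X] (FractionRing K[X]) (C c))) = _
          rw [hj, aeval_C]⟩ }
    have h1 : IntermediateField.adjoin K {s} ≤ F := by
      rw [IntermediateField.adjoin_le_iff]
      rintro _ rfl
      refine ⟨AdjoinRoot.of _ (algebraMap K[X] (FractionRing K[X]) (X ^ (n + 1) - X ^ n)), ?_⟩
      rw [hj]; simp [hx]
    exact h1 hz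
  obtain ⟨φ, hφ⟩ := exists_equiv_of_ringHom i i'
    (fun z => exists_poly_of_range i _ (key i x hx hi) (halg z))
    (fun z => exists_poly_of_range i' _ (key i' x' hx' hi') (halg z))
  have hφc : ∀ c : K, φ (algebraMap K κ c) = algebraMap K κ c := fun c => by
    rw [← hc, hφ, hc', hc]
  have hφx : φ x = x' := by
    have h1 : x = i (AdjoinRoot.of _ (algebraMap K[X] (FractionRing K[X]) X)) := by
      rw [hi, aeval_X]
    rw [h1, hφ, hi', aeval_X]
  have hφs : φ s = s := by
    rw [← hx, map_sub, map_pow, map_pow, hφx, hx', hx]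
  refine ⟨φ, hφc, hφx, ?_, fun p => ?_⟩
  · rw [← hiy, hφ, hiy']
  · have h1 := hom_eval₂ p (algebraMap K κ) (φ : κ →+* κ) s
    have h2 : (φ : κ →+* κ).comp (algebraMap K κ) = algebraMap K κ := RingHom.ext hφc
    rw [h2] at h1
    change φ _ = eval₂ _ (φ s) _ at h1
    rw [hφs] at h1
    exact h1

end T2

end Pool.Agent.Helper37.UL
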