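import Pool.Agent.Helper37.UL.E0
import Pool.Agent.Helper91.Section.Resid
import Pool.Agent.Helper91.Section.SE.Iner

/-!
# Reduction to `X ^ d - X ^ (d - 1) - s`: double transitivity of the decomposition group
-/

universe u

namespace Pool.Agent.Helper37.UL

open Polynomial IsLocalRing Pool.Agent.Helper91.Sect

/-- the roots of a polynomial with given different roots -/
theorem root_mem {F : Type u} [Field F] {d : ℕ} {a : Fin (d + 1) → F} (ha : a (Fin.last d) ≠ 0)
    {θ : Fin d → F} (hθ : Function.Injective θ) (hroot : ∀ i, ∑ l, a l * θ i ^ (l : ℕ) = 0)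
    {x : F} (hx : ∑ l, a l * x ^ (l : ℕ) = 0) : ∃ m, x = θ m := by
  classical
  by_contra hcon
  push Not at hcon
  let P : F[X] := ∑ l : Fin (d + 1), C (a l) * X ^ (l : ℕ)
  have hev : ∀ y, P.eval y = ∑ l, a l * y ^ (l : ℕ) := by
    intro y
    rw [eval_finsetSum]
    simp
  have hcoef : P.coeff d = a (Fin.last d) := by
    rw [finsetSum_coeff, Finset.sum_eq_single (Fin.last d)]
    · simp
    · intro l _ hl
      rw [coeff_C_mul_X_pow, if_neg]
      intro h
      exact hl (Fin.ext (by simpa using h.symm))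
    · intro h; exact absurd (Finset.mem_univ _) h
  have hdeg : P.natDegree ≤ d := by
    refine natDegree_sum_le_of_forall_le _ _ fun l _ => ?_
    exact (natDegree_C_mul_X_pow_le _ _).trans (Nat.lt_succ_iff.1 l.2)
  have h0 : P = 0 := by
    refine Polynomial.eq_zero_of_natDegree_lt_card_of_eval_eq_zero P
      (f := fun o : Option (Fin d) => o.elim x θ) ?_ ?_ ?_
    · rintro (_ | i) (_ | j) h
      · rfl
      · exact absurd h (hcon j)
      · exact absurd h.symm (hcon i)
      · exact congrArg some (hθ h)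
    · rintro (_ | i)
      · exact (hev x).trans hx
      · exact (hev _).trans (hroot i)
    · rw [Fintype.card_option, Fintype.card_fin]; omega
  apply ha
  rw [← hcoef, h0, coeff_zero]

/-- evaluation at `s` -/
noncomputable def ev {Λ k : Type u} [Field Λ] [Field k] [Algebra Λ k] (OΛ : ValuationSubring Λ)
    (s : k) : OΛ[X] →+* k :=
  eval₂RingHom ((algebraMap Λ k).comp OΛ.subtype) s

/-- `O` is like the Gauss extension of `OΛ` to `Λ(s)`: the residue field is `κ(OΛ)(s)` -/
structure Core {Λ k : Type u} [Field Λ] [Field k] [Algebra Λ k] (OΛ : ValuationSubring Λ)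
    (O : ValuationSubring k) (s : k) : Prop where
  le : ∀ c ∈ OΛ, algebraMap Λ k c ∈ O
  lt : ∀ c, OΛ.valuation c < 1 → O.valuation (algebraMap Λ k c) < 1
  mem : s ∈ O
  gauss : ∀ g : OΛ[X], g.map (residue OΛ) ≠ 0 → O.valuation (ev OΛ s g) = 1
  rat : ∀ z ∈ O, ∃ f g : OΛ[X], g.map (residue OΛ) ≠ 0 ∧
    O.valuation (z * ev OΛ s g - ev OΛ s f) < 1

/-- the expected coefficients -/
def tgt {k : Type u} [Field k] (d : ℕ) (s : k) (l : ℕ) : k :=
  if l = d then 1 else if l = d - 1 then -1 else if l = 0 then -s else 0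

section

variable {Λ k C : Type u} [Field Λ] [Field k] [Field C] [Algebra Λ k] [Algebra k C]
  {OΛ : ValuationSubring Λ} {O : ValuationSubring k} {s : k}

/-- the map of valuation rings -/
def Core.j (h : Core OΛ O s) : OΛ →+* O :=
  ((algebraMap Λ k).comp OΛ.subtype).codRestrict O.toSubring fun c => h.le _ c.2

/-- evaluation with values in `O` -/
noncomputable def Core.evO (h : Core OΛ O s) : OΛ[X] →+* O := eval₂RingHom h.j ⟨s, h.mem⟩

theorem Core.coe_evO (h : Core OΛ O s) (g : OΛ[X]) : ((h.evO g : O) : k) = ev OΛ s g := by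
  have : O.subtype.comp h.evO = ev OΛ s := by
    apply Polynomial.ringHom_ext
    · intro c
      change ((eval₂ h.j ⟨s, h.mem⟩ (Polynomial.C c) : O) : k) = eval₂ _ s (Polynomial.C c)
      rw [eval₂_C, eval₂_C]; rfl
    · change ((eval₂ h.j ⟨s, h.mem⟩ X : O) : k) = eval₂ _ s X
      rw [eval₂_X, eval₂_X]
  exact congrArg (fun f : OΛ[X] →+* k => f g) this

variable (Q : Ideal (integralClosure O C)) [hQ : Q.IsPrime]

/-- the residue map -/
def rho : O →+* (integralClosure O C ⧸ Q) :=
  (Ideal.Quotient.mk Q).comp (algebraMap O (integralClosure O C))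

omit hQ in
theorem rho_eq_zero (hA : Above Q) (c : O) : rho Q c = 0 ↔ O.valuation (c : k) < 1 := by
  rw [← hA c, ← Ideal.Quotient.eq_zero_iff_mem]; rfl

omit hQ in
theorem rho_eq (hA : Above Q) (c c' : O) : rho Q c = rho Q c' ↔ O.valuation ((c : k) - c') < 1 := by
  rw [← sub_eq_zero, ← map_sub, rho_eq_zero Q hA]; rfl

/-- the residue field of `OΛ` maps to the quotient -/
noncomputable def Core.resL (h : Core OΛ O s) (hA : Above Q) :
    ResidueField OΛ →+* (integralClosure O C ⧸ Q) :=
  Ideal.Quotient.lift (maximalIdeal OΛ) ((rho Q).comp h.j) fun c hc => by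
    rw [RingHom.comp_apply, rho_eq_zero Q hA]
    exact h.lt _ ((OΛ.valuation_lt_one_iff c).1 hc)

omit hQ in
theorem Core.resL_residue (h : Core OΛ O s) (hA : Above Q) (c : OΛ) :
    h.resL Q hA (residue OΛ c) = rho Q (h.j c) := rfl

omit hQ in
theorem Core.rho_evO (h : Core OΛ O s) (hA : Above Q) (g : OΛ[X]) :
    rho Q (h.evO g) = eval₂ (h.resL Q hA) (rho Q ⟨s, h.mem⟩) (g.map (residue OΛ)) := by
  have : (rho Q).comp h.evO =
      (eval₂RingHom (h.resL Q hA) (rho Q ⟨s, h.mem⟩)).comp (mapRingHom (residue OΛ)) := by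
    apply Polynomial.ringHom_ext
    · intro c
      change rho Q (eval₂ h.j ⟨s, h.mem⟩ (Polynomial.C c)) = eval₂ _ _ ((Polynomial.C c : OΛ[X]).map (residue OΛ))
      rw [eval₂_C, map_C, eval₂_C]; rfl
    · change rho Q (eval₂ h.j ⟨s, h.mem⟩ X) = eval₂ _ _ ((X : OΛ[X]).map (residue OΛ))
      rw [eval₂_X, map_X, eval₂_X]
  exact congrArg (fun f : OΛ[X] →+* _ => f g) this

omit hQ in
theorem Core.rho_evO_ne (h : Core OΛ O s) (hA : Above Q) {g : OΛ[X]}
    (hg : g.map (residue OΛ) ≠ 0) : rho Q (h.evO g) ≠ 0 := by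
  rw [Ne, rho_eq_zero Q hA, h.coe_evO, h.gauss g hg]
  exact lt_irrefl _

omit hQ in
theorem Core.rho_rat (h : Core OΛ O s) (hA : Above Q) (z : O) :
    ∃ f g : OΛ[X], g.map (residue OΛ) ≠ 0 ∧ rho Q z * rho Q (h.evO g) = rho Q (h.evO f) := by
  obtain ⟨f, g, hg, hz⟩ := h.rat z z.2
  refine ⟨f, g, hg, ?_⟩
  rw [← map_mul, rho_eq Q hA, h.coe_evO]
  change O.valuation ((z : k) * ((h.evO g : O) : k) - _) < 1
  rw [h.coe_evO]; exact hz

theorem Core.two_trans [IsGalois k C] [IsAlgClosed C] (h : Core OΛ O s)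
    (hchar : ∀ n : ℕ, n ≠ 0 → O.valuation (n : k) = 1) (hA : Above Q) {d : ℕ} (hd : 3 ≤ d)
    {a : Fin (d + 1) → k} (ha : ∀ l, O.valuation (a l - tgt d s (l : ℕ)) < 1)
    {θ : Fin d → C} (hθ : Function.Injective θ)
    (hroot : ∀ i, ∑ l, algebraMap k C (a l) * θ i ^ (l : ℕ) = 0) :
    (∀ i j, i ≠ j → (locW Q).valuation (θ i - θ j) = 1) ∧
    (∀ i, (locW Q).valuation (θ i) ≤ 1) ∧
    ∀ i j i' j', i ≠ j → i' ≠ j' →
      ∃ σ : C ≃ₐ[k] C, InD Q σ ∧ σ (θ i) = θ i' ∧ σ (θ j) = θ j' := by
  classical
  have hQm : Q.IsMaximal := above_isMaximal hA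
  let _ : Field (integralClosure O C ⧸ Q) := Ideal.Quotient.field Q
  have hac : IsAlgClosed (integralClosure O C ⧸ Q) := isAlgClosed_quotient
  let _ : Algebra (ResidueField OΛ) (integralClosure O C ⧸ Q) := (h.resL Q hA).toAlgebra
  set s' : O := ⟨s, h.mem⟩ with hs'
  -- the coefficients are integral
  have htgt : ∀ l : ℕ, tgt d s l ∈ O := by
    intro l
    rw [tgt]
    split_ifs
    · exact O.one_mem
    · exact O.neg_mem _ O.one_mem
    · exact O.neg_mem _ h.mem
    · exact O.zero_mem
  have haO : ∀ l, a l ∈ O := by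
    intro l
    have h1 : a l - tgt d s (l : ℕ) ∈ O := (O.valuation_le_one_iff _).1 (ha l).le
    have h2 := O.add_mem _ _ h1 (htgt l)
    rwa [sub_add_cancel] at h2
  let f : O[X] := ∑ l : Fin (d + 1), Polynomial.C ⟨a l, haO l⟩ * X ^ (l : ℕ)
  have hcoef : ∀ l : Fin (d + 1), f.coeff l = ⟨a l, haO l⟩ := by
    intro l
    rw [finsetSum_coeff, Finset.sum_eq_single l]
    · rw [coeff_C_mul_X_pow, if_pos rfl]
    · intro m _ hm
      rw [coeff_C_mul_X_pow, if_neg]
      intro h
      exact hm (Fin.ext h.symm)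
    · intro h; exact absurd (Finset.mem_univ _) h
  have hfdeg : f.natDegree ≤ d := by
    refine natDegree_sum_le_of_forall_le _ _ fun l _ => ?_
    exact (natDegree_C_mul_X_pow_le _ _).trans (Nat.lt_succ_iff.1 l.2)
  have halast : O.valuation (a (Fin.last d)) = 1 := by
    have h1 := ha (Fin.last d)
    rw [tgt, if_pos (Fin.val_last d)] at h1
    have h2 := Valuation.map_add_eq_of_lt_right O.valuation (x := a (Fin.last d) - 1) (y := 1)
      (by rw [map_one]; exact h1)
    rw [sub_add_cancel, map_one] at h2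
    exact h2
  have halast0 : a (Fin.last d) ≠ 0 := by
    intro h0
    rw [h0, map_zero] at halast
    exact zero_ne_one halast
  have hfd : f.natDegree = d := by
    refine le_antisymm hfdeg (le_natDegree_of_ne_zero ?_)
    have h1 := hcoef (Fin.last d)
    rw [Fin.val_last] at h1
    rw [h1]
    intro h0
    exact halast0 (congrArg Subtype.val h0)
  have hlead : O.valuation (f.leadingCoeff : k) = 1 := by
    have h1 := hcoef (Fin.last d)
    rw [Fin.val_last] at h1
    rw [leadingCoeff, hfd, h1]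
    exact halast
  have haev : ∀ z : C, aeval z f = ∑ l, algebraMap k C (a l) * z ^ (l : ℕ) := by
    intro z
    rw [map_sum]
    refine Finset.sum_congr rfl fun l _ => ?_
    rw [map_mul, aeval_C, map_pow, aeval_X]; rfl
  have hint : ∀ i, IsIntegral O (θ i) := fun i => integral_root hlead (by rw [haev]; exact hroot i)
  let b : Fin d → integralClosure O C := fun i => ⟨θ i, hint i⟩
  have hb0 : ∀ i, eval₂ (algebraMap O (integralClosure O C)) (b i) f = 0 := by
    intro i
    apply Subtype.val_injective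
    have h2 : aeval (b i : C) f = ((aeval (b i) f : integralClosure O C) : C) :=
      aeval_algebraMap_apply C (b i) f
    have h3 : aeval (b i : C) f = 0 := by
      change aeval (θ i) f = 0
      rw [haev]; exact hroot i
    exact h2.symm.trans h3
  set x : Fin d → (integralClosure O C ⧸ Q) := fun i => Ideal.Quotient.mk Q (b i) with hx
  -- the reduction
  have hred : f.map (rho Q) = X ^ d - X ^ (d - 1) - Polynomial.C (rho Q s') := by
    ext m
    rw [coeff_map, coeff_sub, coeff_sub, coeff_X_pow, coeff_X_pow, coeff_C]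
    by_cases hm : m ≤ d
    · have h1 := hcoef ⟨m, Nat.lt_succ_iff.2 hm⟩
      rw [show f.coeff m = _ from h1]
      have h2 : rho Q (⟨a ⟨m, Nat.lt_succ_iff.2 hm⟩, haO _⟩ : O) = rho Q ⟨tgt d s m, htgt m⟩ := by
        rw [rho_eq Q hA]; exact ha ⟨m, Nat.lt_succ_iff.2 hm⟩
      rw [h2]
      by_cases h3 : m = d
      · have h4 : (⟨tgt d s m, htgt m⟩ : O) = 1 := Subtype.ext (by
          change tgt d s m = 1
          rw [tgt, if_pos h3])
        rw [h4, map_one, if_pos h3, if_neg (by omega), if_neg (by omega)]; ring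
      · by_cases h5 : m = d - 1
        · have h4 : (⟨tgt d s m, htgt m⟩ : O) = -1 := Subtype.ext (by
            change tgt d s m = -1
            rw [tgt, if_neg h3, if_pos h5])
          rw [h4, map_neg, map_one, if_neg h3, if_pos h5, if_neg (by omega)]; ring
        · by_cases h6 : m = 0
          · have h4 : (⟨tgt d s m, htgt m⟩ : O) = -s' := Subtype.ext (by
              change tgt d s m = -s
              rw [tgt, if_neg h3, if_neg h5, if_pos h6])
            rw [h4, map_neg, if_neg h3, if_neg h5, if_pos h6]; ring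
          · have h4 : (⟨tgt d s m, htgt m⟩ : O) = 0 := Subtype.ext (by
              change tgt d s m = 0
              rw [tgt, if_neg h3, if_neg h5, if_neg h6])
            rw [h4, map_zero, if_neg h3, if_neg h5, if_neg h6]; ring
    · rw [coeff_eq_zero_of_natDegree_lt (by omega), map_zero, if_neg (by omega), if_neg (by omega),
        if_neg (by omega)]
      ring
  have hxroot : ∀ i, x i ^ d - x i ^ (d - 1) = rho Q s' := by
    intro i
    have h1 : eval (x i) (f.map (rho Q)) = 0 := by
      rw [eval_map, rho, hx, ← hom_eval₂, hb0, map_zero]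
    rw [hred, eval_sub, eval_sub, eval_X_pow, eval_X_pow, eval_C, sub_eq_zero] at h1
    exact h1
  -- transcendence
  have htr : Transcendental (ResidueField OΛ) (rho Q s') := by
    rintro ⟨p, hp0, hp⟩
    obtain ⟨g, rfl⟩ := Polynomial.map_surjective (residue OΛ) (residue_surjective (R := OΛ)) p
    exact h.rho_evO_ne Q hA hp0 ((h.rho_evO Q hA g).trans hp)
  have hmemadj : ∀ z : O, rho Q z ∈ IntermediateField.adjoin (ResidueField OΛ) {rho Q s'} := by
    intro z
    obtain ⟨f, g, hg, hz⟩ := h.rho_rat Q hA z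
    have h1 : ∀ g : OΛ[X], rho Q (h.evO g) ∈ IntermediateField.adjoin (ResidueField OΛ) {rho Q s'} := by
      intro g
      rw [h.rho_evO Q hA]
      change aeval (rho Q s') (g.map (residue OΛ)) ∈ _
      exact IntermediateField.algebra_adjoin_le_adjoin _ _
        (aeval_mem_adjoin_singleton (ResidueField OΛ) (rho Q s'))
    have h2 : rho Q z = rho Q (h.evO f) / rho Q (h.evO g) := by
      rw [eq_div_iff (h.rho_evO_ne Q hA hg)]; exact hz
    rw [h2]
    exact div_mem (h1 f) (h1 g)
  have halg : ∀ y : integralClosure O C ⧸ Q,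
      IsAlgebraic (IntermediateField.adjoin (ResidueField OΛ) {rho Q s'}) y := by
    intro y
    obtain ⟨c, rfl⟩ := Ideal.Quotient.mk_surjective y
    obtain ⟨g, hg, hgc⟩ : IsIntegral O c := Algebra.IsIntegral.isIntegral c
    let ρ' : O →+* IntermediateField.adjoin (ResidueField OΛ) {rho Q s'} :=
      (rho Q).codRestrict _ hmemadj
    have h1 : (algebraMap (IntermediateField.adjoin (ResidueField OΛ) {rho Q s'})
      (integralClosure O C ⧸ Q)).comp ρ' = rho Q := rfl
    refine IsIntegral.isAlgebraic ⟨g.map ρ', hg.map _, ?_⟩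
    rw [eval₂_map, h1, rho, ← hom_eval₂, hgc, map_zero]
  -- the residues are different
  have hdne : ((d : ℕ) : integralClosure O C ⧸ Q) ≠ 0 := by
    have h1 : rho Q ((d : ℕ) : O) ≠ 0 := by
      rw [Ne, rho_eq_zero Q hA]
      have h2 := hchar d (by omega)
      have h3 : (((d : ℕ) : O) : k) = (d : k) := rfl
      rw [h3, h2]
      exact lt_irrefl _
    rwa [map_natCast] at h1
  have hxtr : ∀ i, Transcendental (ResidueField OΛ) (x i) := fun i =>
    transcendental_of_pow htr (hxroot i)
  have hxne : ∀ i j, i ≠ j → x i ≠ x j := by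
    intro i j hij hxij
    have hmem : b j - b i ∈ Q := by
      rw [← Ideal.Quotient.eq]; exact hxij.symm
    set fB := f.map (algebraMap O (integralClosure O C)) with hfB
    obtain ⟨e, he⟩ := fB.binomExpansion (b i) (b j - b i)
    have e1 : fB.eval (b i) = 0 := by rw [hfB, eval_map]; exact hb0 i
    have e2 : fB.eval (b j) = 0 := by rw [hfB, eval_map]; exact hb0 j
    rw [add_sub_cancel, e1, e2, zero_add] at he
    have h1 : (b j - b i) * (fB.derivative.eval (b i) + e * (b j - b i)) = 0 := by
      rw [eq_comm] at he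
      rw [← he]; ring
    have hbne : b j - b i ≠ 0 := by
      intro h0
      apply hij
      apply hθ
      exact (congrArg Subtype.val (sub_eq_zero.1 h0)).symm
    have h2 : fB.derivative.eval (b i) + e * (b j - b i) = 0 :=
      (mul_eq_zero.1 h1).resolve_left hbne
    have h3 : fB.derivative.eval (b i) ∈ Q := by
      rw [eq_neg_of_add_eq_zero_left h2]
      exact Q.neg_mem (Q.mul_mem_left _ hmem)
    have h4 : eval (x i) (derivative (f.map (rho Q))) = 0 := by
      rw [← Ideal.Quotient.eq_zero_iff_mem] at h3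
      rw [hfB, derivative_map, eval_map, hom_eval₂] at h3
      rw [derivative_map, eval_map]
      exact h3
    rw [hred, derivative_sub, derivative_sub, derivative_C, derivative_X_pow, derivative_X_pow,
      sub_zero, eval_sub, eval_mul, eval_mul, eval_C, eval_C, eval_X_pow, eval_X_pow] at h4
    have h5 : x i ^ (d - 1 - 1) * ((d : integralClosure O C ⧸ Q) * x i - ((d - 1 : ℕ) :
        integralClosure O C ⧸ Q)) = 0 := by
      have h6 : x i ^ (d - 1) = x i ^ (d - 1 - 1) * x i := by
        rw [← pow_succ]; congr 1; omega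
      rw [h6] at h4
      linear_combination h4
    rcases mul_eq_zero.1 h5 with h6 | h6
    · have h7 : x i = 0 := (pow_eq_zero_iff (by omega)).1 h6
      exact hxtr i (by rw [h7]; exact isAlgebraic_zero)
    · have h7 : x i = ((d - 1 : ℕ) : integralClosure O C ⧸ Q) / (d : integralClosure O C ⧸ Q) := by
        rw [eq_div_iff hdne]
        linear_combination h6
      apply hxtr i
      have h8 : x i = algebraMap (ResidueField OΛ) (integralClosure O C ⧸ Q)
          (((d - 1 : ℕ) : ResidueField OΛ) / ((d : ℕ) : ResidueField OΛ)) := by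
        rw [map_div₀, map_natCast, map_natCast]; exact h7
      rw [h8]
      exact isAlgebraic_algebraMap _
  have hdiff : ∀ i j, i ≠ j → (locW Q).valuation (θ i - θ j) = 1 := by
    intro i j hij
    have h1 : (locW Q).valuation (θ i - θ j) ≤ 1 :=
      ((locW Q).valuation_le_one_iff _).2 (coe_mem_locW Q (b i - b j))
    refine le_antisymm h1 ?_
    by_contra hcon
    rw [not_le] at hcon
    have h2 : b i - b j ∈ Q := (val_coe_lt_one_iff Q (b i - b j)).1 hcon
    rw [← Ideal.Quotient.eq] at h2
    exact hxne i j hij h2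
  refine ⟨hdiff, fun i => ((locW Q).valuation_le_one_iff _).2 (coe_mem_locW Q (b i)), ?_⟩
  intro i j i' j' hij hij'
  obtain ⟨φ, hφc, hφi, hφj, hφp⟩ := double_trans htr halg (by omega : 2 ≤ d) (hxroot i) (hxroot j)
    (hxroot i') (hxroot j') (hxne i j hij) (hxne i' j' hij')
  have hφg : ∀ g : OΛ[X], φ (rho Q (h.evO g)) = rho Q (h.evO g) := by
    intro g
    rw [h.rho_evO Q hA]
    exact hφp _
  have hφO : ∀ z : O, φ (rho Q z) = rho Q z := by
    intro z
    obtain ⟨f, g, hg, hz⟩ := h.rho_rat Q hA z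
    have h1 : φ (rho Q z) * rho Q (h.evO g) = rho Q z * rho Q (h.evO g) := by
      rw [hz, ← hφg f, ← hz, map_mul, hφg g]
    exact mul_right_cancel₀ (h.rho_evO_ne Q hA hg) h1
  obtain ⟨σ, -, hσD, hσ⟩ := exists_lift (⊤ : Subgroup (C ≃ₐ[k] C)) isClosed_univ Q φ (by
    intro c hc
    have h1 : ∀ g : C ≃ₐ[k] C, g (c : C) = c := fun g =>
      congrArg Subtype.val (hc g (Subgroup.mem_top g))
    obtain ⟨e, he⟩ := (InfiniteGalois.mem_range_algebraMap_iff_fixed (k := k) (c : C)).2 h1
    have heO : e ∈ O := by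
      have h2 : IsIntegral O (algebraMap k C e) := by rw [he]; exact c.2
      have h3 : IsIntegral O e := by
        rwa [isIntegral_algebraMap_iff (algebraMap k C).injective] at h2
      obtain ⟨c', hc'⟩ := IsIntegrallyClosed.algebraMap_eq_of_integral h3
      rw [← hc']; exact c'.2
    have h4 : c = algebraMap O (integralClosure O C) ⟨e, heO⟩ := Subtype.ext he.symm
    rw [h4]
    exact hφO _)
  have hσroot : ∀ i i', φ (x i) = x i' → σ (θ i) = θ i' := by
    intro i i' hii
    have h1 : ∑ l, algebraMap k C (a l) * (σ (θ i)) ^ (l : ℕ) = 0 := by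
      have h2 := congrArg σ (hroot i)
      rw [map_sum, map_zero] at h2
      rw [← h2]
      refine Finset.sum_congr rfl fun l _ => ?_
      rw [map_mul, map_pow, AlgEquiv.commutes]
    obtain ⟨m, hm⟩ := root_mem (a := fun l => algebraMap k C (a l))
      (by rw [Ne, map_eq_zero_iff _ (algebraMap k C).injective]; exact halast0) hθ hroot h1
    have h2 : Ideal.Quotient.mk Q (σ • b i) = x i' := (hσ (b i)).trans hii
    have h3 : σ • b i = b m := Subtype.ext hm
    rw [h3] at h2
    rw [hm]
    by_contra hne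
    exact hxne m i' (fun h => hne (by rw [h])) h2
  exact ⟨σ, hσD, hσroot i i' hφi, hσroot j j' hφj⟩

end

end Pool.Agent.Helper37.UL
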