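import Pool.Agent.Helper37.UL.E2
import Pool.Agent.Helper91.Section.Coeff

/-!
# Block E1
-/

universe u

namespace Pool.Agent.Helper37.UL

open Polynomial IsLocalRing Pool.Agent.Helper91.Sect

theorem isGalois_of_alg {C : Type u} [Field C] [IsAlgClosed C] [CharZero C] (k : Subfield C)
    (h : ∀ x : C, IsAlgebraic k x) : IsGalois k C := by
  have h1 : Algebra.IsAlgebraic k C := ⟨h⟩
  have h2 : IsAlgClosure k C := ⟨inferInstance, h1⟩
  exact IsAlgClosure.isGalois k C

section

variable {Λ k : Type u} [Field Λ] [Field k] [Algebra Λ k]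
  {OΛ : ValuationSubring Λ} {O : ValuationSubring k} {s : k}

theorem Core.ev_lt (h : Core OΛ O s) {g : OΛ[X]} (hg : g.map (residue OΛ) = 0) :
    O.valuation (ev OΛ s g) < 1 := by
  have h1 : ev OΛ s g = ∑ i ∈ Finset.range (g.natDegree + 1), algebraMap Λ k (g.coeff i) * s ^ i := by
    change eval₂ _ _ g = _
    rw [eval₂_eq_sum_range]; rfl
  rw [h1]
  refine Valuation.map_sum_lt' _ zero_lt_one fun i _ => ?_
  rw [map_mul, map_pow]
  have h2 : O.valuation s ≤ 1 := (O.valuation_le_one_iff _).2 h.mem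
  refine (mul_le_of_le_one_right' (pow_le_one' h2 i)).trans_lt (h.lt _ ?_)
  rw [← OΛ.valuation_lt_one_iff, ← residue_eq_zero_iff]
  have h3 := congrArg (fun p => p.coeff i) hg
  simpa using h3

theorem Core.val_natCast (h : Core OΛ O s) {n : ℕ} (hn : OΛ.valuation (n : Λ) = 1) :
    O.valuation (n : k) = 1 := by
  have h1 := h.gauss (Polynomial.C (n : OΛ)) (by
    rw [map_C, Ne, Polynomial.C_eq_zero, residue_eq_zero_iff, OΛ.valuation_lt_one_iff]
    have h2 : (((n : OΛ)) : Λ) = n := rfl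
    rw [h2, hn]
    exact lt_irrefl _)
  rw [ev_C] at h1
  have h2 : (((n : OΛ)) : Λ) = n := rfl
  rwa [h2, map_natCast] at h1

/-- the expected coefficient as a polynomial -/
noncomputable def tgtP (OΛ : ValuationSubring Λ) (d l : ℕ) : OΛ[X] :=
  if l = d then 1 else if l = d - 1 then -1 else if l = 0 then -X else 0

theorem ev_tgtP (OΛ : ValuationSubring Λ) (d l : ℕ) : ev OΛ s (tgtP OΛ d l) = tgt d s l := by
  rw [tgtP, tgt]
  split_ifs
  · rw [map_one]
  · rw [map_neg, map_one]
  · rw [map_neg, ev_X]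
  · rw [map_zero]

end

/-- **Block E1.** -/
theorem two_trans' {C : Type u} [Field C] [IsAlgClosed C] [CharZero C] {Λ : Subfield C}
    {t : C} (ht : Transcendental Λ t) {d : ℕ} (hd : 3 ≤ d)
    (hC : ∀ x : C, IsAlgebraic (Subfield.closure (Λ ∪ {t})) x)
    (c : Fin (d + 1) → Λ[X]) (W : ValuationSubring C)
    (hW : ∀ n : ℕ, n ≠ 0 → W.valuation (n : C) = 1)
    (hc : ∀ i r, ((c i).coeff r : C) ∈ W)
    (hlast : ∀ r, W.valuation (((c (Fin.last d)).coeff r : C) - if r = 0 then 1 else 0) < 1)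
    (hprev : ∀ i : Fin (d + 1), (i : ℕ) = d - 1 → ∀ r,
      W.valuation (((c i).coeff r : C) + if r = 0 then 1 else 0) < 1)
    (hzero : ∀ r, W.valuation (((c 0).coeff r : C) + if r = 1 then 1 else 0) < 1)
    (hrest : ∀ i : Fin (d + 1), (i : ℕ) ≠ d → (i : ℕ) ≠ d - 1 → (i : ℕ) ≠ 0 → ∀ r,
      W.valuation ((c i).coeff r : C) < 1)
    {θ : Fin d → C} (hθ : Function.Injective θ)
    (hroot : ∀ i, ∑ l, aeval t (c l) * θ i ^ (l : ℕ) = 0)
    {i j i' j' : Fin d} (hij : i ≠ j) (hij' : i' ≠ j') :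
    ∃ σ : C ≃+* C, (∀ x ∈ Λ, σ x = x) ∧ σ t = t ∧ σ (θ i) = θ i' ∧ σ (θ j) = θ j' := by
  classical
  set k : Subfield C := Subfield.closure (Λ ∪ {t}) with hk
  have hΛk : Λ ≤ k := fun x hx => Subfield.subset_closure (Or.inl hx)
  have htk : t ∈ k := Subfield.subset_closure (Or.inr rfl)
  let _ : Algebra Λ k := (Subfield.inclusion hΛk).toAlgebra
  have hsc : IsScalarTower Λ k C := IsScalarTower.of_algebraMap_eq fun x => rfl
  have hgal : IsGalois k C := isGalois_of_alg k hC
  set OΛ : ValuationSubring Λ := W.comap (algebraMap Λ C) with hOΛ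
  obtain ⟨O, hcore⟩ := exists_core_one k ht (fun x hx => hx) htk OΛ
  obtain ⟨Q, hQ, hA⟩ := exists_above (k := k) (C := C) (O := O)
  -- lift the coefficients
  have hlift : ∀ l, ∃ g : OΛ[X], g.map OΛ.subtype = c l := by
    intro l
    have h1 : c l ∈ lifts OΛ.subtype := by
      rw [lifts_iff_coeff_lifts]
      intro n
      exact ⟨⟨(c l).coeff n, hc l n⟩, rfl⟩
    rwa [mem_lifts] at h1
  choose g hg using hlift
  have hcoe : ∀ z : k, algebraMap k C z = z := fun z => rfl
  have hmapev : ∀ p : OΛ[X], algebraMap k C (ev OΛ ⟨t, htk⟩ p) = aeval t (p.map OΛ.subtype) := by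
    intro p
    rw [algebraMap_ev, ev_eq_aeval]; rfl
  have hres : ∀ l : Fin (d + 1), (g l - tgtP OΛ d (l : ℕ)).map (residue OΛ) = 0 := by
    intro l
    ext r
    rw [coeff_map, coeff_zero, residue_eq_zero_iff, OΛ.valuation_lt_one_iff, comap_lt_one]
    have h1 : ((g l).coeff r : Λ) = (c l).coeff r := by rw [← hg l, coeff_map]; rfl
    rw [coeff_sub]
    change W.valuation (((((g l).coeff r : OΛ) : Λ) : C) - (((tgtP OΛ d l).coeff r : OΛ) : Λ)) < 1
    rw [h1, tgtP]
    by_cases h2 : (l : ℕ) = d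
    · have h3 : l = Fin.last d := Fin.ext h2
      rw [if_pos h2, h3, coeff_one]
      have h4 := hlast r
      by_cases hr : r = 0
      · rw [if_pos hr] at h4 ⊢; exact h4
      · rw [if_neg hr] at h4; rw [if_neg (Ne.symm (Ne.symm hr))]; exact h4
    · by_cases h3 : (l : ℕ) = d - 1
      · rw [if_neg h2, if_pos h3, coeff_neg, coeff_one]
        have h4 := hprev l h3 r
        by_cases hr : r = 0
        · rw [if_pos hr] at h4 ⊢
          have h5 : ((((-1 : OΛ)) : Λ) : C) = -1 := by push_cast; rfl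
          rw [h5, sub_neg_eq_add]; exact h4
        · rw [if_neg hr] at h4 ⊢
          have h5 : ((((-0 : OΛ)) : Λ) : C) = 0 := by rw [neg_zero]; rfl
          rw [h5, sub_zero]; rwa [add_zero] at h4
      · by_cases h4 : (l : ℕ) = 0
        · rw [if_neg h2, if_neg h3, if_pos h4, coeff_neg, coeff_X]
          have h5 : l = 0 := Fin.ext h4
          have h6 := hzero r
          rw [h5]
          by_cases hr : r = 1
          · rw [if_pos hr] at h6
            rw [if_pos hr.symm]
            have h7 : ((((-1 : OΛ)) : Λ) : C) = -1 := by push_cast; rfl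
            rw [h7, sub_neg_eq_add]; exact h6
          · rw [if_neg hr] at h6
            rw [if_neg (Ne.symm hr)]
            have h7 : ((((-0 : OΛ)) : Λ) : C) = 0 := by rw [neg_zero]; rfl
            rw [h7, sub_zero]; rwa [add_zero] at h6
        · rw [if_neg h2, if_neg h3, if_neg h4, coeff_zero]
          have h5 : ((((0 : OΛ)) : Λ) : C) = 0 := rfl
          rw [h5, sub_zero]
          exact hrest l h2 h3 h4 r
  let a : Fin (d + 1) → k := fun l => ev OΛ ⟨t, htk⟩ (g l)
  have haC : ∀ l, algebraMap k C (a l) = aeval t (c l) := by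
    intro l
    rw [hmapev, hg]
  have ha : ∀ l, O.valuation (a l - tgt d ⟨t, htk⟩ (l : ℕ)) < 1 := by
    intro l
    rw [← ev_tgtP OΛ, ← map_sub]
    exact hcore.ev_lt (hres l)
  obtain ⟨-, -, h3⟩ := hcore.two_trans Q (fun n hn => hcore.val_natCast (by
    rw [comap_eq_one, map_natCast]; exact hW n hn)) hA hd ha hθ (fun i => by
      rw [← hroot i]
      exact Finset.sum_congr rfl fun l _ => by rw [haC])
  obtain ⟨σ, -, h4, h5⟩ := h3 i j i' j' hij hij'
  refine ⟨σ.toRingEquiv, fun x hx => σ.commutes ⟨x, hΛk hx⟩, σ.commutes ⟨t, htk⟩, h4, h5⟩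

end Pool.Agent.Helper37.UL
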