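import Pool.Agent.Helper37.UL.E3

/-!
# The composite valuation ring: `v` is infinitesimal with respect to `OΛ`
-/

universe u

namespace Pool.Agent.Helper37.UL

open Polynomial IsLocalRing Pool.Agent.Helper91.Sect

section

variable {Λ C : Type u} [Field Λ] [Field C] [Algebra Λ C] (OΛ : ValuationSubring Λ)

/-- evaluation at `(s, v)`; `v` is the outer variable -/
noncomputable def ev2 (s v : C) : OΛ[X][X] →+* C := eval₂RingHom (ev OΛ s) v

theorem ev2_C (s v : C) (g : OΛ[X]) : ev2 OΛ s v (Polynomial.C g) = ev OΛ s g := by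
  change eval₂ _ _ (Polynomial.C g) = _
  rw [eval₂_C]

theorem ev2_X (s v : C) : ev2 OΛ s v X = v := by
  change eval₂ _ _ X = _
  rw [eval₂_X]

/-- `v` is infinitesimal and `s` is residually transcendental -/
structure Two (V : ValuationSubring C) (s v : C) : Prop where
  mem : ∀ g : OΛ[X], ev OΛ s g ∈ V
  unit : ∀ g : OΛ[X], g.map (residue OΛ) ≠ 0 → V.valuation (ev OΛ s g) = 1
  lt : ∀ c, OΛ.valuation c < 1 → ∀ n : ℕ, V.valuation (algebraMap Λ C c) < V.valuation v ^ n
  v_lt : V.valuation v < 1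
  v_ne : v ≠ 0

/-- reduction of the coefficients -/
noncomputable def pii : OΛ[X][X] →+* (ResidueField OΛ)[X][X] := mapRingHom (mapRingHom (residue OΛ))

theorem pii_C (g : OΛ[X]) : pii OΛ (Polynomial.C g) = Polynomial.C (g.map (residue OΛ)) := by
  change Polynomial.map _ (Polynomial.C g) = _
  rw [map_C]; rfl

theorem pii_X : pii OΛ X = X := by
  change Polynomial.map _ X = _
  rw [map_X]

/-- order of vanishing at least `m` along `v = 0` on the residues -/
def PP (s v : C) (m : ℕ) (z : C) : Prop :=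
  ∃ (n : ℕ) (g : OΛ[X]) (F : OΛ[X][X]), g.map (residue OΛ) ≠ 0 ∧ X ^ (n + m) ∣ pii OΛ F ∧
    z * (ev OΛ s g * v ^ n) = ev2 OΛ s v F

theorem PP.mul {s v : C} {m m' : ℕ} {z z' : C} (h : PP OΛ s v m z) (h' : PP OΛ s v m' z') :
    PP OΛ s v (m + m') (z * z') := by
  obtain ⟨n, g, F, hg, hF, e⟩ := h
  obtain ⟨n', g', F', hg', hF', e'⟩ := h'
  refine ⟨n + n', g * g', F * F', ?_, ?_, ?_⟩
  · rw [Polynomial.map_mul]; exact mul_ne_zero hg hg'
  · rw [map_mul, show n + n' + (m + m') = (n + m) + (n' + m') by ring, pow_add]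
    exact mul_dvd_mul hF hF'
  · rw [map_mul, map_mul, ← e, ← e', pow_add]; ring

theorem PP.add {s v : C} {m : ℕ} {z z' : C} (h : PP OΛ s v m z) (h' : PP OΛ s v m z') :
    PP OΛ s v m (z + z') := by
  obtain ⟨n, g, F, hg, hF, e⟩ := h
  obtain ⟨n', g', F', hg', hF', e'⟩ := h'
  refine ⟨n + n', g * g', F * (Polynomial.C g' * X ^ n') + F' * (Polynomial.C g * X ^ n), ?_, ?_, ?_⟩
  · rw [Polynomial.map_mul]; exact mul_ne_zero hg hg'
  · rw [map_add, map_mul, map_mul, map_mul, map_mul, map_pow, map_pow, pii_X]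
    refine dvd_add ?_ ?_
    · rw [show n + n' + m = (n + m) + n' by ring, pow_add]
      exact mul_dvd_mul hF (Dvd.intro_left _ rfl)
    · rw [show n + n' + m = (n' + m) + n by ring, pow_add]
      exact mul_dvd_mul hF' (Dvd.intro_left _ rfl)
  · rw [map_mul, map_add, map_mul, map_mul, map_mul, map_mul, map_pow, map_pow, ev2_X, ev2_C, ev2_C,
      ← e, ← e', pow_add]
    ring

theorem PP.zero (s v : C) (m : ℕ) : PP OΛ s v m 0 :=
  ⟨0, 1, 0, by rw [Polynomial.map_one]; exact one_ne_zero, by rw [map_zero]; exact dvd_zero _,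
    by rw [zero_mul, map_zero]⟩

theorem PP.of_ev (s v : C) (g : OΛ[X]) : PP OΛ s v 0 (ev OΛ s g) :=
  ⟨0, 1, Polynomial.C g, by rw [Polynomial.map_one]; exact one_ne_zero,
    by rw [Nat.add_zero, pow_zero]; exact one_dvd _,
    by rw [map_one, pow_zero, one_mul, mul_one, ev2_C]⟩

theorem PP.neg {s v : C} {m : ℕ} {z : C} (h : PP OΛ s v m z) : PP OΛ s v m (-z) := by
  have h1 := PP.mul OΛ (PP.of_ev OΛ s v (-1)) h
  rwa [map_neg, map_one, neg_one_mul, Nat.zero_add] at h1

/-- the subring -/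
def AA (s v : C) : Subring C where
  carrier := {z | PP OΛ s v 0 z}
  mul_mem' {a b} h h' := by
    have h1 : PP OΛ s v (0 + 0) (a * b) := PP.mul OΛ h h'
    exact h1
  one_mem' := by
    have h := PP.of_ev OΛ s v 1
    rwa [map_one] at h
  add_mem' h h' := PP.add OΛ h h'
  zero_mem' := PP.zero OΛ s v 0
  neg_mem' h := PP.neg OΛ h

/-- the ideal -/
def II (s v : C) : Ideal (AA OΛ s v) where
  carrier := {z | PP OΛ s v 1 (z : C)}
  add_mem' h h' := PP.add OΛ h h'
  zero_mem' := PP.zero OΛ s v 1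
  smul_mem' := by
    rintro ⟨c, hc⟩ z hz
    have h := PP.mul OΛ (m := 0) (m' := 1) hc hz
    rwa [Nat.zero_add] at h

theorem exists_two {s v : C} (hinj : Function.Injective (ev2 OΛ s v)) :
    ∃ V : ValuationSubring C, Two OΛ V s v := by
  have hv0 : v ≠ 0 := by
    intro h0
    have h1 : ev2 OΛ s v X = ev2 OΛ s v 0 := by rw [ev2_X, map_zero, h0]
    exact X_ne_zero (hinj h1)
  have hne : II OΛ s v ≠ ⊤ := by
    intro h0
    rw [Ideal.eq_top_iff_one] at h0
    obtain ⟨n, g, F, hg, hF, e⟩ := h0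
    rw [Subring.coe_one, one_mul] at e
    have h1 : ev2 OΛ s v (Polynomial.C g * X ^ n) = ev2 OΛ s v F := by
      rw [map_mul, map_pow, ev2_C, ev2_X, e]
    rw [← hinj h1, map_mul, map_pow, pii_X, pii_C, pow_add, pow_one, mul_comm (X ^ n),
      mul_comm (Polynomial.C _)] at hF
    have h2 : (X : (ResidueField OΛ)[X][X]) ∣ Polynomial.C (g.map (residue OΛ)) := by
      have h3 : (X : (ResidueField OΛ)[X][X]) ^ n ≠ 0 := pow_ne_zero _ X_ne_zero
      rw [mul_comm X] at hF
      exact (mul_dvd_mul_iff_left h3).1 hF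
    rw [X_dvd_iff, coeff_C_zero] at h2
    exact hg h2
  obtain ⟨V, h1, h2⟩ := Ideal.image_subset_nonunits_valuationSubring _ hne
  have hlt : ∀ z, PP OΛ s v 1 z → PP OΛ s v 0 z → V.valuation z < 1 := by
    intro z hz hz'
    rw [← V.mem_nonunits_iff]
    exact h2 ⟨⟨z, hz'⟩, hz, rfl⟩
  have hlt' : ∀ z, PP OΛ s v 1 z → V.valuation z < 1 := by
    intro z hz
    refine hlt z hz ?_
    obtain ⟨n, g, F, hg, hF, e⟩ := hz
    refine ⟨n, g, F, hg, ?_, e⟩
    exact (pow_dvd_pow X (by omega)).trans hF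
  refine ⟨V, fun g => h1 (PP.of_ev OΛ s v g), fun g hg => ?_, fun c hc n => ?_, ?_, hv0⟩
  · have hp0 : ev OΛ s g ≠ 0 := by
      intro h0
      have h3 : ev2 OΛ s v (Polynomial.C g) = ev2 OΛ s v 0 := by rw [ev2_C, map_zero, h0]
      have h4 := hinj h3
      rw [Polynomial.C_eq_zero] at h4
      exact hg (by rw [h4, Polynomial.map_zero])
    have h3 : (ev OΛ s g)⁻¹ ∈ AA OΛ s v :=
      ⟨0, g, 1, hg, by rw [Nat.add_zero, pow_zero]; exact one_dvd _,
        by rw [pow_zero, mul_one, inv_mul_cancel₀ hp0, map_one]⟩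
    apply le_antisymm
    · rw [V.valuation_le_one_iff]; exact h1 (PP.of_ev OΛ s v g)
    · have h4 : V.valuation (ev OΛ s g)⁻¹ ≤ 1 := by
        rw [V.valuation_le_one_iff]; exact h1 h3
      rw [map_inv₀] at h4
      have h5 : 0 < V.valuation (ev OΛ s g) := by
        rw [zero_lt_iff, Ne, Valuation.zero_iff]; exact hp0
      exact (inv_le_one₀ h5).1 h4
  · have hcO : c ∈ OΛ := (OΛ.valuation_le_one_iff _).1 hc.le
    have h3 : V.valuation (algebraMap Λ C c / v ^ n) < 1 := by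
      refine hlt' _ ⟨n, 1, Polynomial.C (Polynomial.C ⟨c, hcO⟩), ?_, ?_, ?_⟩
      · rw [Polynomial.map_one]; exact one_ne_zero
      · have h4 : residue OΛ ⟨c, hcO⟩ = 0 := by
          rw [residue_eq_zero_iff, OΛ.valuation_lt_one_iff]; exact hc
        rw [pii_C, map_C, h4, Polynomial.C_0, Polynomial.C_0]
        exact dvd_zero _
      · rw [map_one, one_mul, div_mul_cancel₀ _ (pow_ne_zero n hv0), ev2_C, ev_C]
    rw [map_div₀, map_pow] at h3
    have h5 : 0 < V.valuation v ^ n := by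
      rw [zero_lt_iff]
      exact pow_ne_zero n ((_root_.map_ne_zero V.valuation).2 hv0)
    exact (div_lt_one₀ h5).1 h3
  · refine hlt' v ⟨0, 1, X, ?_, ?_, ?_⟩
    · rw [Polynomial.map_one]; exact one_ne_zero
    · rw [pii_X, Nat.zero_add, pow_one]
    · rw [map_one, pow_zero, one_mul, mul_one, ev2_X]

variable {OΛ} {V : ValuationSubring C} {s v : C}

theorem Two.val_ne (h : Two OΛ V s v) : V.valuation v ≠ 0 := (_root_.map_ne_zero V.valuation).2 h.v_ne

theorem Two.val_unit (h : Two OΛ V s v) {c : Λ} (hc : OΛ.valuation c = 1) :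
    V.valuation (algebraMap Λ C c) = 1 := by
  have hcO : c ∈ OΛ := (OΛ.valuation_le_one_iff _).1 hc.le
  have h1 := h.unit (Polynomial.C ⟨c, hcO⟩) (by
    rw [map_C, Ne, Polynomial.C_eq_zero, residue_eq_zero_iff, OΛ.valuation_lt_one_iff]
    exact fun h2 => h2.ne hc)
  rwa [ev_C] at h1

theorem Two.pow_inj (h : Two OΛ V s v) {i j : ℕ} (he : V.valuation v ^ i = V.valuation v ^ j) :
    i = j := by
  have h0 : 0 < V.valuation v := zero_lt_iff.2 h.val_ne
  exact pow_right_injective₀ h0 h.v_lt.ne he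

theorem Two.eq_of (h : Two OΛ V s v) {c : Λ} (hc : c ≠ 0) {i j : ℕ}
    (he : V.valuation (algebraMap Λ C c) * V.valuation v ^ i = V.valuation v ^ j) :
    i = j ∧ OΛ.valuation c = 1 := by
  have key : ∀ {c : Λ} {i j : ℕ}, OΛ.valuation c < 1 →
      V.valuation (algebraMap Λ C c) * V.valuation v ^ i ≠ V.valuation v ^ j := by
    intro c i j hc he
    have h1 := h.lt c hc j
    have h2 : V.valuation (algebraMap Λ C c) * V.valuation v ^ i ≤ V.valuation (algebraMap Λ C c) :=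
      mul_le_of_le_one_right' (pow_le_one' h.v_lt.le i)
    rw [he] at h2
    exact absurd h1 (not_lt.2 h2)
  have hc0 : V.valuation (algebraMap Λ C c) ≠ 0 := by simpa using hc
  rcases lt_trichotomy (OΛ.valuation c) 1 with h1 | h1 | h1
  · exact absurd he (key h1)
  · refine ⟨?_, h1⟩
    rw [h.val_unit h1, one_mul] at he
    exact h.pow_inj he
  · exfalso
    have h2 : OΛ.valuation c⁻¹ < 1 := by
      rw [map_inv₀]; exact inv_lt_one_of_one_lt₀ h1
    refine key (i := j) (j := i) h2 ?_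
    rw [← he, map_inv₀, map_inv₀, ← mul_assoc, inv_mul_cancel₀ hc0, one_mul]

theorem Two.distinct (h : Two OΛ V s v) {c c' : Λ} (hc : c ≠ 0) (hc' : c' ≠ 0) {i j : ℕ}
    (he : V.valuation (algebraMap Λ C c * v ^ i) = V.valuation (algebraMap Λ C c' * v ^ j)) :
    i = j ∧ OΛ.valuation (c / c') = 1 := by
  refine h.eq_of (div_ne_zero hc hc') ?_
  have hc0 : V.valuation (algebraMap Λ C c') ≠ 0 := by simpa using hc'
  rw [map_mul, map_mul, map_pow, map_pow] at he
  rw [map_div₀, map_div₀, div_mul_eq_mul_div, he, mul_div_cancel_left₀ _ hc0]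

theorem Two.ev_le (h : Two OΛ V s v) (g : OΛ[X]) : V.valuation (ev OΛ s g) ≤ 1 :=
  (V.valuation_le_one_iff _).2 (h.mem g)

/-- the normal form of a polynomial -/
theorem Two.normal (h : Two OΛ V s v) {F : Λ[X][X]} (hF : F ≠ 0) :
    ∃ (c : Λ) (j : ℕ) (g : OΛ[X]) (ε : C), c ≠ 0 ∧ g.map (residue OΛ) ≠ 0 ∧ V.valuation ε < 1 ∧
      eval₂ ((aeval s : Λ[X] →ₐ[Λ] C) : Λ[X] →+* C) v F =
        algebraMap Λ C c * v ^ j * (ev OΛ s g + ε) := by
  classical
  have hex : ∀ j, ∃ (c : Λ) (g : OΛ[X]), F.coeff j ≠ 0 → c ≠ 0 ∧ g.map (residue OΛ) ≠ 0 ∧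
      F.coeff j = Polynomial.C c * g.map OΛ.subtype := by
    intro j
    by_cases hj : F.coeff j = 0
    · exact ⟨0, 0, fun h => absurd hj h⟩
    · obtain ⟨c, hc, g, hg, e⟩ := exists_content OΛ hj
      exact ⟨c, g, fun _ => ⟨hc, hg, e⟩⟩
  choose c g hcg using hex
  have hne : F.support.Nonempty := by rwa [nonempty_support_iff]
  obtain ⟨j, hj, hmax⟩ := F.support.exists_max_image
    (fun i => V.valuation (algebraMap Λ C (c i) * v ^ i)) hne
  have hj0 : F.coeff j ≠ 0 := by rwa [mem_support_iff] at hj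
  obtain ⟨hcj, hgj, -⟩ := hcg j hj0
  set m : C := algebraMap Λ C (c j) * v ^ j with hm
  have hm0 : m ≠ 0 := mul_ne_zero (by simpa using hcj) (pow_ne_zero _ h.v_ne)
  have hm0' : V.valuation m ≠ 0 := (_root_.map_ne_zero V.valuation).2 hm0
  refine ⟨c j, j, g j, ∑ i ∈ F.support.erase j, (algebraMap Λ C (c i) * v ^ i) / m * ev OΛ s (g i),
    hcj, hgj, ?_, ?_⟩
  · refine Valuation.map_sum_lt' _ zero_lt_one fun i hi => ?_
    rw [Finset.mem_erase] at hi
    have hi0 : F.coeff i ≠ 0 := by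
      have := hi.2
      rwa [mem_support_iff] at this
    obtain ⟨hci, hgi, -⟩ := hcg i hi0
    rw [map_mul, map_div₀]
    refine (mul_le_of_le_one_right' (h.ev_le _)).trans_lt ?_
    rw [div_lt_one₀ (zero_lt_iff.2 hm0')]
    refine lt_of_le_of_ne (hmax i hi.2) fun he => ?_
    exact hi.1 (h.distinct hci hcj he).1
  · rw [eval₂_eq_sum, Polynomial.sum_def, ← Finset.add_sum_erase _ _ hj, mul_add, Finset.mul_sum]
    have hterm : ∀ i ∈ F.support, ((aeval s : Λ[X] →ₐ[Λ] C) : Λ[X] →+* C) (F.coeff i) * v ^ i =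
        algebraMap Λ C (c i) * v ^ i * ev OΛ s (g i) := by
      intro i hi
      rw [mem_support_iff] at hi
      obtain ⟨-, -, e⟩ := hcg i hi
      have h1 : ((aeval s : Λ[X] →ₐ[Λ] C) : Λ[X] →+* C) (F.coeff i) =
          algebraMap Λ C (c i) * ev OΛ s (g i) := by
        rw [e]
        change aeval s _ = _
        rw [map_mul, aeval_C, ev_eq_aeval]
      rw [h1]; ring
    congr 1
    · exact hterm j hj
    · refine Finset.sum_congr rfl fun i hi => ?_
      rw [hterm i (Finset.mem_of_mem_erase hi), ← mul_assoc, mul_div_cancel₀ _ hm0]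

theorem Two.val_factor (h : Two OΛ V s v) {g : OΛ[X]} (hg : g.map (residue OΛ) ≠ 0) {ε : C}
    (hε : V.valuation ε < 1) : V.valuation (ev OΛ s g + ε) = 1 := by
  rw [Valuation.map_add_eq_of_lt_left _ (by rw [h.unit g hg]; exact hε), h.unit g hg]

end

end Pool.Agent.Helper37.UL
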