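import Pool.Agent.Helper37.UL.E4

/-!
# The composite valuation ring on `Λ(t, v)`
-/

universe u

namespace Pool.Agent.Helper37.UL

open Polynomial IsLocalRing Pool.Agent.Helper91.Sect

section

variable {C : Type u} [Field C] {Λ : Subfield C}

/-- evaluation of polynomials in two variables -/
noncomputable def evL (Λ : Subfield C) (s v : C) : Λ[X][X] →+* C :=
  eval₂RingHom ((aeval s : Λ[X] →ₐ[Λ] C) : Λ[X] →+* C) v

theorem evL_C (s v : C) (g : Λ[X]) : evL Λ s v (Polynomial.C g) = aeval s g := by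
  change eval₂ _ _ (Polynomial.C g) = _
  rw [eval₂_C]; rfl

theorem evL_X (s v : C) : evL Λ s v X = v := by
  change eval₂ _ _ X = _
  rw [eval₂_X]

theorem transcendental_div {t v : C} (h : AlgebraicIndependent Λ ![t, v]) :
    Transcendental (Algebra.adjoin Λ {v}) (t / v) := by
  have hv : Transcendental Λ v := h.transcendental 1
  have hv0 : v ≠ 0 := by
    rintro rfl
    exact hv isAlgebraic_zero
  have h1 := h.transcendental_adjoin (s := {1}) (i := 0) (by simp)
  have himg : ![t, v] '' {1} = {v} := by rw [Set.image_singleton]; rfl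
  rw [himg] at h1
  intro h2
  apply h1
  have h3 : t = t / v * algebraMap (Algebra.adjoin Λ {v}) C ⟨v, Algebra.subset_adjoin rfl⟩ := by
    change t = t / v * v
    rw [div_mul_cancel₀ _ hv0]
  have h4 : IsAlgebraic (Algebra.adjoin Λ {v}) t := by
    rw [h3]
    exact h2.mul (isAlgebraic_algebraMap _)
  exact h4

theorem transcendental_swap {s v : C} (hv : Transcendental Λ v)
    (hs : Transcendental (Algebra.adjoin Λ {v}) s) :
    Transcendental Λ s ∧ Transcendental (Algebra.adjoin Λ {s}) v := by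
  have h1 : AlgebraicIndependent Λ (fun _ : Unit => v) :=
    algebraicIndependent_unique_type_iff.2 hv
  have h2 : AlgebraicIndependent (Algebra.adjoin Λ (Set.range fun _ : Unit => v))
      (fun _ : Unit => s) := by
    rw [Set.range_const]
    exact algebraicIndependent_unique_type_iff.2 hs
  have h3 := h1.sumElim h2
  refine ⟨h3.transcendental (Sum.inl ()), ?_⟩
  have h4 := h3.transcendental_adjoin (s := {Sum.inl ()}) (i := Sum.inr ()) (by simp)
  have himg : (Sum.elim (fun _ : Unit => s) fun _ : Unit => v) '' {Sum.inl ()} = {s} := by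
    rw [Set.image_singleton]; rfl
  rw [himg] at h4
  exact h4

theorem evL_injective {s v : C} (hs : Transcendental Λ s)
    (hv : Transcendental (Algebra.adjoin Λ {s}) v) : Function.Injective (evL Λ s v) := by
  let ι : Λ[X] →+* Algebra.adjoin Λ {s} :=
    ((aeval (⟨s, Algebra.subset_adjoin rfl⟩ : Algebra.adjoin Λ {s}) :
      Λ[X] →ₐ[Λ] Algebra.adjoin Λ {s}) : Λ[X] →+* _)
  have hι : ∀ p, ((ι p : Algebra.adjoin Λ {s}) : C) = aeval s p := by
    intro p
    exact (aeval_algebraMap_apply C (⟨s, Algebra.subset_adjoin rfl⟩ : Algebra.adjoin Λ {s}) p).symm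
  have hinj : Function.Injective ι := by
    intro a b hab
    apply transcendental_iff_injective.1 hs
    rw [← hι, ← hι, hab]
  rw [injective_iff_map_eq_zero]
  intro F hF
  have h1 : aeval v (F.map ι) = 0 := by
    rw [aeval_def, eval₂_map]
    have h2 : (algebraMap (Algebra.adjoin Λ {s}) C).comp ι =
        ((aeval s : Λ[X] →ₐ[Λ] C) : Λ[X] →+* C) := RingHom.ext hι
    rw [h2]; exact hF
  have h2 : F.map ι = 0 := by
    apply transcendental_iff_injective.1 hv
    rw [h1, map_zero]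
  rwa [Polynomial.map_eq_zero_iff hinj] at h2

theorem ev2_eq (OΛ : ValuationSubring Λ) (s v : C) (F : OΛ[X][X]) :
    ev2 OΛ s v F = evL Λ s v (F.map (mapRingHom OΛ.subtype)) := by
  change eval₂ _ _ F = eval₂ _ _ _
  rw [eval₂_map]
  congr 1
  ext g
  · exact ev_C OΛ s g |>.trans (by
      change _ = aeval s ((Polynomial.C g).map OΛ.subtype)
      rw [map_C, aeval_C]; rfl)
  · exact ev_X OΛ s |>.trans (by
      change _ = aeval s ((X : OΛ[X]).map OΛ.subtype)
      rw [map_X, aeval_X])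

theorem ev2_injective (OΛ : ValuationSubring Λ) {s v : C} (h : Function.Injective (evL Λ s v)) :
    Function.Injective (ev2 OΛ s v) := by
  intro F G hFG
  rw [ev2_eq, ev2_eq] at hFG
  exact Polynomial.map_injective _ (Polynomial.map_injective _ Subtype.coe_injective) (h hFG)

variable {OΛ : ValuationSubring Λ} {V : ValuationSubring C} {s v : C}

/-- the normal form of an element of the field -/
theorem Two.form (h : Two OΛ V s v) {z : C} (hz : z ∈ Subfield.closure ((Λ : Set C) ∪ {s * v, v}))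
    (hz0 : z ≠ 0) :
    ∃ (c c' : Λ) (j j' : ℕ) (f g : OΛ[X]) (ε ε' : C), c ≠ 0 ∧ c' ≠ 0 ∧
      f.map (residue OΛ) ≠ 0 ∧ g.map (residue OΛ) ≠ 0 ∧ V.valuation ε < 1 ∧ V.valuation ε' < 1 ∧
      z * (algebraMap Λ C c' * v ^ j' * (ev OΛ s g + ε')) =
        algebraMap Λ C c * v ^ j * (ev OΛ s f + ε) := by
  obtain ⟨F, G, hG, hFG⟩ := exists_frac (evL Λ s v) (S := (Λ : Set C) ∪ {s * v, v}) (by
    rintro x (hx | hx | hx)
    · exact ⟨Polynomial.C (Polynomial.C ⟨x, hx⟩), by rw [evL_C, aeval_C]; rfl⟩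
    · exact ⟨Polynomial.C X * X, by rw [map_mul, evL_C, evL_X, aeval_X, hx]⟩
    · exact ⟨X, by rw [evL_X, Set.mem_singleton_iff.1 hx]⟩) hz
  have hG0 : G ≠ 0 := by rintro rfl; exact hG (map_zero _)
  have hF0 : F ≠ 0 := by
    rintro rfl
    rw [map_zero] at hFG
    exact mul_ne_zero hz0 hG hFG
  obtain ⟨c, j, f, ε, hc, hf, hε, e⟩ := h.normal hF0
  obtain ⟨c', j', g, ε', hc', hg, hε', e'⟩ := h.normal hG0
  refine ⟨c, c', j, j', f, g, ε, ε', hc, hc', hf, hg, hε, hε', ?_⟩
  rw [← e, ← e']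
  exact hFG

theorem Two.not_pow (h : Two OΛ V s v) {p : ℕ} (hp : p.Prime) {z : C}
    (hz : z ∈ Subfield.closure ((Λ : Set C) ∪ {s * v, v})) : V.valuation v ≠ V.valuation z ^ p := by
  intro he
  have hz0 : z ≠ 0 := by
    rintro rfl
    rw [map_zero, zero_pow hp.ne_zero] at he
    exact h.val_ne he
  obtain ⟨c, c', j, j', f, g, ε, ε', hc, hc', hf, hg, hε, hε', e⟩ := h.form hz hz0
  have h1 := congrArg V.valuation e
  rw [map_mul, map_mul, map_mul (V.valuation) (algebraMap Λ C c * v ^ j), h.val_factor hg hε',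
    h.val_factor hf hε, mul_one, mul_one] at h1
  have h2 : V.valuation (algebraMap Λ C (c' ^ p) * v ^ (j' * p + 1)) =
      V.valuation (algebraMap Λ C (c ^ p) * v ^ (j * p)) := by
    have h3 : algebraMap Λ C (c ^ p) * v ^ (j * p) = (algebraMap Λ C c * v ^ j) ^ p := by
      rw [map_pow, mul_pow, pow_mul]
    have h4 : algebraMap Λ C (c' ^ p) * v ^ (j' * p + 1) = v * (algebraMap Λ C c' * v ^ j') ^ p := by
      rw [map_pow, mul_pow, pow_succ, pow_mul]; ring
    rw [h3, h4, map_mul, map_pow, map_pow, ← h1, he, mul_pow]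
  have h3 := (h.distinct (pow_ne_zero p hc') (pow_ne_zero p hc) h2).1
  have h4 : p ∣ 1 := (Nat.dvd_add_right (Dvd.intro_left j' rfl)).1 (h3 ▸ Dvd.intro_left j rfl)
  exact hp.one_lt.ne' (Nat.dvd_one.1 h4)

theorem Two.rat (h : Two OΛ V s v) {z : C}
    (hz : z ∈ Subfield.closure ((Λ : Set C) ∪ {s * v, v})) (hle : V.valuation z ≤ 1) :
    ∃ f g : OΛ[X], g.map (residue OΛ) ≠ 0 ∧ V.valuation (z * ev OΛ s g - ev OΛ s f) < 1 := by
  by_cases hlt : V.valuation z < 1
  · refine ⟨0, 1, ?_, ?_⟩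
    · rw [Polynomial.map_one]; exact one_ne_zero
    · rw [map_one, map_zero, mul_one, sub_zero]; exact hlt
  have h1 : V.valuation z = 1 := le_antisymm hle (not_lt.1 hlt)
  have hz0 : z ≠ 0 := by
    rintro rfl
    rw [map_zero] at h1
    exact zero_ne_one h1
  obtain ⟨c, c', j, j', f, g, ε, ε', hc, hc', hf, hg, hε, hε', e⟩ := h.form hz hz0
  have h2 := congrArg V.valuation e
  rw [map_mul, map_mul, map_mul (V.valuation) (algebraMap Λ C c * v ^ j), h.val_factor hg hε',
    h.val_factor hf hε, mul_one, mul_one, h1, one_mul] at h2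
  obtain ⟨hj, hm⟩ := h.distinct hc hc' h2.symm
  have hmO : c / c' ∈ OΛ := (OΛ.valuation_le_one_iff _).1 hm.le
  refine ⟨Polynomial.C ⟨c / c', hmO⟩ * f, g, hg, ?_⟩
  have hc'C : algebraMap Λ C c' ≠ 0 := by simpa using hc'
  have hvj : v ^ j' ≠ 0 := pow_ne_zero _ h.v_ne
  have h3 : z * ev OΛ s g - algebraMap Λ C (c / c') * ev OΛ s f =
      algebraMap Λ C (c / c') * ε - z * ε' := by
    rw [hj] at e
    rw [map_div₀]
    have h4 : z * (algebraMap Λ C c' * (ev OΛ s g + ε')) = algebraMap Λ C c * (ev OΛ s f + ε) := by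
      apply mul_right_cancel₀ hvj
      linear_combination e
    have h5 : algebraMap Λ C c' * (z * ev OΛ s g - algebraMap Λ C c / algebraMap Λ C c' *
        ev OΛ s f) = algebraMap Λ C c' * (algebraMap Λ C c / algebraMap Λ C c' * ε -
        z * ε') := by
      rw [mul_sub, mul_sub, ← mul_assoc _ (_ / _), ← mul_assoc _ (_ / _), mul_div_cancel₀ _ hc'C]
      linear_combination h4
    exact mul_left_cancel₀ hc'C h5
  rw [map_mul, ev_C]
  change V.valuation (z * ev OΛ s g - algebraMap Λ C (c / c') * ev OΛ s f) < 1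
  rw [h3]
  refine (Valuation.map_sub _ _ _).trans_lt (max_lt ?_ ?_)
  · rw [map_mul, h.val_unit hm, one_mul]; exact hε
  · rw [map_mul, h1, one_mul]; exact hε'

end

/-- The composite valuation ring on `Λ(t, v)`, `s = t / v`. -/
theorem exists_core_two {C : Type u} [Field C] {Λ : Subfield C} (k : Subfield C)
    {t v : C} (htv : AlgebraicIndependent Λ ![t, v]) [Algebra Λ k] [IsScalarTower Λ k C]
    (hk : ∀ x ∈ k, x ∈ Subfield.closure ((Λ : Set C) ∪ {t, v})) (hsk : t / v ∈ k)
    (OΛ : ValuationSubring Λ) :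
    ∃ V : ValuationSubring C, Two OΛ V (t / v) v ∧
      Core OΛ (V.comap (algebraMap k C)) ⟨t / v, hsk⟩ ∧
      ∀ p : ℕ, p.Prime → ∀ z ∈ k, V.valuation v ≠ V.valuation z ^ p := by
  have hv : Transcendental Λ v := htv.transcendental 1
  obtain ⟨h1, h2⟩ := transcendental_swap hv (transcendental_div htv)
  obtain ⟨V, hV⟩ := exists_two OΛ (ev2_injective OΛ (evL_injective h1 h2))
  have hst : t / v * v = t := div_mul_cancel₀ _ hV.v_ne
  have hk' : ∀ x ∈ k, x ∈ Subfield.closure ((Λ : Set C) ∪ {t / v * v, v}) := by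
    rw [hst]; exact hk
  refine ⟨V, hV, core_of OΛ V _ (fun c hc => ?_) hV.mem hV.unit fun z hz => ?_,
    fun p hp z hz => hV.not_pow hp (hk' z hz)⟩
  · have h3 := hV.lt c hc 0
    rwa [pow_zero] at h3
  · exact hV.rat (hk' z z.2) hz

end Pool.Agent.Helper37.UL
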